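import Pool.Agent.STS.Coord
import Pool.Agent.SRGWL.WLGame

/-!
# Duplicator's strategy for the net graphs

The same strategy as for the Latin square graphs (`SRGWL/WLGame.lean`): on the elements with
`i`-component in `U` a local solution `C` on `U` gives an injective homomorphism `G.trans C`, so it
preserves the equality of the elements `y` and `x * y ^ i`.
-/

namespace Pool.Agent.STS

open Module Pool.Agent.SRGWL Pool.Agent.SRGWL.WLAux

namespace NetAux

variable {K I : Type*} [Field K] [AddCommGroup I] [Module K I] {z : ℕ}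
  {A : Tup K I z} {D : CoTup K I z}

theorem trans_one (C : CC A) : G.trans (D' := D) C.1 C.2 (1 : G A 0) = 1 := by
  ext1
  · rfl
  · apply Subtype.ext
    funext ζ
    show (((1 : G A 0).w : Wsp A) : Fin (z + 1) → Dual K I) ζ + C.1 ζ (1 : G A 0).i = 0
    simp
  · rfl

theorem pow_mem {U : Submodule K I} {x : G A D} (hx : x.i ∈ U) (n : ℕ) : (x ^ n).i ∈ U := by
  induction n with
  | zero => rw [pow_zero]; exact U.zero_mem
  | succ n ih => rw [pow_succ]; exact U.add_mem ih hx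

theorem trans_pow {C : CC A} {U : Submodule K I}
    (hloc : ∀ u ∈ U, ∀ v ∈ U, ∀ ζ, C.1 ζ u v - C.1 ζ v u = D ζ u v) (x : G A 0) (hx : x.i ∈ U)
    (n : ℕ) : G.trans (D' := D) C.1 C.2 (x ^ n) = G.trans C.1 C.2 x ^ n := by
  induction n with
  | zero => rw [pow_zero, pow_zero]; exact trans_one C
  | succ n ih =>
    rw [pow_succ, pow_succ, trans_mul C.2 hloc _ _ (pow_mem hx n) hx, ih]

theorem adj_iff {C : CC A} {U : Submodule K I}
    (hloc : ∀ u ∈ U, ∀ v ∈ U, ∀ ζ, C.1 ζ u v - C.1 ζ v u = D ζ u v) (q : ℕ) {u v : G A 0 × G A 0}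
    (hu : InU U u) (hv : InU U v) :
    (netGraph (G A 0) q).Adj u v ↔ (netGraph (G A D) q).Adj (T2 D C u) (T2 D C v) := by
  have hi := trans_injective (D := D) C
  have e1 : T2 D C u ≠ T2 D C v ↔ u ≠ v := (T2_injective C).ne_iff
  have e3 : (T2 D C u).2 = (T2 D C v).2 ↔ u.2 = v.2 := hi.eq_iff
  have e4 : ∀ n : ℕ, (T2 D C u).1 * (T2 D C u).2 ^ n = (T2 D C v).1 * (T2 D C v).2 ^ n ↔
      u.1 * u.2 ^ n = v.1 * v.2 ^ n := by
    intro n
    have h1 := trans_mul (D := D) C.2 hloc u.1 (u.2 ^ n) hu.1 (pow_mem hu.2 n)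
    have h2 := trans_mul (D := D) C.2 hloc v.1 (v.2 ^ n) hv.1 (pow_mem hv.2 n)
    show G.trans C.1 C.2 u.1 * G.trans C.1 C.2 u.2 ^ n =
      G.trans C.1 C.2 v.1 * G.trans C.1 C.2 v.2 ^ n ↔ _
    rw [← trans_pow hloc _ hu.2, ← trans_pow hloc _ hv.2, ← h1, ← h2]
    exact hi.eq_iff
  show (u ≠ v ∧ (u.2 = v.2 ∨ ∃ n : ℕ, n + 1 < q ∧ u.1 * u.2 ^ n = v.1 * v.2 ^ n)) ↔
    (T2 D C u ≠ T2 D C v ∧ ((T2 D C u).2 = (T2 D C v).2 ∨ ∃ n : ℕ, n + 1 < q ∧
      (T2 D C u).1 * (T2 D C u).2 ^ n = (T2 D C v).1 * (T2 D C v).2 ^ n))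
  simp only [e1, e3, e4]

variable [Finite K] [Finite I]

theorem col_eq {k : ℕ} (S : Sys A D k) (q : ℕ) {m : ℕ} (hm : 2 * m + 2 ≤ k) (r : ℕ) :
    ∀ (s : Fin m → G A 0 × G A 0) (U : Submodule K I), (∀ a, InU U (s a)) →
      ∀ C : CC A, C.1 ∈ S.sol U →
        col (netGraph (G A 0) q) m r s = col (netGraph (G A D) q) m r (fun a => T2 D C (s a)) := by
  classical
  induction r with
  | zero =>
    intro s U hs C hC
    have hloc := S.local_eq U C.1 hC
    refine Prod.ext ?_ ?_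
    · funext a b
      exact propext (T2_injective (D := D) C).eq_iff.symm
    · funext a b
      exact propext (adj_iff hloc q (hs a) (hs b))
  | succ r ih =>
    intro s U hs C hC
    set ι : Fin m → I × I := fun a => cp (s a) with hι
    have hU0 : sp K ι ≤ U := sp_le_of fun a => hs a
    have hC0 : C.1 ∈ S.sol (sp K ι) := S.mono _ _ hU0 hC
    have hext : ∀ p : I × I, ∃ C' : CC A, C'.1 ∈ S.sol (sp' K ι p) ∧
        ∀ u ∈ sp K ι, ∀ ζ, C'.1 ζ u = C.1 ζ u := by
      intro p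
      obtain ⟨C', h1, h2⟩ := S.ext (sp K ι) (sp' K ι p) (sp_le ι p)
        ((finrank_sp' ι p).trans hm) C.1 hC0
      exact ⟨⟨C', S.isC _ _ h1⟩, h1, h2⟩
    choose c hc1 hc2 using hext
    refine Prod.ext (ih s U hs C hC) ?_
    refine map_equiv (pairE D c) _ _ fun v => ?_
    funext a
    have hin : ∀ b, InU (sp' K ι (cp v)) (Function.update s a v b) := by
      intro b
      by_cases hb : b = a
      · rw [hb, Function.update_self]
        exact mem_sp' ι (cp v)
      · rw [Function.update_of_ne hb]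
        have h1 := mem_sp (K := K) ι b
        exact ⟨sp_le ι (cp v) h1.1, sp_le ι (cp v) h1.2⟩
    have h2 := ih (Function.update s a v) _ hin (c (cp v)) (hc1 (cp v))
    rw [h2]
    congr 1
    funext b
    by_cases hb : b = a
    · rw [hb, Function.update_self, Function.update_self]
      rfl
    · rw [Function.update_of_ne hb, Function.update_of_ne hb]
      exact T2_congr (hc2 (cp v)) (mem_sp (K := K) ι b)

end NetAux

open NetAux

variable {K I : Type*} [Field K] [AddCommGroup I] [Module K I] {z : ℕ}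

theorem net_wlEquiv_of_sys [Finite K] [Finite I] [Module.Finite K I] {A : Tup K I z}
    {D : CoTup K I z} {k : ℕ} (S : Sys A D k) (q : ℕ) {m : ℕ} (hm : 2 * m + 2 ≤ k) :
    WLEquiv m (netGraph (G A 0) q) (netGraph (G A D) q) := by
  intro r
  obtain ⟨C0, hC0⟩ := S.base
  have hex : ∀ ι : Fin m → I × I, ∃ C : CC A, C.1 ∈ S.sol (sp K ι) := by
    intro ι
    obtain ⟨C', h1, -⟩ := S.ext ⊥ (sp K ι) bot_le ((finrank_sp ι).trans (by omega)) C0 hC0
    exact ⟨⟨C', S.isC _ _ h1⟩, h1⟩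
  choose c hc using hex
  refine map_equiv (tupE D c) _ _ fun s => ?_
  exact NetAux.col_eq S q hm r s _ (fun a => mem_sp (K := K) (fun b => cp (s b)) a) _ (hc _)

end Pool.Agent.STS
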