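import Pool.Agent.STS.Coord

/-!
# Large subspaces are not isotropic
-/

namespace Pool.Agent.STS

variable {p : ℕ} [Fact p.Prime] {V : Type*} [AddCommGroup V] [Module (ZMod p) V]

/-- If the radical and the values of `β` lie in a subspace `Z` with `|Z|² p < |V|`, then `β` does not
vanish on a subspace of index `p`. -/
theorem hbig_of [Finite V] {β : V →ₗ[ZMod p] V →ₗ[ZMod p] V} (halt : ∀ x, β x x = 0)
    (Z : Submodule (ZMod p) V)
    (hrad : ∀ x, (∀ y, β x y = 0) → x ∈ Z) (hval : ∀ x y, β x y ∈ Z)
    (hlt : Nat.card Z ^ 2 * p < Nat.card V) (W : Submodule (ZMod p) V)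
    (hW : Nat.card W * p = Nat.card V) : ∃ x ∈ W, ∃ y ∈ W, β x y ≠ 0 := by
  by_contra hcon
  push Not at hcon
  have hp1 : 1 < p := (Fact.out : p.Prime).one_lt
  obtain ⟨g, hg⟩ : ∃ g, g ∉ W := by
    by_contra hall
    push Not at hall
    have h1 : W = ⊤ := eq_top_iff.mpr fun x _ => hall x
    have h2 : Nat.card W = Nat.card V := by
      rw [h1]
      exact Nat.card_congr Submodule.topEquiv.toEquiv
    have h3 : 0 < Nat.card V := Nat.card_pos
    nlinarith
  -- `V = W + ⟨g⟩`
  have hspan : ∀ y : V, ∃ c : ZMod p, y - c • g ∈ W := by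
    have hinj : Function.Injective (fun q : ZMod p × W => q.1 • g + (q.2 : V)) := by
      rintro ⟨c, w⟩ ⟨c', w'⟩ h
      have h1 : (c - c') • g ∈ W := by
        have h2 : (c - c') • g = (w' : V) - w := by
          have h3 : c • g + (w : V) = c' • g + w' := h
          rw [sub_smul, sub_eq_sub_iff_add_eq_add, h3]
          abel
        rw [h2]
        exact W.sub_mem w'.2 w.2
      have hcc : c = c' := by
        by_contra hne
        apply hg
        have h2 := W.smul_mem (c - c')⁻¹ h1
        rwa [smul_smul, inv_mul_cancel₀ (sub_ne_zero.mpr hne), one_smul] at h2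
      subst hcc
      have h3 : (w : V) = w' := add_left_cancel h
      rw [Subtype.ext h3]
    have hsurj := (hinj.bijective_of_nat_card_le (by
      rw [Nat.card_prod, Nat.card_zmod, mul_comm, hW])).2
    intro y
    obtain ⟨⟨c, w⟩, h⟩ := hsurj y
    refine ⟨c, ?_⟩
    have h1 : c • g + (w : V) = y := h
    rw [← h1, add_sub_cancel_left]
    exact w.2
  have hskew : ∀ x y, β x y = - β y x := by
    intro x y
    have h1 := halt (x + y)
    simp only [map_add, LinearMap.add_apply, halt, zero_add, add_zero] at h1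
    exact eq_neg_of_add_eq_zero_right h1
  let φ : W →ₗ[ZMod p] Z :=
    { toFun := fun w => ⟨β g w, hval _ _⟩
      map_add' := fun w w' => Subtype.ext (map_add _ _ _)
      map_smul' := fun c w => Subtype.ext (map_smul _ _ _) }
  have hker : ∀ w : W, φ w = 0 → (w : V) ∈ Z := by
    intro w hw
    apply hrad
    intro y
    obtain ⟨c, hc⟩ := hspan y
    have h1 : β g w = 0 := congrArg Subtype.val hw
    have h2 : β (w : V) (y - c • g) = 0 := hcon _ w.2 _ hc
    rw [map_sub, map_smul, hskew (w : V) g, h1, neg_zero, smul_zero, sub_zero] at h2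
    exact h2
  -- count: `w ↦ (φ w, w - w')` with `w'` a chosen preimage of `φ w`
  have hcard : Nat.card W ≤ Nat.card (Z × Z) := by
    classical
    let s : Z → W := fun z => if h : ∃ w, φ w = z then h.choose else 0
    have hs : ∀ w, φ (s (φ w)) = φ w := by
      intro w
      have h : ∃ w', φ w' = φ w := ⟨w, rfl⟩
      show φ (if h : ∃ w', φ w' = φ w then h.choose else 0) = φ w
      rw [dif_pos h]
      exact h.choose_spec
    refine Nat.card_le_card_of_injective
      (fun w : W => ((φ w, ⟨((w - s (φ w) : W) : V), hker _ (by rw [map_sub, hs, sub_self])⟩) :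
        Z × Z)) ?_
    intro w w' hww
    have h1 := congrArg Prod.fst hww
    have h2 := congrArg (fun q : Z × Z => (q.2 : V)) hww
    have h1' : φ w = φ w' := h1
    have h2' : ((w - s (φ w) : W) : V) = ((w' - s (φ w') : W) : V) := h2
    rw [h1'] at h2'
    have h3 := Subtype.ext h2'
    exact sub_left_injective h3
  rw [Nat.card_prod] at hcard
  rw [← hW] at hlt
  have : Nat.card W * p ≤ Nat.card Z ^ 2 * p := by
    rw [pow_two]
    exact Nat.mul_le_mul_right p hcard
  omega

end Pool.Agent.STS
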