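import Pool.Agent.STS.SRG

/-!
# Isomorphic block graphs come from isomorphic triple systems

A clique of the block graph with at least eight blocks has a common point.
-/

namespace Pool.Agent.STS

open Finset

variable {P : Type*} {B : Set (Finset P)}

theorem eq_of_two (hB : IsSTS B) {b c : Finset P} (hb : b ∈ B) (hc : c ∈ B) {p q : P} (hpq : p ≠ q)
    (h1 : p ∈ b) (h2 : q ∈ b) (h3 : p ∈ c) (h4 : q ∈ c) : b = c := by
  obtain ⟨d, -, hd⟩ := hB.2 p q hpq
  exact (hd b ⟨hb, h1, h2⟩).trans (hd c ⟨hc, h3, h4⟩).symm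

/-- A family of at least eight pairwise intersecting blocks has a common point. -/
theorem exists_common (hB : IsSTS B) (F : Finset (Finset P)) (hF : ∀ b ∈ F, b ∈ B)
    (hint : ∀ b ∈ F, ∀ c ∈ F, ∃ p, p ∈ b ∧ p ∈ c) (hcard : 8 ≤ F.card) :
    ∃ p, ∀ b ∈ F, p ∈ b := by
  classical
  obtain ⟨b0, hb0⟩ : F.Nonempty := Finset.card_pos.mp (by omega)
  -- pigeonhole on the points of `b0`
  have hcov : F.erase b0 ⊆ b0.biUnion fun p => (F.erase b0).filter fun c => p ∈ c := by
    intro c hc
    obtain ⟨p, h1, h2⟩ := hint b0 hb0 c (mem_of_mem_erase hc)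
    exact mem_biUnion.mpr ⟨p, h1, mem_filter.mpr ⟨hc, h2⟩⟩
  have h7 : 7 ≤ (F.erase b0).card := by
    rw [card_erase_of_mem hb0]
    omega
  obtain ⟨p, hp, hp3⟩ : ∃ p ∈ b0, 3 ≤ ((F.erase b0).filter fun c => p ∈ c).card := by
    by_contra hcon
    push Not at hcon
    have h1 := card_le_card hcov
    have h2 := card_biUnion_le (s := b0) (t := fun p => (F.erase b0).filter fun c => p ∈ c)
    have h3 : ∑ p ∈ b0, ((F.erase b0).filter fun c => p ∈ c).card ≤ ∑ _p ∈ b0, 2 :=
      sum_le_sum fun p hp => by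
        have := hcon p hp
        omega
    rw [sum_const, hB.1 b0 (hF b0 hb0)] at h3
    simp only [smul_eq_mul] at h3
    omega
  refine ⟨p, fun c hc => ?_⟩
  by_contra hpc
  set T := insert b0 ((F.erase b0).filter fun c => p ∈ c) with hT
  have hT4 : 4 ≤ T.card := by
    rw [hT, card_insert_of_notMem]
    · omega
    · intro h'
      exact notMem_erase b0 F (mem_of_mem_filter _ h')
  have hTp : ∀ d ∈ T, d ∈ F ∧ p ∈ d := by
    intro d hd
    rw [hT, mem_insert] at hd
    rcases hd with rfl | hd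
    · exact ⟨hb0, hp⟩
    · rw [mem_filter] at hd
      exact ⟨mem_of_mem_erase hd.1, hd.2⟩
  have hex : ∀ d ∈ T, ∃ q, q ∈ d ∧ q ∈ c := fun d hd => hint d (hTp d hd).1 c hc
  haveI : Nonempty P := ⟨p⟩
  choose! f hf1 hf2 using hex
  have hmaps : ∀ d ∈ T, f d ∈ c := hf2
  have hinj : ∀ d ∈ T, ∀ d' ∈ T, f d = f d' → d = d' := by
    intro d hd d' hd' heq
    have hne : p ≠ f d := by
      intro h'
      exact hpc (h' ▸ hf2 d hd)
    exact eq_of_two hB (hF d (hTp d hd).1) (hF d' (hTp d' hd').1) hne (hTp d hd).2 (hf1 d hd)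
      (hTp d' hd').2 (heq ▸ hf1 d' hd')
  have := card_le_card_of_injOn f hmaps (fun d hd d' hd' h' => hinj d hd d' hd' h')
  rw [hB.1 c (hF c hc)] at this
  omega

variable [Fintype P]

/-- The blocks through a point. -/
noncomputable def star (B : Set (Finset P)) (p : P) : Finset B := by
  classical exact univ.filter fun d : B => p ∈ d.1

theorem mem_star {p : P} {d : B} : d ∈ star B p ↔ p ∈ d.1 := by
  classical
  unfold star
  rw [mem_filter]
  simp

theorem card_star (hB : IsSTS B) (p : P) : 2 * (star B p).card + 1 = Fintype.card P := by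
  classical
  have h1 := two_rr hB p
  have h2 : rr B p = (star B p).card := by
    unfold rr star J
    rw [Finset.sum_boole]
  rw [h2] at h1
  omega

theorem star_unique (hB : IsSTS B) (h5 : 5 ≤ Fintype.card P) {p q : P}
    (h : ∀ d : B, p ∈ d.1 → q ∈ d.1) : q = p := by
  by_contra hne
  have h1 := card_star hB p
  have h2 : (star B p).card ≤ 1 := by
    rw [card_le_one]
    intro b hb c hc
    rw [mem_star] at hb hc
    exact Subtype.ext (eq_of_two hB b.2 c.2 (Ne.symm hne) hb (h b hb) hc (h c hc))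
  omega

variable {P' : Type*} [Fintype P'] {B' : Set (Finset P')}

theorem exists_image (hB : IsSTS B) (hB' : IsSTS B') (h17 : 17 ≤ Fintype.card P)
    (φ : blockGraph B ≃g blockGraph B') (p : P) : ∃ q : P', ∀ d : B, p ∈ d.1 → q ∈ (φ d).1 := by
  classical
  have hc := card_star hB p
  obtain ⟨q, hq⟩ := exists_common hB' ((star B p).image fun d => (φ d).1) (by
      intro b hb
      obtain ⟨d, -, rfl⟩ := mem_image.mp hb
      exact (φ d).2) (by
      intro b hb c hc
      obtain ⟨d, hd, rfl⟩ := mem_image.mp hb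
      obtain ⟨d', hd', rfl⟩ := mem_image.mp hc
      by_cases hdd : d = d'
      · subst hdd
        obtain ⟨x, hx⟩ : (φ d).1.Nonempty := card_pos.mp (by rw [hB'.1 _ (φ d).2]; omega)
        exact ⟨x, hx, hx⟩
      · have hadj : (blockGraph B).Adj d d' := ⟨hdd, p, mem_star.mp hd, mem_star.mp hd'⟩
        exact (φ.map_adj_iff.mpr hadj).2) (by
      rw [card_image_of_injective]
      · omega
      · exact Subtype.val_injective.comp φ.injective)
  exact ⟨q, fun d hd => hq _ (mem_image.mpr ⟨d, mem_star.mpr hd, rfl⟩)⟩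

/-- An isomorphism of block graphs is induced by an isomorphism of the triple systems. -/
theorem exists_equiv (hB : IsSTS B) (hB' : IsSTS B') (h17 : 17 ≤ Fintype.card P)
    (h17' : 17 ≤ Fintype.card P') (φ : blockGraph B ≃g blockGraph B') :
    ∃ e : P ≃ P', ∀ b ∈ B, b.map e.toEmbedding ∈ B' := by
  choose f hf using exists_image hB hB' h17 φ
  choose g hg using exists_image hB' hB h17' φ.symm
  have hgf : ∀ p, g (f p) = p := by
    intro p
    refine star_unique hB (by omega) fun d hd => ?_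
    have h1 := hg (f p) (φ d) (hf p d hd)
    rwa [RelIso.symm_apply_apply] at h1
  have hfg : ∀ q, f (g q) = q := by
    intro q
    refine star_unique hB' (by omega) fun d hd => ?_
    have h1 := hf (g q) (φ.symm d) (hg q d hd)
    rwa [RelIso.apply_symm_apply] at h1
  refine ⟨⟨f, g, hgf, hfg⟩, fun b hb => ?_⟩
  have : b.map (⟨f, g, hgf, hfg⟩ : P ≃ P').toEmbedding = (φ ⟨b, hb⟩).1 := by
    refine eq_of_subset_of_card_le ?_ ?_
    · intro x hx
      obtain ⟨y, hy, rfl⟩ := mem_map.mp hx
      exact hf y ⟨b, hb⟩ hy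
    · rw [card_map, hB.1 b hb, hB'.1 _ (φ ⟨b, hb⟩).2]
  rw [this]
  exact (φ ⟨b, hb⟩).2

end Pool.Agent.STS
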