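import Pool.Agent.STS.Defs

/-!
# Coordinates: alternating bilinear maps, nets and Steiner systems

`V` a vector space over `ZMod p`, `β : V × V → V` alternating bilinear with `β (β x y) = 0`. The group
is `V` with `x * y = x + y + β x y` (`Baer`). The classes of the net are `y = d - β x d` (class
`none`) and `x + i d` (class `some i`), on the points `(x, d)`; in terms of the group, with
`d = y + β x y`, these are `y` and `x * y ^ i`.
-/

namespace Pool.Agent.STS

/-- A Steiner system `S(2, m, v)`: every block has `m` points, and any two different points lie in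
exactly one block. -/
def IsSteiner {P : Type*} (m : ℕ) (B : Set (Finset P)) : Prop :=
  (∀ b ∈ B, b.card = m) ∧ ∀ x y : P, x ≠ y → ∃! b, b ∈ B ∧ x ∈ b ∧ y ∈ b

/-- The graph of `m - 2` mutually orthogonal Latin squares `x * y ^ i`, `i = 1, …, m - 2`, of a group
(`m` parallel classes): different pairs are adjacent iff they agree in `y` or in one of the `x * y ^ i`,
`0 ≤ i ≤ m - 2`. -/
def netGraph (H : Type*) [Group H] (m : ℕ) : SimpleGraph (H × H) where
  Adj u v := u ≠ v ∧ (u.2 = v.2 ∨ ∃ i : ℕ, i + 1 < m ∧ u.1 * u.2 ^ i = v.1 * v.2 ^ i)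
  symm := by
    constructor
    rintro u v ⟨h, h'⟩
    refine ⟨h.symm, ?_⟩
    rcases h' with h' | ⟨i, hi, h'⟩
    · exact Or.inl h'.symm
    · exact Or.inr ⟨i, hi, h'.symm⟩
  loopless := ⟨fun u h => h.1 rfl⟩

/-- the coordinates of the net of a group -/
def netc (H : Type*) [Group H] {m : ℕ} : Option (Fin m) → H × H → H
  | none, u => u.2
  | some i, u => u.1 * u.2 ^ (i : ℕ)

variable {p : ℕ} {V : Type*} [AddCommGroup V] [Module (ZMod p) V]

/-- alternating, of class two -/
structure Nil2 (β : V →ₗ[ZMod p] V →ₗ[ZMod p] V) : Prop where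
  alt : ∀ x, β x x = 0
  nil : ∀ x y, β (β x y) = 0

/-- a group of class two and exponent `p`, in coordinates -/
structure Baer (H : Type*) [Group H] (β : V →ₗ[ZMod p] V →ₗ[ZMod p] V) where
  /-- the coordinates -/
  ε : H ≃ V
  mul : ∀ x y, ε (x * y) = ε x + ε y + β (ε x) (ε y)

/-- the `l`-th coordinate (`l : ZMod p`, the class `-1` is the twisted one) of the block `(x, d)` -/
def kap (β : V →ₗ[ZMod p] V →ₗ[ZMod p] V) (l : ZMod p) (x d : V) : V :=
  if l = -1 then d - β x d else x + l • d

open Classical in
/-- the line through `(x,l)` in direction `e` in the level `l` -/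
noncomputable def lineB [Fact p.Prime] (x e : V) (l : ZMod p) : Finset (V × ZMod p) :=
  Finset.univ.image fun t : ZMod p => (x + t • e, l)

open Classical in
/-- the block across the levels -/
noncomputable def crossB [Fact p.Prime] (β : V →ₗ[ZMod p] V →ₗ[ZMod p] V) (x d : V) :
    Finset (V × ZMod p) :=
  Finset.univ.image fun l : ZMod p => (kap β l x d, l)

/-- The Steiner system `S(2, p, p |V|)` of `β`. -/
def design [Fact p.Prime] (β : V →ₗ[ZMod p] V →ₗ[ZMod p] V) : Set (Finset (V × ZMod p)) :=
  {b | (∃ (x e : V) (l : ZMod p), e ≠ 0 ∧ b = lineB x e l) ∨ ∃ x d : V, b = crossB β x d}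

end Pool.Agent.STS
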