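import Mathlib

/-!
# Difference families: points with prescribed classes of their differences

Let `H` be the group of the `e`-th powers modulo `p`. The operators
`T_t f (x) = ∑ h ∈ H, f (x + t h)` on functions of mean zero satisfy `∑ t, |T_t f| ^ 2 ≤ p |H| |f| ^ 2`
and depend only on the class of `t`, so `|T_t f| ^ 2 ≤ p |f| ^ 2` for every `t`. Hence points
`y_1, ..., y_k` with prescribed classes of their differences can be chosen one after the other, if
`p` is large.
-/

namespace Pool.Agent.STS.DF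

open Finset

section Moment

variable {p : ℕ} [Fact p.Prime] (H : Subgroup (ZMod p)ˣ)

/-- the average over a coset -/
noncomputable def T (f : ZMod p → ℝ) (t : (ZMod p)ˣ) (x : ZMod p) : ℝ :=
  ∑ᶠ h : H, f (x + (t : ZMod p) * ((h : (ZMod p)ˣ) : ZMod p))

theorem T_eq [Fintype H] (f : ZMod p → ℝ) (t : (ZMod p)ˣ) (x : ZMod p) :
    T H f t x = ∑ h : H, f (x + (t : ZMod p) * ((h : (ZMod p)ˣ) : ZMod p)) :=
  finsum_eq_sum_of_fintype _

theorem T_mul (f : ZMod p → ℝ) (t : (ZMod p)ˣ) (h0 : H) (x : ZMod p) :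
    T H f (t * h0) x = T H f t x := by
  classical
  have : Fintype H := Fintype.ofFinite _
  rw [T_eq, T_eq]
  refine Fintype.sum_equiv (Equiv.mulLeft h0) _ _ fun h => ?_
  congr 2
  simp only [Equiv.coe_mulLeft, Subgroup.coe_mul, Units.val_mul]
  ring

theorem sum_units_shift {f : ZMod p → ℝ} (hf : ∑ x, f x = 0) (x : ZMod p) {d : ZMod p}
    (hd : d ≠ 0) : ∑ t : (ZMod p)ˣ, f (x + (t : ZMod p) * d) = - f x := by
  classical
  have h1 : ∑ t : ZMod p, f (x + t * d) = 0 := by
    rw [← hf]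
    refine Fintype.sum_bijective (fun t => x + t * d) ?_ _ _ fun _ => rfl
    rw [← Finite.injective_iff_bijective]
    intro s t hst
    exact mul_right_cancel₀ hd (add_left_cancel hst)
  have h2 : ∑ t : ZMod p, f (x + t * d) =
      ∑ t ∈ univ.erase (0 : ZMod p), f (x + t * d) + f (x + 0 * d) :=
    (Finset.sum_erase_add _ _ (Finset.mem_univ _)).symm
  have h3 : ∑ t : (ZMod p)ˣ, f (x + (t : ZMod p) * d) =
      ∑ t ∈ univ.erase (0 : ZMod p), f (x + t * d) := by
    refine Finset.sum_bij (fun (t : (ZMod p)ˣ) _ => (t : ZMod p)) ?_ ?_ ?_ ?_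
    · intro t _
      exact Finset.mem_erase.2 ⟨t.ne_zero, Finset.mem_univ _⟩
    · intro s _ t _ hst
      exact Units.ext hst
    · intro b hb
      exact ⟨Units.mk0 b (Finset.mem_erase.1 hb).1, Finset.mem_univ _, rfl⟩
    · intro t _
      rfl
  rw [zero_mul, add_zero] at h2
  rw [h3]
  linarith

theorem sum_T_sq [Fintype H] {f : ZMod p → ℝ} (hf : ∑ x, f x = 0) :
    ∑ t : (ZMod p)ˣ, ∑ x, T H f t x ^ 2 ≤ (Fintype.card H : ℝ) * p * ∑ x, f x ^ 2 := by
  classical
  have h1 : ∀ t : (ZMod p)ˣ, ∑ x, T H f t x ^ 2 = ∑ h : H, ∑ h' : H, ∑ x,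
      f x * f (x + (t : ZMod p) * (((h' : (ZMod p)ˣ) : ZMod p) - ((h : (ZMod p)ˣ) : ZMod p))) := by
    intro t
    have e1 : ∀ x, T H f t x ^ 2 = ∑ h : H, ∑ h' : H,
        f (x + (t : ZMod p) * ((h : (ZMod p)ˣ) : ZMod p)) *
          f (x + (t : ZMod p) * ((h' : (ZMod p)ˣ) : ZMod p)) := by
      intro x
      rw [T_eq, sq, Finset.sum_mul_sum]
    simp_rw [e1]
    rw [Finset.sum_comm]
    refine Finset.sum_congr rfl fun h _ => ?_
    rw [Finset.sum_comm]
    refine Finset.sum_congr rfl fun h' _ => ?_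
    refine Fintype.sum_equiv (Equiv.addRight ((t : ZMod p) * ((h : (ZMod p)ˣ) : ZMod p))) _ _
      fun x => ?_
    simp only [Equiv.coe_addRight]
    congr 2
    ring
  simp_rw [h1]
  rw [Finset.sum_comm]
  have h2 : ∀ h : H, ∑ t : (ZMod p)ˣ, ∑ h' : H, ∑ x,
      f x * f (x + (t : ZMod p) * (((h' : (ZMod p)ˣ) : ZMod p) - ((h : (ZMod p)ˣ) : ZMod p))) ≤
      p * ∑ x, f x ^ 2 := by
    intro h
    rw [Finset.sum_comm]
    have h3 : ∀ h' : H, ∑ t : (ZMod p)ˣ, ∑ x,
        f x * f (x + (t : ZMod p) * (((h' : (ZMod p)ˣ) : ZMod p) - ((h : (ZMod p)ˣ) : ZMod p))) ≤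
        if h' = h then p * ∑ x, f x ^ 2 else 0 := by
      intro h'
      have hnn : 0 ≤ ∑ x, f x ^ 2 := Finset.sum_nonneg fun _ _ => sq_nonneg _
      split_ifs with hh
      · subst hh
        simp only [sub_self, mul_zero, add_zero]
        rw [Finset.sum_const, Finset.card_univ, nsmul_eq_mul]
        have e2 : ∑ x, f x * f x = ∑ x, f x ^ 2 := Finset.sum_congr rfl fun _ _ => (sq _).symm
        rw [e2]
        apply mul_le_mul_of_nonneg_right _ hnn
        have : Fintype.card (ZMod p)ˣ ≤ p := by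
          rw [ZMod.card_units_eq_totient]
          exact Nat.totient_le p
        exact_mod_cast this
      · rw [Finset.sum_comm]
        have hd : ((h' : (ZMod p)ˣ) : ZMod p) - ((h : (ZMod p)ˣ) : ZMod p) ≠ 0 := by
          intro h0
          exact hh (Subtype.ext (Units.ext (sub_eq_zero.1 h0)))
        have e3 : ∀ x, ∑ t : (ZMod p)ˣ, f x * f (x + (t : ZMod p) *
            (((h' : (ZMod p)ˣ) : ZMod p) - ((h : (ZMod p)ˣ) : ZMod p))) = - f x ^ 2 := by
          intro x
          rw [← Finset.mul_sum, sum_units_shift hf x hd]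
          ring
        simp_rw [e3]
        rw [Finset.sum_neg_distrib]
        linarith
    refine (Finset.sum_le_sum fun h' _ => h3 h').trans ?_
    rw [Finset.sum_ite_eq' Finset.univ h]
    simp
  refine (Finset.sum_le_sum fun h _ => h2 h).trans ?_
  rw [Finset.sum_const, Finset.card_univ, nsmul_eq_mul]
  exact le_of_eq (by ring)

theorem T_sq_le {f : ZMod p → ℝ} (hf : ∑ x, f x = 0) (t : (ZMod p)ˣ) :
    ∑ x, T H f t x ^ 2 ≤ p * ∑ x, f x ^ 2 := by
  classical
  have : Fintype H := Fintype.ofFinite _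
  have h1 := sum_T_sq H hf
  have h2 : (Fintype.card H : ℝ) * ∑ x, T H f t x ^ 2 ≤
      ∑ t : (ZMod p)ˣ, ∑ x, T H f t x ^ 2 := by
    have h3 : (Fintype.card H : ℝ) * ∑ x, T H f t x ^ 2 =
        ∑ h : H, ∑ x, T H f (t * h) x ^ 2 := by
      simp_rw [T_mul]
      rw [Finset.sum_const, Finset.card_univ, nsmul_eq_mul]
    rw [h3]
    have h4 : Function.Injective fun h : H => t * (h : (ZMod p)ˣ) := by
      intro h h' hh
      exact Subtype.ext (mul_left_cancel hh)
    calc ∑ h : H, ∑ x, T H f (t * h) x ^ 2 =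
        ∑ s ∈ univ.map ⟨fun h : H => t * (h : (ZMod p)ˣ), h4⟩, ∑ x, T H f s x ^ 2 := by
          rw [Finset.sum_map]
          rfl
      _ ≤ _ := Finset.sum_le_sum_of_subset_of_nonneg (Finset.subset_univ _)
          fun _ _ _ => Finset.sum_nonneg fun _ _ => sq_nonneg _
  have h5 : (0 : ℝ) < Fintype.card H := by exact_mod_cast Fintype.card_pos
  have h6 := h2.trans h1
  rw [mul_assoc] at h6
  exact le_of_mul_le_mul_left h6 h5

/-- the number of points of `Y` in `x + t H` -/
noncomputable def N (Y : Finset (ZMod p)) (t : (ZMod p)ˣ) (x : ZMod p) : ℕ :=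
  Nat.card {h : H // x + (t : ZMod p) * ((h : (ZMod p)ˣ) : ZMod p) ∈ Y}

theorem sum_N_sq (Y : Finset (ZMod p)) (t : (ZMod p)ˣ) :
    ∑ x, ((N H Y t x : ℝ) - Nat.card H * Y.card / p) ^ 2 ≤ p * Y.card := by
  classical
  have : Fintype H := Fintype.ofFinite _
  have hp : (0 : ℝ) < p := by exact_mod_cast (Fact.out : p.Prime).pos
  let f : ZMod p → ℝ := fun x => (if x ∈ Y then 1 else 0) - Y.card / p
  have hf : ∑ x, f x = 0 := by
    show ∑ x, ((if x ∈ Y then (1 : ℝ) else 0) - Y.card / p) = 0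
    rw [Finset.sum_sub_distrib, Finset.sum_const, Finset.card_univ, ZMod.card, nsmul_eq_mul]
    simp only [Finset.sum_ite_mem, Finset.univ_inter, Finset.sum_const, nsmul_eq_mul, mul_one]
    field_simp
    ring
  have h1 := T_sq_le H hf t
  have h2 : ∀ x, T H f t x = (N H Y t x : ℝ) - Nat.card H * Y.card / p := by
    intro x
    rw [T_eq]
    show ∑ h : H, ((if x + (t : ZMod p) * ((h : (ZMod p)ˣ) : ZMod p) ∈ Y then (1 : ℝ) else 0) -
      Y.card / p) = _
    have hN : N H Y t x = (Finset.univ.filter fun h : H =>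
        x + (t : ZMod p) * ((h : (ZMod p)ˣ) : ZMod p) ∈ Y).card := by
      rw [N, Nat.card_eq_fintype_card, Fintype.card_subtype]
    rw [Finset.sum_sub_distrib, Finset.sum_const, Finset.card_univ, nsmul_eq_mul,
      Finset.sum_boole, hN, Nat.card_eq_fintype_card]
    ring
  simp_rw [h2] at h1
  refine h1.trans ?_
  apply mul_le_mul_of_nonneg_left _ hp.le
  have h3 : ∀ x, f x ^ 2 = (if x ∈ Y then 1 else 0) * (1 - 2 * (Y.card / p)) +
      ((Y.card : ℝ) / p) ^ 2 := by
    intro x
    show ((if x ∈ Y then (1 : ℝ) else 0) - Y.card / p) ^ 2 = _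
    split_ifs <;> ring
  simp_rw [h3]
  rw [Finset.sum_add_distrib, ← Finset.sum_mul, Finset.sum_const, Finset.card_univ, ZMod.card,
    nsmul_eq_mul]
  simp only [Finset.sum_ite_mem, Finset.univ_inter, Finset.sum_const, nsmul_eq_mul, mul_one]
  have h4 : (0 : ℝ) ≤ (Y.card : ℝ) * (Y.card / p) := by positivity
  have h5 : (p : ℝ) * ((Y.card : ℝ) / p) ^ 2 = (Y.card : ℝ) * (Y.card / p) := by
    field_simp
  rw [h5]
  linarith

/-- the number of exceptional `x` -/
theorem card_bad (Y : Finset (ZMod p)) (t : (ZMod p)ˣ) (S : Finset (ZMod p))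
    (hS : ∀ x ∈ S, 2 * p * N H Y t x ≤ Nat.card H * Y.card) :
    S.card * (Nat.card H ^ 2 * Y.card) ≤ 4 * p ^ 3 := by
  classical
  have hp : (0 : ℝ) < p := by exact_mod_cast (Fact.out : p.Prime).pos
  have h1 := sum_N_sq H Y t
  have h2 : (S.card : ℝ) * ((Nat.card H : ℝ) * Y.card / (2 * p)) ^ 2 ≤ p * Y.card := by
    calc (S.card : ℝ) * ((Nat.card H : ℝ) * Y.card / (2 * p)) ^ 2 =
        ∑ x ∈ S, ((Nat.card H : ℝ) * Y.card / (2 * p)) ^ 2 := by
          rw [Finset.sum_const, nsmul_eq_mul]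
      _ ≤ ∑ x ∈ S, ((N H Y t x : ℝ) - Nat.card H * Y.card / p) ^ 2 := by
          apply Finset.sum_le_sum
          intro x hx
          have h3 : 2 * (p : ℝ) * N H Y t x ≤ Nat.card H * Y.card := by exact_mod_cast hS x hx
          have h4 : (N H Y t x : ℝ) ≤ (Nat.card H : ℝ) * Y.card / (2 * p) := by
            rw [le_div_iff₀ (by positivity)]
            linarith
          have h5 : (Nat.card H : ℝ) * Y.card / p = 2 * ((Nat.card H : ℝ) * Y.card / (2 * p)) := by
            field_simp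
          rw [h5]
          have h6 : (0 : ℝ) ≤ (Nat.card H : ℝ) * Y.card / (2 * p) := by positivity
          have h7 : (0 : ℝ) ≤ N H Y t x := by positivity
          nlinarith
      _ ≤ ∑ x, ((N H Y t x : ℝ) - Nat.card H * Y.card / p) ^ 2 :=
          Finset.sum_le_sum_of_subset_of_nonneg (Finset.subset_univ _) fun _ _ _ => sq_nonneg _
      _ ≤ _ := h1
  rcases Nat.eq_zero_or_pos Y.card with h0 | h0
  · rw [h0]
    simp
  have h0' : (0 : ℝ) < Y.card := by exact_mod_cast h0
  have h8 : (S.card : ℝ) * ((Nat.card H : ℝ) ^ 2 * Y.card) ≤ 4 * p ^ 3 := by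
    have h9 : (S.card : ℝ) * ((Nat.card H : ℝ) * Y.card / (2 * p)) ^ 2 * (4 * p ^ 2 / Y.card) ≤
        p * Y.card * (4 * p ^ 2 / Y.card) :=
      mul_le_mul_of_nonneg_right h2 (by positivity)
    have e1 : (S.card : ℝ) * ((Nat.card H : ℝ) * Y.card / (2 * p)) ^ 2 * (4 * p ^ 2 / Y.card) =
        (S.card : ℝ) * ((Nat.card H : ℝ) ^ 2 * Y.card) := by
      field_simp
      ring
    have e2 : (p : ℝ) * Y.card * (4 * p ^ 2 / Y.card) = 4 * p ^ 3 := by
      field_simp
    rw [e1, e2] at h9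
    exact h9
  exact_mod_cast h8

end Moment

/-! ### Choice of the points -/

section Choice

/-- the group of the `e`-th powers -/
def He (p e : ℕ) : Subgroup (ZMod p)ˣ := (powMonoidHom e : (ZMod p)ˣ →* (ZMod p)ˣ).range

theorem card_He (p e : ℕ) [Fact p.Prime] (he : e ∣ p - 1) :
    Nat.card (He p e) * e = p - 1 := by
  have h1 : Nat.card (ZMod p)ˣ = p - 1 := by
    rw [Nat.card_eq_fintype_card, ZMod.card_units_eq_totient, Nat.totient_prime Fact.out]
  have h2 := IsCyclic.index_powMonoidHom_range (G := (ZMod p)ˣ) e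
  rw [h1, Nat.gcd_eq_right he] at h2
  have h3 := (He p e).card_mul_index
  rw [h1] at h3
  unfold He at h3 ⊢
  rw [h2] at h3
  exact h3

theorem exists_points (e : ℕ) (he : 1 ≤ e) (k : ℕ) : ∀ D : ℕ, 1 ≤ D → ∃ p0 : ℕ,
    ∀ (p : ℕ) [Fact p.Prime], p0 ≤ p → e ∣ p - 1 → ∀ Y : Fin k → Finset (ZMod p),
    (∀ i, p ≤ D * (Y i).card) → ∀ c : Fin k → Fin k → (ZMod p)ˣ,
    ∃ y : Fin k → ZMod p, (∀ i, y i ∈ Y i) ∧ ∀ i j, i < j →
      ∃ h ∈ He p e, y j - y i = (c i j : ZMod p) * (h : ZMod p) := by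
  induction k with
  | zero =>
    intro D _
    exact ⟨0, fun p _ _ _ Y _ c => ⟨fun i => i.elim0, fun i => i.elim0, fun i => i.elim0⟩⟩
  | succ k ih =>
    intro D hD
    obtain ⟨p1, hp1⟩ := ih (4 * e * D) (Nat.mul_pos (Nat.mul_pos (by norm_num) he) hD)
    refine ⟨p1 + 16 * e ^ 2 * D ^ 2 * k + 2, ?_⟩
    intro p _ hp0 hep Y hY c
    classical
    have hpp : 2 ≤ p := (Fact.out : p.Prime).two_le
    have hcH := card_He p e hep
    -- `2 e |H| ≥ p`
    have hH2 : p ≤ 2 * e * Nat.card (He p e) := by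
      have : 2 * e * Nat.card (He p e) = 2 * (Nat.card (He p e) * e) := by ring
      rw [this, hcH]
      omega
    -- the bad points
    let bad : Fin k → Finset (ZMod p) := fun j =>
      (Y 0).filter fun x => 2 * p * N (He p e) (Y j.succ) (c 0 j.succ) x ≤
        Nat.card (He p e) * (Y j.succ).card
    have hbad : ∀ j, (bad j).card ≤ 16 * e ^ 2 * D := by
      intro j
      have h1 := card_bad (He p e) (Y j.succ) (c 0 j.succ) (bad j)
        (fun x hx => (Finset.mem_filter.1 hx).2)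
      have h2 : p ^ 3 ≤ 4 * e ^ 2 * D * (Nat.card (He p e) ^ 2 * (Y j.succ).card) := by
        calc p ^ 3 = p ^ 2 * p := by ring
          _ ≤ (2 * e * Nat.card (He p e)) ^ 2 * (D * (Y j.succ).card) :=
            Nat.mul_le_mul (Nat.pow_le_pow_left hH2 2) (hY j.succ)
          _ = _ := by ring
      have h3 : (bad j).card * (Nat.card (He p e) ^ 2 * (Y j.succ).card) ≤
          16 * e ^ 2 * D * (Nat.card (He p e) ^ 2 * (Y j.succ).card) := by
        calc _ ≤ 4 * p ^ 3 := h1
          _ ≤ 4 * (4 * e ^ 2 * D * (Nat.card (He p e) ^ 2 * (Y j.succ).card)) :=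
            Nat.mul_le_mul_left 4 h2
          _ = _ := by ring
      have h4 : 0 < Nat.card (He p e) ^ 2 * (Y j.succ).card := by
        have h5 : 0 < p ^ 3 := by positivity
        rcases Nat.eq_zero_or_pos (Nat.card (He p e) ^ 2 * (Y j.succ).card) with h0 | h0
        · rw [h0, mul_zero] at h2
          omega
        · exact h0
      exact Nat.le_of_mul_le_mul_right h3 h4
    obtain ⟨y0, hy0, hgood⟩ : ∃ y0 ∈ Y 0, ∀ j, y0 ∉ bad j := by
      by_contra hcon
      push Not at hcon
      have h1 : Y 0 ⊆ Finset.univ.biUnion bad := by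
        intro x hx
        obtain ⟨j, hj⟩ := hcon x hx
        exact Finset.mem_biUnion.2 ⟨j, Finset.mem_univ _, hj⟩
      have h2 : (Y 0).card ≤ k * (16 * e ^ 2 * D) := by
        calc (Y 0).card ≤ _ := Finset.card_le_card h1
          _ ≤ ∑ j, (bad j).card := Finset.card_biUnion_le
          _ ≤ ∑ _j : Fin k, 16 * e ^ 2 * D := Finset.sum_le_sum fun j _ => hbad j
          _ = _ := by simp
      have h3 := hY 0
      have h4 : p ≤ D * (k * (16 * e ^ 2 * D)) := h3.trans (Nat.mul_le_mul_left D h2)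
      have h5 : D * (k * (16 * e ^ 2 * D)) = 16 * e ^ 2 * D ^ 2 * k := by ring
      omega
    -- the new candidate sets
    let Y' : Fin k → Finset (ZMod p) := fun j =>
      (Y j.succ).filter fun y => ∃ h ∈ He p e, y - y0 = (c 0 j.succ : ZMod p) * (h : ZMod p)
    have hY' : ∀ j, p ≤ 4 * e * D * (Y' j).card := by
      intro j
      have h1 : ¬ (2 * p * N (He p e) (Y j.succ) (c 0 j.succ) y0 ≤
        Nat.card (He p e) * (Y j.succ).card) := fun h =>
          hgood j (Finset.mem_filter.2 ⟨hy0, h⟩)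
      push Not at h1
      have h2 : N (He p e) (Y j.succ) (c 0 j.succ) y0 ≤ (Y' j).card := by
        unfold N
        rw [← Nat.card_eq_finsetCard]
        refine Nat.card_le_card_of_injective (fun h => ⟨y0 + (c 0 j.succ : ZMod p) *
          ((h.1 : (ZMod p)ˣ) : ZMod p), Finset.mem_filter.2 ⟨h.2, _, h.1.2, by ring⟩⟩) ?_
        intro h h' hh
        have h3 := congrArg Subtype.val hh
        simp only at h3
        have h4 := mul_left_cancel₀ (c 0 j.succ).ne_zero (add_left_cancel h3)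
        exact Subtype.ext (Subtype.ext (Units.ext h4))
      have h3 : p * p ≤ p * (4 * e * D * (Y' j).card) := by
        calc p * p ≤ (2 * e * Nat.card (He p e)) * (D * (Y j.succ).card) :=
            Nat.mul_le_mul hH2 (hY j.succ)
          _ = 2 * e * D * (Nat.card (He p e) * (Y j.succ).card) := by ring
          _ ≤ 2 * e * D * (2 * p * N (He p e) (Y j.succ) (c 0 j.succ) y0) :=
            Nat.mul_le_mul_left _ h1.le
          _ ≤ 2 * e * D * (2 * p * (Y' j).card) := by gcongr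
          _ = _ := by ring
      exact Nat.le_of_mul_le_mul_left h3 (by omega)
    obtain ⟨y, hy1, hy2⟩ := hp1 p (by omega) hep Y' hY' fun i j => c i.succ j.succ
    refine ⟨Fin.cons y0 y, ?_, ?_⟩
    · intro i
      refine Fin.cases ?_ (fun i => ?_) i
      · exact hy0
      · rw [Fin.cons_succ]
        exact (Finset.mem_filter.1 (hy1 i)).1
    · intro i j
      refine Fin.cases ?_ (fun j => ?_) j
      · intro h
        exact absurd h (Fin.not_lt_zero i)
      · refine Fin.cases ?_ (fun i => ?_) i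
        · intro _
          rw [Fin.cons_zero, Fin.cons_succ]
          exact (Finset.mem_filter.1 (hy1 j)).2
        · intro h
          rw [Fin.cons_succ, Fin.cons_succ]
          exact hy2 i j (Fin.succ_lt_succ_iff.1 h)

end Choice

end Pool.Agent.STS.DF
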