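import Pool.Agent.STS.DFBase
import Pool.Agent.STS.DFClique

/-!
# Perfect difference families over `ZMod p` (Wilson's theorem, elementary)

For every `m ≥ 2` and every large prime `p ≡ 1` modulo `m (m - 1)` there is a family of `m`-subsets
of `ZMod p` such that every nonzero element is a difference of two elements of one of these sets
in exactly one way.

Let `e = m (m - 1) / 2` and let `H` be the group of the `e`-th powers. We take points `y_1, ..., y_m`
such that the classes of the differences `y_j - y_i`, `i < j`, are the `e` different classes of the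
units modulo `H` (`exists_points`). As `-1 ∈ H`, the sets `s {y_1, ..., y_m}`, `s` in a system of
representatives of `H / {1, -1}`, form the family.
-/

namespace Pool.Agent.STS.DF

open Finset

section Choice

theorem card_pairs (m : ℕ) :
    Fintype.card {s : Fin m × Fin m // s.1 < s.2} = m * (m - 1) / 2 := by
  classical
  rw [Fintype.card_subtype, ← Finset.sum_range_id, ← Fin.sum_univ_eq_sum_range (fun i => i)]
  have h1 : (Finset.univ.filter fun s : Fin m × Fin m => s.1 < s.2).card =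
      ∑ j : Fin m, (Finset.univ.filter fun i : Fin m => i < j).card := by
    rw [Finset.card_eq_sum_card_fiberwise (f := Prod.snd) (t := Finset.univ)
      (fun _ _ => Finset.mem_coe.2 (Finset.mem_univ _))]
    refine Finset.sum_congr rfl fun j _ => ?_
    refine Finset.card_bij (fun s _ => s.1) ?_ ?_ ?_
    · intro s hs
      obtain ⟨h1, h2⟩ := Finset.mem_filter.1 hs
      have h3 := (Finset.mem_filter.1 h1).2
      rw [h2] at h3
      exact Finset.mem_filter.2 ⟨Finset.mem_univ _, h3⟩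
    · intro s hs t ht hst
      have h2 := (Finset.mem_filter.1 hs).2
      have h3 := (Finset.mem_filter.1 ht).2
      exact Prod.ext hst (h2.trans h3.symm)
    · intro i hi
      have h2 := (Finset.mem_filter.1 hi).2
      exact ⟨(i, j), Finset.mem_filter.2 ⟨Finset.mem_filter.2 ⟨Finset.mem_univ _, h2⟩, rfl⟩, rfl⟩
  rw [h1]
  refine Finset.sum_congr rfl fun j _ => ?_
  have h2 : (Finset.univ.filter fun i : Fin m => i < j) = Finset.Iio j := by
    ext i
    simp
  rw [h2, Fin.card_Iio]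

theorem neg_one_mem_He (p e : ℕ) [Fact p.Prime] (he : 2 * e ∣ p - 1) : -1 ∈ He p e := by
  obtain ⟨g, hg⟩ := IsCyclic.exists_monoid_generator (α := (ZMod p)ˣ)
  obtain ⟨a, ha⟩ := hg (-1)
  obtain ⟨f, hf⟩ := he
  have hp2 : 2 ≤ p := (Fact.out : p.Prime).two_le
  have hord : orderOf g = p - 1 := by
    have h1 : Nat.card (Submonoid.powers g) = orderOf g := Nat.card_submonoidPowers
    have h2 : Submonoid.powers g = ⊤ := by
      rw [eq_top_iff]
      intro x _
      exact hg x
    rw [← h1, h2]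
    have h3 : Nat.card (⊤ : Submonoid (ZMod p)ˣ) = Nat.card (ZMod p)ˣ :=
      Nat.card_congr Submonoid.topEquiv.toEquiv
    rw [h3, Nat.card_eq_fintype_card, ZMod.card_units_eq_totient, Nat.totient_prime Fact.out]
  have h1 : g ^ (2 * a) = 1 := by
    have h2 : g ^ a = -1 := ha
    rw [mul_comm, pow_mul, h2]
    exact neg_one_sq
  have h2 : p - 1 ∣ 2 * a := by
    rw [← hord]
    exact orderOf_dvd_of_pow_eq_one h1
  rw [hf] at h2
  have h3 : e * f ∣ a := by
    obtain ⟨b, hb⟩ := h2
    exact ⟨b, by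
      have : 2 * a = 2 * (e * f * b) := by rw [hb]; ring
      omega⟩
  obtain ⟨b, rfl⟩ := h3
  refine ⟨g ^ (f * b), ?_⟩
  rw [powMonoidHom_apply, ← pow_mul]
  have h4 : f * b * e = e * f * b := by ring
  rw [h4]
  exact ha

/-- **Wilson's theorem**: perfect difference families -/
theorem exists_diffFam (m : ℕ) (hm : 2 ≤ m) : ∃ p0 : ℕ, ∀ p : ℕ, p.Prime → p0 ≤ p →
    p % (m * (m - 1)) = 1 → ∃ F : Set (Finset (ZMod p)), (∀ B ∈ F, B.card = m) ∧
      ∀ d : ZMod p, d ≠ 0 → ∃! t : Finset (ZMod p) × ZMod p × ZMod p,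
        t.1 ∈ F ∧ t.2.1 ∈ t.1 ∧ t.2.2 ∈ t.1 ∧ t.2.1 - t.2.2 = d := by
  classical
  obtain ⟨e, he⟩ : ∃ e, m * (m - 1) = 2 * e := by
    have := Nat.even_mul_pred_self m
    obtain ⟨e, he⟩ := this
    exact ⟨e, by omega⟩
  have he1 : 1 ≤ e := by
    have : 2 * 1 ≤ m * (m - 1) := Nat.mul_le_mul hm (by omega)
    omega
  obtain ⟨p1, hp1⟩ := exists_points e he1 m 1 le_rfl
  refine ⟨p1 + 3, ?_⟩
  intro p hp hp0 hmod
  have : Fact p.Prime := ⟨hp⟩
  rw [he] at hmod
  have h2e : 2 * e ∣ p - 1 := by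
    have := Nat.div_add_mod p (2 * e)
    rw [hmod] at this
    exact ⟨p / (2 * e), by omega⟩
  have hed : e ∣ p - 1 := (Dvd.intro_left 2 rfl).trans h2e
  have hp3 : 3 ≤ p := by omega
  have hodd : Odd p := hp.odd_of_ne_two (by omega)
  -- the classes
  let P := {s : Fin m × Fin m // s.1 < s.2}
  have hcP : Nat.card P = e := by
    rw [Nat.card_eq_fintype_card, card_pairs, he]
    omega
  have hcQ : Nat.card ((ZMod p)ˣ ⧸ He p e) = e := by
    have h1 := IsCyclic.index_powMonoidHom_range (G := (ZMod p)ˣ) e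
    have h2 : Nat.card (ZMod p)ˣ = p - 1 := by
      rw [Nat.card_eq_fintype_card, ZMod.card_units_eq_totient, Nat.totient_prime Fact.out]
    rw [h2, Nat.gcd_eq_right hed] at h1
    exact h1
  obtain ⟨σ⟩ : Nonempty (P ≃ ((ZMod p)ˣ ⧸ He p e)) := by
    apply Finite.card_eq.1 
    rw [hcP, hcQ]
  let c : Fin m → Fin m → (ZMod p)ˣ := fun i j =>
    if h : i < j then (σ ⟨(i, j), h⟩).out else 1
  obtain ⟨y, -, hy⟩ := hp1 p (by omega) hed (fun _ => Finset.univ) (fun _ => by
    rw [Finset.card_univ, ZMod.card, one_mul]) c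
  have hne : ∀ i j, i < j → y j - y i ≠ 0 := by
    intro i j hij
    obtain ⟨h, -, hh⟩ := hy i j hij
    rw [hh]
    exact mul_ne_zero (c i j).ne_zero h.ne_zero
  have hyinj : Function.Injective y := by
    intro i j hij
    rcases lt_trichotomy i j with h | h | h
    · exact absurd (sub_eq_zero.2 hij.symm) (hne i j h)
    · exact h
    · exact absurd (sub_eq_zero.2 hij) (hne j i h)
  -- the class of a multiple of a difference
  have hcls : ∀ (i j : Fin m) (hij : i < j) (u : (ZMod p)ˣ), u ∈ He p e → ∀ d : (ZMod p)ˣ,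
      (d : ZMod p) = (u : ZMod p) * (y j - y i) →
      σ ⟨(i, j), hij⟩ = ((d : (ZMod p)ˣ) : (ZMod p)ˣ ⧸ He p e) := by
    intro i j hij u hu d hd
    obtain ⟨h, hhH, hh⟩ := hy i j hij
    have e1 : c i j = (σ ⟨(i, j), hij⟩).out := dif_pos hij
    have e2 : d = c i j * (h * u) := by
      apply Units.ext
      rw [hd, hh]
      push_cast
      ring
    have e3 : σ ⟨(i, j), hij⟩ = ((c i j : (ZMod p)ˣ) : (ZMod p)ˣ ⧸ He p e) := by
      rw [e1]
      exact (QuotientGroup.out_eq' _).symm
    rw [e3, QuotientGroup.eq, e2]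
    rw [inv_mul_cancel_left]
    exact (He p e).mul_mem hhH hu
  have hneg := neg_one_mem_He p e h2e
  -- the base block and the family
  let B : Finset (ZMod p) := Finset.univ.image y
  have hsgn : ∀ s : (ZMod p)ˣ, ¬ (2 * (s : ZMod p).val < p) ↔
      2 * ((-s : (ZMod p)ˣ) : ZMod p).val < p := by
    intro s
    rw [Units.val_neg, ZMod.neg_val, if_neg s.ne_zero]
    have h1 := (s : ZMod p).val_lt
    obtain ⟨q, hq⟩ := hodd
    omega
  refine ⟨{B' | ∃ s : (ZMod p)ˣ, s ∈ He p e ∧ 2 * (s : ZMod p).val < p ∧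
    B' = B.image fun b => (s : ZMod p) * b}, ?_, ?_⟩
  · rintro _ ⟨s, -, -, rfl⟩
    rw [Finset.card_image_of_injective _ (mul_right_injective₀ s.ne_zero),
      Finset.card_image_of_injective _ hyinj, Finset.card_univ, Fintype.card_fin]
  · intro d hd
    let dU := Units.mk0 d hd
    obtain ⟨⟨⟨i, j⟩, hij⟩, hσ⟩ : ∃ s : P, σ s = ((dU : (ZMod p)ˣ) : (ZMod p)ˣ ⧸ He p e) :=
      σ.surjective _
    replace hij : i < j := hij
    obtain ⟨h1, hh1, hd1⟩ := hy i j hij
    have hc : c i j = (σ ⟨(i, j), hij⟩).out := dif_pos hij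
    have h2 : (c i j)⁻¹ * dU ∈ He p e := by
      rw [← QuotientGroup.eq, hc, ← hσ]
      exact QuotientGroup.out_eq' _
    -- `d = h (y j - y i)`
    obtain ⟨h, hhH, hdh⟩ : ∃ h ∈ He p e, d = (h : ZMod p) * (y j - y i) := by
      refine ⟨((c i j)⁻¹ * dU) * h1⁻¹, (He p e).mul_mem h2 ((He p e).inv_mem hh1), ?_⟩
      rw [hd1]
      have e1 : ((((c i j)⁻¹ * dU) * h1⁻¹) * (c i j * h1) : (ZMod p)ˣ) = dU := by
        calc (((c i j)⁻¹ * dU) * h1⁻¹) * (c i j * h1) =
            ((c i j)⁻¹ * c i j) * (h1⁻¹ * h1) * dU := by ac_rfl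
          _ = dU := by rw [inv_mul_cancel, inv_mul_cancel, one_mul, one_mul]
      have e2 := congrArg (fun u : (ZMod p)ˣ => (u : ZMod p)) e1
      simp only [Units.val_mul] at e2
      rw [Units.val_mul, Units.val_mul]
      exact e2.symm
    -- the representations of `d`
    have key : ∀ (s : (ZMod p)ˣ) (k l : Fin m), s ∈ He p e →
        (s : ZMod p) * y k - (s : ZMod p) * y l = d →
        (s = h ∧ k = j ∧ l = i) ∨ (s = -h ∧ k = i ∧ l = j) := by
      intro s k l hs hskl
      rcases lt_trichotomy k l with hkl | hkl | hkl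
      · right
        have e1 : (dU : ZMod p) = ((-s : (ZMod p)ˣ) : ZMod p) * (y l - y k) := by
          show d = _
          rw [← hskl, Units.val_neg]
          ring
        have e2 := hcls k l hkl (-s) (by
          rw [← neg_one_mul]
          exact (He p e).mul_mem hneg hs) dU e1
        have e3 := σ.injective (e2.trans hσ.symm)
        have e4 : k = i ∧ l = j := by
          have := congrArg Subtype.val e3
          exact ⟨congrArg Prod.fst this, congrArg Prod.snd this⟩
        obtain ⟨rfl, rfl⟩ := e4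
        refine ⟨?_, rfl, rfl⟩
        apply Units.ext
        have e5 : d = ((-s : (ZMod p)ˣ) : ZMod p) * (y l - y k) := e1
        rw [hdh] at e5
        have e6 := mul_right_cancel₀ (hne k l hkl) e5
        rw [Units.val_neg] at e6 ⊢
        rw [e6, neg_neg]
      · subst hkl
        rw [sub_self] at hskl
        exact absurd hskl.symm hd
      · left
        have e1 : (dU : ZMod p) = (s : ZMod p) * (y k - y l) := by
          show d = _
          rw [← hskl]
          ring
        have e2 := hcls l k hkl s hs dU e1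
        have e3 := σ.injective (e2.trans hσ.symm)
        have e4 : l = i ∧ k = j := by
          have := congrArg Subtype.val e3
          exact ⟨congrArg Prod.fst this, congrArg Prod.snd this⟩
        obtain ⟨rfl, rfl⟩ := e4
        refine ⟨?_, rfl, rfl⟩
        apply Units.ext
        have e5 : d = (s : ZMod p) * (y k - y l) := e1
        rw [hdh] at e5
        exact (mul_right_cancel₀ (hne l k hkl) e5).symm
    have hnegH : -h ∈ He p e := by
      rw [← neg_one_mul]
      exact (He p e).mul_mem hneg hhH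
    have hmemB : ∀ k, y k ∈ B := fun k => Finset.mem_image_of_mem _ (Finset.mem_univ _)
    have huniq : ∀ t : Finset (ZMod p) × ZMod p × ZMod p,
        (t.1 ∈ {B' | ∃ s : (ZMod p)ˣ, s ∈ He p e ∧ 2 * (s : ZMod p).val < p ∧
          B' = B.image fun b => (s : ZMod p) * b} ∧ t.2.1 ∈ t.1 ∧ t.2.2 ∈ t.1 ∧
            t.2.1 - t.2.2 = d) →
        (2 * (h : ZMod p).val < p ∧ t = (B.image fun b => (h : ZMod p) * b,
          (h : ZMod p) * y j, (h : ZMod p) * y i)) ∨
        (2 * ((-h : (ZMod p)ˣ) : ZMod p).val < p ∧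
          t = (B.image fun b => ((-h : (ZMod p)ˣ) : ZMod p) * b,
            ((-h : (ZMod p)ˣ) : ZMod p) * y i, ((-h : (ZMod p)ˣ) : ZMod p) * y j)) := by
      rintro ⟨B', b, b'⟩ ⟨⟨s, hs, hs2, hB'⟩, hb, hb', hbb⟩
      simp only at hB' hb hb' hbb
      subst hB'
      obtain ⟨b1, hb1, rfl⟩ := Finset.mem_image.1 hb
      obtain ⟨b2, hb2, rfl⟩ := Finset.mem_image.1 hb'
      obtain ⟨k, -, rfl⟩ := Finset.mem_image.1 hb1
      obtain ⟨l, -, rfl⟩ := Finset.mem_image.1 hb2
      rcases key s k l hs hbb with ⟨rfl, rfl, rfl⟩ | ⟨rfl, rfl, rfl⟩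
      · exact Or.inl ⟨hs2, rfl⟩
      · exact Or.inr ⟨hs2, rfl⟩
    by_cases hh : 2 * (h : ZMod p).val < p
    · refine ⟨(B.image fun b => (h : ZMod p) * b, (h : ZMod p) * y j, (h : ZMod p) * y i),
        ⟨⟨h, hhH, hh, rfl⟩, Finset.mem_image_of_mem _ (hmemB j),
          Finset.mem_image_of_mem _ (hmemB i), ?_⟩, ?_⟩
      · show (h : ZMod p) * y j - (h : ZMod p) * y i = d
        rw [hdh]
        ring
      · intro t ht
        rcases huniq t ht with ⟨-, h3⟩ | ⟨h3, -⟩
        · exact h3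
        · exact absurd hh ((hsgn h).2 h3)
    · refine ⟨(B.image fun b => ((-h : (ZMod p)ˣ) : ZMod p) * b,
            ((-h : (ZMod p)ˣ) : ZMod p) * y i, ((-h : (ZMod p)ˣ) : ZMod p) * y j),
        ⟨⟨-h, hnegH, (hsgn h).1 hh, rfl⟩, Finset.mem_image_of_mem _ (hmemB i),
          Finset.mem_image_of_mem _ (hmemB j), ?_⟩, ?_⟩
      · show ((-h : (ZMod p)ˣ) : ZMod p) * y i - ((-h : (ZMod p)ˣ) : ZMod p) * y j = d
        rw [hdh, Units.val_neg]
        ring
      · intro t ht
        rcases huniq t ht with ⟨h3, -⟩ | ⟨-, h3⟩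
        · exact absurd h3 hh
        · exact h3

end Choice

end Pool.Agent.STS.DF

namespace Pool.Agent.STS

/-- For every `m ≥ 2` there are arbitrarily large primes with a perfect difference family of
`m`-sets. -/
theorem exists_df (m : ℕ) (hm : 2 ≤ m) (q : ℕ) :
    ∃ p : ℕ, p.Prime ∧ q < p ∧ ∃ E : Set (Finset (ZMod p)), IsDF p m E := by
  obtain ⟨p0, hp0⟩ := DF.exists_diffFam m hm
  have h2 : 2 * 1 ≤ m * (m - 1) := Nat.mul_le_mul hm (by omega)
  obtain ⟨p, hp, hlt, hmod⟩ := Nat.exists_prime_gt_modEq_one (k := m * (m - 1)) (q + p0)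
    (by omega)
  obtain ⟨F, hF1, hF2⟩ := hp0 p hp (by omega) (by
    rw [hmod]
    exact Nat.mod_eq_of_lt (by omega))
  refine ⟨p, hp, by omega, F, hF1, fun d hd => ?_⟩
  obtain ⟨t, ⟨h1, h3, h4, h5⟩, hu⟩ := hF2 d hd
  refine ⟨(t.1, t.2.2), ⟨h1, h4, ?_⟩, ?_⟩
  · show t.2.2 + d ∈ t.1
    rw [← h5]
    simpa using h3
  · rintro ⟨B, b⟩ ⟨hB, hb, hbd⟩
    have h6 := hu (B, b + d, b) ⟨hB, hbd, hb, by simp⟩
    rw [← h6]

end Pool.Agent.STS
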