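import Mathlib

/-!
# Difference families: from one base block

Proof of `exists_df_of_base`. Let `e = m (m-1) / 2` and `b` the base block: the differences `b j - b i`, `i < j`, represent
every class of `κ` exactly once, and `κ (-1) = 1`. Let `N = ker κ ∋ -1` and `M ⊆ N` a set of representatives of `N`
modulo `± 1` (for example the elements `u` of `N` with `u.val < (-u).val`; `p` is odd, since `p ≡ 1 mod m (m-1)` and
`m (m-1)` is even, `p ≠ 1`). Take `E = {s B₀ : s ∈ M}`, `B₀ = {b i}` (`b` is injective, so `|B₀| = m`). For `d ≠ 0` there is exactly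
one pair `i < j` with `κ (b j - b i) = κ d`, then exactly one of `d / (b j - b i)` and `- d / (b j - b i)` (both in `N`) is in `M`.
If it is `s = d / (b j - b i)`: `d = s b j - s b i`, `q = (s B₀, s b i)`; if it is `s = - d / (b j - b i)`: `d = s b i - s b j`,
`q = (s B₀, s b j)`. Uniqueness: `q.1 = s B₀`, `q.2 = s b i'`, `q.2 + d = s b j'`, so `κ d = κ (b j' - b i')`, etc.
-/

namespace Pool.Agent.STS

/-- A perfect difference family: every `d ≠ 0` is a difference of exactly one pair of elements of exactly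
one of the sets, and the sets have `m` elements. -/
def IsDF (p m : ℕ) (E : Set (Finset (ZMod p))) : Prop :=
  (∀ B ∈ E, B.card = m) ∧ ∀ d : ZMod p, d ≠ 0 →
    ∃! q : Finset (ZMod p) × ZMod p, q.1 ∈ E ∧ q.2 ∈ q.1 ∧ q.2 + d ∈ q.1

/-- the representatives modulo `± 1` -/
private def Rep {p : ℕ} {G : Type*} [Monoid G] (κ : (ZMod p)ˣ →* G) (s : (ZMod p)ˣ) : Prop :=
  κ s = 1 ∧ (s : ZMod p).val < (-(s : ZMod p)).val

private theorem odd_of_modEq {p m : ℕ} [hpf : Fact p.Prime] (hm : 2 ≤ m)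
    (hp : p ≡ 1 [MOD m * (m - 1)]) : p ≠ 2 := by
  intro h
  have h2 : 2 ∣ m * (m - 1) := by
    obtain ⟨n, rfl⟩ : ∃ n, m = n + 1 := ⟨m - 1, by omega⟩
    have := Nat.even_mul_succ_self n
    rw [Nat.add_sub_cancel, mul_comm]
    exact this.two_dvd
  have h3 : p ≡ 1 [MOD 2] := hp.of_dvd h2
  rw [h] at h3
  exact absurd h3 (by decide)

private theorem val_ne_val_neg {p : ℕ} [hpf : Fact p.Prime] (hp2 : p ≠ 2) (u : (ZMod p)ˣ) :
    (u : ZMod p).val ≠ (-(u : ZMod p)).val := by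
  intro h
  have h1 : (u : ZMod p) = -(u : ZMod p) := ZMod.val_injective p h
  have h2 : (2 : ZMod p) * u = 0 := by
    linear_combination h1
  have h3 : (2 : ZMod p) ≠ 0 := by
    intro h4
    have h5 : ((2 : ℕ) : ZMod p) = 0 := by exact_mod_cast h4
    rw [ZMod.natCast_eq_zero_iff] at h5
    exact hp2 ((Nat.prime_dvd_prime_iff_eq hpf.out Nat.prime_two).1 h5)
  rcases mul_eq_zero.1 h2 with h4 | h4
  · exact h3 h4
  · exact u.ne_zero h4

/-- the family exists if there is one base block -/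
theorem exists_df_of_base {p m : ℕ} [Fact p.Prime] (hm : 2 ≤ m) (hp : p ≡ 1 [MOD m * (m - 1)])
    (κ : (ZMod p)ˣ →* Multiplicative (ZMod (m * (m - 1) / 2))) (hκ : κ (-1) = 1)
    (b : Fin m → ZMod p) (hb : ∀ i j, i < j → b i ≠ b j)
    (hbij : ∀ x : Multiplicative (ZMod (m * (m - 1) / 2)), ∃! q : Fin m × Fin m,
      ∃ h : q.1 < q.2, κ (Units.mk0 (b q.2 - b q.1) (sub_ne_zero.mpr (hb q.1 q.2 h).symm)) = x) :
    ∃ E : Set (Finset (ZMod p)), IsDF p m E := by
  classical
  have hp2 : p ≠ 2 := odd_of_modEq hm hp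
  have hinj : Function.Injective b := by
    intro i j h
    rcases lt_trichotomy i j with h1 | h1 | h1
    · exact absurd h (hb i j h1)
    · exact h1
    · exact absurd h.symm (hb j i h1)
  let S : (ZMod p)ˣ → Finset (ZMod p) := fun s => Finset.univ.image fun i => (s : ZMod p) * b i
  refine ⟨{B | ∃ s : (ZMod p)ˣ, Rep κ s ∧ B = S s}, ?_, ?_⟩
  · rintro B ⟨s, -, rfl⟩
    rw [Finset.card_image_of_injective, Finset.card_univ, Fintype.card_fin]
    intro i j h
    exact hinj (mul_left_cancel₀ s.ne_zero h)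
  intro d hd
  obtain ⟨⟨i, j⟩, ⟨hij, hk⟩, huniq⟩ := hbij (κ (Units.mk0 d hd))
  simp only at hij hk
  obtain ⟨v, hv⟩ : ∃ v : (ZMod p)ˣ, v = Units.mk0 (b j - b i) (sub_ne_zero.mpr (hb i j hij).symm) :=
    ⟨_, rfl⟩
  have hv' : (v : ZMod p) = b j - b i := by rw [hv]; rfl
  rw [← hv] at hk
  obtain ⟨u, hu⟩ : ∃ u : (ZMod p)ˣ, u = Units.mk0 d hd * v⁻¹ := ⟨_, rfl⟩
  have hud : u * v = Units.mk0 d hd := by rw [hu, inv_mul_cancel_right]
  have hud' : (u : ZMod p) * (b j - b i) = d := by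
    rw [← hv', ← Units.val_mul, hud]
    rfl
  have hκu : κ u = 1 := by
    rw [hu, map_mul, map_inv, hk, mul_inv_cancel]
  have hκnu : κ (-u) = 1 := by
    rw [← neg_one_mul u, map_mul, hκ, hκu, one_mul]
  -- the key: all solutions
  have key : ∀ s : (ZMod p)ˣ, κ s = 1 → ∀ i' j' : Fin m,
      (s : ZMod p) * b i' + d = (s : ZMod p) * b j' →
      (i' = i ∧ j' = j ∧ s = u) ∨ (i' = j ∧ j' = i ∧ s = -u) := by
    intro s hs i' j' h
    have hd' : (s : ZMod p) * (b j' - b i') = d := by linear_combination -h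
    rcases lt_trichotomy i' j' with h1 | h1 | h1
    · left
      have h2 : s * Units.mk0 (b j' - b i') (sub_ne_zero.mpr (hb i' j' h1).symm) =
          Units.mk0 d hd := by
        ext
        exact hd'
      have h3 : κ (Units.mk0 (b j' - b i') (sub_ne_zero.mpr (hb i' j' h1).symm)) =
          κ (Units.mk0 d hd) := by
        rw [← h2, map_mul, hs, one_mul]
      have h4 := huniq (i', j') ⟨h1, h3⟩
      rw [Prod.mk.injEq] at h4
      obtain ⟨rfl, rfl⟩ := h4
      refine ⟨rfl, rfl, ?_⟩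
      rw [← hv] at h2
      rw [← hud] at h2
      exact mul_right_cancel h2
    · exfalso
      rw [h1, sub_self, mul_zero] at hd'
      exact hd hd'.symm
    · right
      have h2 : (-s) * Units.mk0 (b i' - b j') (sub_ne_zero.mpr (hb j' i' h1).symm) =
          Units.mk0 d hd := by
        ext
        show (-(s : ZMod p)) * (b i' - b j') = d
        linear_combination hd'
      have h3 : κ (Units.mk0 (b i' - b j') (sub_ne_zero.mpr (hb j' i' h1).symm)) =
          κ (Units.mk0 d hd) := by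
        rw [← h2, map_mul, ← neg_one_mul s, map_mul, hκ, hs, one_mul, one_mul]
      have h4 := huniq (j', i') ⟨h1, h3⟩
      rw [Prod.mk.injEq] at h4
      obtain ⟨rfl, rfl⟩ := h4
      refine ⟨rfl, rfl, ?_⟩
      rw [← hv] at h2
      rw [← hud] at h2
      have h5 := mul_right_cancel h2
      rw [← h5, neg_neg]
  -- one of `u`, `-u` is a representative
  have hneg : ((-u : (ZMod p)ˣ) : ZMod p) = -(u : ZMod p) := Units.val_neg u
  rcases lt_or_gt_of_ne (val_ne_val_neg hp2 u) with hlt | hlt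
  · have hRu : Rep κ u := ⟨hκu, hlt⟩
    have hRn : ¬ Rep κ (-u) := by
      rintro ⟨-, h⟩
      rw [hneg, neg_neg] at h
      exact absurd h (not_lt.2 hlt.le)
    refine ⟨(S u, (u : ZMod p) * b i), ⟨⟨u, hRu, rfl⟩, ?_, ?_⟩, ?_⟩
    · exact Finset.mem_image.2 ⟨i, Finset.mem_univ _, rfl⟩
    · refine Finset.mem_image.2 ⟨j, Finset.mem_univ _, ?_⟩
      show (u : ZMod p) * b j = (u : ZMod p) * b i + d
      linear_combination hud'
    · rintro ⟨B, x⟩ ⟨⟨s, hs, hB⟩, hx, hxd⟩
      simp only at hB hx hxd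
      rw [hB] at hx hxd
      obtain ⟨i', -, hi'⟩ := Finset.mem_image.1 hx
      obtain ⟨j', -, hj'⟩ := Finset.mem_image.1 hxd
      rcases key s hs.1 i' j' (by rw [hi', hj']) with ⟨h1, h2, h3⟩ | ⟨h1, h2, h3⟩
      · rw [hB, ← hi', h1, h3]
      · rw [h3] at hs
        exact absurd hs hRn
  · have hRn : Rep κ (-u) := ⟨hκnu, by rw [hneg, neg_neg]; exact hlt⟩
    have hRu : ¬ Rep κ u := by
      rintro ⟨-, h⟩
      exact absurd h (not_lt.2 hlt.le)
    refine ⟨(S (-u), ((-u : (ZMod p)ˣ) : ZMod p) * b j), ⟨⟨-u, hRn, rfl⟩, ?_, ?_⟩, ?_⟩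
    · exact Finset.mem_image.2 ⟨j, Finset.mem_univ _, rfl⟩
    · refine Finset.mem_image.2 ⟨i, Finset.mem_univ _, ?_⟩
      show ((-u : (ZMod p)ˣ) : ZMod p) * b i = ((-u : (ZMod p)ˣ) : ZMod p) * b j + d
      rw [hneg]
      linear_combination hud'
    · rintro ⟨B, x⟩ ⟨⟨s, hs, hB⟩, hx, hxd⟩
      simp only at hB hx hxd
      rw [hB] at hx hxd
      obtain ⟨i', -, hi'⟩ := Finset.mem_image.1 hx
      obtain ⟨j', -, hj'⟩ := Finset.mem_image.1 hxd
      rcases key s hs.1 i' j' (by rw [hi', hj']) with ⟨h1, h2, h3⟩ | ⟨h1, h2, h3⟩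
      · rw [h3] at hs
        exact absurd hs hRu
      · rw [hB, ← hi', h1, h3]

end Pool.Agent.STS
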