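import Mathlib

/-!
# Steiner triple systems and their block graphs
-/

namespace Pool.Agent.STS

/-- A Steiner triple system on the point set `P`, given by its set `B` of blocks: every block has
three points, and any two different points lie in exactly one block. -/
def IsSTS {P : Type*} (B : Set (Finset P)) : Prop :=
  (∀ b ∈ B, b.card = 3) ∧ ∀ p q : P, p ≠ q → ∃! b, b ∈ B ∧ p ∈ b ∧ q ∈ b

/-- Every three points lie in a subsystem with nine points. For a Steiner triple system this is the
definition of a Hall triple system: every triangle generates an affine plane of order three. -/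
def IsHall {P : Type*} (B : Set (Finset P)) : Prop :=
  ∀ p q r : P, ∃ S : Finset P, S.card = 9 ∧ p ∈ S ∧ q ∈ S ∧ r ∈ S ∧
    ∀ b ∈ B, ∀ x ∈ b, ∀ y ∈ b, x ≠ y → x ∈ S → y ∈ S → b ⊆ S

/-- The block graph: the vertices are the blocks, and two different blocks are adjacent iff they have
a common point. -/
def blockGraph {P : Type*} (B : Set (Finset P)) : SimpleGraph B where
  Adj b c := b ≠ c ∧ ∃ p, p ∈ b.1 ∧ p ∈ c.1
  symm := by
    constructor
    rintro b c ⟨h, p, hb, hc⟩
    exact ⟨h.symm, p, hc, hb⟩
  loopless := ⟨fun b h => h.1 rfl⟩

/-- An automorphism of a triple system: a permutation of the points that maps blocks, and only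
blocks, to blocks. -/
def IsAut {P : Type*} (B : Set (Finset P)) (e : P ≃ P) : Prop :=
  ∀ b : Finset P, b.map e.toEmbedding ∈ B ↔ b ∈ B

end Pool.Agent.STS
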