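import Pool.Agent.STS.BigP
import Pool.Agent.SRGWL.Defs

/-!
# The coordinates of the groups `G A D`
-/

namespace Pool.Agent.STS

section General

variable {p : ℕ} [Fact p.Prime] {V : Type*} [AddCommGroup V] [Module (ZMod p) V]
  {β : V →ₗ[ZMod p] V →ₗ[ZMod p] V}

theorem baer_mem_center {H : Type*} [Group H] (b : Baer H β) (halt : ∀ x, β x x = 0)
    (hp : p ≠ 2) (x : H) : x ∈ Subgroup.center H ↔ ∀ v, β (b.ε x) v = 0 := by
  have h2 : (2 : ZMod p) ≠ 0 := by
    intro h
    have h2 : ((2 : ℕ) : ZMod p) = 0 := by exact_mod_cast h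
    rw [ZMod.natCast_eq_zero_iff] at h2
    exact hp ((Nat.prime_dvd_prime_iff_eq (Fact.out : p.Prime) Nat.prime_two).mp h2)
  have hskew : ∀ x y, β x y = - β y x := by
    intro x y
    have h1 := halt (x + y)
    simp only [map_add, LinearMap.add_apply, halt, zero_add, add_zero] at h1
    exact eq_neg_of_add_eq_zero_right h1
  rw [Subgroup.mem_center_iff]
  constructor
  · intro h v
    have h1 := congrArg b.ε (h (b.ε.symm v))
    rw [b.mul, b.mul, b.ε.apply_symm_apply] at h1
    have h3 : β v (b.ε x) = β (b.ε x) v := by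
      have h4 : v + b.ε x = b.ε x + v := add_comm _ _
      rw [h4] at h1
      exact add_left_cancel h1
    rw [hskew] at h3
    have h5 : (2 : ZMod p) • β (b.ε x) v = 0 := by
      rw [two_smul]
      nth_rewrite 1 [← h3]
      exact neg_add_cancel _
    exact (smul_eq_zero.mp h5).resolve_left h2
  · intro h y
    apply b.ε.injective
    rw [b.mul, b.mul, h, hskew, h, neg_zero, add_comm (b.ε y)]

theorem hbig_of_baer {H : Type*} [Group H] [Finite V] (b : Baer H β) (hβ : Nil2 β) (hp : p ≠ 2)
    (hlt : Nat.card (Subgroup.center H) ^ 2 * p < Nat.card H) (W : Submodule (ZMod p) V)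
    (hW : Nat.card W * p = Nat.card V) : ∃ x ∈ W, ∃ y ∈ W, β x y ≠ 0 := by
  let Z : Submodule (ZMod p) V :=
    { carrier := {x | ∀ v, β x v = 0}
      zero_mem' := fun v => by rw [map_zero, LinearMap.zero_apply]
      add_mem' := fun {x y} hx hy v => by rw [map_add, LinearMap.add_apply, hx, hy, add_zero]
      smul_mem' := fun c x hx v => by rw [map_smul, LinearMap.smul_apply, hx, smul_zero] }
  refine hbig_of hβ.alt Z (fun x hx => hx) (fun x y v => by rw [hβ.nil, LinearMap.zero_apply]) ?_ W
    hW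
  have h1 : Nat.card Z = Nat.card (Subgroup.center H) := by
    refine Nat.card_congr
      { toFun := fun x => ⟨b.ε.symm x.1, ?_⟩
        invFun := fun x => ⟨b.ε x.1, ?_⟩
        left_inv := fun x => ?_
        right_inv := fun x => ?_ }
    · rw [baer_mem_center b hβ.alt hp, b.ε.apply_symm_apply]
      exact x.2
    · exact (baer_mem_center b hβ.alt hp _).mp x.2
    · exact Subtype.ext (b.ε.apply_symm_apply _)
    · exact Subtype.ext (b.ε.symm_apply_apply _)
  rw [h1, ← Nat.card_congr b.ε]
  exact hlt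

/-- a group whose centre is smaller is not commutative -/
theorem noncomm {K : Type*} [Group K] [Finite K]
    (h : Nat.card (Subgroup.center K) < Nat.card K) : ∃ x y : K, x * y ≠ y * x := by
  by_contra hcon
  push Not at hcon
  have h1 : Subgroup.center K = ⊤ := by
    rw [eq_top_iff]
    intro x _
    rw [Subgroup.mem_center_iff]
    exact fun g => hcon g x
  rw [h1, Subgroup.card_top] at h
  exact lt_irrefl _ h

end General

open Module Pool.Agent.SRGWL

variable {p : ℕ} [Fact p.Prime] {I : Type*} [AddCommGroup I] [Module (ZMod p) I] {z : ℕ}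

/-- the coordinate space -/
abbrev VV (A : Tup (ZMod p) I z) : Type _ := I × Wsp A × (Fin (z + 1) → ZMod p)

/-- half of the commutator -/
def bet (A : Tup (ZMod p) I z) (D : CoTup (ZMod p) I z) :
    VV A →ₗ[ZMod p] VV A →ₗ[ZMod p] VV A :=
  LinearMap.mk₂ (ZMod p) (fun x y => ((0 : I), (0 : Wsp A), fun ζ =>
      (y.2.1 : Fin (z + 1) → Dual (ZMod p) I) ζ x.1 -
        (x.2.1 : Fin (z + 1) → Dual (ZMod p) I) ζ y.1 + D ζ x.1 y.1))
    (by
      intro x x' y
      refine Prod.ext (add_zero _).symm (Prod.ext (add_zero _).symm ?_)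
      funext ζ
      show _ = (_ : ZMod p) + _
      simp only [Prod.fst_add, Prod.snd_add, Submodule.coe_add, Pi.add_apply, map_add,
        LinearMap.add_apply]
      ring)
    (by
      intro c x y
      refine Prod.ext (smul_zero _).symm (Prod.ext (smul_zero _).symm ?_)
      funext ζ
      show _ = c * (_ : ZMod p)
      simp only [Prod.smul_fst, Prod.smul_snd, Submodule.coe_smul, Pi.smul_apply, map_smul,
        LinearMap.smul_apply, smul_eq_mul]
      ring)
    (by
      intro x y y'
      refine Prod.ext (add_zero _).symm (Prod.ext (add_zero _).symm ?_)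
      funext ζ
      show _ = (_ : ZMod p) + _
      simp only [Prod.fst_add, Prod.snd_add, Submodule.coe_add, Pi.add_apply, map_add,
        LinearMap.add_apply]
      ring)
    (by
      intro c x y
      refine Prod.ext (smul_zero _).symm (Prod.ext (smul_zero _).symm ?_)
      funext ζ
      show _ = c * (_ : ZMod p)
      simp only [Prod.smul_fst, Prod.smul_snd, Submodule.coe_smul, Pi.smul_apply, map_smul,
        LinearMap.smul_apply, smul_eq_mul]
      ring)

theorem bet_apply (A : Tup (ZMod p) I z) (D : CoTup (ZMod p) I z) (x y : VV A) :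
    bet A D x y = ((0 : I), (0 : Wsp A), fun ζ =>
      (y.2.1 : Fin (z + 1) → Dual (ZMod p) I) ζ x.1 -
        (x.2.1 : Fin (z + 1) → Dual (ZMod p) I) ζ y.1 + D ζ x.1 y.1) := rfl

theorem nil2_bet (hp : p ≠ 2) (A : Tup (ZMod p) I z) {D : CoTup (ZMod p) I z} (hD : CoSkew D) :
    Nil2 (V := VV A) (bet A D) where
  alt := by
    intro x
    have h2 : (2 : ZMod p) ≠ 0 := by
      intro h
      have h2 : ((2 : ℕ) : ZMod p) = 0 := by exact_mod_cast h
      rw [ZMod.natCast_eq_zero_iff] at h2
      exact hp ((Nat.prime_dvd_prime_iff_eq (Fact.out : p.Prime) Nat.prime_two).mp h2)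
    refine Prod.ext rfl (Prod.ext rfl ?_)
    funext ζ
    have h := hD ζ x.1 x.1
    have h3 : (2 : ZMod p) * D ζ x.1 x.1 = 0 := by linear_combination h
    have h4 := (mul_eq_zero.mp h3).resolve_left h2
    show (x.2.1 : Fin (z + 1) → Dual (ZMod p) I) ζ x.1 -
      (x.2.1 : Fin (z + 1) → Dual (ZMod p) I) ζ x.1 + D ζ x.1 x.1 = 0
    rw [h4]
    ring
  nil := by
    intro x y
    refine LinearMap.ext fun v => ?_
    refine Prod.ext rfl (Prod.ext rfl ?_)
    funext ζ
    show (v.2.1 : Fin (z + 1) → Dual (ZMod p) I) ζ 0 -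
      ((0 : Wsp A) : Fin (z + 1) → Dual (ZMod p) I) ζ v.1 + D ζ 0 v.1 = 0
    simp

/-- the coordinates of the group `G A D` -/
def baerG (A : Tup (ZMod p) I z) (D : CoTup (ZMod p) I z) :
    Baer (V := VV A) (G A D) (bet A D) where
  ε := G.equivProd
  mul := by
    intro x y
    refine Prod.ext (add_zero _).symm (Prod.ext (add_zero _).symm ?_)
    funext ζ
    show x.t ζ + y.t ζ + (y.w : Fin (z + 1) → Dual (ZMod p) I) ζ x.i
      - (x.w : Fin (z + 1) → Dual (ZMod p) I) ζ y.i + D ζ x.i y.i =
      x.t ζ + y.t ζ + ((y.w : Fin (z + 1) → Dual (ZMod p) I) ζ x.i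
      - (x.w : Fin (z + 1) → Dual (ZMod p) I) ζ y.i + D ζ x.i y.i)
    ring

theorem baerG_apply (A : Tup (ZMod p) I z) (D : CoTup (ZMod p) I z) (x : G A D) :
    (baerG A D).ε x = (x.i, x.w, x.t) := rfl

end Pool.Agent.STS
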