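import Pool.Agent.STS.LevelsP
import Pool.Agent.STS.GBaer
import Pool.Agent.SRGWL.SosG

/-!
# The translations act on the blocks of the Steiner systems `design (bet A D)`

The translation `T (i,w,t) = (i, w + C i, t)` maps the line `(x,e,l)` to the line `(T x, T e, l)` and the
cross block `(x,d)` to the cross block `(T x, T d)`; this is a bijection of the blocks for every `C`. If
`C` is a local solution on a subspace which contains the `I`-components of the points of a block, then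
the new block is the image of the block under `T`.
-/

namespace Pool.Agent.STS

section General

variable {p : ℕ} [Fact p.Prime] {V : Type*} [AddCommGroup V] [Module (ZMod p) V]

/-- the lines in the levels -/
def IsLine (b : Finset (V × ZMod p)) : Prop := ∃ (x e : V) (l : ZMod p), e ≠ 0 ∧ b = lineB x e l

variable (p V) in
/-- the type of the lines in the levels -/
abbrev LineT : Type _ := {b : Finset (V × ZMod p) // IsLine b}

theorem cross_ne_line {β : V →ₗ[ZMod p] V →ₗ[ZMod p] V} {x d : V} : ¬ IsLine (crossB β x d) := by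
  rintro ⟨y, e, l, -, h⟩
  have h0 : ((kap β 0 x d, 0) : V × ZMod p) ∈ crossB β x d := mem_crossL.mpr rfl
  have h1 : ((kap β 1 x d, 1) : V × ZMod p) ∈ crossB β x d := mem_crossL.mpr rfl
  rw [h, mem_lineL] at h0 h1
  obtain ⟨s, hs⟩ := h0
  obtain ⟨t, ht⟩ := h1
  have h2 : (0 : ZMod p) = 1 := (congrArg Prod.snd hs).trans (congrArg Prod.snd ht).symm
  exact zero_ne_one h2

/-- the blocks are the lines in the levels and the cross blocks -/
noncomputable def desE (β : V →ₗ[ZMod p] V →ₗ[ZMod p] V) (h : Nil2 β) :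
    (LineT p V) ⊕ (V × V) ≃ design β :=
  Equiv.ofBijective (fun s => match s with
    | Sum.inl b => ⟨b.1, Or.inl b.2⟩
    | Sum.inr v => ⟨crossB β v.1 v.2, Or.inr ⟨v.1, v.2, rfl⟩⟩) (by
    constructor
    · rintro (b | ⟨x, d⟩) (c | ⟨x', d'⟩) hbc
      · have h1 : b.1 = c.1 := congrArg (fun y : design β => y.1) hbc
        rw [Subtype.ext h1]
      · have h1 : b.1 = crossB β x' d' := congrArg (fun y : design β => y.1) hbc
        exact absurd (h1 ▸ b.2) cross_ne_line
      · have h1 : crossB β x d = c.1 := congrArg (fun y : design β => y.1) hbc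
        exact absurd (h1 ▸ c.2) cross_ne_line
      · have h1 : crossB β x d = crossB β x' d' := congrArg (fun y : design β => y.1) hbc
        have h2 : ∀ l, kap β l x d = kap β l x' d' := by
          intro l
          have h3 : ((kap β l x d, l) : V × ZMod p) ∈ crossB β x d := mem_crossL.mpr rfl
          rw [h1] at h3
          exact mem_crossL.mp h3
        obtain ⟨e1, e2⟩ := kap_injL h (zero_ne_one (α := ZMod p)) (h2 0) (h2 1)
        rw [e1, e2]
    · rintro ⟨b, hb | ⟨x, d, rfl⟩⟩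
      · exact ⟨Sum.inl ⟨b, hb⟩, rfl⟩
      · exact ⟨Sum.inr (x, d), rfl⟩)

theorem desE_inl (β : V →ₗ[ZMod p] V →ₗ[ZMod p] V) (h : Nil2 β) (b : LineT p V) :
    (desE β h (Sum.inl b)).1 = b.1 := rfl

theorem desE_inr (β : V →ₗ[ZMod p] V →ₗ[ZMod p] V) (h : Nil2 β) (x d : V) :
    (desE β h (Sum.inr (x, d))).1 = crossB β x d := rfl

/-- a linear map on the points -/
def ptE (T : V ≃ₗ[ZMod p] V) : V × ZMod p ≃ V × ZMod p := T.toEquiv.prodCongr (Equiv.refl _)

theorem map_lineB (T : V ≃ₗ[ZMod p] V) (x e : V) (l : ZMod p) :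
    (lineB x e l).map (ptE T).toEmbedding = lineB (T x) (T e) l := by
  ext q
  rw [Finset.mem_map, mem_lineL]
  constructor
  · rintro ⟨r, hr, rfl⟩
    obtain ⟨t, rfl⟩ := mem_lineL.mp hr
    refine ⟨t, ?_⟩
    show (T (x + t • e), l) = _
    rw [map_add, map_smul]
  · rintro ⟨t, rfl⟩
    refine ⟨(x + t • e, l), mem_lineL.mpr ⟨t, rfl⟩, ?_⟩
    show (T (x + t • e), l) = _
    rw [map_add, map_smul]

theorem IsLine.map {b : Finset (V × ZMod p)} (hb : IsLine b) (T : V ≃ₗ[ZMod p] V) :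
    IsLine (b.map (ptE T).toEmbedding) := by
  obtain ⟨x, e, l, he, rfl⟩ := hb
  exact ⟨T x, T e, l, fun h => he (T.map_eq_zero_iff.mp h), map_lineB T x e l⟩

/-- a linear map on the lines -/
def lineE (T : V ≃ₗ[ZMod p] V) : LineT p V ≃ LineT p V where
  toFun b := ⟨b.1.map (ptE T).toEmbedding, b.2.map T⟩
  invFun b := ⟨b.1.map (ptE T.symm).toEmbedding, b.2.map T.symm⟩
  left_inv b := by
    apply Subtype.ext
    show (b.1.map (ptE T).toEmbedding).map (ptE T.symm).toEmbedding = b.1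
    rw [Finset.map_map]
    have : (ptE T).toEmbedding.trans (ptE T.symm).toEmbedding =
        Function.Embedding.refl (V × ZMod p) := by
      ext1 q
      exact Prod.ext (T.symm_apply_apply _) rfl
    rw [this, Finset.map_refl]
  right_inv b := by
    apply Subtype.ext
    show (b.1.map (ptE T.symm).toEmbedding).map (ptE T).toEmbedding = b.1
    rw [Finset.map_map]
    have : (ptE T.symm).toEmbedding.trans (ptE T).toEmbedding =
        Function.Embedding.refl (V × ZMod p) := by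
      ext1 q
      exact Prod.ext (T.apply_symm_apply _) rfl
    rw [this, Finset.map_refl]

/-- the action on the blocks -/
noncomputable def blkE {β β' : V →ₗ[ZMod p] V →ₗ[ZMod p] V} (h : Nil2 β) (h' : Nil2 β')
    (T : V ≃ₗ[ZMod p] V) : design β ≃ design β' :=
  (desE β h).symm.trans ((Equiv.sumCongr (lineE T) (T.toEquiv.prodCongr T.toEquiv)).trans
    (desE β' h'))

theorem blkE_line {β β' : V →ₗ[ZMod p] V →ₗ[ZMod p] V} (h : Nil2 β) (h' : Nil2 β')
    (T : V ≃ₗ[ZMod p] V) (b : design β) (hb : IsLine b.1) :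
    (blkE h h' T b).1 = b.1.map (ptE T).toEmbedding := by
  have h1 : b = desE β h (Sum.inl ⟨b.1, hb⟩) := rfl
  show (desE β' h' (Equiv.sumCongr _ _ ((desE β h).symm b))).1 = _
  rw [h1, Equiv.symm_apply_apply]
  rfl

theorem blkE_cross {β β' : V →ₗ[ZMod p] V →ₗ[ZMod p] V} (h : Nil2 β) (h' : Nil2 β')
    (T : V ≃ₗ[ZMod p] V) (b : design β) {x d : V} (hb : b.1 = crossB β x d) :
    (blkE h h' T b).1 = crossB β' (T x) (T d) := by
  have h1 : b = desE β h (Sum.inr (x, d)) := Subtype.ext hb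
  show (desE β' h' (Equiv.sumCongr _ _ ((desE β h).symm b))).1 = _
  rw [h1, Equiv.symm_apply_apply]
  rfl

end General

open Module Pool.Agent.SRGWL

section Moves

variable {p : ℕ} [Fact p.Prime] {I : Type} [AddCommGroup I] [Module (ZMod p) I] {z : ℕ}

/-- the translation by `C` in coordinates -/
def TT {A : Tup (ZMod p) I z} (C : WLAux.CC A) : VV A ≃ₗ[ZMod p] VV A where
  toFun x := (x.1, x.2.1 + ⟨fun ζ => C.1 ζ x.1, C.2 x.1⟩, x.2.2)
  invFun x := (x.1, x.2.1 - ⟨fun ζ => C.1 ζ x.1, C.2 x.1⟩, x.2.2)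
  map_add' x y := by
    refine Prod.ext rfl (Prod.ext ?_ rfl)
    apply Subtype.ext
    funext ζ
    show ((x.2.1 : Fin (z + 1) → Dual (ZMod p) I) ζ + (y.2.1 : Fin (z + 1) → Dual (ZMod p) I) ζ) +
      C.1 ζ (x.1 + y.1) = ((x.2.1 : Fin (z + 1) → Dual (ZMod p) I) ζ + C.1 ζ x.1) +
      ((y.2.1 : Fin (z + 1) → Dual (ZMod p) I) ζ + C.1 ζ y.1)
    rw [map_add]
    abel
  map_smul' c x := by
    refine Prod.ext rfl (Prod.ext ?_ rfl)
    apply Subtype.ext
    funext ζ
    show (c • (x.2.1 : Fin (z + 1) → Dual (ZMod p) I) ζ) + C.1 ζ (c • x.1) =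
      c • ((x.2.1 : Fin (z + 1) → Dual (ZMod p) I) ζ + C.1 ζ x.1)
    rw [map_smul, smul_add]
  left_inv x := by
    refine Prod.ext rfl (Prod.ext ?_ rfl)
    exact add_sub_cancel_right x.2.1 (⟨fun ζ => C.1 ζ x.1, C.2 x.1⟩ : Wsp A)
  right_inv x := by
    refine Prod.ext rfl (Prod.ext ?_ rfl)
    exact sub_add_cancel x.2.1 (⟨fun ζ => C.1 ζ x.1, C.2 x.1⟩ : Wsp A)

variable {A : Tup (ZMod p) I z} {D : CoTup (ZMod p) I z}

theorem TT_fst (C : WLAux.CC A) (x : VV A) : (TT C x).1 = x.1 := rfl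

theorem TT_congr {C C' : WLAux.CC A} {x : VV A} (h : ∀ ζ, C'.1 ζ x.1 = C.1 ζ x.1) :
    TT C' x = TT C x := by
  refine Prod.ext rfl (Prod.ext ?_ rfl)
  apply Subtype.ext
  funext ζ
  show (x.2.1 : Fin (z + 1) → Dual (ZMod p) I) ζ + C'.1 ζ x.1 =
    (x.2.1 : Fin (z + 1) → Dual (ZMod p) I) ζ + C.1 ζ x.1
  rw [h]

/-- local solutions respect the commutator form -/
theorem bet_TT {C : WLAux.CC A} {W : Submodule (ZMod p) I}
    (hloc : ∀ u ∈ W, ∀ v ∈ W, ∀ ζ, C.1 ζ u v - C.1 ζ v u = D ζ u v) {x y : VV A} (hx : x.1 ∈ W)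
    (hy : y.1 ∈ W) : bet A D (TT C x) (TT C y) = bet A 0 x y := by
  refine Prod.ext rfl (Prod.ext rfl ?_)
  funext ζ
  have h := hloc _ hx _ hy ζ
  show ((y.2.1 : Fin (z + 1) → Dual (ZMod p) I) ζ + C.1 ζ y.1) x.1 -
      ((x.2.1 : Fin (z + 1) → Dual (ZMod p) I) ζ + C.1 ζ x.1) y.1 + D ζ x.1 y.1 =
    (y.2.1 : Fin (z + 1) → Dual (ZMod p) I) ζ x.1 -
      (x.2.1 : Fin (z + 1) → Dual (ZMod p) I) ζ y.1 + (0 : CoTup (ZMod p) I z) ζ x.1 y.1
  simp only [LinearMap.add_apply, Pi.zero_apply, LinearMap.zero_apply]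
  rw [← h]
  ring

theorem TT_bet (C : WLAux.CC A) (D' : CoTup (ZMod p) I z) (x y : VV A) :
    TT C (bet A D' x y) = bet A D' x y := by
  refine Prod.ext rfl (Prod.ext ?_ rfl)
  apply Subtype.ext
  funext ζ
  show (0 : Dual (ZMod p) I) + C.1 ζ (0 : I) = 0
  rw [map_zero, add_zero]

/-- the image of a cross block under a local solution -/
theorem kap_TT {C : WLAux.CC A} {W : Submodule (ZMod p) I}
    (hloc : ∀ u ∈ W, ∀ v ∈ W, ∀ ζ, C.1 ζ u v - C.1 ζ v u = D ζ u v) {x d : VV A} (hx : x.1 ∈ W)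
    (hd : d.1 ∈ W) (l : ZMod p) :
    kap (V := VV A) (bet A D) l (TT C x) (TT C d) = TT C (kap (V := VV A) (bet A 0) l x d) := by
  rcases eq_or_ne l (-1) with rfl | hl
  · rw [kap_negL, kap_negL, bet_TT hloc hx hd, map_sub, TT_bet]
  · rw [kap_neL hl, kap_neL hl, map_add, map_smul]

theorem kap_fst (D' : CoTup (ZMod p) I z) (l : ZMod p) (x d : VV A) :
    (kap (V := VV A) (bet A D') l x d).1 = if l = -1 then d.1 else x.1 + l • d.1 := by
  rcases eq_or_ne l (-1) with rfl | hl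
  · rw [kap_negL, if_pos rfl]
    show d.1 - 0 = d.1
    rw [sub_zero]
  · rw [kap_neL hl, if_neg hl]
    rfl

/-- the support of a block -/
def supB (b : Finset (VV A × ZMod p)) : Submodule (ZMod p) I :=
  Submodule.span (ZMod p) ((fun q : VV A × ZMod p => q.1.1) '' b)

theorem mem_supB {b : Finset (VV A × ZMod p)} {q : VV A × ZMod p} (hq : q ∈ b) :
    q.1.1 ∈ supB b := Submodule.subset_span ⟨q, hq, rfl⟩

theorem supB_cross (hp : p ≠ 2) (D' : CoTup (ZMod p) I z) (x d : VV A) :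
    supB (crossB (V := VV A) (bet A D') x d) = Submodule.span (ZMod p) {x.1, d.1} := by
  apply le_antisymm
  · rw [supB, Submodule.span_le]
    rintro _ ⟨q, hq, rfl⟩
    have h1 := mem_crossL.mp hq
    show q.1.1 ∈ Submodule.span (ZMod p) {x.1, d.1}
    have hx : x.1 ∈ Submodule.span (ZMod p) {x.1, d.1} := Submodule.subset_span (Or.inl rfl)
    have hd : d.1 ∈ Submodule.span (ZMod p) {x.1, d.1} := Submodule.subset_span (Or.inr rfl)
    rw [h1, kap_fst]
    split_ifs
    · exact hd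
    · exact Submodule.add_mem _ hx (Submodule.smul_mem _ _ hd)
  · have h0 := mem_supB (mem_crossL.mpr rfl : ((kap (V := VV A) (bet A D') 0 x d, 0) :
      VV A × ZMod p) ∈ crossB (V := VV A) (bet A D') x d)
    have h1 := mem_supB (mem_crossL.mpr rfl : ((kap (V := VV A) (bet A D') 1 x d, 1) :
      VV A × ZMod p) ∈ crossB (V := VV A) (bet A D') x d)
    have hone : (1 : ZMod p) ≠ -1 := by
      intro h1
      apply two_ne hp
      have : (2 : ZMod p) = 1 + 1 := by norm_num
      rw [this]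
      nth_rewrite 2 [h1]
      exact add_neg_cancel 1
    have hzero : (0 : ZMod p) ≠ -1 := by
      intro h1
      have : (1 : ZMod p) = 0 := by
        rw [← neg_neg (1 : ZMod p), ← h1, neg_zero]
      exact one_ne_zero this
    rw [kap_fst, if_neg hzero, zero_smul, add_zero] at h0
    rw [kap_fst, if_neg hone, one_smul] at h1
    rw [Submodule.span_le]
    rintro _ (rfl | rfl)
    · exact h0
    · have := Submodule.sub_mem _ h1 h0
      rwa [add_sub_cancel_left] at this

theorem supB_line (x e : VV A) (l : ZMod p) :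
    supB (lineB (V := VV A) x e l) = Submodule.span (ZMod p) {x.1, e.1} := by
  apply le_antisymm
  · rw [supB, Submodule.span_le]
    rintro _ ⟨q, hq, rfl⟩
    obtain ⟨t, rfl⟩ := mem_lineL.mp hq
    show x.1 + t • e.1 ∈ Submodule.span (ZMod p) {x.1, e.1}
    exact Submodule.add_mem _ (Submodule.subset_span (Or.inl rfl))
      (Submodule.smul_mem _ _ (Submodule.subset_span (Or.inr rfl)))
  · have h0 := mem_supB (mem_lineL.mpr ⟨0, rfl⟩ : ((x + (0 : ZMod p) • e, l) :
      VV A × ZMod p) ∈ lineB (V := VV A) x e l)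
    have h1 := mem_supB (mem_lineL.mpr ⟨1, rfl⟩ : ((x + (1 : ZMod p) • e, l) :
      VV A × ZMod p) ∈ lineB (V := VV A) x e l)
    rw [zero_smul, add_zero] at h0
    rw [one_smul] at h1
    rw [Submodule.span_le]
    rintro _ (rfl | rfl)
    · exact h0
    · have := Submodule.sub_mem _ h1 h0
      have e1 : (x + e).1 - x.1 = e.1 := add_sub_cancel_left _ _
      rwa [e1] at this

theorem finrank_pair [Module.Finite (ZMod p) I] (a c : I) :
    finrank (ZMod p) (Submodule.span (ZMod p) {a, c}) ≤ 2 := by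
  classical
  have h := finrank_span_finset_le_card (R := ZMod p) ({a, c} : Finset I)
  rw [Finset.coe_pair] at h
  exact h.trans Finset.card_le_two

theorem dim_supB [Module.Finite (ZMod p) I] (hp : p ≠ 2) (D' : CoTup (ZMod p) I z)
    (b : design (V := VV A) (bet A D')) : finrank (ZMod p) (supB b.1) ≤ 2 := by
  obtain ⟨b, ⟨x, e, l, -, rfl⟩ | ⟨x, d, rfl⟩⟩ := b
  · rw [supB_line]
    exact finrank_pair _ _
  · rw [supB_cross hp]
    exact finrank_pair _ _

theorem supB_map (C : WLAux.CC A) (b : Finset (VV A × ZMod p)) :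
    supB (b.map (ptE (V := VV A) (TT C)).toEmbedding) = supB b := by
  rw [supB, supB]
  congr 1
  ext i
  constructor
  · rintro ⟨q, hq, rfl⟩
    obtain ⟨r, hr, rfl⟩ := Finset.mem_map.mp hq
    exact ⟨r, hr, rfl⟩
  · rintro ⟨q, hq, rfl⟩
    exact ⟨_, Finset.mem_coe.mpr (Finset.mem_map.mpr ⟨q, hq, rfl⟩), rfl⟩

/-- the translations of the blocks -/
noncomputable def desMoves [Module.Finite (ZMod p) I] (hp : p ≠ 2) (A : Tup (ZMod p) I z)
    {D : CoTup (ZMod p) I z} (hD : CoSkew D) :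
    Sos.Moves A (design (V := VV A) (bet A 0)) (design (V := VV A) (bet A D)) 2 where
  sup b := supB b.1
  sup' b := supB b.1
  dim := dim_supB hp 0
  dim' := dim_supB hp D
  φ C := blkE (V := VV A) (nil2_bet hp A (fun _ _ _ => by simp)) (nil2_bet hp A hD) (TT C)
  sup_φ := by
    intro C b
    obtain ⟨b, hb⟩ := b
    rcases hb with hb | ⟨x, d, rfl⟩
    · have hb' : IsLine b := hb
      rw [blkE_line _ _ _ ⟨b, Or.inl hb⟩ hb', supB_map]
    · rw [blkE_cross _ _ _ _ rfl, supB_cross hp, supB_cross hp]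
      rfl
  congr := by
    intro C C' b h
    obtain ⟨b, hb⟩ := b
    apply Subtype.ext
    rcases hb with hb | ⟨x, d, rfl⟩
    · have hb' : IsLine b := hb
      rw [blkE_line _ _ _ ⟨b, Or.inl hb⟩ hb', blkE_line _ _ _ ⟨b, Or.inl hb⟩ hb']
      ext q
      rw [Finset.mem_map, Finset.mem_map]
      constructor
      · rintro ⟨r, hr, rfl⟩
        exact ⟨r, hr, Prod.ext (TT_congr (h _ (mem_supB hr))).symm rfl⟩
      · rintro ⟨r, hr, rfl⟩
        exact ⟨r, hr, Prod.ext (TT_congr (h _ (mem_supB hr))) rfl⟩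
    · rw [blkE_cross _ _ _ _ rfl, blkE_cross _ _ _ _ rfl]
      have h' := h
      rw [supB_cross hp] at h'
      rw [TT_congr (h' _ (Submodule.subset_span (Or.inl rfl))),
        TT_congr (h' _ (Submodule.subset_span (Or.inr rfl)))]

/-- the image of a block under a local solution -/
theorem desMoves_φ [Module.Finite (ZMod p) I] (hp : p ≠ 2) (hD : CoSkew D) {C : WLAux.CC A}
    {W : Submodule (ZMod p) I}
    (hloc : ∀ u ∈ W, ∀ v ∈ W, ∀ ζ, C.1 ζ u v - C.1 ζ v u = D ζ u v)
    (b : design (V := VV A) (bet A 0)) (hb : supB b.1 ≤ W) :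
    ((desMoves hp A hD).φ C b).1 = b.1.map (ptE (V := VV A) (TT C)).toEmbedding := by
  obtain ⟨b, hb1⟩ := b
  rcases hb1 with hb1 | ⟨x, d, rfl⟩
  · exact blkE_line _ _ _ _ hb1
  · refine (blkE_cross _ _ _ _ rfl).trans ?_
    have h1 : Submodule.span (ZMod p) {x.1, d.1} ≤ W := by
      rw [← supB_cross hp 0 x d]
      exact hb
    have hx : x.1 ∈ W := h1 (Submodule.subset_span (Or.inl rfl))
    have hd : d.1 ∈ W := h1 (Submodule.subset_span (Or.inr rfl))
    ext q
    rw [mem_crossL, Finset.mem_map]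
    constructor
    · intro h
      refine ⟨(kap (V := VV A) (bet A 0) q.2 x d, q.2), mem_crossL.mpr rfl, ?_⟩
      exact Prod.ext (h.trans (kap_TT hloc hx hd q.2)).symm rfl
    · rintro ⟨r, hr, rfl⟩
      have h2 := mem_crossL.mp hr
      show TT C r.1 = kap (V := VV A) (bet A D) r.2 (TT C x) (TT C d)
      rw [kap_TT hloc hx hd, h2]

/-- the adjacency of blocks -/
theorem desMoves_resp [Module.Finite (ZMod p) I] (hp : p ≠ 2) (hD : CoSkew D) :
    (desMoves hp A hD).Resp D (blockGraph (design (V := VV A) (bet A 0)))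
      (blockGraph (design (V := VV A) (bet A D))) := by
  intro C W hloc b c hb hc
  have eb := desMoves_φ hp hD hloc b hb
  have ec := desMoves_φ hp hD hloc c hc
  show (b ≠ c ∧ ∃ q, q ∈ b.1 ∧ q ∈ c.1) ↔ ((desMoves hp A hD).φ C b ≠ (desMoves hp A hD).φ C c ∧
    ∃ q, q ∈ ((desMoves hp A hD).φ C b).1 ∧ q ∈ ((desMoves hp A hD).φ C c).1)
  rw [eb, ec, ((desMoves hp A hD).φ C).injective.ne_iff]
  refine and_congr_right fun _ => ?_
  constructor
  · rintro ⟨q, h1, h2⟩
    exact ⟨_, Finset.mem_map.mpr ⟨q, h1, rfl⟩, Finset.mem_map.mpr ⟨q, h2, rfl⟩⟩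
  · rintro ⟨q, h1, h2⟩
    obtain ⟨r, hr, rfl⟩ := Finset.mem_map.mp h1
    obtain ⟨s, hs, hrs⟩ := Finset.mem_map.mp h2
    have := (ptE (V := VV A) (TT C)).injective hrs
    exact ⟨r, hr, this ▸ hs⟩

end Moves

end Pool.Agent.STS
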