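import Pool.Agent.STS.StFinal
import Pool.Agent.STS.DesMoves

/-!
# Two Steiner systems whose block graphs are not distinguished
-/

namespace Pool.Agent.STS

open Pool.Agent.SRGWL Pool.Agent.SRGWL.Sos Module

variable {p : ℕ} [Fact p.Prime] {I : Type} [AddCommGroup I] [Module (ZMod p) I] [Finite I] {z : ℕ}

open Classical in
theorem dsg_isSRG (hp : p ≠ 2) (A : Tup (ZMod p) I z) {D : CoTup (ZMod p) I z} (hD : CoSkew D)
    [Fintype (VV A × ZMod p)] {n : ℕ} (hn : Fintype.card (VV A × ZMod p) = p * n) (hpn : p ≤ n) :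
    (blockGraph (dsg A D)).IsSRGWith (p * n * (p * n - 1) / (p * (p - 1)))
      (p * ((p * n - 1) / (p - 1) - 1)) ((p * n - 1) / (p - 1) - 2 + (p - 1) ^ 2) (p ^ 2) := by
  have h := St.isSRG (dsg_isSteiner hp A hD) (Fact.out : p.Prime).two_le (by
    rw [hn, pow_two]
    exact Nat.mul_le_mul_left _ hpn)
  rw [hn] at h
  exact h

open Classical in
theorem dsg_indist [Module.Finite (ZMod p) I] (hp : p ≠ 2) {A : Tup (ZMod p) I z}
    {D : CoTup (ZMod p) I z} (hD : CoSkew D) [Fintype (VV A × ZMod p)] {r : ℕ} (K : ℕ)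
    (hbase : Good A D r ⊥ 0)
    (hext : ∀ U U' : Submodule (ZMod p) I, U ≤ U' → finrank (ZMod p) U' ≤ K →
      ∀ C, Good A D r U C → ∃ C', Good A D r U' C' ∧ ∀ u ∈ U, ∀ ζ, C' ζ u = C ζ u)
    {k : ℕ} (hk : 6 * k + 2 ≤ K) :
    Indist p k (blockGraph (dsg A 0)) (blockGraph (dsg A D)) :=
  indist_of_moves (desMoves hp A hD) (desMoves_resp hp hD) (NonIso.two_ne hp) hD K hbase hext
    (by omega)

open Classical in
/-- For every odd prime `p` and every `k` there are two Steiner systems with blocks of size `p` on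
`p n` points, `n = p ^ (768 k + 272)`, whose block graphs are not isomorphic and not distinguished. -/
theorem steiner_part (p : ℕ) (hp : p.Prime) (hp2 : p ≠ 2) (k : ℕ) :
    ∃ (P : Type) (_ : Fintype P) (B₁ B₂ : Set (Finset P)) (n : ℕ), n = p ^ (768 * k + 272) ∧
      Fintype.card P = p * n ∧ IsSteiner p B₁ ∧ IsSteiner p B₂ ∧
      (blockGraph B₁).IsSRGWith (p * n * (p * n - 1) / (p * (p - 1)))
        (p * ((p * n - 1) / (p - 1) - 1)) ((p * n - 1) / (p - 1) - 2 + (p - 1) ^ 2) (p ^ 2) ∧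
      (blockGraph B₂).IsSRGWith (p * n * (p * n - 1) / (p * (p - 1)))
        (p * ((p * n - 1) / (p - 1) - 1)) ((p * n - 1) / (p - 1) - 2 + (p - 1) ^ 2) (p ^ 2) ∧
      IsEmpty (blockGraph B₁ ≃g blockGraph B₂) ∧ Indist p k (blockGraph B₁) (blockGraph B₂) := by
  have : Fact p.Prime := ⟨hp⟩
  obtain ⟨A, D, r, hall, hD, hiso, hbase, hext⟩ :=
    exists_special_groups2 p hp2 (3 * k + 1) (by omega)
  have hn : 256 * (3 * k + 1) + 16 = 768 * k + 272 := by ring
  have hfin : Finite (VV A) := finite_VV A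
  have hft : Fintype (VV A × ZMod p) := Fintype.ofFinite _
  have h0 := hall 0 (fun _ _ _ => by simp)
  have h1 := hall D hD
  rw [hn] at h0 h1
  have hcard : Fintype.card (VV A × ZMod p) = p * p ^ (768 * k + 272) := by
    rw [← Nat.card_eq_fintype_card, Nat.card_prod, Nat.card_zmod, card_VV A 0, h0.1, mul_comm]
  have hpn : p ≤ p ^ (768 * k + 272) := Nat.le_self_pow (by omega) p
  exact ⟨VV A × ZMod p, hft, dsg A 0, dsg A D, _, rfl, hcard, dsg_isSteiner hp2 A coSkew_zero,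
    dsg_isSteiner hp2 A hD, dsg_isSRG hp2 A coSkew_zero hcard hpn, dsg_isSRG hp2 A hD hcard hpn,
    dsg_not_iso hp2 hD h0.1 h1.1 h1.2.2.2 (by omega) (by omega) hiso,
    dsg_indist hp2 hD (2 * (3 * k + 1)) hbase hext (by omega)⟩

end Pool.Agent.STS
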