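import Pool.Agent.STS.LevelsP

/-!
# `design β` is a Steiner system `S(2, p, p |V|)`
-/

namespace Pool.Agent.STS

variable {p : ℕ} [Fact p.Prime] {V : Type*} [AddCommGroup V] [Module (ZMod p) V]
  {β : V →ₗ[ZMod p] V →ₗ[ZMod p] V}

theorem card_lineB {x e : V} (he : e ≠ 0) (l : ZMod p) : (lineB x e l).card = p := by
  classical
  unfold lineB
  rw [Finset.card_image_of_injective, Finset.card_univ, ZMod.card]
  intro s t hst
  have h1 : x + s • e = x + t • e := congrArg Prod.fst hst
  have h2 : (s - t) • e = 0 := by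
    rw [sub_smul, add_left_cancel h1, sub_self]
  exact sub_eq_zero.mp ((smul_eq_zero.mp h2).resolve_right he)

theorem card_crossB (x d : V) : (crossB β x d).card = p := by
  classical
  unfold crossB
  rw [Finset.card_image_of_injective, Finset.card_univ, ZMod.card]
  intro s t hst
  exact congrArg Prod.snd hst

/-- two different points of a line determine it -/
theorem lineB_eq {x e u v : V} {l : ZMod p} (hu : (u, l) ∈ lineB x e l) (hv : (v, l) ∈ lineB x e l)
    (huv : u ≠ v) : lineB x e l = lineB u (v - u) l := by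
  obtain ⟨s, hs'⟩ := mem_lineL.mp hu
  obtain ⟨t, ht'⟩ := mem_lineL.mp hv
  have hs : u = x + s • e := congrArg Prod.fst hs'
  have ht : v = x + t • e := congrArg Prod.fst ht'
  have hst : t - s ≠ 0 := by
    intro h
    apply huv
    rw [hs, ht, sub_eq_zero.mp h]
  have hvu : v - u = (t - s) • e := by
    rw [hs, ht, sub_smul]
    abel
  ext q
  rw [mem_lineL, mem_lineL]
  constructor
  · rintro ⟨r, hr⟩
    refine ⟨(r - s) * (t - s)⁻¹, ?_⟩
    rw [hr]
    refine Prod.ext ?_ rfl
    show x + r • e = u + ((r - s) * (t - s)⁻¹) • (v - u)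
    rw [hvu, smul_smul, mul_assoc, inv_mul_cancel₀ hst, mul_one, hs, sub_smul]
    abel
  · rintro ⟨r, hr⟩
    refine ⟨s + r * (t - s), ?_⟩
    rw [hr]
    refine Prod.ext ?_ rfl
    show u + r • (v - u) = x + (s + r * (t - s)) • e
    rw [hvu, smul_smul, hs, add_smul]
    abel

/-- every two points in one level lie on exactly one block, a line; in different levels on exactly one
block, a cross block -/
theorem design_isSteiner (h : Nil2 β) : IsSteiner p (design β) := by
  refine ⟨?_, ?_⟩
  · rintro b (⟨x, e, l, he, rfl⟩ | ⟨x, d, rfl⟩)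
    · exact card_lineB he l
    · exact card_crossB x d
  · rintro ⟨u, a⟩ ⟨v, b⟩ hne
    by_cases hab : a = b
    · subst hab
      have huv : u ≠ v := fun h' => hne (by rw [h'])
      refine ⟨lineB u (v - u) a, ⟨Or.inl ⟨u, v - u, a, sub_ne_zero.mpr huv.symm, rfl⟩, ?_, ?_⟩, ?_⟩
      · exact mem_lineL.mpr ⟨0, by rw [zero_smul, add_zero]⟩
      · exact mem_lineL.mpr ⟨1, by rw [one_smul, add_sub_cancel]⟩
      · rintro c ⟨⟨x, e, l, -, rfl⟩ | ⟨x, d, rfl⟩, hu, hv⟩
        · obtain ⟨t, ht⟩ := mem_lineL.mp hu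
          obtain rfl : a = l := congrArg Prod.snd ht
          exact lineB_eq hu hv huv
        · have h1 : u = kap β a x d := mem_crossL.mp hu
          have h2 : v = kap β a x d := mem_crossL.mp hv
          exact absurd (h1.trans h2.symm) huv
    · obtain ⟨x, d, h1, h2⟩ := exists_crossL h hab u v
      refine ⟨crossB β x d, ⟨Or.inr ⟨x, d, rfl⟩, mem_crossL.mpr h1.symm, mem_crossL.mpr h2.symm⟩, ?_⟩
      rintro c ⟨⟨x', e, l, -, rfl⟩ | ⟨x', d', rfl⟩, hu, hv⟩
      · obtain ⟨t, ht⟩ := mem_lineL.mp hu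
        obtain ⟨t', ht'⟩ := mem_lineL.mp hv
        have h3 : a = l := congrArg Prod.snd ht
        have h4 : b = l := congrArg Prod.snd ht'
        exact absurd (h3.trans h4.symm) hab
      · have h3 : u = kap β a x' d' := mem_crossL.mp hu
        have h4 : v = kap β b x' d' := mem_crossL.mp hv
        obtain ⟨rfl, rfl⟩ := kap_injL h hab (h1.trans h3) (h2.trans h4)
        rfl

end Pool.Agent.STS
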