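import Pool.Agent.STS.DF
import Pool.Agent.STS.Coord
import Pool.Agent.STS.DesMoves

/-!
# Steiner systems `S(2, m, p^N)` on a vector space, invariant under shears

`V` a vector space over `ZMod p`, `E` a perfect difference family with block size `m`, `ρ : V → ZMod p` with
`ρ (a y) = a ρ y` and `ρ y ≠ 0` for `y ≠ 0`. The blocks are `{x + s y : s ∈ B}`, `x ∈ V`, `ρ y = 1`, `B ∈ E`.

Proofs. `fill_isSteiner`: for `u ≠ v`, `v - u = λ y` for exactly one `λ ≠ 0` and `y` with `ρ y = 1` (`λ = ρ (v - u)`),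
`λ = s' - s` for exactly one `B ∈ E`, `s, s' ∈ B`, and `x = u - s y`.
`exists_rho`: from `Projectivization.rep`, or from the first nonzero coordinate.
`exists_rho_TT`: `ρ y = ρ₁ y.1` if `y.1 ≠ 0` and `ρ₂ y` otherwise; `TT C` does not change `y.1`, and it fixes `y` if
`y.1 = 0`.
-/

namespace Pool.Agent.STS

open Module

section General

variable {p : ℕ} [Fact p.Prime] {V : Type*} [AddCommGroup V] [Module (ZMod p) V]

/-- a normalisation of the directions -/
def IsRho (ρ : V → ZMod p) : Prop := (∀ y, y ≠ 0 → ρ y ≠ 0) ∧ ∀ (a : ZMod p) y, ρ (a • y) = a * ρ y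

variable (p V) in
theorem exists_rho : ∃ ρ : V → ZMod p, IsRho ρ := by
  classical
  have h1 : ∀ y : V, ∃ a : ZMod p, ∀ h : y ≠ 0,
      y = a • (Projectivization.mk (ZMod p) y h).rep := by
    intro y
    by_cases h : y = 0
    · exact ⟨0, fun h' => absurd h h'⟩
    · obtain ⟨a, ha⟩ := Projectivization.exists_smul_eq_mk_rep (ZMod p) y h
      refine ⟨((a⁻¹ : (ZMod p)ˣ) : ZMod p), fun h' => ?_⟩
      rw [← ha]
      change y = a⁻¹ • a • y
      rw [inv_smul_smul]
  choose a ha using h1
  refine ⟨fun y => if y = 0 then 0 else a y, ?_, ?_⟩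
  · intro y hy h
    change (if y = 0 then (0 : ZMod p) else a y) = 0 at h
    rw [if_neg hy] at h
    have h2 := ha y hy
    rw [h, zero_smul] at h2
    exact hy h2
  · intro c y
    change (if c • y = 0 then (0 : ZMod p) else a (c • y)) =
      c * (if y = 0 then (0 : ZMod p) else a y)
    by_cases hc : c = 0
    · rw [hc, zero_smul, zero_mul, if_pos rfl]
    by_cases hy : y = 0
    · rw [hy, smul_zero, if_pos rfl, mul_zero]
    · have hcy : c • y ≠ 0 := smul_ne_zero hc hy
      have h2 : (if c • y = 0 then (0 : ZMod p) else a (c • y)) = a (c • y) := if_neg hcy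
      have h3 : (if y = 0 then (0 : ZMod p) else a y) = a y := if_neg hy
      rw [h2, h3]
      have h4 := ha (c • y) hcy
      have h5 := ha y hy
      have h6 : (Projectivization.mk (ZMod p) (c • y) hcy) = Projectivization.mk (ZMod p) y hy := by
        rw [Projectivization.mk_eq_mk_iff]
        exact ⟨Units.mk0 c hc, rfl⟩
      rw [h6] at h4
      have h7 : a (c • y) • (Projectivization.mk (ZMod p) y hy).rep =
          (c * a y) • (Projectivization.mk (ZMod p) y hy).rep := by
        rw [← h4, mul_smul, ← h5]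
      exact smul_left_injective (ZMod p) (Projectivization.rep_nonzero _) h7

theorem IsRho.zero {ρ : V → ZMod p} (hρ : IsRho ρ) : ρ 0 = 0 := by
  have h := hρ.2 0 0
  rwa [zero_smul, zero_mul] at h

private theorem ne_of_one {ρ : V → ZMod p} (hρ : IsRho ρ) {y : V} (hy : ρ y = 1) : y ≠ 0 := by
  rintro rfl
  rw [hρ.zero] at hy
  exact zero_ne_one hy

open Classical in
/-- the Steiner system -/
def fillV (ρ : V → ZMod p) (E : Set (Finset (ZMod p))) : Set (Finset V) :=
  {b | ∃ (x y : V) (B : Finset (ZMod p)), B ∈ E ∧ ρ y = 1 ∧ b = B.image fun s => x + s • y}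

theorem fill_isSteiner {ρ : V → ZMod p} (hρ : IsRho ρ) {m : ℕ} {E : Set (Finset (ZMod p))}
    (hE : IsDF p m E) : IsSteiner m (fillV ρ E) := by
  classical
  refine ⟨?_, ?_⟩
  · rintro b ⟨x, y, B, hB, hy, rfl⟩
    rw [Finset.card_image_of_injective, hE.1 B hB]
    intro s t hst
    have h1 : s • y = t • y := add_left_cancel hst
    exact smul_left_injective (ZMod p) (ne_of_one hρ hy) h1
  · intro u v huv
    have hvu : v - u ≠ 0 := sub_ne_zero.2 (Ne.symm huv)
    set l := ρ (v - u) with hl
    have hl0 : l ≠ 0 := hρ.1 _ hvu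
    set y := l⁻¹ • (v - u) with hy
    have hy1 : ρ y = 1 := by rw [hy, hρ.2, ← hl, inv_mul_cancel₀ hl0]
    have hly : l • y = v - u := by rw [hy, smul_inv_smul₀ hl0]
    obtain ⟨⟨B, s⟩, ⟨hB, hs, hsl⟩, huniq⟩ := hE.2 l hl0
    simp only at hB hs hsl
    refine ⟨B.image fun t => (u - s • y) + t • y, ⟨⟨u - s • y, y, B, hB, hy1, ?_⟩, ?_, ?_⟩, ?_⟩
    · ext w
      simp only [Finset.mem_image]
    · rw [Finset.mem_image]
      exact ⟨s, hs, by abel⟩
    · rw [Finset.mem_image]
      refine ⟨s + l, hsl, ?_⟩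
      rw [add_smul, hly]
      abel
    · rintro b' ⟨⟨x', y', B', hB', hy', rfl⟩, hu', hv'⟩
      rw [Finset.mem_image] at hu' hv'
      obtain ⟨t, ht, htu⟩ := hu'
      obtain ⟨t', ht', htv⟩ := hv'
      have h1 : v - u = (t' - t) • y' := by
        rw [← htu, ← htv, sub_smul]
        abel
      have h2 : l = t' - t := by
        rw [hl, h1, hρ.2, hy', mul_one]
      have h3 : y' = y := by
        rw [hy, h1, ← h2, inv_smul_smul₀ hl0]
      have h4 : (B', t) = (B, s) := huniq (B', t) ⟨hB', ht, by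
        change t + l ∈ B'
        rw [h2]
        have h5 : t + (t' - t) = t' := by ring
        rw [h5]
        exact ht'⟩
      have h5 : B' = B := (Prod.mk.inj h4).1
      have h6 : t = s := (Prod.mk.inj h4).2
      have h7 : x' = u - s • y := by
        rw [← htu, h6, h3]
        abel
      rw [h7, h3, h5]

theorem fill_map {ρ : V → ZMod p} {E : Set (Finset (ZMod p))} (T : V ≃ₗ[ZMod p] V)
    (hT : ∀ y, ρ (T y) = ρ y) (b : Finset V) :
    b.map T.toEquiv.toEmbedding ∈ fillV ρ E ↔ b ∈ fillV ρ E := by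
  classical
  constructor
  · rintro ⟨x, y, B, hB, hy, h⟩
    refine ⟨T.symm x, T.symm y, B, hB, ?_, ?_⟩
    · rw [← hT, T.apply_symm_apply, hy]
    · ext w
      have h1 : w ∈ b ↔ T w ∈ b.map T.toEquiv.toEmbedding := by
        rw [Finset.mem_map]
        constructor
        · exact fun hw => ⟨w, hw, rfl⟩
        · rintro ⟨w', hw', h2⟩
          have h3 : T w' = T w := h2
          rwa [← T.injective h3]
      rw [h1, h, Finset.mem_image, Finset.mem_image]
      refine exists_congr fun s => and_congr_right fun _ => ?_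
      rw [← T.injective.eq_iff (a := T.symm x + s • T.symm y), map_add, map_smul,
        T.apply_symm_apply, T.apply_symm_apply]
  · rintro ⟨x, y, B, hB, hy, rfl⟩
    refine ⟨T x, T y, B, hB, by rw [hT, hy], ?_⟩
    ext w
    rw [Finset.mem_map, Finset.mem_image]
    constructor
    · rintro ⟨w', hw', rfl⟩
      rw [Finset.mem_image] at hw'
      obtain ⟨s, hs, rfl⟩ := hw'
      refine ⟨s, hs, ?_⟩
      change T x + s • T y = T (x + s • y)
      rw [map_add, map_smul]
    · rintro ⟨s, hs, rfl⟩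
      refine ⟨x + s • y, Finset.mem_image.2 ⟨s, hs, rfl⟩, ?_⟩
      change T (x + s • y) = T x + s • T y
      rw [map_add, map_smul]

/-- a block is contained in a line -/
theorem fill_sub {ρ : V → ZMod p} {E : Set (Finset (ZMod p))} {b : Finset V} (hb : b ∈ fillV ρ E) :
    ∃ x y : V, ∀ v ∈ b, ∃ s : ZMod p, v = x + s • y := by
  classical
  obtain ⟨x, y, B, hB, hy, rfl⟩ := hb
  refine ⟨x, y, fun v hv => ?_⟩
  rw [Finset.mem_image] at hv
  obtain ⟨s, -, h⟩ := hv
  exact ⟨s, h.symm⟩

end General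

open Pool.Agent.SRGWL

variable {p : ℕ} [Fact p.Prime] {I : Type} [AddCommGroup I] [Module (ZMod p) I] {z : ℕ}

theorem exists_rho_TT (A : Tup (ZMod p) I z) :
    ∃ ρ : VV A → ZMod p, IsRho ρ ∧ ∀ (C : WLAux.CC A) y, ρ (TT C y) = ρ y := by
  classical
  obtain ⟨r1, h1⟩ := exists_rho p I
  obtain ⟨r2, h2⟩ := exists_rho p (VV A)
  refine ⟨fun y => if y.1 = 0 then r2 y else r1 y.1, ⟨?_, ?_⟩, ?_⟩
  · intro y hy
    change (if y.1 = 0 then r2 y else r1 y.1) ≠ 0
    by_cases h : y.1 = 0
    · rw [if_pos h]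
      exact h2.1 y hy
    · rw [if_neg h]
      exact h1.1 _ h
  · intro a y
    change (if (a • y).1 = 0 then r2 (a • y) else r1 (a • y).1) =
      a * (if y.1 = 0 then r2 y else r1 y.1)
    by_cases ha : a = 0
    · rw [ha, zero_smul, zero_mul]
      exact (if_pos rfl).trans h2.zero
    · by_cases h : y.1 = 0
      · have h3 : (a • y).1 = 0 := by
          change a • y.1 = 0
          rw [h, smul_zero]
        rw [if_pos h3, if_pos h, h2.2]
      · have h3 : (a • y).1 ≠ 0 := smul_ne_zero ha h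
        rw [if_neg h3, if_neg h]
        exact h1.2 a y.1
  · intro C y
    change (if (TT C y).1 = 0 then r2 (TT C y) else r1 (TT C y).1) =
      (if y.1 = 0 then r2 y else r1 y.1)
    have h3 : (TT C y).1 = y.1 := rfl
    rw [h3]
    by_cases h : y.1 = 0
    · rw [if_pos h, if_pos h]
      congr 1
      refine Prod.ext rfl (Prod.ext ?_ rfl)
      change y.2.1 + _ = y.2.1
      rw [add_eq_left]
      apply Subtype.ext
      funext ζ
      change C.1 ζ y.1 = 0
      rw [h, map_zero]
    · rw [if_neg h, if_neg h]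

end Pool.Agent.STS
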