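import Pool.Agent.STS.Net

/-!
# Abstract nets: lines, cliques, isomorphisms of net graphs are isomorphisms of nets  (helper41)

Lines: the fibres of `c i`; `n = |Q|` points each. Let `n > (m-1)²`, `m = |C|`.
(1) A clique `S` which is contained in no line has at most `1 + m (m-2) = (m-1)²` points: a line `l` of
class `i` contains at most `m - 1` points of `S` (take `v ∈ S`, `v ∉ l`: every point of `S` on `l` agrees with
`v` in one of the other `m - 1` classes); now take `u ∈ S`: on each of the `m` lines through `u` there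
are at most `m - 2` other points of `S`.
(2) So an isomorphism `φ` maps lines (cliques with `n` points) onto lines. Two different lines are
parallel (same class) iff they are disjoint, so `φ` induces a permutation of the classes.
-/

set_option autoImplicit false
set_option linter.unusedSectionVars false

open Finset

namespace Pool.Agent.STS

section base

variable {C P Q : Type*} {c : C → P → Q}

theorem netG_adj (u v : P) : (netG c).Adj u v ↔ u ≠ v ∧ ∃ i, c i u = c i v := Iff.rfl

theorem IsNet.eq_of (hc : IsNet c) {i j : C} (hij : i ≠ j) {u v : P} (h1 : c i u = c i v)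
    (h2 : c j u = c j v) : u = v :=
  (hc i j hij).1 (Prod.ext h1 h2)

theorem IsNet.exists_pt (hc : IsNet c) {i j : C} (hij : i ≠ j) (a b : Q) :
    ∃ u : P, c i u = a ∧ c j u = b := by
  obtain ⟨u, hu⟩ := (hc i j hij).2 (a, b)
  exact ⟨u, congrArg Prod.fst hu, congrArg Prod.snd hu⟩

variable [Fintype C] [Fintype P] [Fintype Q]

theorem IsNet.other (hm : 2 ≤ Fintype.card C) (i : C) : ∃ j : C, i ≠ j := by
  obtain ⟨j, hj⟩ := Fintype.exists_ne_of_one_lt_card (show 1 < Fintype.card C by omega) i
  exact ⟨j, hj.symm⟩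

open Classical in
theorem IsNet.card_line (hc : IsNet c) (hm : 2 ≤ Fintype.card C) (i : C) (a : Q) :
    (Finset.univ.filter fun u : P => c i u = a).card = Fintype.card Q := by
  obtain ⟨j, hj⟩ := IsNet.other hm i
  rw [← Finset.card_univ]
  refine Finset.card_bij (fun u _ => c j u) (fun _ _ => Finset.mem_univ _) ?_ ?_
  · intro u hu v hv h
    rw [Finset.mem_filter] at hu hv
    exact hc.eq_of hj (hu.2.trans hv.2.symm) h
  · intro b _
    obtain ⟨u, h1, h2⟩ := hc.exists_pt hj a b
    exact ⟨u, Finset.mem_filter.2 ⟨Finset.mem_univ _, h1⟩, h2⟩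

theorem IsNet.card_points (hc : IsNet c) (hm : 2 ≤ Fintype.card C) :
    Fintype.card P = Fintype.card Q ^ 2 := by
  have h0 : 0 < Fintype.card C := by omega
  obtain ⟨i⟩ : Nonempty C := Fintype.card_pos_iff.1 h0
  obtain ⟨j, hj⟩ := IsNet.other hm i
  rw [Fintype.card_of_bijective (hc i j hj), Fintype.card_prod, sq]

open Classical in
/-- a clique which is contained in no line is small -/
theorem IsNet.clique_small (hc : IsNet c) (hm : 2 ≤ Fintype.card C) (S : Finset P)
    (hne : S.Nonempty)
    (hS : ∀ u ∈ S, ∀ v ∈ S, u ≠ v → ∃ i, c i u = c i v)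
    (hnl : ∀ (i : C) (a : Q), ∃ v ∈ S, c i v ≠ a) :
    S.card ≤ (Fintype.card C - 1) ^ 2 := by
  -- the number of points on a line
  have h1 : ∀ (i : C) (a : Q), (S.filter fun u => c i u = a).card ≤ Fintype.card C - 1 := by
    intro i a
    obtain ⟨v, hv, hva⟩ := hnl i a
    have hex : ∀ w : P, ∃ j : C, w ∈ (S.filter fun u => c i u = a) → c j w = c j v := by
      intro w
      by_cases hw : w ∈ (S.filter fun u => c i u = a)
      · rw [Finset.mem_filter] at hw
        have hne : w ≠ v := by
          rintro rfl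
          exact hva hw.2
        obtain ⟨j, hj⟩ := hS w hw.1 v hv hne
        exact ⟨j, fun _ => hj⟩
      · exact ⟨i, fun h => absurd h hw⟩
    choose g hg using hex
    have hcard : (Finset.univ.erase i).card = Fintype.card C - 1 := by
      rw [Finset.card_erase_of_mem (Finset.mem_univ i), Finset.card_univ]
    have hgc : ∀ w ∈ (S.filter fun u => c i u = a), g w ≠ i := by
      intro w hw hgw
      have h2 := hg w hw
      rw [hgw, (Finset.mem_filter.1 hw).2] at h2
      exact hva h2.symm
    refine (Finset.card_le_card_of_injOn (t := Finset.univ.erase i) g (fun w hw => ?_)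
      (fun w hw w' hw' hww => ?_)).trans hcard.le
    · have hw' : w ∈ (S.filter fun u => c i u = a) := by simpa using hw
      exact Finset.mem_coe.2 (Finset.mem_erase.2 ⟨hgc w hw', Finset.mem_univ _⟩)
    · have hw1 : w ∈ (S.filter fun u => c i u = a) := by simpa using hw
      have hw2 : w' ∈ (S.filter fun u => c i u = a) := by simpa using hw'
      have e1 := hg w hw1
      have e2 := hg w' hw2
      rw [← hww] at e2
      exact hc.eq_of (hgc w hw1) (e1.trans e2.symm)
        ((Finset.mem_filter.1 hw1).2.trans (Finset.mem_filter.1 hw2).2.symm)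
  obtain ⟨u, hu⟩ := hne
  have hsub : S ⊆ insert u ((Finset.univ : Finset C).biUnion
      fun i => (S.filter fun w => c i w = c i u).erase u) := by
    intro w hw
    by_cases hwu : w = u
    · subst hwu
      exact Finset.mem_insert_self _ _
    · obtain ⟨i, hi⟩ := hS w hw u hu hwu
      refine Finset.mem_insert_of_mem (Finset.mem_biUnion.2 ⟨i, Finset.mem_univ _, ?_⟩)
      exact Finset.mem_erase.2 ⟨hwu, Finset.mem_filter.2 ⟨hw, hi⟩⟩
  have h2 : ∀ i : C,
      ((S.filter fun w => c i w = c i u).erase u).card ≤ Fintype.card C - 1 - 1 := by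
    intro i
    have hmem : u ∈ S.filter fun w => c i w = c i u := Finset.mem_filter.2 ⟨hu, rfl⟩
    rw [Finset.card_erase_of_mem hmem]
    exact Nat.sub_le_sub_right (h1 i _) 1
  calc S.card ≤ _ := Finset.card_le_card hsub
    _ ≤ ((Finset.univ : Finset C).biUnion
      fun i => (S.filter fun w => c i w = c i u).erase u).card + 1 :=
        Finset.card_insert_le _ _
    _ ≤ (∑ i : C, ((S.filter fun w => c i w = c i u).erase u).card) + 1 :=
        Nat.add_le_add_right Finset.card_biUnion_le 1
    _ ≤ (∑ _i : C, (Fintype.card C - 1 - 1)) + 1 :=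
        Nat.add_le_add_right (Finset.sum_le_sum fun i _ => h2 i) 1
    _ = (Fintype.card C - 1) ^ 2 := by
        rw [Finset.sum_const, Finset.card_univ, smul_eq_mul]
        obtain ⟨k, hk⟩ := Nat.exists_eq_add_of_le hm
        rw [hk]
        have e1 : 2 + k - 1 = 1 + k := by omega
        have e2 : 2 + k - 1 - 1 = k := by omega
        rw [e2, e1]
        ring

end base

variable {C P Q C' P' Q' : Type*} [Fintype C] [Fintype P] [Fintype Q] [Fintype C'] [Fintype P']
  [Fintype Q'] {c : C → P → Q} {c' : C' → P' → Q'}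

open Classical in
theorem IsNet.line_image (hc : IsNet c) (hc' : IsNet c') (hm : 2 ≤ Fintype.card C)
    (hC : Fintype.card C' = Fintype.card C) (hQ : Fintype.card Q' = Fintype.card Q)
    (hn : (Fintype.card C - 1) ^ 2 < Fintype.card Q)
    (φ : netG c ≃g netG c') (i : C) (a : Q) :
    ∃ (i' : C') (a' : Q'), ∀ u : P, c i u = a ↔ c' i' (φ u) = a' := by
  set L : Finset P := Finset.univ.filter fun u : P => c i u = a with hL
  set S : Finset P' := L.map φ.toEquiv.toEmbedding with hS
  have hSc : S.card = Fintype.card Q := by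
    rw [hS, Finset.card_map, hL]
    exact hc.card_line hm i a
  have hmemS : ∀ u : P, φ u ∈ S ↔ c i u = a := by
    intro u
    rw [hS, Finset.mem_map]
    constructor
    · rintro ⟨u', hu', h⟩
      have h2 : u' = u := φ.toEquiv.injective h
      rw [← h2]
      exact (Finset.mem_filter.1 hu').2
    · intro h
      exact ⟨u, Finset.mem_filter.2 ⟨Finset.mem_univ _, h⟩, rfl⟩
  have hadj : ∀ u ∈ S, ∀ v ∈ S, u ≠ v → ∃ i', c' i' u = c' i' v := by
    intro u hu v hv huv
    obtain ⟨u0, rfl⟩ := φ.toEquiv.surjective u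
    obtain ⟨v0, rfl⟩ := φ.toEquiv.surjective v
    have hu0 : c i u0 = a := (hmemS u0).1 hu
    have hv0 : c i v0 = a := (hmemS v0).1 hv
    have hne : u0 ≠ v0 := fun h => huv (by rw [h])
    have h1 : (netG c).Adj u0 v0 := ⟨hne, i, hu0.trans hv0.symm⟩
    exact (φ.map_adj_iff.2 h1).2
  by_contra hno
  push Not at hno
  have hnl : ∀ (i' : C') (a' : Q'), ∃ v ∈ S, c' i' v ≠ a' := by
    intro i' a'
    by_contra hall
    push Not at hall
    have hsub : S ⊆ Finset.univ.filter fun u : P' => c' i' u = a' := fun v hv =>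
      Finset.mem_filter.2 ⟨Finset.mem_univ _, hall v hv⟩
    have heq : S = Finset.univ.filter fun u : P' => c' i' u = a' := by
      refine Finset.eq_of_subset_of_card_le hsub ?_
      rw [hc'.card_line (hC ▸ hm) i' a', hSc, hQ]
    obtain ⟨u, hu⟩ := hno i' a'
    have h1 : c i u = a ↔ c' i' (φ u) = a' := by
      rw [← hmemS u, heq, Finset.mem_filter]
      simp
    rcases hu with hu | hu
    · exact hu.2 (h1.1 hu.1)
    · exact hu.1 (h1.2 hu.2)
  have hne : S.Nonempty := by
    rw [← Finset.card_pos, hSc]
    omega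
  have := hc'.clique_small (hC ▸ hm) S hne hadj hnl
  rw [hC] at this
  omega

/-- **an isomorphism of net graphs is an isomorphism of nets** -/
theorem IsNet.of_iso (hc : IsNet c) (hc' : IsNet c') (hm : 2 ≤ Fintype.card C)
    (hC : Fintype.card C' = Fintype.card C) (hQ : Fintype.card Q' = Fintype.card Q)
    (hn : (Fintype.card C - 1) ^ 2 < Fintype.card Q) (φ : netG c ≃g netG c') :
    ∃ (π : C ≃ C') (f : C → Q → Q'), ∀ i u, c' (π i) (φ u) = f i (c i u) := by
  classical
  have hn1 : 1 < Fintype.card Q := lt_of_le_of_lt (Nat.one_le_pow 2 (Fintype.card C - 1) (by omega)) hn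
  obtain ⟨a0⟩ : Nonempty Q := Fintype.card_pos_iff.1 (by omega)
  have key := hc.line_image hc' hm hC hQ hn φ
  choose D A hDA using key
  have hsame : ∀ i a b, D i a = D i b := by
    intro i a b
    by_contra hne
    have hab : a ≠ b := by
      rintro rfl
      exact hne rfl
    obtain ⟨w, h1, h2⟩ := hc'.exists_pt hne (A i a) (A i b)
    have e1 := (hDA i a (φ.symm w)).2 (by rw [φ.apply_symm_apply]; exact h1)
    have e2 := (hDA i b (φ.symm w)).2 (by rw [φ.apply_symm_apply]; exact h2)
    exact hab (e1.symm.trans e2)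
  have hinj : Function.Injective fun i => D i a0 := by
    intro i j hij
    simp only at hij
    by_contra hne
    obtain ⟨u, h1, h2⟩ := hc.exists_pt hne a0 a0
    have e1 := (hDA i a0 u).1 h1
    have e2 := (hDA j a0 u).1 h2
    rw [← hij] at e2
    have hA : A i a0 = A j a0 := e1.symm.trans e2
    obtain ⟨b, hb⟩ : ∃ b : Q, b ≠ a0 := Fintype.exists_ne_of_one_lt_card hn1 a0
    obtain ⟨v, h3, h4⟩ := hc.exists_pt hne a0 b
    have e3 := (hDA i a0 v).1 h3
    rw [hij, hA] at e3
    have e4 := (hDA j a0 v).2 e3
    exact hb (h4.symm.trans e4)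
  have hbij : Function.Bijective fun i => D i a0 := by
    rw [Fintype.bijective_iff_injective_and_card]
    exact ⟨hinj, hC.symm⟩
  refine ⟨Equiv.ofBijective _ hbij, A, fun i u => ?_⟩
  have e1 := (hDA i (c i u) u).1 rfl
  rw [hsame i (c i u) a0] at e1
  exact e1

end Pool.Agent.STS
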