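import Pool.Agent.STS.NetALines

/-!
# Abstract nets: the graph of a net is strongly regular  (helper41)

`n = |Q|`, `m = |C|`. Sums of indicators: `[Adj u w] = ∑ i, [c i u = c i w] - m [u = w]`.
-/

set_option autoImplicit false
set_option linter.unusedSectionVars false

open Finset

namespace Pool.Agent.STS

namespace NetSA

open Classical in
/-- the indicator of a proposition -/
noncomputable def ind (A : Prop) : ℤ := if A then 1 else 0

lemma ind_true {A : Prop} (h : A) : ind A = 1 := if_pos h

lemma ind_false {A : Prop} (h : ¬ A) : ind A = 0 := if_neg h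

lemma sum_ind {ι : Type*} [Fintype ι] (a : ι) (f : ι → ℤ) : ∑ w, f w * ind (w = a) = f a := by
  classical
  unfold ind
  simp

variable {C P Q : Type*} [Fintype C] [Fintype P] [Fintype Q] {c : C → P → Q}

/-- the number of the classes in which two points agree -/
noncomputable def agr (c : C → P → Q) (u v : P) : ℤ := ∑ i : C, ind (c i u = c i v)

theorem agr_self (c : C → P → Q) (u : P) : agr c u u = Fintype.card C := by
  unfold agr
  rw [Finset.sum_congr rfl fun i _ => ind_true (rfl : c i u = c i u)]
  simp

theorem agr_adj (hc : IsNet c) {u v : P} (h : (netG c).Adj u v) : agr c u v = 1 := by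
  classical
  obtain ⟨hne, i, hi⟩ := h
  unfold agr
  rw [Finset.sum_eq_single i]
  · exact ind_true hi
  · intro j _ hj
    exact ind_false fun h' => hne (hc.eq_of hj h' hi)
  · intro h'
    exact absurd (Finset.mem_univ _) h'

theorem agr_not_adj {u v : P} (hne : u ≠ v) (h : ¬ (netG c).Adj u v) : agr c u v = 0 := by
  unfold agr
  exact Finset.sum_eq_zero (fun i _ => ind_false (fun hi => h ⟨hne, i, hi⟩))

theorem agr_symm (c : C → P → Q) (u v : P) : agr c u v = agr c v u := by
  unfold agr
  refine Finset.sum_congr rfl (fun i _ => ?_)
  rw [show (c i u = c i v) = (c i v = c i u) from propext eq_comm]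

theorem ind_adj (hc : IsNet c) (u w : P) :
    ind ((netG c).Adj u w) = agr c u w - Fintype.card C * ind (w = u) := by
  by_cases h : w = u
  · subst h
    rw [agr_self, ind_true (rfl : w = w), ind_false]
    · ring
    · exact (netG c).loopless.irrefl w
  · rw [ind_false h]
    by_cases h1 : (netG c).Adj u w
    · rw [ind_true h1, agr_adj hc h1]
      ring
    · rw [ind_false h1, agr_not_adj (fun h' => h h'.symm) h1]
      ring

/-- the sum of the products -/
theorem sum_agr (hc : IsNet c) (hm : 2 ≤ Fintype.card C) (u v : P) :
    ∑ w, agr c u w * agr c v w =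
      Fintype.card C * (Fintype.card C - 1 : ℤ) + Fintype.card Q * agr c u v := by
  classical
  -- the pairs of classes
  have h1 : ∀ i j : C, ∑ w : P, ind (c i u = c i w) * ind (c j v = c j w) =
        if i = j then Fintype.card Q * ind (c i u = c i v) else 1 := by
    intro i j
    have h2 : ∀ w : P, ind (c i u = c i w) * ind (c j v = c j w) =
        if (c i u = c i w ∧ c j v = c j w) then 1 else 0 := by
      intro w
      unfold ind
      split_ifs <;> simp_all
    rw [Finset.sum_congr rfl fun w _ => h2 w, ← Finset.sum_filter, Finset.sum_const]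
    by_cases hij : i = j
    · subst hij
      rw [if_pos rfl]
      by_cases huv : c i u = c i v
      · rw [ind_true huv]
        have h3 : (Finset.univ.filter fun w : P => c i u = c i w ∧ c i v = c i w) =
            Finset.univ.filter fun w : P => c i w = c i u := by
          ext w
          simp only [Finset.mem_filter, Finset.mem_univ, true_and]
          constructor
          · intro h
            exact h.1.symm
          · intro h
            exact ⟨h.symm, huv.symm.trans h.symm⟩
        rw [h3, hc.card_line hm]
        simp
      · rw [ind_false huv]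
        have h3 : (Finset.univ.filter fun w : P => c i u = c i w ∧ c i v = c i w) = ∅ := by
          ext w
          simp only [Finset.mem_filter, Finset.mem_univ, true_and, Finset.notMem_empty, iff_false]
          rintro ⟨ha, hb⟩
          exact huv (ha.trans hb.symm)
        rw [h3]
        simp
    · rw [if_neg hij]
      obtain ⟨w0, h3, h4⟩ := hc.exists_pt hij (c i u) (c j v)
      have h5 : (Finset.univ.filter fun w : P => c i u = c i w ∧ c j v = c j w) = {w0} := by
        ext w
        simp only [Finset.mem_filter, Finset.mem_univ, true_and, Finset.mem_singleton]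
        constructor
        · rintro ⟨ha, hb⟩
          exact hc.eq_of hij (ha.symm.trans h3.symm) (hb.symm.trans h4.symm)
        · rintro rfl
          exact ⟨h3.symm, h4.symm⟩
      rw [h5]
      simp
  have h2 : ∀ w : P, agr c u w * agr c v w = ∑ i : C, ∑ j : C,
      ind (c i u = c i w) * ind (c j v = c j w) := by
    intro w
    unfold agr
    rw [Finset.sum_mul_sum]
  rw [Finset.sum_congr rfl fun w _ => h2 w, Finset.sum_comm]
  have h3 : ∀ i : C, ∑ w : P, ∑ j : C, ind (c i u = c i w) * ind (c j v = c j w) =
      Fintype.card Q * ind (c i u = c i v) + (Fintype.card C - 1 : ℤ) := by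
    intro i
    rw [Finset.sum_comm, Finset.sum_congr rfl fun j _ => h1 i j]
    rw [← Finset.add_sum_erase Finset.univ _ (Finset.mem_univ i), if_pos rfl]
    congr 1
    rw [Finset.sum_congr rfl (g := fun _ => (1 : ℤ)) (fun j hj => if_neg (fun h => ?_))]
    · rw [Finset.sum_const, Finset.card_erase_of_mem (Finset.mem_univ i), Finset.card_univ]
      have h4 : 1 ≤ Fintype.card C := by omega
      rw [nsmul_eq_mul, mul_one]
      push_cast [h4]
      ring
    · exact (Finset.mem_erase.1 hj).1 h.symm
  rw [Finset.sum_congr rfl fun i _ => h3 i, Finset.sum_add_distrib, ← Finset.mul_sum]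
  unfold agr
  rw [Finset.sum_const, Finset.card_univ, nsmul_eq_mul]
  ring

/-- the number of the common neighbours -/
theorem main (hc : IsNet c) (hm : 2 ≤ Fintype.card C) (u v : P) :
    ∑ w, ind ((netG c).Adj u w) * ind ((netG c).Adj v w) =
      Fintype.card C * (Fintype.card C - 1 : ℤ) +
        ((Fintype.card Q : ℤ) - 2 * Fintype.card C) * agr c u v +
        (Fintype.card C : ℤ) ^ 2 * ind (u = v) := by
  have h1 : ∀ w : P, ind ((netG c).Adj u w) * ind ((netG c).Adj v w) =
      agr c u w * agr c v w - (Fintype.card C : ℤ) * (agr c u w * ind (w = v)) -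
        (Fintype.card C : ℤ) * (agr c v w * ind (w = u)) +
          (Fintype.card C : ℤ) ^ 2 * (ind (w = v) * ind (w = u)) := by
    intro w
    rw [ind_adj hc, ind_adj hc]
    ring
  rw [Finset.sum_congr rfl fun w _ => h1 w, Finset.sum_add_distrib, Finset.sum_sub_distrib,
    Finset.sum_sub_distrib, ← Finset.mul_sum, ← Finset.mul_sum, ← Finset.mul_sum,
    sum_ind v fun w => agr c u w, sum_ind u fun w => agr c v w, sum_ind u fun w => ind (w = v),
    sum_agr hc hm, agr_symm c v u]
  ring

open Classical in
lemma card_eq (u v : P) :
    ((univ.filter fun w => (netG c).Adj u w ∧ (netG c).Adj v w).card : ℤ) =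
      ∑ w, ind ((netG c).Adj u w) * ind ((netG c).Adj v w) := by
  rw [card_filter]
  push_cast
  refine sum_congr rfl fun w _ => ?_
  unfold ind
  by_cases h1 : (netG c).Adj u w <;> by_cases h2 : (netG c).Adj v w <;> simp [h1, h2]

end NetSA

open NetSA

open Classical in
/-- **the graph of a net is strongly regular** -/
theorem IsNet.isSRG {C P Q : Type*} [Fintype C] [Fintype P] [Fintype Q] {c : C → P → Q}
    (hc : IsNet c) (hm : 2 ≤ Fintype.card C) (hn : 2 ≤ Fintype.card Q) :
    (netG c).IsSRGWith (Fintype.card Q ^ 2) (Fintype.card C * (Fintype.card Q - 1))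
      (Fintype.card Q - 2 + (Fintype.card C - 1) * (Fintype.card C - 2))
      (Fintype.card C * (Fintype.card C - 1)) := by
  obtain ⟨n', hn'⟩ : ∃ n', Fintype.card Q = n' + 2 := ⟨Fintype.card Q - 2, by omega⟩
  obtain ⟨m', hm'⟩ : ∃ m', Fintype.card C = m' + 2 := ⟨Fintype.card C - 2, by omega⟩
  refine ⟨hc.card_points hm, ?_, ?_, ?_⟩
  · intro u
    have h1 := card_eq (c := c) u u
    rw [main hc hm, agr_self, ind_true (rfl : u = u)] at h1
    have h2 : (netG c).degree u =
        (Finset.univ.filter fun w => (netG c).Adj u w ∧ (netG c).Adj u w).card := by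
      rw [← SimpleGraph.card_neighborFinset_eq_degree]
      congr 1
      ext w
      simp
    rw [h2]
    have h3 : Fintype.card C * (Fintype.card Q - 1) = (m' + 2) * (n' + 1) := by
      rw [hn', hm']
      rfl
    rw [h3]
    zify
    rw [h1, hn', hm']
    push_cast
    ring
  · intro u v huv
    have h1 := card_eq (c := c) u v
    rw [main hc hm, agr_adj hc huv, ind_false huv.1] at h1
    have h2 : Fintype.card ((netG c).commonNeighbors u v) =
        (Finset.univ.filter fun w => (netG c).Adj u w ∧ (netG c).Adj v w).card := by
      rw [← Set.toFinset_card]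
      congr 1
      ext w
      simp [SimpleGraph.mem_commonNeighbors]
    rw [h2]
    have h3 : Fintype.card Q - 2 + (Fintype.card C - 1) * (Fintype.card C - 2) =
        n' + (m' + 1) * m' := by
      rw [hn', hm']
      rfl
    rw [h3]
    zify
    rw [h1, hn', hm']
    push_cast
    ring
  · intro u v hne huv
    have h1 := card_eq (c := c) u v
    rw [main hc hm, agr_not_adj hne huv, ind_false hne] at h1
    have h2 : Fintype.card ((netG c).commonNeighbors u v) =
        (Finset.univ.filter fun w => (netG c).Adj u w ∧ (netG c).Adj v w).card := by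
      rw [← Set.toFinset_card]
      congr 1
      ext w
      simp [SimpleGraph.mem_commonNeighbors]
    rw [h2]
    have h3 : Fintype.card C * (Fintype.card C - 1) = (m' + 2) * (m' + 1) := by
      rw [hm']
      rfl
    rw [h3]
    zify
    rw [h1, hm']
    push_cast
    ring

end Pool.Agent.STS
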