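import Pool.Agent.STS.SMoves
import Pool.Agent.SRGWL.SosG
import Pool.Agent.STS.NetALines
import Pool.Agent.STS.NetASRG

/-!
# The Cayley graphs of Latin square type: assembly
-/

namespace Pool.Agent.STS

open Pool.Agent.SRGWL Module WLAux

variable {p : ℕ} [Fact p.Prime] {I : Type} [AddCommGroup I] [Module (ZMod p) I] [Finite I] {z : ℕ}
  {A : Tup (ZMod p) I z} {D D' : CoTup (ZMod p) I z}

open Classical in
theorem snet_isSRG (hp : p ≠ 2) (hD : CoSkew D) {m n : ℕ} (hm : 3 ≤ m) (hmp : 2 * m ≤ p + 3)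
    (hn : Fintype.card (G A D) = n) (h2 : 2 ≤ n) :
    (netG (sc (m - 1) A D)).IsSRGWith (n ^ 2) (m * (n - 1)) (n - 2 + (m - 1) * (m - 2))
      (m * (m - 1)) := by
  have h := (sc_isNet (A := A) (NonIso.two_ne hp) hD
    (sqInj_zmod p (m' := m - 1) (by omega))).isSRG (by
      rw [Fintype.card_option, Fintype.card_fin]
      omega) (by rw [hn]; exact h2)
  rw [Fintype.card_option, Fintype.card_fin, hn] at h
  have h1 : m - 1 + 1 = m := by omega
  rw [h1] at h
  exact h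

theorem snet_isEmpty (hp : p ≠ 2) (hD : CoSkew D) (hD' : CoSkew D') {m n : ℕ} (hm : 3 ≤ m)
    (hmp : 2 * m ≤ p + 3) (hn : Fintype.card (G A D) = n) (hn' : Fintype.card (G A D') = n)
    (hmn : (m - 1) ^ 2 < n) (hiso : IsEmpty (G A D ≃* G A D')) :
    IsEmpty (netG (sc (m - 1) A D) ≃g netG (sc (m - 1) A D')) := by
  classical
  refine ⟨fun φ => ?_⟩
  have hsq := sqInj_zmod p (m' := m - 1) (by omega)
  have h2 := NonIso.two_ne hp
  have hc := sc_isNet (A := A) h2 hD hsq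
  have hc' := sc_isNet (A := A) h2 hD' hsq
  have hCm : Fintype.card (Option (Fin (m - 1))) = m := by
    rw [Fintype.card_option, Fintype.card_fin]
    omega
  obtain ⟨π, f, hf⟩ := hc.of_iso hc' (by rw [hCm]; omega) rfl (by rw [hn, hn'])
    (by rw [hCm, hn]; exact hmn) φ
  refine hiso.false (mulEquiv_of_snet h2 hD' (by omega) hsq φ.toEquiv π f ?_ hf).some
  intro c
  refine (Function.Surjective.bijective_of_nat_card_le ?_ ?_)
  · intro a
    have : Nontrivial (Option (Fin (m - 1))) := Fintype.one_lt_card_iff_nontrivial.mp (by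
      rw [hCm]
      omega)
    obtain ⟨c', hc'c⟩ := exists_ne c
    obtain ⟨v, hv⟩ := (hc' (π c) (π c') (fun h => hc'c (π.injective h).symm)).2 (a, a)
    obtain ⟨u, rfl⟩ := φ.surjective v
    refine ⟨sc (m - 1) A D c u, ?_⟩
    rw [← hf]
    exact congrArg Prod.fst hv
  · rw [Nat.card_eq_fintype_card, Nat.card_eq_fintype_card, hn, hn']

theorem snet_indist [Module.Finite (ZMod p) I] (hp : p ≠ 2) (hD : CoSkew D) (m' : ℕ) {r : ℕ} (K : ℕ)
    (hbase : Good A D r ⊥ 0)
    (hext : ∀ U U' : Submodule (ZMod p) I, U ≤ U' → finrank (ZMod p) U' ≤ K →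
      ∀ C, Good A D r U C → ∃ C', Good A D r U' C' ∧ ∀ u ∈ U, ∀ ζ, C' ζ u = C ζ u)
    {k : ℕ} (hk : 6 * k + 2 ≤ K) :
    Sos.Indist p k (netG (sc m' A 0)) (netG (sc m' A D)) :=
  Sos.indist_of_moves (Sos.pairMoves A D)
    (fun C W h u u' hu hu' => snetMoves_adj m' C W h u u' hu hu')
    (NonIso.two_ne hp) hD K hbase hext (by omega)

end Pool.Agent.STS
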