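import Pool.Agent.STS.Coord
import Pool.Agent.SRGWL.LSIso

/-!
# An isomorphism of nets gives an isomorphism of groups  (helper20)

`m' = m - 1 ≥ 2` finite classes `some 0, …, some (m'-1)`, `m' ≤ p`, and the class `none`.

Proof. In coordinates put `d = y + β x y`: class `some i` is `x + i • d`, class `none` is `y = d - β x d`.
(1) `m' = 2`: three classes, every one of the six bijections of the classes gives an isotopy
`h (x y) = F x G y` or the opposite one between `H` and `K`, so `H ≃* K`.
(2) `m' ≥ 3`: `π none = none`. Otherwise `π (some i) = none` for some `i`; choose `j ≠ k` different from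
`i`; `π (some j) = some r`, `π (some k) = some s` (finite, or take other ones: at most one class goes to
`none`). The three coordinates `u_i, u_j, u_k` of `H` satisfy `a u_i + b u_j + c u_k = 0` with `a, b, c`
nonzero, and every pair `(u_i, u_j)` occurs. In `K`: `y' = f_i u_i`, `x' y'^r = f_j u_j`,
`x' y'^s = f_k u_k`, so `f_k (u_k) = f_j (u_j) * (f_i u_i) ^ (s - r)`: an isotopy of the additive group of
`V` to `K`, so `K` is commutative, contradiction to `hK`.
(3) Then `π (some 0) = some r`, `π (some 1) = some s`: `x' y'^r = f_0 x`, `y' = f y`,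
`x' y'^s = f_1 (x y)`: `f_1 (x y) = f_0 x * (f y) ^ (s - r)`: isotopy of `H` and `K`, so isomorphic.
-/

namespace Pool.Agent.STS

variable {p : ℕ} [Fact p.Prime] {V : Type*} [AddCommGroup V] [Module (ZMod p) V]

namespace NetIsoAux

theorem beta_skew {β : V →ₗ[ZMod p] V →ₗ[ZMod p] V} (hβ : Nil2 β) (x y : V) :
    β x y = - β y x := by
  have h := hβ.alt (x + y)
  simp only [map_add, LinearMap.add_apply, hβ.alt, zero_add, add_zero] at h
  exact eq_neg_of_add_eq_zero_right h

theorem beta_beta {β : V →ₗ[ZMod p] V →ₗ[ZMod p] V} (hβ : Nil2 β) (x y z : V) :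
    β x (β y z) = 0 := by
  rw [beta_skew hβ, hβ.nil]
  simp

/-- the classes of the net in coordinates -/
def kc {m' : ℕ} (β : V →ₗ[ZMod p] V →ₗ[ZMod p] V) : Option (Fin m') → V × V → V
  | none, v => v.2 - β v.1 v.2
  | some i, v => v.1 + ((i : ℕ) : ZMod p) • v.2

section

variable {H : Type*} [Group H] {β : V →ₗ[ZMod p] V →ₗ[ZMod p] V}

theorem eps_one (b : Baer H β) (hβ : Nil2 β) : b.ε 1 = 0 := by
  have h := b.mul 1 1
  rw [mul_one, hβ.alt, add_zero] at h
  exact left_eq_add.mp h

theorem eps_pow (b : Baer H β) (hβ : Nil2 β) (y : H) (n : ℕ) :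
    b.ε (y ^ n) = (n : ZMod p) • b.ε y := by
  induction n with
  | zero => simp [eps_one b hβ]
  | succ n ih =>
    rw [pow_succ, b.mul, ih, map_smul, LinearMap.smul_apply, hβ.alt, smul_zero, add_zero]
    push_cast
    rw [add_smul, one_smul]

/-- the coordinates of the points -/
def Gam (b : Baer H β) (hβ : Nil2 β) : H × H ≃ V × V where
  toFun u := (b.ε u.1, b.ε u.2 + β (b.ε u.1) (b.ε u.2))
  invFun v := (b.ε.symm v.1, b.ε.symm (v.2 - β v.1 v.2))
  left_inv u := by
    refine Prod.ext ?_ ?_
    · simp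
    · simp [beta_beta hβ]
  right_inv v := by
    refine Prod.ext ?_ ?_
    · simp
    · simp [beta_beta hβ]

theorem eps_netc (b : Baer H β) (hβ : Nil2 β) {m' : ℕ} (c : Option (Fin m')) (u : H × H) :
    b.ε (netc H c u) = kc β c (Gam b hβ u) := by
  cases c with
  | none =>
    show b.ε u.2 = b.ε u.2 + β (b.ε u.1) (b.ε u.2) - β (b.ε u.1) (b.ε u.2 + β (b.ε u.1) (b.ε u.2))
    rw [map_add, beta_beta hβ]
    abel
  | some i =>
    show b.ε (u.1 * u.2 ^ (i : ℕ)) =
      b.ε u.1 + ((i : ℕ) : ZMod p) • (b.ε u.2 + β (b.ε u.1) (b.ε u.2))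
    rw [b.mul, eps_pow b hβ, map_smul, smul_add]
    abel

theorem cast_ne {m' : ℕ} (hp : m' ≤ p) {i j : Fin m'} (h : i ≠ j) :
    ((i : ℕ) : ZMod p) - ((j : ℕ) : ZMod p) ≠ 0 := by
  rw [sub_ne_zero]
  intro h1
  rw [ZMod.natCast_eq_natCast_iff'] at h1
  rw [Nat.mod_eq_of_lt (by omega), Nat.mod_eq_of_lt (by omega)] at h1
  exact h (Fin.ext h1)

theorem kc_surj (hβ : Nil2 β) {m' : ℕ} (hp : m' ≤ p) {c c' : Option (Fin m')} (h : c ≠ c')
    (a t : V) : ∃ v : V × V, kc β c v = a ∧ kc β c' v = t := by
  have key : ∀ (i : Fin m') (a t : V), ∃ v : V × V, kc β (m' := m') none v = a ∧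
      kc β (some i) v = t := by
    intro i a t
    refine ⟨(t - ((i : ℕ) : ZMod p) • (a + β t a), a + β t a), ?_, ?_⟩
    · show a + β t a - β (t - ((i : ℕ) : ZMod p) • (a + β t a)) (a + β t a) = a
      rw [map_sub, LinearMap.sub_apply, map_smul, LinearMap.smul_apply, hβ.alt, smul_zero, sub_zero,
        map_add, beta_beta hβ]
      abel
    · show t - ((i : ℕ) : ZMod p) • (a + β t a) + ((i : ℕ) : ZMod p) • (a + β t a) = t
      abel
  rcases c with _ | i
  · rcases c' with _ | j
    · exact absurd rfl h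
    · exact key j a t
  · rcases c' with _ | j
    · obtain ⟨v, h1, h2⟩ := key i t a
      exact ⟨v, h2, h1⟩
    · have hij : i ≠ j := fun h1 => h (congrArg some h1)
      have h1 := cast_ne hp hij
      refine ⟨(a - ((i : ℕ) : ZMod p) • (((i : ℕ) : ZMod p) - ((j : ℕ) : ZMod p))⁻¹ • (a - t),
        (((i : ℕ) : ZMod p) - ((j : ℕ) : ZMod p))⁻¹ • (a - t)), ?_, ?_⟩
      · show a - ((i : ℕ) : ZMod p) • (((i : ℕ) : ZMod p) - ((j : ℕ) : ZMod p))⁻¹ • (a - t) +
          ((i : ℕ) : ZMod p) • (((i : ℕ) : ZMod p) - ((j : ℕ) : ZMod p))⁻¹ • (a - t) = a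
        abel
      · show a - ((i : ℕ) : ZMod p) • (((i : ℕ) : ZMod p) - ((j : ℕ) : ZMod p))⁻¹ • (a - t) +
          ((j : ℕ) : ZMod p) • (((i : ℕ) : ZMod p) - ((j : ℕ) : ZMod p))⁻¹ • (a - t) = t
        have h2 : (((i : ℕ) : ZMod p) - ((j : ℕ) : ZMod p)) •
            (((i : ℕ) : ZMod p) - ((j : ℕ) : ZMod p))⁻¹ • (a - t) = a - t := smul_inv_smul₀ h1 _
        rw [sub_smul] at h2
        have h3 : ((i : ℕ) : ZMod p) • (((i : ℕ) : ZMod p) - ((j : ℕ) : ZMod p))⁻¹ • (a - t) =
          a - t + ((j : ℕ) : ZMod p) • (((i : ℕ) : ZMod p) - ((j : ℕ) : ZMod p))⁻¹ • (a - t) :=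
          sub_eq_iff_eq_add.mp h2
        rw [h3]
        abel

theorem kc_inj (hβ : Nil2 β) {m' : ℕ} (hp : m' ≤ p) {c c' : Option (Fin m')} (h : c ≠ c')
    {v w : V × V} (h1 : kc β c v = kc β c w) (h2 : kc β c' v = kc β c' w) : v = w := by
  have key : ∀ (i : Fin m') (v w : V × V), kc β (m' := m') none v = kc β (m' := m') none w →
      kc β (some i) v = kc β (some i) w → v = w := by
    intro i v w h1 h2
    have e : ∀ v : V × V, v.2 = kc β (m' := m') none v +
        β (kc β (some i) v) (kc β (m' := m') none v) := by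
      intro v
      show v.2 = v.2 - β v.1 v.2 + β (v.1 + ((i : ℕ) : ZMod p) • v.2) (v.2 - β v.1 v.2)
      rw [map_sub, beta_beta hβ, map_add, LinearMap.add_apply, map_smul, LinearMap.smul_apply,
        hβ.alt, smul_zero]
      abel
    have h3 : v.2 = w.2 := by rw [e v, e w, h1, h2]
    refine Prod.ext ?_ h3
    have h4 : v.1 + ((i : ℕ) : ZMod p) • v.2 = w.1 + ((i : ℕ) : ZMod p) • w.2 := h2
    rw [h3] at h4
    exact add_right_cancel h4
  rcases c with _ | i
  · rcases c' with _ | j
    · exact absurd rfl h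
    · exact key j v w h1 h2
  · rcases c' with _ | j
    · exact key i v w h2 h1
    · have hij : i ≠ j := fun h1 => h (congrArg some h1)
      have h3 := cast_ne hp hij
      have h4 : v.1 + ((i : ℕ) : ZMod p) • v.2 = w.1 + ((i : ℕ) : ZMod p) • w.2 := h1
      have h5 : v.1 + ((j : ℕ) : ZMod p) • v.2 = w.1 + ((j : ℕ) : ZMod p) • w.2 := h2
      have h6 : (((i : ℕ) : ZMod p) - ((j : ℕ) : ZMod p)) • (v.2 - w.2) = 0 := by
        rw [sub_smul, smul_sub, smul_sub]
        have h7 : v.1 + ((i : ℕ) : ZMod p) • v.2 - (v.1 + ((j : ℕ) : ZMod p) • v.2) =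
          w.1 + ((i : ℕ) : ZMod p) • w.2 - (w.1 + ((j : ℕ) : ZMod p) • w.2) := by rw [h4, h5]
        have h8 : ((i : ℕ) : ZMod p) • v.2 - ((j : ℕ) : ZMod p) • v.2 =
          ((i : ℕ) : ZMod p) • w.2 - ((j : ℕ) : ZMod p) • w.2 := by
          simpa only [add_sub_add_left_eq_sub] using h7
        rw [sub_sub_sub_comm, h8, sub_self]
      have h9 : v.2 = w.2 := by
        rcases smul_eq_zero.mp h6 with h7 | h7
        · exact absurd h7 h3
        · exact sub_eq_zero.mp h7
      refine Prod.ext ?_ h9
      rw [h9] at h4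
      exact add_right_cancel h4

theorem netc_surj (b : Baer H β) (hβ : Nil2 β) {m' : ℕ} (hp : m' ≤ p) {c c' : Option (Fin m')}
    (h : c ≠ c') (a t : H) : ∃ u : H × H, netc H c u = a ∧ netc H c' u = t := by
  obtain ⟨v, h1, h2⟩ := kc_surj hβ hp h (b.ε a) (b.ε t)
  refine ⟨(Gam b hβ).symm v, ?_, ?_⟩
  · apply b.ε.injective
    rw [eps_netc b hβ, Equiv.apply_symm_apply, h1]
  · apply b.ε.injective
    rw [eps_netc b hβ, Equiv.apply_symm_apply, h2]

theorem netc_inj (b : Baer H β) (hβ : Nil2 β) {m' : ℕ} (hp : m' ≤ p) {c c' : Option (Fin m')}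
    (h : c ≠ c') {u w : H × H} (h1 : netc H c u = netc H c w) (h2 : netc H c' u = netc H c' w) :
    u = w := by
  apply (Gam b hβ).injective
  refine kc_inj hβ hp h ?_ ?_
  · rw [← eps_netc b hβ, ← eps_netc b hβ, h1]
  · rw [← eps_netc b hβ, ← eps_netc b hβ, h2]

end

end NetIsoAux

open NetIsoAux

theorem mulEquiv_of_net {H K : Type*} [Group H] [Group K] {V' : Type*} [AddCommGroup V']
    [Module (ZMod p) V'] {β : V →ₗ[ZMod p] V →ₗ[ZMod p] V} {β' : V' →ₗ[ZMod p] V' →ₗ[ZMod p] V'}
    (hβ : Nil2 β) (hβ' : Nil2 β') (bH : Baer H β) (bK : Baer K β')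
    (hK : ∃ x y : K, x * y ≠ y * x) {m' : ℕ} (h2 : 2 ≤ m') (hp : m' ≤ p)
    (φ : H × H ≃ K × K) (π : Option (Fin m') ≃ Option (Fin m')) (f : Option (Fin m') → H → K)
    (hf : ∀ c u, netc K (π c) (φ u) = f c (netc H c u)) : Nonempty (H ≃* K) := by
  have hbij : ∀ c, Function.Bijective (f c) := by
    intro c
    have : Nontrivial (Option (Fin m')) := ⟨none, some ⟨0, by omega⟩, by simp⟩
    obtain ⟨c', hc'⟩ := exists_ne c
    refine ⟨?_, ?_⟩
    · intro a a' h
      obtain ⟨u, h3, h4⟩ := netc_surj bH hβ hp hc'.symm a a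
      obtain ⟨w, h5, h6⟩ := netc_surj bH hβ hp hc'.symm a' a
      have h7 : φ u = φ w := by
        refine netc_inj bK hβ' hp (c := π c) (c' := π c') (fun h => hc' (π.injective h).symm) ?_ ?_
        · rw [hf, hf, h3, h5, h]
        · rw [hf, hf, h4, h6]
      have h8 := φ.injective h7
      rw [← h3, h8, h5]
    · intro a
      obtain ⟨u, h3, -⟩ := netc_surj bK hβ' hp (c := π c) (c' := π c')
        (fun h => hc' (π.injective h).symm) a a
      refine ⟨netc H c (φ.symm u), ?_⟩
      rw [← hf, Equiv.apply_symm_apply, h3]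
  have hx : ∀ x y : H, netc H (some (⟨0, by omega⟩ : Fin m')) (x, y) = x := by
    intro x y
    show x * y ^ 0 = x
    rw [pow_zero, mul_one]
  have hxy : ∀ x y : H, netc H (some (⟨1, by omega⟩ : Fin m')) (x, y) = x * y := by
    intro x y
    show x * y ^ 1 = x * y
    rw [pow_one]
  by_cases hnone : π none = none
  · -- the class `none` is preserved
    obtain ⟨r, hr⟩ : ∃ r, π (some ⟨0, by omega⟩) = some r := by
      rw [← Option.ne_none_iff_exists']
      intro h
      have := π.injective (h.trans hnone.symm)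
      simp at this
    obtain ⟨s, hs⟩ : ∃ s, π (some ⟨1, by omega⟩) = some s := by
      rw [← Option.ne_none_iff_exists']
      intro h
      have := π.injective (h.trans hnone.symm)
      simp at this
    refine SRGWL.mulEquiv_of_isotopy (f (some ⟨1, by omega⟩)) (hbij _) (f (some ⟨0, by omega⟩))
      (fun y => f none y ^ (((s : ℕ) : ℤ) - ((r : ℕ) : ℤ))) ?_
    intro x y
    have e0 := hf (some ⟨0, by omega⟩) (x, y)
    have e1 := hf (some ⟨1, by omega⟩) (x, y)
    have e2 := hf none (x, y)
    rw [hx, hr] at e0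
    rw [hxy, hs] at e1
    rw [hnone] at e2
    rw [← e1, ← e0]
    show (φ (x, y)).1 * (φ (x, y)).2 ^ (s : ℕ) =
      (φ (x, y)).1 * (φ (x, y)).2 ^ (r : ℕ) * (f none y) ^ (((s : ℕ) : ℤ) - ((r : ℕ) : ℤ))
    have e3 : (φ (x, y)).2 = f none y := e2
    rw [← e3, mul_assoc, ← zpow_natCast, ← zpow_natCast, ← zpow_add]
    congr 2
    ring
  · rcases h2.eq_or_lt with h3 | h3
    · -- three classes
      subst h3
      have h0 := hf (some 0)
      have h1 := hf (some 1)
      have h2 := hf none
      have c0 : ∀ x y, netc K (π (some 0)) (φ (x, y)) = f (some 0) x := fun x y => by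
        rw [h0]
        exact congrArg _ (hx x y)
      have c1 : ∀ x y, netc K (π none) (φ (x, y)) = f none y := fun x y => h2 (x, y)
      have c2 : ∀ x y, netc K (π (some 1)) (φ (x, y)) = f (some 1) (x * y) := fun x y => by
        rw [h1]
        exact congrArg _ (hxy x y)
      have h01 : π (some 0) ≠ π none := fun h => absurd (π.injective h) (by decide)
      have h02 : π (some 0) ≠ π (some 1) := fun h => absurd (π.injective h) (by decide)
      have h12 : π none ≠ π (some 1) := fun h => absurd (π.injective h) (by decide)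
      have hinv : Function.Bijective fun x => (f (some 1) x)⁻¹ :=
        (Equiv.inv K).bijective.comp (hbij (some 1))
      have hb2 := hbij (some 1)
      clear h0 h1 h2 hf hbij hx hxy
      generalize π (some 0) = a at *
      generalize π none = b at *
      generalize π (some 1) = c at *
      have hall : ∀ a b c : Option (Fin 2), a ≠ b → a ≠ c → b ≠ c → b ≠ none →
          (a = none ∧ b = some 0 ∧ c = some 1) ∨ (a = some 0 ∧ b = some 1 ∧ c = none) ∨
          (a = some 1 ∧ b = some 0 ∧ c = none) ∨ (a = none ∧ b = some 1 ∧ c = some 0) := by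
        intro a b c
        fin_cases a <;> fin_cases b <;> fin_cases c <;> simp
      have hcases := hall a b c h01 h02 h12 hnone
      have n0 : ∀ u : K × K, netc K (some (0 : Fin 2)) u = u.1 := fun u => by
        show u.1 * u.2 ^ 0 = u.1
        rw [pow_zero, mul_one]
      have n1 : ∀ u : K × K, netc K (some (1 : Fin 2)) u = u.1 * u.2 := fun u => by
        show u.1 * u.2 ^ 1 = u.1 * u.2
        rw [pow_one]
      have n2 : ∀ u : K × K, netc K (none : Option (Fin 2)) u = u.2 := fun u => rfl
      rcases hcases with ⟨rfl, rfl, rfl⟩ | ⟨rfl, rfl, rfl⟩ | ⟨rfl, rfl, rfl⟩ | ⟨rfl, rfl, rfl⟩ <;>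
        simp only [n0, n1, n2] at c0 c1 c2
      · exact SRGWL.mulEquiv_of_isotopy (fun x => (f (some 1) x)⁻¹) hinv
          (fun x => (f (some 0) x)⁻¹) (fun y => (f none y)⁻¹) fun x y => by
            rw [← c2, ← c0 x y, ← c1 x y]
            group
      · exact SRGWL.mulEquiv_of_isotopy (f (some 1)) hb2 (fun x => (f (some 0) x)⁻¹) (f none)
          fun x y => by
            rw [← c2, ← c0 x y, ← c1 x y]
            group
      · exact SRGWL.mulEquiv_of_isotopy (fun x => (f (some 1) x)⁻¹) hinv
          (fun x => (f (some 0) x)⁻¹) (f none) fun x y => by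
            rw [← c2, ← c0 x y, ← c1 x y]
            group
      · exact SRGWL.mulEquiv_of_isotopy (fun x => (f (some 1) x)⁻¹) hinv (f (some 0))
          (fun y => (f none y)⁻¹) fun x y => by
            rw [← c2, ← c0 x y, ← c1 x y]
            group
    · -- at least four classes
      exfalso
      obtain ⟨i, hi⟩ : ∃ i, π (some i) = none := by
        obtain ⟨c, hc⟩ := π.surjective none
        rcases c with _ | i
        · exact absurd hc hnone
        · exact ⟨i, hc⟩
      obtain ⟨j, hj⟩ : ∃ j : Fin m', j ≠ i := by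
        have : Nontrivial (Fin m') := Fin.nontrivial_iff_two_le.mpr h2
        exact exists_ne i
      obtain ⟨k, hki, hkj⟩ : ∃ k : Fin m', k ≠ i ∧ k ≠ j := by
        have h4 : ({i, j} : Finset (Fin m')).card < Fintype.card (Fin m') := by
          refine lt_of_le_of_lt Finset.card_le_two ?_
          rw [Fintype.card_fin]
          exact h3
        obtain ⟨k, hk⟩ := Finset.exists_mem_notMem_of_card_lt_card
          (s := ({i, j} : Finset (Fin m'))) (t := Finset.univ) (by rwa [Finset.card_univ])
        refine ⟨k, ?_, ?_⟩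
        · rintro rfl
          exact hk.2 (by simp)
        · rintro rfl
          exact hk.2 (by simp)
      obtain ⟨r, hr⟩ : ∃ r, π (some j) = some r := by
        rw [← Option.ne_none_iff_exists']
        intro h
        have := π.injective (h.trans hi.symm)
        exact hj (Option.some.inj this)
      obtain ⟨s, hs⟩ : ∃ s, π (some k) = some s := by
        rw [← Option.ne_none_iff_exists']
        intro h
        have := π.injective (h.trans hi.symm)
        exact hki (Option.some.inj this)
      -- the linear relation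
      set I : ZMod p := ((i : ℕ) : ZMod p) with hI
      set J : ZMod p := ((j : ℕ) : ZMod p) with hJ
      set L : ZMod p := ((k : ℕ) : ZMod p) with hL
      have n1 : J - I ≠ 0 := cast_ne hp hj
      have n2 : J - L ≠ 0 := cast_ne hp hkj.symm
      have n3 : L - I ≠ 0 := cast_ne hp hki
      have hfk : ∀ a b : V, f (some k) (bH.ε.symm (((J - L) / (J - I)) • a + ((L - I) / (J - I)) • b)) =
          f (some j) (bH.ε.symm b) * f (some i) (bH.ε.symm a) ^ (((s : ℕ) : ℤ) - ((r : ℕ) : ℤ)) := by
        intro a b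
        obtain ⟨v, h4, h5⟩ := kc_surj (m' := m') (c := some i) (c' := some j) hβ hp
          (fun h => hj (Option.some.inj h).symm) a b
        have h6 : kc β (some k) v = ((J - L) / (J - I)) • a + ((L - I) / (J - I)) • b := by
          rw [← h4, ← h5]
          show v.1 + L • v.2 = ((J - L) / (J - I)) • (v.1 + I • v.2) +
            ((L - I) / (J - I)) • (v.1 + J • v.2)
          rw [smul_add, smul_add, smul_smul, smul_smul]
          have e1 : (J - L) / (J - I) + (L - I) / (J - I) = 1 := by
            field_simp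
            ring
          have e2 : (J - L) / (J - I) * I + (L - I) / (J - I) * J = L := by
            field_simp
            ring
          calc v.1 + L • v.2 = ((J - L) / (J - I) + (L - I) / (J - I)) • v.1 +
                ((J - L) / (J - I) * I + (L - I) / (J - I) * J) • v.2 := by
                rw [e1, e2, one_smul]
            _ = _ := by
                rw [add_smul, add_smul]
                abel
        set u := (Gam bH hβ).symm v with hu
        have g1 : netc H (some i) u = bH.ε.symm a := by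
          rw [Equiv.eq_symm_apply, eps_netc bH hβ, hu, Equiv.apply_symm_apply, h4]
        have g2 : netc H (some j) u = bH.ε.symm b := by
          rw [Equiv.eq_symm_apply, eps_netc bH hβ, hu, Equiv.apply_symm_apply, h5]
        have g3 : netc H (some k) u =
            bH.ε.symm (((J - L) / (J - I)) • a + ((L - I) / (J - I)) • b) := by
          rw [Equiv.eq_symm_apply, eps_netc bH hβ, hu, Equiv.apply_symm_apply, h6]
        rw [← g1, ← g2, ← g3, ← hf, ← hf, ← hf, hi, hr, hs]
        show (φ u).1 * (φ u).2 ^ (s : ℕ) =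
          (φ u).1 * (φ u).2 ^ (r : ℕ) * (φ u).2 ^ (((s : ℕ) : ℤ) - ((r : ℕ) : ℤ))
        rw [mul_assoc, ← zpow_natCast, ← zpow_natCast, ← zpow_add]
        congr 2
        ring
      have hiso : Nonempty (Multiplicative V ≃* K) := by
        refine SRGWL.mulEquiv_of_isotopy
          (fun x => f (some k) (bH.ε.symm (Multiplicative.toAdd x)))
          ((hbij (some k)).comp (bH.ε.symm.bijective.comp Multiplicative.toAdd.bijective))
          (fun x => f (some j) (bH.ε.symm (((L - I) / (J - I))⁻¹ • Multiplicative.toAdd x)))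
          (fun y => f (some i) (bH.ε.symm (((J - L) / (J - I))⁻¹ • Multiplicative.toAdd y)) ^
            (((s : ℕ) : ℤ) - ((r : ℕ) : ℤ))) ?_
        intro x y
        show f (some k) (bH.ε.symm (Multiplicative.toAdd (x * y))) = _
        rw [← hfk, smul_inv_smul₀ (div_ne_zero n2 n1), smul_inv_smul₀ (div_ne_zero n3 n1), toAdd_mul,
          add_comm]
      obtain ⟨e⟩ := hiso
      obtain ⟨x, y, hxy'⟩ := hK
      have h4 : e (e.symm x * e.symm y) = e (e.symm y * e.symm x) := by rw [mul_comm]
      rw [map_mul, map_mul, e.apply_symm_apply, e.apply_symm_apply] at h4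
      exact hxy' h4

end Pool.Agent.STS
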