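import Pool.Agent.STS.LevelsP
import Pool.Agent.STS.NetIso

/-!
# An isomorphism of the Steiner systems gives an isomorphism of the groups
-/

namespace Pool.Agent.STS

variable {p : ℕ} [Fact p.Prime] {V : Type*} [AddCommGroup V] [Module (ZMod p) V]
  {β : V →ₗ[ZMod p] V →ₗ[ZMod p] V}

/-- the level of a class -/
def cls (p : ℕ) [Fact p.Prime] : Option (Fin (p - 1)) → ZMod p
  | none => -1
  | some i => (i : ℕ)

theorem cls_some_ne (i : Fin (p - 1)) : cls p (some i) ≠ -1 := by
  intro h
  have h1 : ((((i : ℕ) + 1 : ℕ)) : ZMod p) = 0 := by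
    push_cast
    have h2 : ((i : ℕ) : ZMod p) = -1 := h
    rw [h2]
    exact neg_add_cancel 1
  rw [ZMod.natCast_eq_zero_iff] at h1
  have h3 := Nat.le_of_dvd (Nat.succ_pos _) h1
  have := i.2
  omega

theorem cls_injective : Function.Injective (cls p) := by
  rintro (_ | i) (_ | j) h
  · rfl
  · exact absurd h.symm (cls_some_ne j)
  · exact absurd h (cls_some_ne i)
  · have h1 : ((i : ℕ) : ZMod p) = ((j : ℕ) : ZMod p) := h
    have hi := i.2
    have hj := j.2
    rw [ZMod.natCast_eq_natCast_iff', Nat.mod_eq_of_lt (by omega), Nat.mod_eq_of_lt (by omega)] at h1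
    rw [Fin.ext h1]

/-- the classes and the levels -/
noncomputable def clsE (p : ℕ) [Fact p.Prime] : Option (Fin (p - 1)) ≃ ZMod p :=
  Equiv.ofBijective (cls p) ((Fintype.bijective_iff_injective_and_card _).mpr ⟨cls_injective, by
    rw [Fintype.card_option, Fintype.card_fin, ZMod.card]
    have := (Fact.out : p.Prime).pos
    omega⟩)

theorem clsE_apply (c : Option (Fin (p - 1))) : clsE p c = cls p c := rfl

theorem Baer.one {H : Type*} [Group H] (h : Nil2 β) (b : Baer H β) : b.ε 1 = 0 := by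
  have h1 := b.mul 1 1
  rw [mul_one, h.alt, add_zero] at h1
  exact (left_eq_add.mp h1)

theorem Baer.pow {H : Type*} [Group H] (h : Nil2 β) (b : Baer H β) (y : H) (n : ℕ) :
    b.ε (y ^ n) = (n : ZMod p) • b.ε y := by
  induction n with
  | zero => rw [pow_zero, b.one h, Nat.cast_zero, zero_smul]
  | succ n ih =>
    rw [pow_succ, b.mul, ih, map_smul, LinearMap.smul_apply, h.alt, smul_zero, add_zero]
    push_cast
    rw [add_smul, one_smul]

/-- the coordinates of the net of the group are those of the cross blocks -/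
theorem kap_net {H : Type*} [Group H] (h : Nil2 β) (b : Baer H β) (c : Option (Fin (p - 1)))
    (u : H × H) :
    kap β (cls p c) (b.ε u.1) (b.ε u.2 + β (b.ε u.1) (b.ε u.2)) = b.ε (netc H c u) := by
  rcases c with _ | i
  · show kap β (-1) _ _ = b.ε u.2
    rw [kap_negL, map_add, h.nil_right, add_zero, add_sub_cancel_right]
  · rw [kap_neL (cls_some_ne i)]
    show _ + ((i : ℕ) : ZMod p) • _ = b.ε (u.1 * u.2 ^ (i : ℕ))
    rw [b.mul, b.pow h, map_smul, smul_add, add_assoc]

theorem mulEquiv_of_design (hp : p ≠ 2) {V' : Type*} [AddCommGroup V'] [Module (ZMod p) V']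
    [Finite V] [Finite V'] {β' : V' →ₗ[ZMod p] V' →ₗ[ZMod p] V'}
    (hβ : Nil2 β) (hβ' : Nil2 β') {H K : Type*} [Group H] [Group K] (bH : Baer H β)
    (bK : Baer K β') (hK : ∃ x y : K, x * y ≠ y * x) (hcard : Nat.card V = Nat.card V')
    (hbig : ∀ W : Submodule (ZMod p) V', Nat.card W * p = Nat.card V' → ∃ x ∈ W, ∃ y ∈ W, β' x y ≠ 0)
    (e : V × ZMod p ≃ V' × ZMod p)
    (he : ∀ b : Finset (V × ZMod p), b.map e.toEmbedding ∈ design β' ↔ b ∈ design β) :
    Nonempty (H ≃* K) := by
  obtain ⟨π, hπ⟩ := levels_preserved hp hβ hβ' hcard hbig e he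
  let f : ZMod p → V → V' := fun l v => (e (v, l)).1
  have hef : ∀ v l, e (v, l) = (f l v, π l) := fun v l => Prod.ext rfl (hπ _)
  have hπs : Function.Surjective π := by
    intro l
    obtain ⟨q, hq⟩ := e.surjective (0, l)
    exact ⟨q.2, by rw [← hπ, hq]⟩
  have hπb : Function.Bijective π := Finite.surjective_iff_bijective.mp hπs
  -- cross blocks are mapped to cross blocks
  have hblock : ∀ x d : V, ∃ x' d' : V', ∀ l, kap β' (π l) x' d' = f l (kap β l x d) := by
    intro x d
    have h1 : (crossB β x d).map e.toEmbedding ∈ design β' := (he _).mpr (Or.inr ⟨x, d, rfl⟩)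
    have hmem : ∀ l, (f l (kap β l x d), π l) ∈ (crossB β x d).map e.toEmbedding := by
      intro l
      rw [← hef, Finset.mem_map]
      exact ⟨_, mem_crossL.mpr rfl, rfl⟩
    rcases h1 with ⟨y, g, k, -, hb⟩ | ⟨x', d', hb⟩
    · exfalso
      rw [hb] at hmem
      obtain ⟨s, hs⟩ := mem_lineL.mp (hmem 0)
      obtain ⟨t, ht⟩ := mem_lineL.mp (hmem 1)
      have h2 : π 0 = π 1 := (congrArg Prod.snd hs).trans (congrArg Prod.snd ht).symm
      exact zero_ne_one (hπb.1 h2)
    · rw [hb] at hmem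
      exact ⟨x', d', fun l => (mem_crossL.mp (hmem l)).symm⟩
  choose X D hXD using hblock
  let Y : H × H → V := fun u => bH.ε u.2 + β (bH.ε u.1) (bH.ε u.2)
  let φ : H × H → K × K := fun u =>
    (bK.ε.symm (X (bH.ε u.1) (Y u)), bK.ε.symm (D (bH.ε u.1) (Y u) -
      β' (X (bH.ε u.1) (Y u)) (D (bH.ε u.1) (Y u))))
  let ρ : Option (Fin (p - 1)) ≃ Option (Fin (p - 1)) :=
    ((clsE p).trans (Equiv.ofBijective π hπb)).trans (clsE p).symm
  have hρ : ∀ c, cls p (ρ c) = π (cls p c) := by
    intro c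
    show clsE p ((clsE p).symm _) = _
    rw [Equiv.apply_symm_apply]
    rfl
  let F : Option (Fin (p - 1)) → H → K := fun c x => bK.ε.symm (f (cls p c) (bH.ε x))
  have hF : ∀ c u, netc K (ρ c) (φ u) = F c (netc H c u) := by
    intro c u
    have h1 := kap_net hβ' bK (ρ c) (φ u)
    have e1 : bK.ε (φ u).1 = X (bH.ε u.1) (Y u) := bK.ε.apply_symm_apply _
    have e2 : bK.ε (φ u).2 + β' (bK.ε (φ u).1) (bK.ε (φ u).2) = D (bH.ε u.1) (Y u) := by
      rw [e1]
      show bK.ε (bK.ε.symm _) + β' _ (bK.ε (bK.ε.symm _)) = _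
      rw [bK.ε.apply_symm_apply, map_sub, hβ'.nil_right, sub_zero, sub_add_cancel]
    rw [e2, e1, hρ, hXD] at h1
    have h2 := kap_net hβ bH c u
    show netc K (ρ c) (φ u) = bK.ε.symm (f (cls p c) (bH.ε (netc H c u)))
    rw [← h2, h1, Equiv.symm_apply_apply]
  have hp3 : 3 ≤ p := by
    have := (Fact.out : p.Prime).two_le
    omega
  have hfinj : ∀ l, Function.Injective (f l) := by
    intro l v w hvw
    have h1 : e (v, l) = e (w, l) := by rw [hef, hef, hvw]
    exact congrArg Prod.fst (e.injective h1)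
  have hFinj : ∀ c, Function.Injective (F c) := fun c x y hxy =>
    bH.ε.injective (hfinj _ (bK.ε.symm.injective hxy))
  have hφinj : Function.Injective φ := by
    intro u v huv
    have h0 := hF none u
    have h0' := hF none v
    have h1 := hF (some ⟨0, by omega⟩) u
    have h1' := hF (some ⟨0, by omega⟩) v
    rw [huv] at h0 h1
    have e0 : netc H (none : Option (Fin (p - 1))) u = netc H none v :=
      hFinj _ (h0.symm.trans h0')
    have e1 : netc H (some (⟨0, by omega⟩ : Fin (p - 1))) u =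
        netc H (some (⟨0, by omega⟩ : Fin (p - 1))) v :=
      hFinj _ (h1.symm.trans h1')
    have e2 : u.2 = v.2 := e0
    have e3 : u.1 * u.2 ^ 0 = v.1 * v.2 ^ 0 := e1
    rw [pow_zero, pow_zero, mul_one, mul_one] at e3
    exact Prod.ext e3 e2
  have : Finite H := Finite.of_injective _ bH.ε.injective
  have : Finite K := Finite.of_injective _ bK.ε.injective
  have hHK : Nat.card H = Nat.card K := by
    rw [Nat.card_congr bH.ε, Nat.card_congr bK.ε, hcard]
  have hφb : Function.Bijective φ := hφinj.bijective_of_nat_card_le (by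
    rw [Nat.card_prod, Nat.card_prod, hHK])
  exact mulEquiv_of_net hβ hβ' bH bK hK (m' := p - 1) (by omega) (by omega)
    (Equiv.ofBijective φ hφb) ρ F hF

end Pool.Agent.STS
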