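import Pool.Agent.STS.GBaer
import Pool.Agent.STS.IsoP
import Pool.Agent.STS.DesignSt
import Pool.Agent.STS.SteinerClique
import Pool.Agent.SRGWL.SosG

/-!
# The Steiner systems of the two groups: sizes, strong regularity, non-isomorphism
-/

namespace Pool.Agent.STS

open Pool.Agent.SRGWL Pool.Agent.SRGWL.Sos Module

variable {p : ℕ} [Fact p.Prime] {I : Type} [AddCommGroup I] [Module (ZMod p) I] [Finite I] {z : ℕ}

theorem finite_VV (A : Tup (ZMod p) I z) : Finite (VV A) := by
  have : Finite (Dual (ZMod p) I) := DFunLike.finite _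
  have : Finite (Wsp A) := Subtype.finite
  infer_instance

/-- the Steiner system of `G A D` -/
abbrev dsg (A : Tup (ZMod p) I z) (D : CoTup (ZMod p) I z) : Set (Finset (VV A × ZMod p)) :=
  design (V := VV A) (bet A D)

theorem card_VV (A : Tup (ZMod p) I z) (D : CoTup (ZMod p) I z) :
    Nat.card (VV A) = Nat.card (G A D) :=
  (Nat.card_congr (G.equivProd : G A D ≃ _)).symm

theorem dsg_isSteiner (hp : p ≠ 2) (A : Tup (ZMod p) I z) {D : CoTup (ZMod p) I z}
    (hD : CoSkew D) : IsSteiner p (dsg A D) :=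
  design_isSteiner (nil2_bet hp A hD)

theorem coSkew_zero : CoSkew (0 : CoTup (ZMod p) I z) := fun _ _ _ => by simp

open Classical in
theorem dsg_not_iso (hp : p ≠ 2) {A : Tup (ZMod p) I z} {D : CoTup (ZMod p) I z} (hD : CoSkew D)
    [Fintype (VV A × ZMod p)] {N c : ℕ} (h0 : Nat.card (G A 0) = p ^ N)
    (hD' : Nat.card (G A D) = p ^ N)
    (hc : Nat.card (Subgroup.center (G A D)) = p ^ c) (hNc : 2 * c + 1 < N) (hN : 3 ≤ N)
    (hiso : IsEmpty (G A 0 ≃* G A D)) :
    IsEmpty (blockGraph (dsg A 0) ≃g blockGraph (dsg A D)) := by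
  constructor
  intro φ
  have hp1 : 3 ≤ p := by
    have := (Fact.out : p.Prime).two_le
    omega
  have : Finite (VV A) := finite_VV A
  have : Finite (G A D) := Finite.of_equiv _ (G.equivProd : G A D ≃ _).symm
  have hcardP : Fintype.card (VV A × ZMod p) = p ^ N * p := by
    rw [← Nat.card_eq_fintype_card, Nat.card_prod, Nat.card_zmod, card_VV A 0, h0]
  have hbig : (p - 1) * (p * (p - 1) + 2) + 1 ≤ Fintype.card (VV A × ZMod p) := by
    rw [hcardP]
    have h1 : p ^ 3 ≤ p ^ N := Nat.pow_le_pow_right (by omega) hN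
    obtain ⟨q, rfl⟩ : ∃ q, p = q + 1 := ⟨p - 1, by omega⟩
    have h2 : (q + 1) ^ 3 * (q + 1) ≤ (q + 1) ^ N * (q + 1) := Nat.mul_le_mul_right _ h1
    refine le_trans ?_ h2
    simp only [Nat.add_sub_cancel]
    nlinarith [Nat.zero_le q, Nat.zero_le (q ^ 2), Nat.zero_le (q ^ 3), Nat.zero_le (q ^ 4)]
  obtain ⟨e, he⟩ := St.exists_equiv (dsg_isSteiner hp A coSkew_zero) (dsg_isSteiner hp A hD)
    (by omega) hbig hbig φ
  refine hiso.false (mulEquiv_of_design (V := VV A) (V' := VV A) hp (nil2_bet hp A coSkew_zero)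
    (nil2_bet hp A hD) (baerG A 0) (baerG A D) (noncomm ?_) rfl ?_ e he).some
  · rw [hc, hD']
    exact Nat.pow_lt_pow_right (by omega) (by omega)
  · refine hbig_of_baer (V := VV A) (baerG A D) (nil2_bet hp A hD) hp ?_
    rw [hc, hD', ← pow_mul, ← pow_succ]
    exact Nat.pow_lt_pow_right (by omega) (by omega)

end Pool.Agent.STS
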