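import Pool.Agent.STS.Twins
import Pool.Agent.STS.SFinal
import Pool.Agent.STS.StFinal
import Pool.Agent.STS.DesMoves

/-!
# Assembly of the theorem on strongly regular graphs
-/

namespace Pool.Agent.STS

open Pool.Agent.SRGWL Pool.Agent.SRGWL.Sos Module

open Classical in
theorem latin_twins (p : ℕ) (hp : p.Prime) (hp2 : p ≠ 2) (k n m : ℕ)
    (hn : n = p ^ (768 * k + 272)) (hm : 3 ≤ m) (hmp : 2 * m ≤ p + 3) :
    ∃ (V₁ V₂ : Type) (_ : Fintype V₁) (_ : Fintype V₂) (X₁ : SimpleGraph V₁) (X₂ : SimpleGraph V₂),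
      IsCayley X₁ ∧ IsCayley X₂ ∧
      Twins p k (n ^ 2) (m * (n - 1)) (n - 2 + (m - 1) * (m - 2)) (m * (m - 1)) X₁ X₂ := by
  have : Fact p.Prime := ⟨hp⟩
  obtain ⟨A, D, r, hall, hD, hiso, hbase, hext⟩ :=
    exists_special_groups2 p hp2 (3 * k + 1) (by omega)
  have hn' : 256 * (3 * k + 1) + 16 = 768 * k + 272 := by ring
  have h0 : CoSkew (0 : CoTup (ZMod p) (Fin (16 * (3 * k + 1)) → ZMod p) 15) := coSkew_zero
  have h1 : Fintype.card (G A 0) = n := by
    rw [← Nat.card_eq_fintype_card, hn, ← hn']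
    exact (hall 0 h0).1
  have h2 : Fintype.card (G A D) = n := by
    rw [← Nat.card_eq_fintype_card, hn, ← hn']
    exact (hall D hD).1
  have hbig : (m - 1) ^ 2 < n := by
    rw [hn]
    calc (m - 1) ^ 2 ≤ p ^ 2 := Nat.pow_le_pow_left (by omega) 2
      _ < p ^ (768 * k + 272) := Nat.pow_lt_pow_right hp.one_lt (by omega)
  have h2n : 2 ≤ n := by
    rw [hn]
    calc 2 ≤ p := hp.two_le
      _ = p ^ 1 := (pow_one p).symm
      _ ≤ p ^ (768 * k + 272) := Nat.pow_le_pow_right hp.pos (by omega)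
  exact ⟨G A 0 × G A 0, G A D × G A D, inferInstance, inferInstance,
    netG (sc (m - 1) A 0), netG (sc (m - 1) A D), ⟨_, _, _, sc_cay _ _ _⟩, ⟨_, _, _, sc_cay _ _ _⟩,
    snet_isSRG hp2 h0 hm hmp h1 h2n, snet_isSRG hp2 hD hm hmp h2 h2n,
    snet_isEmpty hp2 h0 hD hm hmp h1 h2 hbig hiso,
    snet_indist hp2 hD _ (2 * (3 * k + 1)) hbase hext (by omega)⟩

open Classical in
theorem steiner_twins (p : ℕ) (hp : p.Prime) (hp2 : p ≠ 2) (k v : ℕ)
    (hv : v = p * p ^ (768 * k + 272)) :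
    ∃ (P : Type) (_ : Fintype P) (B₁ B₂ : Set (Finset P)),
      Fintype.card P = v ∧ IsSteiner p B₁ ∧ IsSteiner p B₂ ∧
      Twins p k (v * (v - 1) / (p * (p - 1))) (p * ((v - 1) / (p - 1) - 1))
        ((v - 1) / (p - 1) - 2 + (p - 1) ^ 2) (p ^ 2) (blockGraph B₁) (blockGraph B₂) := by
  have : Fact p.Prime := ⟨hp⟩
  obtain ⟨A, D, r, hall, hD, hiso, hbase, hext⟩ :=
    exists_special_groups2 p hp2 (3 * k + 1) (by omega)
  have hn' : 256 * (3 * k + 1) + 16 = 768 * k + 272 := by ring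
  have h0 : CoSkew (0 : CoTup (ZMod p) (Fin (16 * (3 * k + 1)) → ZMod p) 15) := coSkew_zero
  have h1 : Nat.card (G A 0) = p ^ (768 * k + 272) := by
    rw [← hn']
    exact (hall 0 h0).1
  have h2 : Nat.card (G A D) = p ^ (768 * k + 272) := by
    rw [← hn']
    exact (hall D hD).1
  have : Finite (VV A) := finite_VV A
  letI : Fintype (VV A × ZMod p) := Fintype.ofFinite _
  have hcard : Fintype.card (VV A × ZMod p) = v := by
    rw [← Nat.card_eq_fintype_card, Nat.card_prod, Nat.card_zmod, card_VV A 0, h1, hv, mul_comm]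
  have hsq : p ^ 2 ≤ Fintype.card (VV A × ZMod p) := by
    rw [hcard, hv, ← pow_succ']
    exact Nat.pow_le_pow_right hp.pos (by omega)
  have hS0 := dsg_isSteiner hp2 A h0
  have hSD := dsg_isSteiner hp2 A hD
  have e0 := St.isSRG hS0 hp.two_le hsq
  have eD := St.isSRG hSD hp.two_le hsq
  rw [hcard] at e0 eD
  exact ⟨VV A × ZMod p, inferInstance, dsg A 0, dsg A D, hcard, hS0, hSD, e0, eD,
    dsg_not_iso hp2 hD h1 h2 (hall D hD).2.2.2 (by omega) (by omega) hiso,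
    indist_of_moves (desMoves hp2 A hD) (desMoves_resp hp2 hD) (NonIso.two_ne hp2) hD
      (2 * (3 * k + 1)) hbase hext (by omega)⟩

end Pool.Agent.STS
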