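import Pool.Agent.STS.SNet
import Pool.Agent.SRGWL.SosNet

/-!
# The translations respect the Cayley nets
-/

namespace Pool.Agent.STS

open Pool.Agent.SRGWL Module WLAux

section

variable {K I : Type*} [Field K] [AddCommGroup I] [Module K I] {z : ℕ}

theorem trans_scl {A : Tup K I z} {D : CoTup K I z} (C : CC A) (a : K) (x : G A 0) :
    G.trans (D' := D) C.1 C.2 (scl A 0 a x) = scl A D a (G.trans C.1 C.2 x) := by
  ext1
  · rfl
  · apply Subtype.ext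
    funext ζ
    show a • (x.w : Fin (z + 1) → Dual K I) ζ + C.1 ζ (a • x.i) =
      a • ((x.w : Fin (z + 1) → Dual K I) ζ + C.1 ζ x.i)
    rw [map_smul, smul_add]
  · rfl

theorem sc_trans {A : Tup K I z} {D : CoTup K I z} {C : CC A} {U : Submodule K I}
    (hloc : ∀ u ∈ U, ∀ v ∈ U, ∀ ζ, C.1 ζ u v - C.1 ζ v u = D ζ u v) {m' : ℕ}
    (c : Option (Fin m')) {u : G A 0 × G A 0} (hu : InU U u) :
    sc m' A D c (T2 D C u) = G.trans C.1 C.2 (sc m' A 0 c u) := by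
  rcases c with _ | a
  · rfl
  · rw [sc_some, sc_some, trans_mul C.2 hloc, trans_scl]
    · rfl
    · exact hu.1
    · exact U.smul_mem _ hu.2

theorem snet_adj_iff {A : Tup K I z} {D : CoTup K I z} {C : CC A} {U : Submodule K I}
    (hloc : ∀ u ∈ U, ∀ v ∈ U, ∀ ζ, C.1 ζ u v - C.1 ζ v u = D ζ u v) (m' : ℕ)
    {u v : G A 0 × G A 0} (hu : InU U u) (hv : InU U v) :
    (netG (sc m' A 0)).Adj u v ↔ (netG (sc m' A D)).Adj (T2 D C u) (T2 D C v) := by
  have e1 : T2 D C u ≠ T2 D C v ↔ u ≠ v := (T2_injective C).ne_iff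
  show (u ≠ v ∧ ∃ i, sc m' A 0 i u = sc m' A 0 i v) ↔
    (T2 D C u ≠ T2 D C v ∧ ∃ i, sc m' A D i (T2 D C u) = sc m' A D i (T2 D C v))
  rw [e1]
  simp only [sc_trans hloc _ hu, sc_trans hloc _ hv, (trans_injective (D := D) C).eq_iff]

end

variable {p : ℕ} [Fact p.Prime] {I : Type} [AddCommGroup I] [Module (ZMod p) I] {z : ℕ}
variable {A : Tup (ZMod p) I z} {D : CoTup (ZMod p) I z} [Module.Finite (ZMod p) I]

/-- adjacency in the Cayley nets -/
theorem snetMoves_adj (m' : ℕ) (C : CC A) (W : Submodule (ZMod p) I)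
    (hloc : ∀ u ∈ W, ∀ v ∈ W, ∀ ζ, C.1 ζ u v - C.1 ζ v u = D ζ u v) (u u' : G A 0 × G A 0)
    (hu : (Sos.pairMoves A D).sup u ≤ W) (hu' : (Sos.pairMoves A D).sup u' ≤ W) :
    (netG (sc m' A 0)).Adj u u' ↔
      (netG (sc m' A D)).Adj ((Sos.pairMoves A D).φ C u) ((Sos.pairMoves A D).φ C u') :=
  snet_adj_iff hloc m' (Sos.inU_of_sup hu) (Sos.inU_of_sup hu')

end Pool.Agent.STS
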