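import Pool.Agent.SRGWL.IMD
import Pool.Agent.STS.SMoves
import Pool.Agent.STS.DesMoves

/-!
# Linear-algebraic Weisfeiler-Leman on the Cayley graphs of nets and on the Steiner graphs
-/

namespace Pool.Agent.STS

section general

variable {p : ℕ} [Fact p.Prime] {V : Type*} [AddCommGroup V] [Module (ZMod p) V]

theorem lineE_tors (T T1 T0 T2 : V ≃ₗ[ZMod p] V) (h : ∀ x, T x = T1 (T0.symm (T2 x)))
    (b : LineT p V) : lineE T b = lineE T1 ((lineE T0).symm (lineE T2 b)) := by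
  apply Subtype.ext
  show b.1.map (ptE T).toEmbedding =
    ((b.1.map (ptE T2).toEmbedding).map (ptE T0.symm).toEmbedding).map (ptE T1).toEmbedding
  rw [Finset.map_map, Finset.map_map]
  congr 1
  ext1 q
  exact Prod.ext (h q.1) rfl

theorem blkE_tors {β β' : V →ₗ[ZMod p] V →ₗ[ZMod p] V} (h : Nil2 β) (h' : Nil2 β')
    (T T1 T0 T2 : V ≃ₗ[ZMod p] V) (hT : ∀ x, T x = T1 (T0.symm (T2 x))) (b : design β) :
    blkE h h' T b = blkE h h' T1 ((blkE h h' T0).symm (blkE h h' T2 b)) := by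
  have key : ∀ s : (LineT p V) ⊕ (V × V),
      Equiv.sumCongr (lineE T) (T.toEquiv.prodCongr T.toEquiv) s =
      Equiv.sumCongr (lineE T1) (T1.toEquiv.prodCongr T1.toEquiv)
        ((Equiv.sumCongr (lineE T0) (T0.toEquiv.prodCongr T0.toEquiv)).symm
          (Equiv.sumCongr (lineE T2) (T2.toEquiv.prodCongr T2.toEquiv) s)) := by
    rintro (s | ⟨x, d⟩)
    · exact congrArg Sum.inl (lineE_tors T T1 T0 T2 hT s)
    · exact congrArg Sum.inr (Prod.ext (hT x) (hT d))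
  show (desE β' h') (Equiv.sumCongr _ _ ((desE β h).symm b)) = (desE β' h') (Equiv.sumCongr _ _
    ((desE β h).symm ((desE β h) ((Equiv.sumCongr _ _).symm ((desE β' h').symm
      ((desE β' h') (Equiv.sumCongr _ _ ((desE β h).symm b))))))))
  rw [Equiv.symm_apply_apply, Equiv.symm_apply_apply, key]

end general

open Pool.Agent.SRGWL Module WLAux

variable {p : ℕ} [Fact p.Prime] {I : Type} [AddCommGroup I] [Module (ZMod p) I] {z : ℕ}
  {A : Tup (ZMod p) I z} {D : CoTup (ZMod p) I z}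

theorem TT_add (C C' : CC A) (x : VV A) :
    TT ⟨C.1 + C'.1, Sos.IsC.add C.2 C'.2⟩ x =
      TT C ((TT (⟨0, Sos.isC_zero A⟩ : CC A)).symm (TT C' x)) := by
  refine Prod.ext rfl (Prod.ext ?_ rfl)
  apply Subtype.ext
  funext ζ
  show (x.2.1 : Fin (z + 1) → Dual (ZMod p) I) ζ + (C.1 ζ x.1 + C'.1 ζ x.1) =
    (x.2.1 : Fin (z + 1) → Dual (ZMod p) I) ζ + C'.1 ζ x.1 - 0 + C.1 ζ x.1
  abel

variable [Module.Finite (ZMod p) I]

theorem tors_desMoves (hp : p ≠ 2) (hD : CoSkew D) : IM.Tors (desMoves hp A hD) :=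
  fun C C' b => blkE_tors _ _ _ _ _ _ (TT_add C C') b

variable [Finite I]

theorem snet_laEquiv (hp : p ≠ 2) (hD : CoSkew D) (m' : ℕ) {r : ℕ} (K : ℕ)
    (hbase : Good A D r ⊥ 0)
    (hext : ∀ U U' : Submodule (ZMod p) I, U ≤ U' → finrank (ZMod p) U' ≤ K →
      ∀ C, Good A D r U C → ∃ C', Good A D r U' C' ∧ ∀ u ∈ U, ∀ ζ, C' ζ u = C ζ u)
    {k : ℕ} (hk : 6 * k + 2 ≤ K) :
    IM.GraphLAEquiv p k (netG (sc m' A 0)) (netG (sc m' A D)) :=
  IM.graphLAEquiv_of_moves (Sos.pairMoves A D) (IM.tors_pairMoves A D)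
    (fun C W h u u' hu hu' => snetMoves_adj m' C W h u u' hu hu')
    (NonIso.two_ne hp) hD K hbase hext (by omega)

end Pool.Agent.STS
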