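import Pool.Agent.STS.TwinsLA
import Pool.Agent.STS.SFinal
import Pool.Agent.STS.StFinal
import Pool.Agent.STS.IMFinal

/-!
# Assembly of the theorem on strongly regular graphs, with linear algebra
-/

namespace Pool.Agent.STS.LA

open Pool.Agent.SRGWL Pool.Agent.SRGWL.Sos Module

theorem snet_laEquiv' {p : ℕ} [Fact p.Prime] {I : Type} [AddCommGroup I] [Module (ZMod p) I] {z : ℕ}
    {A : Tup (ZMod p) I z} {D : CoTup (ZMod p) I z} [Module.Finite (ZMod p) I] [Finite I]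
    (hp : p ≠ 2) (hD : CoSkew D) (m' : ℕ) {r : ℕ} (K : ℕ) (hbase : Good A D r ⊥ 0)
    (hext : ∀ U U' : Submodule (ZMod p) I, U ≤ U' → finrank (ZMod p) U' ≤ K →
      ∀ C, Good A D r U C → ∃ C', Good A D r U' C' ∧ ∀ u ∈ U, ∀ ζ, C' ζ u = C ζ u)
    {k : ℕ} (hk : 3 * (2 * k) ≤ 2 * K) (hk' : 2 * k + 2 ≤ K) :
    IM.GraphLAEquiv p k (netG (sc m' A 0)) (netG (sc m' A D)) :=
  IM.graphLAEquiv_of_moves' (Sos.pairMoves A D) (IM.tors_pairMoves A D)
    (fun C W h u u' hu hu' => snetMoves_adj m' C W h u u' hu hu')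
    (NonIso.two_ne hp) hD K hbase hext hk hk'

open Classical in
theorem latin_la (p : ℕ) (hp : p.Prime) (hp2 : p ≠ 2) (k n m : ℕ) (hk : 1 ≤ k)
    (hn : n = p ^ (512 * k + 16)) (hm : 3 ≤ m) (hmp : 2 * m ≤ p + 3) :
    ∃ (V₁ V₂ : Type) (_ : Fintype V₁) (_ : Fintype V₂) (X₁ : SimpleGraph V₁) (X₂ : SimpleGraph V₂),
      LA.IsCayley X₁ ∧ LA.IsCayley X₂ ∧
      LA.Twins p k (n ^ 2) (m * (n - 1)) (n - 2 + (m - 1) * (m - 2)) (m * (m - 1)) X₁ X₂ := by
  have : Fact p.Prime := ⟨hp⟩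
  obtain ⟨A, D, r, hall, hD, hiso, hbase, hext⟩ :=
    exists_special_groups2 p hp2 (2 * k) (by omega)
  have hn' : 256 * (2 * k) + 16 = 512 * k + 16 := by ring
  have h0 : CoSkew (0 : CoTup (ZMod p) (Fin (16 * (2 * k)) → ZMod p) 15) := coSkew_zero
  have h1 : Fintype.card (G A 0) = n := by
    rw [← Nat.card_eq_fintype_card, hn, ← hn']
    exact (hall 0 h0).1
  have h2 : Fintype.card (G A D) = n := by
    rw [← Nat.card_eq_fintype_card, hn, ← hn']
    exact (hall D hD).1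
  have hbig : (m - 1) ^ 2 < n := by
    rw [hn]
    calc (m - 1) ^ 2 ≤ p ^ 2 := Nat.pow_le_pow_left (by omega) 2
      _ < p ^ (512 * k + 16) := Nat.pow_lt_pow_right hp.one_lt (by omega)
  have h2n : 2 ≤ n := by
    rw [hn]
    calc 2 ≤ p := hp.two_le
      _ = p ^ 1 := (pow_one p).symm
      _ ≤ p ^ (512 * k + 16) := Nat.pow_le_pow_right hp.pos (by omega)
  exact ⟨G A 0 × G A 0, G A D × G A D, inferInstance, inferInstance,
    netG (sc (m - 1) A 0), netG (sc (m - 1) A D), ⟨_, _, _, sc_cay _ _ _⟩, ⟨_, _, _, sc_cay _ _ _⟩,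
    snet_isSRG hp2 h0 hm hmp h1 h2n, snet_isSRG hp2 hD hm hmp h2 h2n,
    snet_isEmpty hp2 h0 hD hm hmp h1 h2 hbig hiso,
    snet_laEquiv' hp2 hD _ (2 * (2 * k)) hbase hext (by omega) (by omega)⟩

open Classical in
theorem steiner_la (p : ℕ) (hp : p.Prime) (hp2 : p ≠ 2) (k v : ℕ) (hk : 1 ≤ k)
    (hv : v = p * p ^ (512 * k + 16)) :
    ∃ (P : Type) (_ : Fintype P) (B₁ B₂ : Set (Finset P)),
      Fintype.card P = v ∧ IsSteiner p B₁ ∧ IsSteiner p B₂ ∧
      LA.Twins p k (v * (v - 1) / (p * (p - 1))) (p * ((v - 1) / (p - 1) - 1))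
        ((v - 1) / (p - 1) - 2 + (p - 1) ^ 2) (p ^ 2) (blockGraph B₁) (blockGraph B₂) := by
  have : Fact p.Prime := ⟨hp⟩
  obtain ⟨A, D, r, hall, hD, hiso, hbase, hext⟩ :=
    exists_special_groups2 p hp2 (2 * k) (by omega)
  have hn' : 256 * (2 * k) + 16 = 512 * k + 16 := by ring
  have h0 : CoSkew (0 : CoTup (ZMod p) (Fin (16 * (2 * k)) → ZMod p) 15) := coSkew_zero
  have h1 : Nat.card (G A 0) = p ^ (512 * k + 16) := by
    rw [← hn']
    exact (hall 0 h0).1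
  have h2 : Nat.card (G A D) = p ^ (512 * k + 16) := by
    rw [← hn']
    exact (hall D hD).1
  have : Finite (VV A) := finite_VV A
  letI : Fintype (VV A × ZMod p) := Fintype.ofFinite _
  have hcard : Fintype.card (VV A × ZMod p) = v := by
    rw [← Nat.card_eq_fintype_card, Nat.card_prod, Nat.card_zmod, card_VV A 0, h1, hv, mul_comm]
  have hsq : p ^ 2 ≤ Fintype.card (VV A × ZMod p) := by
    rw [hcard, hv, ← pow_succ']
    exact Nat.pow_le_pow_right hp.pos (by omega)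
  have hS0 := dsg_isSteiner hp2 A h0
  have hSD := dsg_isSteiner hp2 A hD
  have e0 := St.isSRG hS0 hp.two_le hsq
  have eD := St.isSRG hSD hp.two_le hsq
  rw [hcard] at e0 eD
  exact ⟨VV A × ZMod p, inferInstance, dsg A 0, dsg A D, hcard, hS0, hSD, e0, eD,
    dsg_not_iso hp2 hD h1 h2 (hall D hD).2.2.2 (by omega) (by omega) hiso,
    IM.graphLAEquiv_of_moves' (desMoves hp2 A hD) (tors_desMoves hp2 hD) (desMoves_resp hp2 hD)
      (NonIso.two_ne hp2) hD (2 * (2 * k)) hbase hext (by omega) (by omega)⟩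

end Pool.Agent.STS.LA
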