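import Pool.Agent.STS.Op

/-!
# Distributive Steiner quasigroups: planes of order three and transitivity
-/

namespace Pool.Agent.STS

/-- distributivity -/
def Dist {P : Type*} (op : P → P → P) : Prop :=
  ∀ p q r, op p (op q r) = op (op p q) (op p r)

section

variable {P : Type*} {op : P → P → P}

theorem SQ.inj (h : SQ op) (x : P) : Function.Injective (op x) := fun y z e => by
  rw [← h.inv x y, e, h.inv]

/-- the six forms of `x ∘ y = z` -/
theorem SQ.six (h : SQ op) {x y z : P} (e : op x y = z) :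
    op x y = z ∧ op y x = z ∧ op x z = y ∧ op z x = y ∧ op y z = x ∧ op z y = x := by
  subst e
  refine ⟨rfl, h.comm _ _, h.inv _ _, ?_, ?_, ?_⟩
  · rw [h.comm, h.inv]
  · rw [h.comm x y, h.inv]
  · rw [h.comm, h.comm x y, h.inv]

/-- a set closed under the operation -/
def Closed (op : P → P → P) (S : Finset P) : Prop := ∀ x ∈ S, ∀ y ∈ S, op x y ∈ S

open Classical in
theorem exists_plane (h : SQ op) (hd : Dist op) {a b c : P} (hab : a ≠ b) (hca : c ≠ a)
    (hcb : c ≠ b) (hcd : c ≠ op a b) :
    ∃ S : Finset P, S.card = 9 ∧ Closed op S ∧ a ∈ S ∧ b ∈ S ∧ op a b ∈ S ∧ c ∈ S := by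
  obtain ⟨d, hd1⟩ : ∃ t, op a b = t := ⟨_, rfl⟩
  obtain ⟨e, he⟩ : ∃ t, op c a = t := ⟨_, rfl⟩
  obtain ⟨f, hf⟩ : ∃ t, op c b = t := ⟨_, rfl⟩
  obtain ⟨g, hg⟩ : ∃ t, op c d = t := ⟨_, rfl⟩
  obtain ⟨u, hu⟩ : ∃ t, op a f = t := ⟨_, rfl⟩
  obtain ⟨v, hv⟩ : ∃ t, op a g = t := ⟨_, rfl⟩
  rw [hd1] at hcd ⊢
  -- the twelve lines
  have l1 := h.six hd1
  have l2 := h.six he
  have l3 := h.six hf
  have l4 := h.six hg
  have l5 := h.six hu
  have l6 := h.six hv
  have h7 : op e f = g := by rw [← he, ← hf, ← hd, hd1, hg]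
  have l7 := h.six h7
  have h8 : op b e = v := by rw [← hv, ← hg, hd, l2.2.1, l1.2.2.1, h.comm]
  have l8 := h.six h8
  have h9 : op b g = u := by rw [← hg, hd, l3.2.1, l1.2.2.2.2.1, l5.2.1]
  have l9 := h.six h9
  have h10 : op c u = v := by rw [← hu, hd, he, l3.2.2.1, l8.2.1]
  have l10 := h.six h10
  have h11 : op d e = u := by rw [← he, hd, l4.2.1, l1.2.2.2.1, l9.2.1]
  have l11 := h.six h11
  have h12 : op d f = v := by rw [← hf, hd, l4.2.1, l1.2.2.2.2.2, l6.2.1]
  have l12 := h.six h12
  clear hd1 he hf hg hu hv h7 h8 h9 h10 h11 h12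
  -- the three parallel lines
  have hL : ∀ x ∈ ({a, b, d} : Finset P), ∀ y ∈ ({a, b, d} : Finset P),
      op x y ∈ ({a, b, d} : Finset P) := by
    intro x hx y hy
    simp only [Finset.mem_insert, Finset.mem_singleton] at hx hy ⊢
    rcases hx with rfl | rfl | rfl <;> rcases hy with rfl | rfl | rfl <;>
      simp [h.idem, l1]
  have hcL : c ∉ ({a, b, d} : Finset P) := by
    simp [hca, hcb, hcd]
  have hM : ({e, f, g} : Finset P) = ({a, b, d} : Finset P).image (op c) := by
    rw [Finset.image_insert, Finset.image_insert, Finset.image_singleton, l2.1, l3.1, l4.1]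
  have hN : ({c, u, v} : Finset P) = ({e, f, g} : Finset P).image (op a) := by
    rw [Finset.image_insert, Finset.image_insert, Finset.image_singleton, l5.1, l6.1,
      l2.2.2.2.2.1]
  have hda : d ≠ a := by
    intro h1
    apply hab
    have := l1.2.2.1
    rw [h1, h.idem] at this
    exact this
  have hdb : d ≠ b := by
    intro h1
    apply hab
    have := l1.2.2.2.2.1
    rw [h1, h.idem] at this
    exact this.symm
  have cL : ({a, b, d} : Finset P).card = 3 :=
    Finset.card_eq_three.mpr ⟨a, b, d, hab, hda.symm, hdb.symm, rfl⟩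
  have cM : ({e, f, g} : Finset P).card = 3 := by
    rw [hM, Finset.card_image_of_injective _ (h.inj c), cL]
  have cN : ({c, u, v} : Finset P).card = 3 := by
    rw [hN, Finset.card_image_of_injective _ (h.inj a), cM]
  have dLM : Disjoint ({a, b, d} : Finset P) ({e, f, g} : Finset P) := by
    rw [Finset.disjoint_left]
    intro x hx hx2
    rw [hM, Finset.mem_image] at hx2
    obtain ⟨y, hy, rfl⟩ := hx2
    apply hcL
    have := hL _ hx _ hy
    rwa [(h.six rfl).2.2.2.2.2] at this
  have dLN : Disjoint ({a, b, d} : Finset P) ({c, u, v} : Finset P) := by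
    rw [Finset.disjoint_left]
    intro x hx hx2
    rw [hN, Finset.mem_image] at hx2
    obtain ⟨y, hy, rfl⟩ := hx2
    have h2 := hL a (by simp) _ hx
    rw [h.inv] at h2
    exact Finset.disjoint_left.mp dLM h2 hy
  have dMN : Disjoint ({e, f, g} : Finset P) ({c, u, v} : Finset P) := by
    rw [Finset.disjoint_left]
    intro x hx hx2
    rw [hN, Finset.mem_image] at hx2
    obtain ⟨y, hy, rfl⟩ := hx2
    have h3 : ∀ s ∈ ({e, f, g} : Finset P), ∀ t ∈ ({e, f, g} : Finset P),
        op s t ∈ ({e, f, g} : Finset P) := by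
      intro s hs t ht
      rw [hM, Finset.mem_image] at hs ht ⊢
      obtain ⟨s, hs, rfl⟩ := hs
      obtain ⟨t, ht, rfl⟩ := ht
      exact ⟨op s t, hL _ hs _ ht, hd _ _ _⟩
    have h4 := h3 _ hx _ hy
    rw [(h.six rfl).2.2.2.2.2] at h4
    exact Finset.disjoint_left.mp dLM (by simp) h4
  refine ⟨({a, b, d} ∪ {e, f, g}) ∪ {c, u, v}, ?_, ?_, ?_, ?_, ?_, ?_⟩
  · rw [Finset.card_union_of_disjoint, Finset.card_union_of_disjoint dLM, cL, cM, cN]
    exact Finset.disjoint_union_left.mpr ⟨dLN, dMN⟩
  · clear dLM dLN dMN cL cM cN hda hdb hM hN hcL hL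
    intro x hx y hy
    simp only [Finset.mem_union, Finset.mem_insert, Finset.mem_singleton] at hx hy ⊢
    rcases hx with ((hx | hx | hx) | (hx | hx | hx)) | (hx | hx | hx) <;>
      rcases hy with ((hy | hy | hy) | (hy | hy | hy)) | (hy | hy | hy) <;>
      rw [hx, hy] <;> simp [h.idem, l1, l2, l3, l4, l5, l6, l7, l8, l9, l10, l11, l12]
  · simp
  · simp
  · simp
  · simp

open Classical in
theorem mem_blk {p q r : P} : r ∈ blk op p q ↔ r = p ∨ r = q ∨ r = op p q := by
  simp [blk]

/-- a closed set contains every block with two points in it -/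
theorem Closed.block (h : SQ op) {S : Finset P} (hS : Closed op S) {b : Finset P}
    (hb : b ∈ blocks op) {x y : P} (hx : x ∈ b) (hy : y ∈ b) (hxy : x ≠ y) (hxS : x ∈ S)
    (hyS : y ∈ S) : b ⊆ S := by
  obtain ⟨p, q, hpq, rfl⟩ := hb
  have key := hS x hxS y hyS
  have h6 := h.six (rfl : op p q = op p q)
  rw [mem_blk] at hx hy
  intro z hz
  rw [mem_blk] at hz
  rcases hx with rfl | rfl | rfl <;> rcases hy with rfl | rfl | rfl
  · exact absurd rfl hxy
  · rcases hz with rfl | rfl | rfl
    · exact hxS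
    · exact hyS
    · exact key
  · rw [h6.2.2.1] at key
    rcases hz with rfl | rfl | rfl
    · exact hxS
    · exact key
    · exact hyS
  · rw [h6.2.1] at key
    rcases hz with rfl | rfl | rfl
    · exact hyS
    · exact hxS
    · exact key
  · exact absurd rfl hxy
  · rw [h6.2.2.2.2.1] at key
    rcases hz with rfl | rfl | rfl
    · exact key
    · exact hxS
    · exact hyS
  · rw [h6.2.2.2.1] at key
    rcases hz with rfl | rfl | rfl
    · exact hyS
    · exact key
    · exact hxS
  · rw [h6.2.2.2.2.2] at key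
    rcases hz with rfl | rfl | rfl
    · exact key
    · exact hyS
    · exact hxS
  · exact absurd rfl hxy

/-- a distributive Steiner quasigroup with at least nine points is a Hall triple system -/
theorem isHall [Fintype P] (h : SQ op) (hd : Dist op) (hP : 9 ≤ Fintype.card P) :
    IsHall (blocks op) := by
  classical
  have hex : ∀ T : Finset P, T.card ≤ 3 → ∃ c, c ∉ T := by
    intro T hT
    by_contra hcon
    push Not at hcon
    have := Finset.card_le_card (fun x _ => hcon x : (Finset.univ : Finset P) ⊆ T)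
    rw [Finset.card_univ] at this
    omega
  have main : ∀ p b c : P, p ≠ b → c ∉ ({p, b, op p b} : Finset P) → ∀ q r : P,
      q ∈ ({p, b, op p b, c} : Finset P) → r ∈ ({p, b, op p b, c} : Finset P) →
      ∃ S : Finset P, S.card = 9 ∧ p ∈ S ∧ q ∈ S ∧ r ∈ S ∧
        ∀ b ∈ blocks op, ∀ x ∈ b, ∀ y ∈ b, x ≠ y → x ∈ S → y ∈ S → b ⊆ S := by
    intro p b c hpb hc q r hq hr
    simp only [Finset.mem_insert, Finset.mem_singleton, not_or] at hc
    obtain ⟨S, h9, hcl, h1, h2, h3, h4⟩ := exists_plane h hd hpb hc.1 hc.2.1 hc.2.2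
    refine ⟨S, h9, h1, ?_, ?_, fun b hb x hx y hy hxy hxS hyS =>
      hcl.block h hb hx hy hxy hxS hyS⟩
    · simp only [Finset.mem_insert, Finset.mem_singleton] at hq
      rcases hq with rfl | rfl | rfl | rfl <;> assumption
    · simp only [Finset.mem_insert, Finset.mem_singleton] at hr
      rcases hr with rfl | rfl | rfl | rfl <;> assumption
  intro p q r
  by_cases hpq : p = q
  · by_cases hpr : p = r
    · obtain ⟨b, hb⟩ := hex {p} (by simp)
      obtain ⟨c, hc⟩ := hex {p, b, op p b} Finset.card_le_three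
      exact main p b c (fun h => hb (by simp [h])) hc q r (by simp [hpq]) (by simp [hpr])
    · obtain ⟨c, hc⟩ := hex {p, r, op p r} Finset.card_le_three
      exact main p r c hpr hc q r (by simp [hpq]) (by simp)
  · by_cases hr : r ∈ ({p, q, op p q} : Finset P)
    · obtain ⟨c, hc⟩ := hex {p, q, op p q} Finset.card_le_three
      refine main p q c hpq hc q r (by simp) ?_
      simp only [Finset.mem_insert, Finset.mem_singleton] at hr ⊢
      tauto
    · exact main p q r hpq hr q r (by simp) (by simp)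

/-- the reflection at a point -/
def refl (h : SQ op) (m : P) : P ≃ P where
  toFun := op m
  invFun := op m
  left_inv := h.inv m
  right_inv := h.inv m

theorem isAut_of_hom {e : P ≃ P} (he : ∀ x y, e (op x y) = op (e x) (e y)) :
    IsAut (blocks op) e := by
  classical
  have h1 : ∀ (f : P ≃ P), (∀ x y, f (op x y) = op (f x) (f y)) → ∀ b ∈ blocks op,
      b.map f.toEmbedding ∈ blocks op := by
    rintro f hf b ⟨x, y, hxy, rfl⟩
    refine ⟨f x, f y, fun h => hxy (f.injective h), ?_⟩
    ext z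
    rw [Finset.mem_map, mem_blk]
    constructor
    · rintro ⟨w, hw, rfl⟩
      rw [mem_blk] at hw
      rcases hw with rfl | rfl | rfl
      · exact Or.inl rfl
      · exact Or.inr (Or.inl rfl)
      · exact Or.inr (Or.inr (hf _ _))
    · rintro (rfl | rfl | rfl)
      · exact ⟨x, mem_blk.mpr (Or.inl rfl), rfl⟩
      · exact ⟨y, mem_blk.mpr (Or.inr (Or.inl rfl)), rfl⟩
      · exact ⟨op x y, mem_blk.mpr (Or.inr (Or.inr rfl)), hf _ _⟩
  intro b
  refine ⟨fun hb => ?_, h1 e he b⟩
  have h2 := h1 e.symm (fun x y => by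
    rw [Equiv.symm_apply_eq, he, Equiv.apply_symm_apply, Equiv.apply_symm_apply]) _ hb
  have h3 : (b.map e.toEmbedding).map e.symm.toEmbedding = b := by
    ext z
    simp
  rwa [h3] at h2

/-- a distributive Steiner quasigroup has a transitive automorphism group -/
theorem exists_aut (h : SQ op) (hd : Dist op) (p q : P) :
    ∃ e : P ≃ P, IsAut (blocks op) e ∧ e p = q := by
  refine ⟨refl h (op p q), isAut_of_hom (fun x y => hd _ x y), ?_⟩
  show op (op p q) p = q
  rw [h.comm, h.inv]

end

end Pool.Agent.STS
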