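import Pool.Agent.STS.Op

/-!
# The Hall triple system of a group of exponent three

`hop H` is a distributive Steiner quasigroup; every distributive Steiner quasigroup with at least nine
points is a Hall triple system with a transitive automorphism group.
-/

namespace Pool.Agent.STS

section Levels

theorem z3_cases (a b : ZMod 3) : b = a ∨ b = a + 1 ∨ b = a + 2 := by
  revert a b
  decide

theorem z3_a (a : ZMod 3) : a + 1 + 1 = a + 2 := by revert a; decide
theorem z3_b (a : ZMod 3) : a + 1 + 2 = a := by revert a; decide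
theorem z3_c (a : ZMod 3) : a + 2 + 1 = a := by revert a; decide
theorem z3_d (a : ZMod 3) : a + 2 + 2 = a + 1 := by revert a; decide
theorem z3_ne1 (a : ZMod 3) : a + 1 ≠ a := by revert a; decide
theorem z3_ne2 (a : ZMod 3) : a + 2 ≠ a := by revert a; decide
theorem z3_ne3 (a : ZMod 3) : a + 2 ≠ a + 1 := by revert a; decide

end Levels

section Group

variable {H : Type*} [Group H]

theorem hop_same (x y : H) (a : ZMod 3) : hop H (x, a) (y, a) = (x * y⁻¹ * x, a) := by
  simp [hop]

theorem hop_one (x y : H) (a : ZMod 3) : hop H (x, a) (y, a + 1) = ((x * y)⁻¹, a + 2) := by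
  rw [hop, if_neg (z3_ne1 a), if_pos rfl]

theorem hop_two (x y : H) (a : ZMod 3) : hop H (x, a) (y, a + 2) = ((y * x)⁻¹, a + 1) := by
  rw [hop, if_neg (z3_ne2 a), if_neg (z3_ne3 a)]

theorem hop_a (x y : H) (a : ZMod 3) : hop H (x, a + 1) (y, a) = ((y * x)⁻¹, a + 2) := by
  have h := hop_two x y (a + 1)
  rwa [z3_b, z3_a] at h

theorem hop_b (x y : H) (a : ZMod 3) : hop H (x, a + 2) (y, a) = ((x * y)⁻¹, a + 1) := by
  have h := hop_one x y (a + 2)
  rwa [z3_c, z3_d] at h

theorem hop_c (x y : H) (a : ZMod 3) : hop H (x, a + 1) (y, a + 2) = ((x * y)⁻¹, a) := by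
  have h := hop_one x y (a + 1)
  rwa [z3_a, z3_b] at h

theorem hop_d (x y : H) (a : ZMod 3) : hop H (x, a + 2) (y, a + 1) = ((y * x)⁻¹, a) := by
  have h := hop_two x y (a + 2)
  rwa [z3_d, z3_c] at h

theorem exp3_comm (h3 : Exp3 H) (x y : H) : x * y⁻¹ * x = y * x⁻¹ * y := by
  have h := h3 (y⁻¹ * x)
  have h2 : x * y⁻¹ * x = y * ((y⁻¹ * x) * (y⁻¹ * x) * (y⁻¹ * x)) * (x⁻¹ * y) := by group
  rw [h2, h]
  group

theorem hop_SQ (h3 : Exp3 H) : SQ (hop H) where
  idem := by
    rintro ⟨x, a⟩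
    rw [hop_same]
    simp
  comm := by
    rintro ⟨x, a⟩ ⟨y, b⟩
    rcases z3_cases a b with rfl | rfl | rfl
    · rw [hop_same, hop_same, exp3_comm h3]
    · rw [hop_one, hop_a]
    · rw [hop_two, hop_b]
  inv := by
    rintro ⟨x, a⟩ ⟨y, b⟩
    rcases z3_cases a b with rfl | rfl | rfl
    · rw [hop_same, hop_same]
      group
    · rw [hop_one, hop_two]
      group
    · rw [hop_two, hop_one]
      group

theorem hop_dist (p q r : H × ZMod 3) : hop H p (hop H q r) = hop H (hop H p q) (hop H p r) := by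
  obtain ⟨x, a⟩ := p
  obtain ⟨y, b⟩ := q
  obtain ⟨z, c⟩ := r
  rcases z3_cases a b with h | h | h <;> rcases z3_cases a c with h' | h' | h' <;> rw [h, h'] <;>
    simp only [hop_same, hop_one, hop_two, hop_a, hop_b, hop_c, hop_d, Prod.mk.injEq, and_true] <;>
    group

end Group

end Pool.Agent.STS
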