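import Pool.Agent.STS.Hop

/-!
# The Hall triple system of a group of exponent three and class two determines the group

`mulEquiv_of_hop`: if the group `K` has no commutative subgroup of index three, then an isomorphism
of the Steiner quasigroups of `H` and `K` maps levels to levels, so it gives an isotopy and the
groups are isomorphic.
-/

namespace Pool.Agent.STS

section Isotopy

variable {H K : Type*} [Group H] [Group K]

theorem mulEquiv_of_isotopy {h f g : H → K} (hb : Function.Bijective h)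
    (e : ∀ x y, h (x * y) = f x * g y) : Nonempty (H ≃* K) := by
  have h1 : ∀ x, h x = f x * g 1 := fun x => by rw [← e, mul_one]
  have h2 : ∀ y, h y = f 1 * g y := fun y => by rw [← e, one_mul]
  have h3 : ∀ x y, (h 1)⁻¹ * h (x * y) = ((h 1)⁻¹ * h x) * ((h 1)⁻¹ * h y) := by
    intro x y
    have e1 := h1 x
    have e2 := h2 y
    have e3 := h1 1
    rw [e x y, show f x = h x * (g 1)⁻¹ by rw [e1]; group,
      show g y = (f 1)⁻¹ * h y by rw [e2]; group, e3]
    group
  refine ⟨MulEquiv.ofBijective (MonoidHom.mk' (fun x => (h 1)⁻¹ * h x) h3) ?_⟩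
  show Function.Bijective (fun x => (h 1)⁻¹ * h x)
  exact (Group.mulLeft_bijective (h 1)⁻¹).comp hb

theorem mulEquiv_of_anti {h f g : H → K} (hb : Function.Bijective h)
    (e : ∀ x y, h (x * y) = g y * f x) : Nonempty (H ≃* K) := by
  apply mulEquiv_of_isotopy (h := fun x => (h x)⁻¹) (f := fun x => (f x)⁻¹)
    (g := fun y => (g y)⁻¹)
  · exact (inv_involutive.bijective).comp hb
  · intro x y
    rw [e, mul_inv_rev]

end Isotopy

section Medial

variable {H : Type*} [Group H]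

theorem medial_same (hc : ∀ x y z : H, Commute (x * y * x⁻¹ * y⁻¹) z) (x1 x2 x3 x4 : H) :
    (x1 * x2⁻¹ * x1) * (x3 * x4⁻¹ * x3)⁻¹ * (x1 * x2⁻¹ * x1) =
      (x1 * x3⁻¹ * x1) * (x2 * x4⁻¹ * x2)⁻¹ * (x1 * x3⁻¹ * x1) := by
  obtain ⟨a, ha⟩ : ∃ t, x2⁻¹ = t := ⟨_, rfl⟩
  obtain ⟨c, hc'⟩ : ∃ t, x3⁻¹ = t := ⟨_, rfl⟩
  obtain ⟨z, hz⟩ : ∃ t, a * x1 * c * a⁻¹ * x1⁻¹ * c⁻¹ = t := ⟨_, rfl⟩
  have hzc : ∀ t, Commute z t := by
    intro t
    have e1 : z = ((a * x1) * c * (a * x1)⁻¹ * c⁻¹) * (c * (a * x1 * a⁻¹ * x1⁻¹) * c⁻¹) := by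
      rw [← hz]
      group
    have e2 : c * (a * x1 * a⁻¹ * x1⁻¹) * c⁻¹ = a * x1 * a⁻¹ * x1⁻¹ := by
      rw [← (hc a x1 c).eq, mul_inv_cancel_right]
    rw [e1, e2]
    exact (hc _ _ _).mul_left (hc _ _ _)
  have hp : a * x1 * c = z * (c * x1 * a) := by
    rw [← hz]
    group
  have e1 : (x1 * x2⁻¹ * x1) * (x3 * x4⁻¹ * x3)⁻¹ * (x1 * x2⁻¹ * x1) =
      x1 * (a * x1 * c) * x4 * (c * x1 * a) * x1 := by
    rw [← ha, ← hc']
    group
  have e2 : (x1 * x3⁻¹ * x1) * (x2 * x4⁻¹ * x2)⁻¹ * (x1 * x3⁻¹ * x1) =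
      x1 * (c * x1 * a) * x4 * (a * x1 * c) * x1 := by
    rw [← ha, ← hc']
    group
  rw [e1, e2, hp]
  have e3 : x1 * (c * x1 * a) * x4 * (z * (c * x1 * a)) * x1 =
      (x1 * (c * x1 * a) * x4 * z) * (c * x1 * a) * x1 := by group
  have e4 : x1 * (z * (c * x1 * a)) * x4 * (c * x1 * a) * x1 =
      ((x1 * z) * (c * x1 * a) * x4) * (c * x1 * a) * x1 := by group
  rw [e3, e4, ← (hzc (x1 * (c * x1 * a) * x4)).eq, ← (hzc x1).eq]
  group

theorem hop_medial (hc : ∀ x y z : H, Commute (x * y * x⁻¹ * y⁻¹) z) (n : ZMod 3)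
    (x1 x2 x3 x4 : H) :
    hop H (hop H (x1, n) (x2, n)) (hop H (x3, n) (x4, n)) =
      hop H (hop H (x1, n) (x3, n)) (hop H (x2, n) (x4, n)) := by
  simp only [hop_same]
  rw [medial_same hc]

end Medial

section Twist

variable {K : Type*} [Group K]

/-- translations of the three levels -/
def tw (c : ZMod 3 → K) : K × ZMod 3 ≃ K × ZMod 3 where
  toFun p := (c p.2 * p.1 * (c (p.2 + 1))⁻¹, p.2)
  invFun p := ((c p.2)⁻¹ * p.1 * c (p.2 + 1), p.2)
  left_inv p := by
    ext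
    · simp only
      group
    · rfl
  right_inv p := by
    ext
    · simp only
      group
    · rfl

theorem tw_apply (c : ZMod 3 → K) (x : K) (n : ZMod 3) :
    tw c (x, n) = (c n * x * (c (n + 1))⁻¹, n) := rfl

theorem tw_hop (c : ZMod 3 → K) (p q : K × ZMod 3) :
    tw c (hop K p q) = hop K (tw c p) (tw c q) := by
  obtain ⟨x, a⟩ := p
  obtain ⟨y, b⟩ := q
  rcases z3_cases a b with h | h | h <;> rw [h] <;>
    simp only [tw_apply, hop_same, hop_one, hop_two, z3_a, z3_c, Prod.mk.injEq, and_true] <;>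
    group

/-- a closed medial set which contains the three neutral elements -/
theorem exists_subgroup {M : Set (K × ZMod 3)} (hcl : ∀ p ∈ M, ∀ q ∈ M, hop K p q ∈ M)
    (hmed : ∀ a ∈ M, ∀ b ∈ M, ∀ c ∈ M, ∀ d ∈ M,
      hop K (hop K a b) (hop K c d) = hop K (hop K a c) (hop K b d))
    (h1 : ∀ n, ((1 : K), n) ∈ M) :
    ∃ A : Subgroup K, (∀ x ∈ A, ∀ y ∈ A, x * y = y * x) ∧
      M = (A : Set K) ×ˢ (Set.univ : Set (ZMod 3)) := by
  have hinv : ∀ x n, (x, n) ∈ M → (x⁻¹, n) ∈ M := by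
    intro x n h
    have := hcl _ (h1 n) _ h
    rwa [hop_same, one_mul, mul_one] at this
  have h2 : ∀ x n, (x, n) ∈ M → (x, n + 2) ∈ M := by
    intro x n h
    have := hcl _ h _ (h1 (n + 1))
    rw [hop_one, mul_one] at this
    have := hinv _ _ this
    rwa [inv_inv] at this
  have hall : ∀ x n m, (x, n) ∈ M → (x, m) ∈ M := by
    intro x n m h
    rcases z3_cases n m with e | e | e
    · rwa [e]
    · have := h2 _ _ (h2 _ _ h)
      rwa [z3_d, ← e] at this
    · rw [e]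
      exact h2 _ _ h
  let A : Subgroup K :=
    { carrier := {x | (x, (0 : ZMod 3)) ∈ M}
      one_mem' := h1 0
      mul_mem' := by
        intro x y hx hy
        have hy1 : (y, (0 : ZMod 3) + 1) ∈ M := hall _ _ _ hy
        have := hcl _ hx _ hy1
        rw [hop_one] at this
        have := hinv _ _ this
        rw [inv_inv] at this
        exact hall _ _ _ this
      inv_mem' := fun {x} hx => hinv _ _ hx }
  refine ⟨A, ?_, ?_⟩
  · intro x hx y hy
    have hx' : (x, (0 : ZMod 3)) ∈ M := hx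
    have hy1 : (y, (0 : ZMod 3) + 1) ∈ M := hall _ _ _ hy
    have h := hmed _ hx' _ hy1 _ (h1 0) _ (h1 (0 + 1))
    rw [hop_one, hop_one, hop_same, hop_same, hop_same, hop_one, Prod.mk.injEq] at h
    have h4 := h.1
    have h5 : x * (y * x) * y = x * (x * y) * y := by
      have h6 := congrArg (·⁻¹) h4
      simp only [mul_one, inv_one, mul_inv_rev, inv_inv] at h6
      simp only [← mul_assoc] at h6 ⊢
      exact h6
    exact (mul_left_cancel (mul_right_cancel h5)).symm
  · ext ⟨x, n⟩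
    rw [Set.mem_prod]
    constructor
    · intro h
      exact ⟨hall _ _ _ h, Set.mem_univ _⟩
    · rintro ⟨h, -⟩
      exact hall _ _ _ h

theorem level_const [Finite K]
    (hA : ∀ A : Subgroup K, (∀ x ∈ A, ∀ y ∈ A, x * y = y * x) → Nat.card A * 3 ≠ Nat.card K)
    {M : Set (K × ZMod 3)} (hcl : ∀ p ∈ M, ∀ q ∈ M, hop K p q ∈ M)
    (hmed : ∀ a ∈ M, ∀ b ∈ M, ∀ c ∈ M, ∀ d ∈ M,
      hop K (hop K a b) (hop K c d) = hop K (hop K a c) (hop K b d))
    (hcard : M.ncard = Nat.card K) : ∀ p ∈ M, ∀ q ∈ M, p.2 = q.2 := by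
  have key : ∀ x y a, (x, a) ∈ M → (y, a + 1) ∈ M → False := by
    intro x y a hx hy
    let c : ZMod 3 → K := fun n => if n = a then 1 else if n = a + 1 then x else x * y
    have c0 : c a = 1 := if_pos rfl
    have c1 : c (a + 1) = x := by
      show (if a + 1 = a then 1 else if a + 1 = a + 1 then x else x * y) = x
      rw [if_neg (z3_ne1 a), if_pos rfl]
    have c2 : c (a + 2) = x * y := by
      show (if a + 2 = a then 1 else if a + 2 = a + 1 then x else x * y) = x * y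
      rw [if_neg (z3_ne2 a), if_neg (z3_ne3 a)]
    obtain ⟨A, hAc, hAM⟩ := exists_subgroup (M := tw c '' M) (by
      rintro _ ⟨p, hp, rfl⟩ _ ⟨q, hq, rfl⟩
      exact ⟨hop K p q, hcl p hp q hq, tw_hop c p q⟩) (by
      rintro _ ⟨p, hp, rfl⟩ _ ⟨q, hq, rfl⟩ _ ⟨r, hr, rfl⟩ _ ⟨s, hs, rfl⟩
      simp only [← tw_hop]
      rw [hmed p hp q hq r hr s hs]) (by
      intro n
      rcases z3_cases a n with e | e | e
      · refine ⟨_, hx, ?_⟩
        rw [tw_apply, c0, c1, e]
        simp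
      · refine ⟨_, hy, ?_⟩
        rw [tw_apply, c1, z3_a, c2, e]
        simp
      · refine ⟨_, hcl _ hx _ hy, ?_⟩
        rw [hop_one, tw_apply, c2, z3_c, c0, e]
        simp)
    apply hA A hAc
    have h1 : (tw c '' M).ncard = M.ncard := Set.ncard_image_of_injective _ (tw c).injective
    rw [hAM, Set.ncard_prod, hcard, Set.ncard_univ, Nat.card_zmod] at h1
    rw [← h1]
    rfl
  rintro ⟨x, a⟩ hp ⟨y, b⟩ hq
  rcases z3_cases a b with h | h | h
  · exact h.symm
  · rw [h] at hq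
    exact (key x y a hp hq).elim
  · rw [h] at hq
    refine (key y x (a + 2) hq ?_).elim
    rwa [z3_c]

end Twist

section Main

variable {H K : Type*} [Group H] [Group K]

theorem mulEquiv_of_hop [Finite H] [Finite K]
    (hc : ∀ x y z : H, Commute (x * y * x⁻¹ * y⁻¹) z) (hcard : Nat.card H = Nat.card K)
    (hA : ∀ A : Subgroup K, (∀ x ∈ A, ∀ y ∈ A, x * y = y * x) → Nat.card A * 3 ≠ Nat.card K)
    (e : H × ZMod 3 ≃ K × ZMod 3) (he : ∀ p q, e (hop H p q) = hop K (e p) (e q)) :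
    Nonempty (H ≃* K) := by
  have hlev : ∀ n x y, (e (x, n)).2 = (e (y, n)).2 := by
    intro n x y
    have hM := level_const hA (M := e '' {p | p.2 = n}) (by
      rintro _ ⟨⟨x, a⟩, hp, rfl⟩ _ ⟨⟨y, b⟩, hq, rfl⟩
      have hp' : a = n := hp
      have hq' : b = n := hq
      subst hp'
      subst hq'
      rw [← he]
      exact ⟨_, by rw [hop_same]; rfl, rfl⟩) (by
      rintro _ ⟨⟨x, a⟩, hp, rfl⟩ _ ⟨⟨y, b⟩, hq, rfl⟩ _ ⟨⟨z, c⟩, hr, rfl⟩ _ ⟨⟨w, d⟩, hs, rfl⟩
      have hp' : a = n := hp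
      have hq' : b = n := hq
      have hr' : c = n := hr
      have hs' : d = n := hs
      rw [hp', hq', hr', hs']
      simp only [← he]
      rw [hop_medial hc]) (by
      rw [Set.ncard_image_of_injective _ e.injective]
      have h1 : {p : H × ZMod 3 | p.2 = n} = (Set.univ : Set H) ×ˢ ({n} : Set (ZMod 3)) := by
        ext ⟨x, a⟩
        simp
      rw [h1, Set.ncard_prod, Set.ncard_univ, Set.ncard_singleton, mul_one, hcard])
    exact hM _ ⟨(x, n), rfl, rfl⟩ _ ⟨(y, n), rfl, rfl⟩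
  let lam : ZMod 3 → ZMod 3 := fun n => (e (1, n)).2
  let f : ZMod 3 → H → K := fun n x => (e (x, n)).1
  have hef : ∀ x n, e (x, n) = (f n x, lam n) := by
    intro x n
    ext1
    · rfl
    · exact hlev n x 1
  have hinj : ∀ n, Function.Injective (f n) := by
    intro n x y hxy
    have h1 : e (x, n) = e (y, n) := by rw [hef, hef, hxy]
    exact congrArg Prod.fst (e.injective h1)
  have hbij : ∀ n, Function.Bijective (f n) := by
    intro n
    exact (hinj n).bijective_of_nat_card_le hcard.ge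
  have hb2 : Function.Bijective (fun x : H => (f 2 x⁻¹)⁻¹) :=
    (inv_involutive.bijective).comp ((hbij 2).comp inv_involutive.bijective)
  have hop01 : ∀ x y : H, hop H (x, 0) (y, 1) = ((x * y)⁻¹, 2) := by
    intro x y
    have := hop_one x y 0
    rwa [zero_add, zero_add] at this
  rcases z3_cases (lam 0) (lam 1) with h | h | h
  · exfalso
    have h2 : lam 2 = lam 0 := by
      have h3 := he (1, 0) (1, 1)
      rw [hop01, hef, hef, hef, h, hop_same, Prod.mk.injEq] at h3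
      exact h3.2
    obtain ⟨⟨x, n⟩, hx⟩ := e.surjective (1, lam 0 + 1)
    rw [hef, Prod.mk.injEq] at hx
    have h4 : lam n = lam 0 := by
      rcases z3_cases 0 n with e0 | e0 | e0
      · rw [e0]
      · rw [e0, zero_add, h]
      · rw [e0, zero_add, h2]
    rw [h4] at hx
    exact z3_ne1 _ hx.2.symm
  · apply mulEquiv_of_isotopy hb2 (f := f 0) (g := f 1)
    intro x y
    have h3 := he (x, 0) (y, 1)
    rw [hop01, hef, hef, hef, h, hop_one, Prod.mk.injEq] at h3
    show (f 2 (x * y)⁻¹)⁻¹ = _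
    rw [h3.1, inv_inv]
  · apply mulEquiv_of_anti hb2 (f := f 0) (g := f 1)
    intro x y
    have h3 := he (x, 0) (y, 1)
    rw [hop01, hef, hef, hef, h, hop_two, Prod.mk.injEq] at h3
    show (f 2 (x * y)⁻¹)⁻¹ = _
    rw [h3.1, inv_inv]

end Main

end Pool.Agent.STS
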