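import Pool.Agent.STS.Coord

/-!
# Isomorphisms of the Steiner systems `design β` preserve the levels

Call a set `S` of points closed if it contains every block through two of its points.

(1) Property Q of a closed set `M`: any four points of `M` lie in a closed set with at most `p³` points.
A level `{(x,l) | x}` is closed and has property Q (affine span in the level).
(2) Let `M` be closed with `|V'|` points, not contained in a level. Then it meets all levels, all
slices `M_l` have the same size (project through a point of a third level), so `p |M_0| = |V'|`.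
The slice `M_0` is an affine subspace `m₀ + W`, and by `hbig` there are `e, f ∈ W` with `β' e f ≠ 0`.
Then `(m₀,0), (m₀+e,0), (m₀+f,0), (d₀,-1)` lie in no closed set `S` with at most `p³` points: for
`x, x' ∈ m₀ + span {e,f}` the block through `(x',0)` and `(d₀,-1)` meets level `1` in
`x' + d₀ + β x' d₀`, and the block through this point and `(x,0)` meets level `-1` in
`d₀ + w + β w (d₀ + m₀) - β u w`, `w = x' - x`, `x = m₀ + u`; so `S_(-1) - d₀` contains the
independent vectors `e + β e (d₀ + m₀)`, `f + β f (d₀ + m₀)`, `β e f`.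
(3) So `e` maps every level into a level (the image of a level is closed, has `|V'|` points and Q).
-/

namespace Pool.Agent.STS

variable {p : ℕ} [Fact p.Prime] {V : Type*} [AddCommGroup V] [Module (ZMod p) V]

theorem mem_lineL {x e : V} {l : ZMod p} {q : V × ZMod p} :
    q ∈ lineB x e l ↔ ∃ t : ZMod p, q = (x + t • e, l) := by
  classical
  rw [lineB, Finset.mem_image]
  constructor
  · rintro ⟨t, -, h⟩
    exact ⟨t, h.symm⟩
  · rintro ⟨t, h⟩
    exact ⟨t, Finset.mem_univ _, h.symm⟩

theorem mem_crossL {β : V →ₗ[ZMod p] V →ₗ[ZMod p] V} {x d : V} {q : V × ZMod p} :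
    q ∈ crossB β x d ↔ q.1 = kap β q.2 x d := by
  classical
  rw [crossB, Finset.mem_image]
  constructor
  · rintro ⟨l, -, rfl⟩
    rfl
  · intro h
    exact ⟨q.2, Finset.mem_univ _, by rw [← h]⟩

/-- closed sets of points -/
def Cl (β : V →ₗ[ZMod p] V →ₗ[ZMod p] V) (S : Set (V × ZMod p)) : Prop :=
  ∀ b ∈ design β, ∀ q ∈ b, ∀ r ∈ b, q ≠ r → q ∈ S → r ∈ S → ∀ z ∈ b, z ∈ S

variable {β : V →ₗ[ZMod p] V →ₗ[ZMod p] V} {S : Set (V × ZMod p)}

theorem Cl.line (hS : Cl β S) {x y : V} {l : ZMod p} (hx : (x, l) ∈ S) (hy : (y, l) ∈ S)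
    (t : ZMod p) : (x + t • (y - x), l) ∈ S := by
  rcases eq_or_ne x y with rfl | hxy
  · rwa [sub_self, smul_zero, add_zero]
  · refine hS (lineB x (y - x) l) (Or.inl ⟨x, y - x, l, sub_ne_zero.mpr hxy.symm, rfl⟩) (x, l)
      (mem_lineL.mpr ⟨0, by simp⟩) (y, l) (mem_lineL.mpr ⟨1, by simp⟩) ?_ hx hy _
      (mem_lineL.mpr ⟨t, rfl⟩)
    intro h
    exact hxy (congrArg Prod.fst h)

theorem Cl.cross (hS : Cl β S) {x d : V} {l k : ZMod p} (hlk : l ≠ k)
    (hl : (kap β l x d, l) ∈ S) (hk : (kap β k x d, k) ∈ S) (m : ZMod p) :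
    (kap β m x d, m) ∈ S :=
  hS (crossB β x d) (Or.inr ⟨x, d, rfl⟩) _ (mem_crossL.mpr rfl) _ (mem_crossL.mpr rfl)
    (fun h => hlk (congrArg Prod.snd h)) hl hk _ (mem_crossL.mpr rfl)

theorem two_ne (hp : p ≠ 2) : (2 : ZMod p) ≠ 0 := by
  intro h
  have h2 : ((2 : ℕ) : ZMod p) = 0 := by exact_mod_cast h
  rw [ZMod.natCast_eq_zero_iff] at h2
  have h3 := (Nat.prime_dvd_prime_iff_eq (Fact.out : p.Prime) Nat.prime_two).mp h2
  exact hp h3

/-- a slice of a closed set is an affine subspace -/
def slice (hp : p ≠ 2) (hS : Cl β S) {a : V} {l : ZMod p} (ha : (a, l) ∈ S) :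
    Submodule (ZMod p) V where
  carrier := {x | (a + x, l) ∈ S}
  zero_mem' := by
    show (a + 0, l) ∈ S
    rwa [add_zero]
  smul_mem' := by
    intro c x hx
    have h := hS.line ha hx c
    rw [add_sub_cancel_left] at h
    exact h
  add_mem' := by
    intro x y hx hy
    have hx2 := hS.line ha hx 2
    have hy2 := hS.line ha hy 2
    have h := hS.line hx2 hy2 2⁻¹
    show (a + (x + y), l) ∈ S
    convert h using 2
    rw [add_sub_cancel_left, add_sub_cancel_left, add_sub_add_left_eq_sub, ← smul_sub, smul_smul,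
      inv_mul_cancel₀ (two_ne hp), one_smul, two_smul]
    abel

theorem mem_slice {hp : p ≠ 2} {hS : Cl β S} {a : V} {l : ZMod p} {ha : (a, l) ∈ S} {x : V} :
    x ∈ slice hp hS ha ↔ (a + x, l) ∈ S := Iff.rfl

section Nil

theorem Nil2.skewL (h : Nil2 β) (x y : V) : β x y = - β y x := by
  have h1 := h.alt (x + y)
  simp only [map_add, LinearMap.add_apply, h.alt, zero_add, add_zero] at h1
  exact eq_neg_of_add_eq_zero_right h1

theorem Nil2.nil_right (h : Nil2 β) (x y z : V) : β x (β y z) = 0 := by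
  rw [h.skewL, h.nil, LinearMap.zero_apply, neg_zero]

theorem Nil2.nil_left (h : Nil2 β) (x y z : V) : β (β x y) z = 0 := by
  rw [h.nil, LinearMap.zero_apply]

theorem kap_neL {l : ZMod p} (hl : l ≠ -1) (x d : V) : kap β l x d = x + l • d := if_neg hl

theorem kap_negL (x d : V) : kap β (-1) x d = d - β x d := if_pos rfl

/-- through two points on different levels there is a block -/
theorem exists_crossL (h : Nil2 β) {l k : ZMod p} (hlk : l ≠ k) (a b : V) :
    ∃ x d, kap β l x d = a ∧ kap β k x d = b := by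
  have key : ∀ (l k : ZMod p) (a b : V), l ≠ k → l ≠ -1 →
      ∃ x d, kap β l x d = a ∧ kap β k x d = b := by
    intro l k a b hlk hl
    rcases eq_or_ne k (-1) with rfl | hk
    · refine ⟨a - l • (b + β a b), b + β a b, ?_, ?_⟩
      · rw [kap_neL hl, sub_add_cancel]
      · rw [kap_negL]
        simp only [map_sub, map_add, map_smul, LinearMap.sub_apply, LinearMap.smul_apply,
          LinearMap.add_apply, h.alt, h.nil_right, h.nil_left, smul_zero, add_zero, sub_zero]
        abel
    · have hne : l - k ≠ 0 := sub_ne_zero.mpr hlk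
      refine ⟨a - l • ((l - k)⁻¹ • (a - b)), (l - k)⁻¹ • (a - b), ?_, ?_⟩
      · rw [kap_neL hl, sub_add_cancel]
      · rw [kap_neL hk]
        have e : a - l • ((l - k)⁻¹ • (a - b)) + k • ((l - k)⁻¹ • (a - b)) =
            a - ((l - k) * (l - k)⁻¹) • (a - b) := by
          rw [← smul_smul, sub_smul l k]
          abel
        rw [e, mul_inv_cancel₀ hne, one_smul]
        abel
  rcases eq_or_ne l (-1) with rfl | hl
  · obtain ⟨x, d, h1, h2⟩ := key k (-1) b a hlk.symm hlk.symm
    exact ⟨x, d, h2, h1⟩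
  · exact key l k a b hlk hl

/-- the block through two points on different levels is unique -/
theorem kap_injL (h : Nil2 β) {l k : ZMod p} (hlk : l ≠ k) {x d x' d' : V}
    (h1 : kap β l x d = kap β l x' d') (h2 : kap β k x d = kap β k x' d') : x = x' ∧ d = d' := by
  have key : ∀ (l k : ZMod p), l ≠ k → l ≠ -1 → kap β l x d = kap β l x' d' →
      kap β k x d = kap β k x' d' → x = x' ∧ d = d' := by
    intro l k hlk hl h1 h2
    rw [kap_neL hl, kap_neL hl] at h1
    have hx : x = x' + l • d' - l • d := by rw [← h1, add_sub_cancel_right]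
    have hd : d = d' := by
      rcases eq_or_ne k (-1) with rfl | hk
      · rw [kap_negL, kap_negL, hx] at h2
        simp only [map_sub, map_add, map_smul, LinearMap.sub_apply, LinearMap.smul_apply,
          LinearMap.add_apply, h.alt, smul_zero, sub_zero] at h2
        obtain ⟨v, hv⟩ : ∃ v, v = d - d' := ⟨_, rfl⟩
        have hd' : d = d' + v := by rw [hv]; abel
        rw [hd'] at h2 ⊢
        simp only [map_add, h.alt, zero_add] at h2
        -- `v = β (x' + l d') v`, so `v = β c v` with `c` fixed and `β c (β c v) = 0`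
        have h3 : v = β (x' + l • d') v := by
          simp only [map_add, map_smul, LinearMap.add_apply, LinearMap.smul_apply]
          have h4 : v - (β x' v + l • β d' v) = 0 := by
            have := sub_eq_zero.mpr h2
            rw [← this]
            abel
          exact sub_eq_zero.mp h4
        have h5 : v = 0 := by
          rw [h3, h3, h.nil_right]
        rw [h5, add_zero]
      · rw [kap_neL hk, kap_neL hk, hx] at h2
        have hne : l - k ≠ 0 := sub_ne_zero.mpr hlk
        have h3 : (l - k) • (d' - d) = 0 := by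
          have := sub_eq_zero.mpr h2
          rw [← this, sub_smul, smul_sub, smul_sub]
          abel
        have h4 := (smul_eq_zero.mp h3).resolve_left hne
        exact (sub_eq_zero.mp h4).symm
    refine ⟨?_, hd⟩
    rw [hx, hd, add_sub_cancel_right]
  rcases eq_or_ne l (-1) with rfl | hl
  · exact key k (-1) hlk.symm hlk.symm h2 h1
  · exact key l k hlk hl h1 h2

end Nil

section Count

/-- the slices of a closed set which meets two levels -/
theorem meets (h : Nil2 β) (hS : Cl β S) {a b : V} {l k : ZMod p} (hlk : l ≠ k) (ha : (a, l) ∈ S)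
    (hb : (b, k) ∈ S) (m : ZMod p) : ∃ x, (x, m) ∈ S := by
  obtain ⟨x, d, rfl, rfl⟩ := exists_crossL h hlk a b
  exact ⟨_, hS.cross hlk ha hb m⟩

theorem card_slice_le [Finite V] (h : Nil2 β) (hp : p ≠ 2) (hS : Cl β S)
    (hall : ∀ m, ∃ x, (x, m) ∈ S) (l k : ZMod p) :
    Nat.card {x : V // (x, l) ∈ S} ≤ Nat.card {x : V // (x, k) ∈ S} := by
  rcases eq_or_ne l k with rfl | hlk
  · rfl
  obtain ⟨m, hml, hmk⟩ : ∃ m : ZMod p, m ≠ l ∧ m ≠ k := by
    have h3 : 2 < Fintype.card (ZMod p) := by
      rw [ZMod.card]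
      have := (Fact.out : p.Prime).two_le
      omega
    by_contra hcon
    push Not at hcon
    have h4 : (Finset.univ : Finset (ZMod p)) ⊆ {l, k} := by
      intro m _
      rw [Finset.mem_insert, Finset.mem_singleton]
      by_cases hm : m = l
      · exact Or.inl hm
      · exact Or.inr (hcon m hm)
    have h5 := (Finset.card_le_card h4).trans Finset.card_le_two
    rw [Finset.card_univ] at h5
    omega
  obtain ⟨a, ha⟩ := hall m
  choose X D h1 h2 using fun x : V => exists_crossL h hml a x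
  refine Nat.card_le_card_of_injective
    (fun x : {x : V // (x, l) ∈ S} => (⟨kap β k (X x.1) (D x.1), hS.cross hml
      (by rw [h1]; exact ha) (by rw [h2]; exact x.2) k⟩ : {x : V // (x, k) ∈ S})) ?_
  intro x y hxy
  have h3 := congrArg Subtype.val hxy
  obtain ⟨e1, e2⟩ := kap_injL h hmk ((h1 x.1).trans (h1 y.1).symm) h3
  apply Subtype.ext
  rw [← h2 x.1, ← h2 y.1, e1, e2]

theorem card_eq [Finite V] (h : Nil2 β) (hp : p ≠ 2) (hS : Cl β S)
    (hall : ∀ m, ∃ x, (x, m) ∈ S) (l : ZMod p) :
    Nat.card S = Nat.card {x : V // (x, l) ∈ S} * p := by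
  have e : S ≃ Σ m : ZMod p, {x : V // (x, m) ∈ S} :=
    { toFun := fun q => ⟨q.1.2, q.1.1, q.2⟩
      invFun := fun q => ⟨(q.2.1, q.1), q.2.2⟩
      left_inv := fun q => rfl
      right_inv := fun q => rfl }
  rw [Nat.card_congr e, Nat.card_sigma]
  have h1 : ∀ m : ZMod p, Nat.card {x : V // (x, m) ∈ S} = Nat.card {x : V // (x, l) ∈ S} :=
    fun m => le_antisymm (card_slice_le h hp hS hall m l) (card_slice_le h hp hS hall l m)
  rw [Finset.sum_congr rfl fun m _ => h1 m, Finset.sum_const, Finset.card_univ, ZMod.card,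
    smul_eq_mul, mul_comm]

/-- four points of a set which is not contained in a level and large lie in no small closed set -/
theorem big_closed [Finite V] (h : Nil2 β) (hp : p ≠ 2) {m₀ e f d₀ : V} (hef : β e f ≠ 0)
    (hS : Cl β S) (h0 : (m₀, 0) ∈ S) (he : (m₀ + e, 0) ∈ S) (hf : (m₀ + f, 0) ∈ S)
    (hd : (d₀, -1) ∈ S) : p ^ 3 < Nat.card S := by
  have hone : (1 : ZMod p) ≠ -1 := by
    intro h1
    apply two_ne hp
    have : (2 : ZMod p) = 1 + 1 := by norm_num
    rw [this]
    nth_rewrite 2 [h1]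
    exact add_neg_cancel 1
  have hzero : (0 : ZMod p) ≠ -1 := by
    intro h1
    have : (1 : ZMod p) = 0 := by
      rw [← neg_neg (1 : ZMod p), ← h1, neg_zero]
    exact one_ne_zero this
  let E := slice hp hS h0
  have heE : e ∈ E := he
  have hfE : f ∈ E := hf
  -- the points on level `-1`
  have key : ∀ u ∈ E, ∀ w ∈ E, (d₀ + (w + β w (d₀ + m₀) - β u w), (-1 : ZMod p)) ∈ S := by
    intro u hu w hw
    have hx' : (m₀ + (u + w), (0 : ZMod p)) ∈ S := E.add_mem hu hw
    have hx : (m₀ + u, (0 : ZMod p)) ∈ S := hu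
    have e1 : kap β 0 (m₀ + (u + w)) (d₀ + β (m₀ + (u + w)) d₀) = m₀ + (u + w) := by
      rw [kap_neL hzero, zero_smul, add_zero]
    have e2 : kap β (-1) (m₀ + (u + w)) (d₀ + β (m₀ + (u + w)) d₀) = d₀ := by
      rw [kap_negL, map_add (β (m₀ + (u + w))) d₀, h.nil_right, add_zero, add_sub_cancel_right]
    have h1 := hS.cross hzero (by rw [e1]; exact hx') (by rw [e2]; exact hd) 1
    rw [kap_neL hone, one_smul] at h1
    have e3 : kap β 0 (m₀ + u) (d₀ + w + β (m₀ + (u + w)) d₀) = m₀ + u := by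
      rw [kap_neL hzero, zero_smul, add_zero]
    have e4 : kap β 1 (m₀ + u) (d₀ + w + β (m₀ + (u + w)) d₀) =
        m₀ + (u + w) + (d₀ + β (m₀ + (u + w)) d₀) := by
      rw [kap_neL hone, one_smul]
      abel
    have h2 := hS.cross (one_ne_zero (α := ZMod p)).symm (by rw [e3]; exact hx)
      (by rw [e4]; exact h1) (-1)
    rw [kap_negL] at h2
    have e5 : d₀ + w + β (m₀ + (u + w)) d₀ - β (m₀ + u) (d₀ + w + β (m₀ + (u + w)) d₀) =
        d₀ + (w + β w (d₀ + m₀) - β u w) := by
      rw [map_add (β (m₀ + u)), h.nil_right, add_zero]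
      simp only [map_add, LinearMap.add_apply]
      rw [h.skewL m₀ w]
      abel
    rwa [e5] at h2
  let T := slice hp hS hd
  have hg1 : e + β e (d₀ + m₀) ∈ T := by
    have := key 0 E.zero_mem e heE
    rw [map_zero, LinearMap.zero_apply, sub_zero] at this
    exact this
  have hg2 : f + β f (d₀ + m₀) ∈ T := by
    have := key 0 E.zero_mem f hfE
    rw [map_zero, LinearMap.zero_apply, sub_zero] at this
    exact this
  have hg3 : β e f ∈ T := by
    have h1 : e + β e (d₀ + m₀) - β f e ∈ T := key f hfE e heE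
    have h2 := T.sub_mem h1 hg1
    rw [sub_sub_cancel_left, h.skewL f e, neg_neg] at h2
    exact h2
  have hind : ∀ s t r : ZMod p, s • (e + β e (d₀ + m₀)) + t • (f + β f (d₀ + m₀)) + r • β e f = 0 →
      s = 0 ∧ t = 0 ∧ r = 0 := by
    intro s t r h1
    have hs : s = 0 := by
      have h2 := congrArg (fun v => β v f) h1
      simp only [map_add, map_smul, LinearMap.add_apply, LinearMap.smul_apply, h.nil_left, h.alt,
        map_zero, LinearMap.zero_apply, smul_zero, add_zero] at h2
      exact (smul_eq_zero.mp h2).resolve_right hef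
    have ht : t = 0 := by
      have h2 := congrArg (fun v => β e v) h1
      simp only [map_add, map_smul, h.nil_right, h.alt, map_zero, smul_zero, add_zero,
        zero_add] at h2
      exact (smul_eq_zero.mp h2).resolve_right hef
    refine ⟨hs, ht, ?_⟩
    rw [hs, ht, zero_smul, zero_smul, zero_add, zero_add] at h1
    exact (smul_eq_zero.mp h1).resolve_right hef
  let F : Option (ZMod p × ZMod p × ZMod p) → S := fun o => match o with
    | none => ⟨(m₀, 0), h0⟩
    | some (s, t, r) => ⟨(d₀ + (s • (e + β e (d₀ + m₀)) + t • (f + β f (d₀ + m₀)) + r • β e f), -1),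
        T.add_mem (T.add_mem (T.smul_mem s hg1) (T.smul_mem t hg2)) (T.smul_mem r hg3)⟩
  have hF : Function.Injective F := by
    rintro (_ | ⟨s, t, r⟩) (_ | ⟨s', t', r'⟩) hxy
    · rfl
    · exact absurd (congrArg (fun q : S => q.1.2) hxy) hzero
    · exact absurd (congrArg (fun q : S => q.1.2) hxy) hzero.symm
    · have h1 := add_left_cancel (congrArg (fun q : S => q.1.1) hxy :
        d₀ + (s • (e + β e (d₀ + m₀)) + t • (f + β f (d₀ + m₀)) + r • β e f) =
        d₀ + (s' • (e + β e (d₀ + m₀)) + t' • (f + β f (d₀ + m₀)) + r' • β e f))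
      obtain ⟨h2, h3, h4⟩ := hind (s - s') (t - t') (r - r') (by
        rw [sub_smul, sub_smul, sub_smul, ← sub_eq_zero.mpr h1]
        abel)
      rw [sub_eq_zero.mp h2, sub_eq_zero.mp h3, sub_eq_zero.mp h4]
  have h1 := Nat.card_le_card_of_injective F hF
  have h2 : Nat.card (Option (ZMod p × ZMod p × ZMod p)) = p ^ 3 + 1 := by
    rw [Nat.card_eq_fintype_card, Fintype.card_option, Fintype.card_prod, Fintype.card_prod,
      ZMod.card]
    ring
  omega

end Count

section Main

/-- four points of a level lie in a closed set with at most `p³` points -/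
theorem exists_small [Finite V] {l : ZMod p} (x : Fin 4 → V) :
    ∃ T : Set (V × ZMod p), Cl β T ∧ Nat.card T ≤ p ^ 3 ∧ ∀ i, (x i, l) ∈ T := by
  classical
  let U : Submodule (ZMod p) V := Submodule.span (ZMod p) (Set.range fun i : Fin 3 => x i.succ - x 0)
  have hU : Nat.card U ≤ p ^ 3 := by
    have h1 : Module.finrank (ZMod p) U ≤ 3 := by
      have := finrank_range_le_card (R := ZMod p) (fun i : Fin 3 => x i.succ - x 0)
      rwa [Fintype.card_fin] at this
    rw [Module.natCard_eq_pow_finrank (K := ZMod p), Nat.card_zmod]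
    exact Nat.pow_le_pow_right (Fact.out : p.Prime).pos h1
  refine ⟨{q | q.1 - x 0 ∈ U ∧ q.2 = l}, ?_, ?_, ?_⟩
  · rintro b (⟨y, e, k, he, rfl⟩ | ⟨y, d, rfl⟩) q hq r hr hqr hqS hrS z hz
    · rw [mem_lineL] at hq hr hz
      obtain ⟨s, rfl⟩ := hq
      obtain ⟨t, rfl⟩ := hr
      obtain ⟨u, rfl⟩ := hz
      have hst : s - t ≠ 0 := by
        intro h
        exact hqr (by rw [sub_eq_zero.mp h])
      have he' : e ∈ U := by
        have h1 := U.sub_mem hqS.1 hrS.1
        have e1 : y + s • e - x 0 - (y + t • e - x 0) = (s - t) • e := by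
          rw [sub_smul]
          abel
        rw [e1] at h1
        have h2 := U.smul_mem (s - t)⁻¹ h1
        rwa [smul_smul, inv_mul_cancel₀ hst, one_smul] at h2
      refine ⟨?_, hqS.2⟩
      have e1 : y + u • e - x 0 = (y + s • e - x 0) + (u - s) • e := by
        rw [sub_smul]
        abel
      show y + u • e - x 0 ∈ U
      rw [e1]
      exact U.add_mem hqS.1 (U.smul_mem _ he')
    · exfalso
      rw [mem_crossL] at hq hr
      apply hqr
      have h2 : q.2 = r.2 := hqS.2.trans hrS.2.symm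
      exact Prod.ext (by rw [hq, hr, h2]) h2
  · refine le_trans ?_ hU
    refine Nat.card_le_card_of_injective
      (fun q : {q : V × ZMod p | q.1 - x 0 ∈ U ∧ q.2 = l} => (⟨q.1.1 - x 0, q.2.1⟩ : U)) ?_
    intro q r hqr
    have h1 := sub_left_injective (congrArg Subtype.val hqr : q.1.1 - x 0 = r.1.1 - x 0)
    exact Subtype.ext (Prod.ext h1 (q.2.2.trans r.2.2.symm))
  · intro i
    refine ⟨?_, rfl⟩
    show x i - x 0 ∈ U
    refine Fin.cases ?_ (fun j => ?_) i
    · rw [sub_self]
      exact U.zero_mem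
    · exact Submodule.subset_span ⟨j, rfl⟩

/-- the level is closed -/
theorem cl_level (l : ZMod p) : Cl β {q | q.2 = l} := by
  rintro b (⟨y, e, k, he, rfl⟩ | ⟨y, d, rfl⟩) q hq r hr hqr hqS hrS z hz
  · rw [mem_lineL] at hq hz
    obtain ⟨s, rfl⟩ := hq
    obtain ⟨t, rfl⟩ := hz
    exact hqS
  · exfalso
    rw [mem_crossL] at hq hr
    apply hqr
    have h2 : q.2 = r.2 := hqS.trans hrS.symm
    exact Prod.ext (by rw [hq, hr, h2]) h2

/-- a closed set of the right size with property Q is contained in a level -/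
theorem in_level [Finite V] (h : Nil2 β) (hp : p ≠ 2)
    (hbig : ∀ W : Submodule (ZMod p) V, Nat.card W * p = Nat.card V → ∃ x ∈ W, ∃ y ∈ W, β x y ≠ 0)
    (hS : Cl β S) (hcard : Nat.card S = Nat.card V)
    (hQ : ∀ x : Fin 4 → V × ZMod p, (∀ i, x i ∈ S) →
      ∃ T : Set (V × ZMod p), Cl β T ∧ Nat.card T ≤ p ^ 3 ∧ ∀ i, x i ∈ T) :
    ∀ q ∈ S, ∀ r ∈ S, q.2 = r.2 := by
  rintro ⟨a, l⟩ hq ⟨b, k⟩ hr
  by_contra hlk
  have hall : ∀ m, ∃ x, (x, m) ∈ S := fun m => meets h hS hlk hq hr m
  obtain ⟨m₀, h0⟩ := hall 0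
  obtain ⟨d₀, hd⟩ := hall (-1)
  have h1 := card_eq h hp hS hall 0
  have h2 : Nat.card (slice hp hS h0) = Nat.card {x : V // (x, (0 : ZMod p)) ∈ S} := by
    refine Nat.card_congr
      { toFun := fun x => ⟨m₀ + x.1, x.2⟩
        invFun := fun x => ⟨x.1 - m₀, ?_⟩
        left_inv := fun x => ?_
        right_inv := fun x => ?_ }
    · rw [mem_slice, add_sub_cancel]
      exact x.2
    · apply Subtype.ext
      show m₀ + x.1 - m₀ = x.1
      rw [add_sub_cancel_left]
    · apply Subtype.ext
      show m₀ + (x.1 - m₀) = x.1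
      rw [add_sub_cancel]
  obtain ⟨e, he, f, hf, hef⟩ := hbig (slice hp hS h0) (by rw [h2, ← h1, hcard])
  obtain ⟨T, hT, hTc, hTm⟩ := hQ ![(m₀, 0), (m₀ + e, 0), (m₀ + f, 0), (d₀, -1)] (by
    intro i
    fin_cases i
    · exact h0
    · exact he
    · exact hf
    · exact hd)
  have := big_closed h hp hef hT (hTm 0) (hTm 1) (hTm 2) (hTm 3)
  omega

theorem levels_preserved (hp : p ≠ 2) {V' : Type*} [AddCommGroup V'] [Module (ZMod p) V']
    [Finite V] [Finite V'] {β : V →ₗ[ZMod p] V →ₗ[ZMod p] V} {β' : V' →ₗ[ZMod p] V' →ₗ[ZMod p] V'}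
    (_hβ : Nil2 β) (hβ' : Nil2 β') (hcard : Nat.card V = Nat.card V')
    (hbig : ∀ W : Submodule (ZMod p) V', Nat.card W * p = Nat.card V' → ∃ x ∈ W, ∃ y ∈ W, β' x y ≠ 0)
    (e : V × ZMod p ≃ V' × ZMod p)
    (he : ∀ b : Finset (V × ZMod p), b.map e.toEmbedding ∈ design β' ↔ b ∈ design β) :
    ∃ π : ZMod p → ZMod p, ∀ q, (e q).2 = π q.2 := by
  have hcl : ∀ T : Set (V × ZMod p), Cl β T → Cl β' (e '' T) := by
    intro T hT b' hb' q' hq' r' hr' hqr' hqS' hrS' z' hz'
    have hb : (b'.map e.symm.toEmbedding) ∈ design β := by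
      rw [← he]
      have : (b'.map e.symm.toEmbedding).map e.toEmbedding = b' := by
        ext z
        simp
      rwa [this]
    have hmem : ∀ y ∈ b', e.symm y ∈ b'.map e.symm.toEmbedding := fun y hy =>
      Finset.mem_map.mpr ⟨y, hy, rfl⟩
    have hin : ∀ y ∈ e '' T, e.symm y ∈ T := by
      rintro _ ⟨y, hy, rfl⟩
      rwa [Equiv.symm_apply_apply]
    have h1 := hT _ hb _ (hmem _ hq') _ (hmem _ hr') (fun h => hqr' (e.symm.injective h))
      (hin _ hqS') (hin _ hrS') _ (hmem _ hz')
    exact ⟨_, h1, e.apply_symm_apply _⟩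
  have hc : ∀ T : Set (V × ZMod p), Nat.card (e '' T) = Nat.card T := fun T =>
    Nat.card_image_of_injective e.injective T
  refine ⟨fun l => (e (0, l)).2, ?_⟩
  rintro ⟨x, l⟩
  refine in_level hβ' hp hbig (hcl _ (cl_level l)) ?_ ?_ _ ⟨(x, l), rfl, rfl⟩ _ ⟨(0, l), rfl, rfl⟩
  · rw [hc, ← hcard]
    exact Nat.card_congr
      { toFun := fun q => q.1.1
        invFun := fun x => ⟨(x, l), rfl⟩
        left_inv := fun q => Subtype.ext (Prod.ext rfl q.2.symm)
        right_inv := fun x => rfl }
  · intro y hy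
    choose z hz hzy using hy
    obtain ⟨T, h1, h2, h3⟩ := exists_small (β := β) (l := l) (fun i => (z i).1)
    refine ⟨e '' T, hcl T h1, by rwa [hc], fun i => ?_⟩
    rw [← hzy i]
    refine ⟨_, h3 i, ?_⟩
    congr 1
    exact Prod.ext rfl (hz i).symm

end Main

end Pool.Agent.STS
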