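import Mathlib

/-!
# Nets and their graphs
-/

namespace Pool.Agent.STS

/-- The graph of a family of coordinate functions `c i : P → Q`: two different points are adjacent iff
they agree in one of the coordinates. -/
def netG {C P Q : Type*} (c : C → P → Q) : SimpleGraph P where
  Adj u v := u ≠ v ∧ ∃ i, c i u = c i v
  symm := by
    constructor
    rintro u v ⟨h, i, h'⟩
    exact ⟨h.symm, i, h'.symm⟩
  loopless := ⟨fun u h => h.1 rfl⟩

/-- The functions `c i` are the classes of a net: two of them are coordinates of the points. -/
def IsNet {C P Q : Type*} (c : C → P → Q) : Prop :=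
  ∀ i j, i ≠ j → Function.Bijective fun u => (c i u, c j u)

end Pool.Agent.STS
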