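import Pool.Agent.STS.Coord

/-!
# Base facts on the net of a group of exponent `p`  (helper41)
-/

set_option autoImplicit false

open Finset

namespace Pool.Agent.STS

section base

variable {H : Type*} [Group H]

theorem netGraph_adj_iff (m' : ℕ) (u v : H × H) :
    (netGraph H (m' + 1)).Adj u v ↔
      u ≠ v ∧ ∃ c : Option (Fin m'), netc H c u = netc H c v := by
  constructor
  · rintro ⟨h, h'⟩
    refine ⟨h, ?_⟩
    rcases h' with h' | ⟨i, hi, h'⟩
    · exact ⟨none, h'⟩
    · exact ⟨some ⟨i, by omega⟩, h'⟩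
  · rintro ⟨h, c, hc⟩
    refine ⟨h, ?_⟩
    cases c with
    | none => exact Or.inl hc
    | some i => exact Or.inr ⟨i, by omega, hc⟩

theorem netcP_pow_inj {p : ℕ} [Fact p.Prime] (hexp : ∀ x : H, x ^ p = 1) {k : ℕ}
    (hk : Nat.Coprime k p) {x y : H} (h : x ^ k = y ^ k) : x = y := by
  have hp : 1 < p := (Fact.out : p.Prime).one_lt
  obtain ⟨t, -, ht⟩ := Nat.exists_mul_mod_eq_one_of_coprime hk hp
  have key : ∀ z : H, (z ^ k) ^ t = z := by
    intro z
    rw [← pow_mul, pow_eq_pow_mod (k * t) (hexp z), ht, pow_one]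
  rw [← key x, ← key y, h]

theorem netcP_inj {p : ℕ} [Fact p.Prime] (hexp : ∀ x : H, x ^ p = 1) {m' : ℕ} (hmp : m' ≤ p)
    {c c' : Option (Fin m')} (hcc : c ≠ c') {u v : H × H} (h1 : netc H c u = netc H c v)
    (h2 : netc H c' u = netc H c' v) : u = v := by
  -- two multiplications
  have key : ∀ i j : Fin m', i < j → u.1 * u.2 ^ (i : ℕ) = v.1 * v.2 ^ (i : ℕ) →
      u.1 * u.2 ^ (j : ℕ) = v.1 * v.2 ^ (j : ℕ) → u = v := by
    intro i j hij e1 e2
    have hlt : (i : ℕ) < j := hij
    have hj : (j : ℕ) = i + (j - i) := by omega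
    rw [hj, pow_add, pow_add, ← mul_assoc, ← mul_assoc, e1] at e2
    have e3 := mul_left_cancel e2
    have hcop : Nat.Coprime ((j : ℕ) - i) p := by
      rw [Nat.coprime_comm]
      refine (Nat.Prime.coprime_iff_not_dvd Fact.out).2 (fun hd => ?_)
      have := Nat.le_of_dvd (by omega) hd
      have hjm := j.2
      omega
    have e4 := netcP_pow_inj hexp hcop e3
    have e5 : u.1 = v.1 := by
      rw [e4] at e1
      exact mul_right_cancel e1
    exact Prod.ext e5 e4
  have key0 : ∀ i : Fin m', u.2 = v.2 → u.1 * u.2 ^ (i : ℕ) = v.1 * v.2 ^ (i : ℕ) → u = v := by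
    intro i e1 e2
    rw [e1] at e2
    exact Prod.ext (mul_right_cancel e2) e1
  cases c with
  | none =>
    cases c' with
    | none => exact absurd rfl hcc
    | some j => exact key0 j h1 h2
  | some i =>
    cases c' with
    | none => exact key0 i h2 h1
    | some j =>
      rcases lt_trichotomy i j with h | h | h
      · exact key i j h h1 h2
      · exact absurd (congrArg some h) hcc
      · exact key j i h h2 h1

theorem netcP_bij {p : ℕ} [Fact p.Prime] [Fintype H] (hexp : ∀ x : H, x ^ p = 1) {m' : ℕ}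
    (hmp : m' ≤ p) {c c' : Option (Fin m')} (hcc : c ≠ c') :
    Function.Bijective fun u : H × H => (netc H c u, netc H c' u) := by
  rw [Fintype.bijective_iff_injective_and_card]
  refine ⟨fun u v huv => ?_, rfl⟩
  exact netcP_inj hexp hmp hcc (congrArg Prod.fst huv) (congrArg Prod.snd huv)

theorem netcP_surj {p : ℕ} [Fact p.Prime] [Fintype H] (hexp : ∀ x : H, x ^ p = 1) {m' : ℕ}
    (hmp : m' ≤ p) {c c' : Option (Fin m')} (hcc : c ≠ c') (a b : H) :
    ∃ u : H × H, netc H c u = a ∧ netc H c' u = b := by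
  obtain ⟨u, hu⟩ := (netcP_bij hexp hmp hcc).2 (a, b)
  exact ⟨u, congrArg Prod.fst hu, congrArg Prod.snd hu⟩

theorem netcP_other {m' : ℕ} (hm : 1 ≤ m') (c : Option (Fin m')) :
    ∃ c' : Option (Fin m'), c ≠ c' := by
  cases c with
  | none => exact ⟨some ⟨0, hm⟩, by simp⟩
  | some i => exact ⟨none, by simp⟩

open Classical in
theorem netcP_card_line {p : ℕ} [Fact p.Prime] [Fintype H] (hexp : ∀ x : H, x ^ p = 1) {m' : ℕ}
    (hm : 1 ≤ m') (hmp : m' ≤ p) (c : Option (Fin m')) (a : H) :
    (Finset.univ.filter fun u : H × H => netc H c u = a).card = Fintype.card H := by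
  obtain ⟨c', hc'⟩ := netcP_other hm c
  rw [← Finset.card_univ]
  refine Finset.card_bij (fun u _ => netc H c' u) (fun _ _ => Finset.mem_univ _) ?_ ?_
  · intro u hu v hv h
    rw [Finset.mem_filter] at hu hv
    exact netcP_inj hexp hmp hc' (hu.2.trans hv.2.symm) h
  · intro b _
    obtain ⟨u, h1, h2⟩ := netcP_surj hexp hmp hc' a b
    exact ⟨u, Finset.mem_filter.2 ⟨Finset.mem_univ _, h1⟩, h2⟩

open Classical in
/-- a clique which is contained in no line is small -/
theorem netcP_clique {p : ℕ} [Fact p.Prime] (hexp : ∀ x : H, x ^ p = 1) {m' : ℕ}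
    (hm : 1 ≤ m') (hmp : m' ≤ p) (S : Finset (H × H))
    (hS : ∀ u ∈ S, ∀ v ∈ S, u ≠ v → ∃ c : Option (Fin m'), netc H c u = netc H c v)
    (hnl : ∀ (c : Option (Fin m')) (a : H), ∃ v ∈ S, netc H c v ≠ a) :
    S.card ≤ m' ^ 2 := by
  -- the number of points on a line
  have h1 : ∀ (c : Option (Fin m')) (a : H), (S.filter fun u => netc H c u = a).card ≤ m' := by
    intro c a
    obtain ⟨v, hv, hva⟩ := hnl c a
    have hex : ∀ w : H × H, ∃ c' : Option (Fin m'), w ∈ (S.filter fun u => netc H c u = a) →
        netc H c' w = netc H c' v := by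
      intro w
      by_cases hw : w ∈ (S.filter fun u => netc H c u = a)
      · rw [Finset.mem_filter] at hw
        have hne : w ≠ v := by
          rintro rfl
          exact hva hw.2
        obtain ⟨c', hc'⟩ := hS w hw.1 v hv hne
        exact ⟨c', fun _ => hc'⟩
      · exact ⟨none, fun h => absurd h hw⟩
    choose g hg using hex
    have hcard : (Finset.univ.erase c).card = m' := by
      rw [Finset.card_erase_of_mem (Finset.mem_univ c), Finset.card_univ, Fintype.card_option,
        Fintype.card_fin]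
      rfl
    have hgc : ∀ w ∈ (S.filter fun u => netc H c u = a), g w ≠ c := by
      intro w hw hgw
      have h2 := hg w hw
      rw [hgw, (Finset.mem_filter.1 hw).2] at h2
      exact hva h2.symm
    refine (Finset.card_le_card_of_injOn (t := Finset.univ.erase c) g (fun w hw => ?_)
      (fun w hw w' hw' hww => ?_)).trans hcard.le
    · have hw' : w ∈ (S.filter fun u => netc H c u = a) := by simpa using hw
      exact Finset.mem_coe.2 (Finset.mem_erase.2 ⟨hgc w hw', Finset.mem_univ _⟩)
    · have hw1 : w ∈ (S.filter fun u => netc H c u = a) := by simpa using hw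
      have hw2 : w' ∈ (S.filter fun u => netc H c u = a) := by simpa using hw'
      have e1 := hg w hw1
      have e2 := hg w' hw2
      rw [← hww] at e2
      exact netcP_inj hexp hmp (hgc w hw1) (e1.trans e2.symm)
        ((Finset.mem_filter.1 hw1).2.trans (Finset.mem_filter.1 hw2).2.symm)
  obtain ⟨u, hu, -⟩ := hnl none 1
  have hsub : S ⊆ insert u ((Finset.univ : Finset (Option (Fin m'))).biUnion
      fun c => (S.filter fun w => netc H c w = netc H c u).erase u) := by
    intro w hw
    by_cases hwu : w = u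
    · subst hwu
      exact Finset.mem_insert_self _ _
    · obtain ⟨c, hc⟩ := hS w hw u hu hwu
      refine Finset.mem_insert_of_mem (Finset.mem_biUnion.2 ⟨c, Finset.mem_univ _, ?_⟩)
      exact Finset.mem_erase.2 ⟨hwu, Finset.mem_filter.2 ⟨hw, hc⟩⟩
  have h2 : ∀ c : Option (Fin m'),
      ((S.filter fun w => netc H c w = netc H c u).erase u).card ≤ m' - 1 := by
    intro c
    have hmem : u ∈ S.filter fun w => netc H c w = netc H c u := Finset.mem_filter.2 ⟨hu, rfl⟩
    rw [Finset.card_erase_of_mem hmem]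
    exact Nat.sub_le_sub_right (h1 c _) 1
  calc S.card ≤ _ := Finset.card_le_card hsub
    _ ≤ ((Finset.univ : Finset (Option (Fin m'))).biUnion
      fun c => (S.filter fun w => netc H c w = netc H c u).erase u).card + 1 :=
        Finset.card_insert_le _ _
    _ ≤ (∑ c : Option (Fin m'),
      ((S.filter fun w => netc H c w = netc H c u).erase u).card) + 1 :=
        Nat.add_le_add_right Finset.card_biUnion_le 1
    _ ≤ (∑ _c : Option (Fin m'), (m' - 1)) + 1 :=
        Nat.add_le_add_right (Finset.sum_le_sum fun c _ => h2 c) 1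
    _ = m' ^ 2 := by
        rw [Finset.sum_const, Finset.card_univ, Fintype.card_option, Fintype.card_fin, smul_eq_mul]
        obtain ⟨k, rfl⟩ := Nat.exists_eq_add_of_le hm
        have : 1 + k - 1 = k := by omega
        rw [this]
        ring

end base

end Pool.Agent.STS
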