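import Pool.Agent.STS.NetBase

/-!
# An isomorphism of net graphs is an isomorphism of nets  (helper41)

Lines: the fibres of `netc H c`, `c : Option (Fin (m-1))`; `n` points each. Let `n > (m-1)²`.
(1) A clique `S` which is not contained in a line has at most `1 + m (m-2) = (m-1)²` points: a line `l` of
class `c` contains at most `m - 1` points of `S` (take `v ∈ S`, `v ∉ l`: every point of `S` on `l` agrees with
`v` in one of the other `m - 1` classes); now take `u ∈ S`: on each of the `m` lines through `u` there
are at most `m - 2` other points of `S`.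
(2) So an isomorphism `φ` maps lines (cliques with `n` points) onto lines. Two different lines are
parallel (same class) iff they are disjoint (`m ≥ 3` not needed: lines of different classes meet), so `φ`
induces a permutation `π` of the classes; `f c a` = the coordinate of the image of the line `netc c = a`.
-/

set_option autoImplicit false

open Finset

namespace Pool.Agent.STS

open Classical in
theorem line_image {p : ℕ} [Fact p.Prime] {H K : Type*} [Group H] [Group K] [Fintype H] [Fintype K]
    (hexp : ∀ x : H, x ^ p = 1) (hexpK : ∀ x : K, x ^ p = 1) {m' : ℕ} (hm : 1 ≤ m') (hmp : m' ≤ p)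
    (hn : m' ^ 2 < Fintype.card H) (hcard : Fintype.card H = Fintype.card K)
    (φ : netGraph H (m' + 1) ≃g netGraph K (m' + 1)) (c : Option (Fin m')) (a : H) :
    ∃ (c' : Option (Fin m')) (a' : K), ∀ u : H × H, netc H c u = a ↔ netc K c' (φ u) = a' := by
  set L : Finset (H × H) := Finset.univ.filter fun u : H × H => netc H c u = a with hL
  set S : Finset (K × K) := L.map φ.toEquiv.toEmbedding with hS
  have hSc : S.card = Fintype.card H := by
    rw [hS, Finset.card_map, hL]
    exact netcP_card_line hexp hm hmp c a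
  have hmemS : ∀ u : H × H, φ u ∈ S ↔ netc H c u = a := by
    intro u
    rw [hS, Finset.mem_map]
    constructor
    · rintro ⟨u', hu', h⟩
      have h2 : u' = u := φ.toEquiv.injective h
      rw [← h2]
      exact (Finset.mem_filter.1 hu').2
    · intro h
      exact ⟨u, Finset.mem_filter.2 ⟨Finset.mem_univ _, h⟩, rfl⟩
  have hadj : ∀ u ∈ S, ∀ v ∈ S, u ≠ v → ∃ c'' : Option (Fin m'), netc K c'' u = netc K c'' v := by
    intro u hu v hv huv
    obtain ⟨u0, rfl⟩ := φ.toEquiv.surjective u
    obtain ⟨v0, rfl⟩ := φ.toEquiv.surjective v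
    have hu0 : netc H c u0 = a := (hmemS u0).1 hu
    have hv0 : netc H c v0 = a := (hmemS v0).1 hv
    have hne : u0 ≠ v0 := fun h => huv (by rw [h])
    have h1 : (netGraph H (m' + 1)).Adj u0 v0 :=
      (netGraph_adj_iff m' u0 v0).2 ⟨hne, c, hu0.trans hv0.symm⟩
    have h2 := φ.map_adj_iff.2 h1
    exact ((netGraph_adj_iff m' _ _).1 h2).2
  by_contra hno
  push Not at hno
  have hnl : ∀ (c' : Option (Fin m')) (a' : K), ∃ v ∈ S, netc K c' v ≠ a' := by
    intro c' a'
    by_contra hall
    push Not at hall
    have hsub : S ⊆ Finset.univ.filter fun u : K × K => netc K c' u = a' := fun v hv =>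
      Finset.mem_filter.2 ⟨Finset.mem_univ _, hall v hv⟩
    have heq : S = Finset.univ.filter fun u : K × K => netc K c' u = a' := by
      refine Finset.eq_of_subset_of_card_le hsub ?_
      rw [netcP_card_line hexpK hm hmp c' a', hSc, hcard]
    obtain ⟨u, hu⟩ := hno c' a'
    have h1 : netc H c u = a ↔ netc K c' (φ u) = a' := by
      rw [← hmemS u, heq, Finset.mem_filter]
      simp
    rcases hu with hu | hu
    · exact hu.2 (h1.1 hu.1)
    · exact hu.1 (h1.2 hu.2)
  have := netcP_clique hexpK hm hmp S hadj hnl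
  omega

theorem net_of_iso {p : ℕ} [Fact p.Prime] {H K : Type*} [Group H] [Group K] [Fintype H] [Fintype K]
    (hexp : ∀ x : H, x ^ p = 1) (hexpK : ∀ x : K, x ^ p = 1) {m' : ℕ} (hm : 1 ≤ m') (hmp : m' ≤ p)
    (hn : m' ^ 2 < Fintype.card H) (hcard : Fintype.card H = Fintype.card K)
    (φ : netGraph H (m' + 1) ≃g netGraph K (m' + 1)) :
    ∃ (π : Option (Fin m') ≃ Option (Fin m')) (f : Option (Fin m') → H → K),
      ∀ c u, netc K (π c) (φ u) = f c (netc H c u) := by
  classical
  have hn1 : 1 < Fintype.card H := lt_of_le_of_lt (Nat.one_le_pow _ _ hm) hn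
  have key := line_image hexp hexpK hm hmp hn hcard φ
  choose C A hCA using key
  have hsame : ∀ c a b, C c a = C c b := by
    intro c a b
    by_contra hne
    have hab : a ≠ b := by
      rintro rfl
      exact hne rfl
    obtain ⟨w, h1, h2⟩ := netcP_surj hexpK hmp hne (A c a) (A c b)
    have e1 := (hCA c a (φ.symm w)).2 (by rw [φ.apply_symm_apply]; exact h1)
    have e2 := (hCA c b (φ.symm w)).2 (by rw [φ.apply_symm_apply]; exact h2)
    exact hab (e1.symm.trans e2)
  have hinj : Function.Injective fun c => C c 1 := by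
    intro c c' hcc
    simp only at hcc
    by_contra hne
    obtain ⟨u, h1, h2⟩ := netcP_surj hexp hmp hne (1 : H) 1
    have e1 := (hCA c 1 u).1 h1
    have e2 := (hCA c' 1 u).1 h2
    rw [← hcc] at e2
    have hA : A c 1 = A c' 1 := e1.symm.trans e2
    obtain ⟨b, hb⟩ : ∃ b : H, b ≠ 1 := Fintype.exists_ne_of_one_lt_card hn1 1
    obtain ⟨v, h3, h4⟩ := netcP_surj hexp hmp hne (1 : H) b
    have e3 := (hCA c 1 v).1 h3
    rw [hcc, hA] at e3
    have e4 := (hCA c' 1 v).2 e3
    exact hb (h4.symm.trans e4)
  refine ⟨Equiv.ofBijective _ (Finite.injective_iff_bijective.1 hinj), A, fun c u => ?_⟩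
  have e1 := (hCA c (netc H c u) u).1 rfl
  rw [hsame c (netc H c u) 1] at e1
  exact e1

end Pool.Agent.STS
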