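import Pool.Agent.STS.NetBase

/-!
# The net graphs are strongly regular  (helper41)

`n = |H|`, `x ^ p = 1` in `H`, `m ≤ p + 1`, so for different classes `c, c'` among
`none, some 0, …, some (m-2)` the map `u ↦ (netc c u, netc c' u)` is a bijection of `H × H`
(`u.1 * u.2 ^ i = a`, `u.1 * u.2 ^ j = b` gives `u.2 ^ (j - i) = a⁻¹ * b`, and `j - i` is prime to `p`).
Sums of indicators as in `SRGWL/LSGraph.lean`: `[Adj u w] = ∑_c [netc c u = netc c w] - m [u = w]`.
-/

set_option autoImplicit false
set_option linter.unusedSectionVars false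

open Finset

namespace Pool.Agent.STS

namespace NetS

open Classical in
/-- the indicator of a proposition -/
noncomputable def ind (P : Prop) : ℤ := if P then 1 else 0

lemma ind_true {P : Prop} (h : P) : ind P = 1 := if_pos h

lemma ind_false {P : Prop} (h : ¬ P) : ind P = 0 := if_neg h

lemma sum_ind {ι : Type*} [Fintype ι] (a : ι) (f : ι → ℤ) : ∑ w, f w * ind (w = a) = f a := by
  classical
  unfold ind
  simp

variable {H : Type*} [Group H] [Fintype H]

/-- the number of the classes in which two points agree -/
noncomputable def agr (m' : ℕ) (u v : H × H) : ℤ :=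
  ∑ c : Option (Fin m'), ind (netc H c u = netc H c v)

theorem agr_self (m' : ℕ) (u : H × H) : agr m' u u = m' + 1 := by
  unfold agr
  rw [Finset.sum_congr rfl fun c _ => ind_true (rfl : netc H c u = netc H c u)]
  simp

theorem agr_adj {p : ℕ} [Fact p.Prime] (hexp : ∀ x : H, x ^ p = 1) {m' : ℕ} (hmp : m' ≤ p)
    {u v : H × H} (h : (netGraph H (m' + 1)).Adj u v) : agr m' u v = 1 := by
  classical
  obtain ⟨hne, c, hc⟩ := (netGraph_adj_iff m' u v).1 h
  unfold agr
  rw [Finset.sum_eq_single c]
  · exact ind_true hc
  · intro c' _ hcc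
    refine ind_false (fun h' => hne ?_)
    exact netcP_inj hexp hmp hcc h' hc
  · intro h'
    exact absurd (Finset.mem_univ _) h'

theorem agr_not_adj {m' : ℕ} {u v : H × H} (hne : u ≠ v)
    (h : ¬ (netGraph H (m' + 1)).Adj u v) : agr m' u v = 0 := by
  unfold agr
  refine Finset.sum_eq_zero (fun c _ => ind_false (fun hc => h ?_))
  exact (netGraph_adj_iff m' u v).2 ⟨hne, c, hc⟩

theorem agr_symm (m' : ℕ) (u v : H × H) : agr m' u v = agr m' v u := by
  unfold agr
  refine Finset.sum_congr rfl (fun c _ => ?_)
  rw [show (netc H c u = netc H c v) = (netc H c v = netc H c u) from propext eq_comm]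

theorem ind_adj {p : ℕ} [Fact p.Prime] (hexp : ∀ x : H, x ^ p = 1) {m' : ℕ} (hmp : m' ≤ p)
    (u w : H × H) :
    ind ((netGraph H (m' + 1)).Adj u w) = agr m' u w - (m' + 1) * ind (w = u) := by
  by_cases h : w = u
  · subst h
    rw [agr_self, ind_true (rfl : w = w), ind_false]
    · ring
    · exact (netGraph H (m' + 1)).loopless.irrefl w
  · rw [ind_false h]
    by_cases h1 : (netGraph H (m' + 1)).Adj u w
    · rw [ind_true h1, agr_adj hexp hmp h1]
      ring
    · rw [ind_false h1, agr_not_adj (fun h' => h h'.symm) h1]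
      ring

/-- the sum of the products -/
theorem sum_agr {p : ℕ} [Fact p.Prime] (hexp : ∀ x : H, x ^ p = 1) {m' : ℕ} (hm : 1 ≤ m')
    (hmp : m' ≤ p) (u v : H × H) :
    ∑ w, agr m' u w * agr m' v w =
      (m' + 1) * m' + Fintype.card H * agr m' u v := by
  classical
  -- the pairs of classes
  have h1 : ∀ c c' : Option (Fin m'), ∑ w : H × H,
      ind (netc H c u = netc H c w) * ind (netc H c' v = netc H c' w) =
        if c = c' then Fintype.card H * ind (netc H c u = netc H c v) else 1 := by
    intro c c'
    have h2 : ∀ w : H × H, ind (netc H c u = netc H c w) * ind (netc H c' v = netc H c' w) =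
        if (netc H c u = netc H c w ∧ netc H c' v = netc H c' w) then 1 else 0 := by
      intro w
      unfold ind
      split_ifs <;> simp_all
    rw [Finset.sum_congr rfl fun w _ => h2 w, ← Finset.sum_filter, Finset.sum_const]
    by_cases hcc : c = c'
    · subst hcc
      rw [if_pos rfl]
      by_cases huv : netc H c u = netc H c v
      · rw [ind_true huv]
        have h3 : (Finset.univ.filter fun w : H × H =>
            netc H c u = netc H c w ∧ netc H c v = netc H c w) =
            Finset.univ.filter fun w : H × H => netc H c w = netc H c u := by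
          ext w
          simp only [Finset.mem_filter, Finset.mem_univ, true_and]
          constructor
          · intro h
            exact h.1.symm
          · intro h
            exact ⟨h.symm, huv.symm.trans h.symm⟩
        rw [h3, netcP_card_line hexp hm hmp]
        simp
      · rw [ind_false huv]
        have h3 : (Finset.univ.filter fun w : H × H =>
            netc H c u = netc H c w ∧ netc H c v = netc H c w) = ∅ := by
          ext w
          simp only [Finset.mem_filter, Finset.mem_univ, true_and, Finset.notMem_empty, iff_false]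
          rintro ⟨ha, hb⟩
          exact huv (ha.trans hb.symm)
        rw [h3]
        simp
    · rw [if_neg hcc]
      obtain ⟨w0, h3, h4⟩ := netcP_surj hexp hmp hcc (netc H c u) (netc H c' v)
      have h5 : (Finset.univ.filter fun w : H × H =>
            netc H c u = netc H c w ∧ netc H c' v = netc H c' w) = {w0} := by
        ext w
        simp only [Finset.mem_filter, Finset.mem_univ, true_and, Finset.mem_singleton]
        constructor
        · rintro ⟨ha, hb⟩
          exact netcP_inj hexp hmp hcc (ha.symm.trans h3.symm) (hb.symm.trans h4.symm)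
        · rintro rfl
          exact ⟨h3.symm, h4.symm⟩
      rw [h5]
      simp
  have h2 : ∀ w : H × H, agr m' u w * agr m' v w = ∑ c : Option (Fin m'), ∑ c' : Option (Fin m'),
      ind (netc H c u = netc H c w) * ind (netc H c' v = netc H c' w) := by
    intro w
    unfold agr
    rw [Finset.sum_mul_sum]
  rw [Finset.sum_congr rfl fun w _ => h2 w, Finset.sum_comm]
  have h3 : ∀ c : Option (Fin m'), ∑ w : H × H, ∑ c' : Option (Fin m'),
      ind (netc H c u = netc H c w) * ind (netc H c' v = netc H c' w) =
      Fintype.card H * ind (netc H c u = netc H c v) + m' := by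
    intro c
    rw [Finset.sum_comm, Finset.sum_congr rfl fun c' _ => h1 c c']
    rw [← Finset.add_sum_erase Finset.univ _ (Finset.mem_univ c), if_pos rfl]
    congr 1
    rw [Finset.sum_congr rfl (g := fun _ => (1 : ℤ)) (fun c' hc' => if_neg (fun h => ?_))]
    · rw [Finset.sum_const, Finset.card_erase_of_mem (Finset.mem_univ c), Finset.card_univ,
        Fintype.card_option, Fintype.card_fin]
      simp
    · exact (Finset.mem_erase.1 hc').1 h.symm
  rw [Finset.sum_congr rfl fun c _ => h3 c, Finset.sum_add_distrib, ← Finset.mul_sum]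
  unfold agr
  rw [Finset.sum_const, Finset.card_univ, Fintype.card_option, Fintype.card_fin, nsmul_eq_mul]
  push_cast
  ring

/-- the number of the common neighbours -/
theorem main {p : ℕ} [Fact p.Prime] (hexp : ∀ x : H, x ^ p = 1) {m' : ℕ} (hm : 1 ≤ m')
    (hmp : m' ≤ p) (u v : H × H) :
    ∑ w, ind ((netGraph H (m' + 1)).Adj u w) * ind ((netGraph H (m' + 1)).Adj v w) =
      (m' + 1) * m' + ((Fintype.card H : ℤ) - 2 * (m' + 1)) * agr m' u v +
        (m' + 1) ^ 2 * ind (u = v) := by
  have h1 : ∀ w : H × H, ind ((netGraph H (m' + 1)).Adj u w) * ind ((netGraph H (m' + 1)).Adj v w) =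
      agr m' u w * agr m' v w - (m' + 1) * (agr m' u w * ind (w = v)) -
        (m' + 1) * (agr m' v w * ind (w = u)) + (m' + 1) ^ 2 * (ind (w = v) * ind (w = u)) := by
    intro w
    rw [ind_adj hexp hmp, ind_adj hexp hmp]
    ring
  rw [Finset.sum_congr rfl fun w _ => h1 w, Finset.sum_add_distrib, Finset.sum_sub_distrib,
    Finset.sum_sub_distrib, ← Finset.mul_sum, ← Finset.mul_sum, ← Finset.mul_sum,
    sum_ind v fun w => agr m' u w, sum_ind u fun w => agr m' v w, sum_ind u fun w => ind (w = v),
    sum_agr hexp hm hmp, agr_symm m' v u]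
  ring

open Classical in
lemma card_eq (m' : ℕ) (u v : H × H) :
    ((univ.filter fun w => (netGraph H (m' + 1)).Adj u w ∧ (netGraph H (m' + 1)).Adj v w).card : ℤ) =
      ∑ w, ind ((netGraph H (m' + 1)).Adj u w) * ind ((netGraph H (m' + 1)).Adj v w) := by
  rw [card_filter]
  push_cast
  refine sum_congr rfl fun w _ => ?_
  unfold ind
  by_cases h1 : (netGraph H (m' + 1)).Adj u w <;> by_cases h2 : (netGraph H (m' + 1)).Adj v w <;>
    simp [h1, h2]

end NetS

open NetS

open Classical in
theorem netGraph_isSRG {p : ℕ} [Fact p.Prime] {H : Type*} [Group H] [Fintype H]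
    (hexp : ∀ x : H, x ^ p = 1) {m : ℕ} (hm : 2 ≤ m) (hmp : m ≤ p + 1)
    (hn : 2 ≤ Fintype.card H) :
    (netGraph H m).IsSRGWith (Fintype.card H ^ 2) (m * (Fintype.card H - 1))
      (Fintype.card H - 2 + (m - 1) * (m - 2)) (m * (m - 1)) := by
  obtain ⟨m', rfl⟩ : ∃ m', m = m' + 1 := ⟨m - 1, by omega⟩
  have hm' : 1 ≤ m' := by omega
  have hmp' : m' ≤ p := by omega
  obtain ⟨n', hn'⟩ : ∃ n', Fintype.card H = n' + 2 := ⟨Fintype.card H - 2, by omega⟩
  obtain ⟨m'', hm''⟩ : ∃ m'', m' = m'' + 1 := ⟨m' - 1, by omega⟩
  refine ⟨?_, ?_, ?_, ?_⟩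
  · rw [Fintype.card_prod, sq]
  · intro u
    have h1 := card_eq m' u u
    rw [main hexp hm' hmp', agr_self, ind_true (rfl : u = u)] at h1
    have h2 : (netGraph H (m' + 1)).degree u =
        (Finset.univ.filter fun w => (netGraph H (m' + 1)).Adj u w ∧
          (netGraph H (m' + 1)).Adj u w).card := by
      rw [← SimpleGraph.card_neighborFinset_eq_degree]
      congr 1
      ext w
      simp
    rw [h2]
    have h3 : (m' + 1) * (Fintype.card H - 1) = (m' + 1) * (n' + 1) := by
      rw [hn']
      rfl
    rw [h3]
    zify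
    rw [h1, hn']
    push_cast
    ring
  · intro u v huv
    have h1 := card_eq m' u v
    rw [main hexp hm' hmp', agr_adj hexp hmp' huv, ind_false huv.1] at h1
    have h2 : Fintype.card ((netGraph H (m' + 1)).commonNeighbors u v) =
        (Finset.univ.filter fun w => (netGraph H (m' + 1)).Adj u w ∧
          (netGraph H (m' + 1)).Adj v w).card := by
      rw [← Set.toFinset_card]
      congr 1
      ext w
      simp [SimpleGraph.mem_commonNeighbors]
    rw [h2]
    have h3 : Fintype.card H - 2 + (m' + 1 - 1) * (m' + 1 - 2) = n' + m' * m'' := by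
      rw [hn', hm'']
      rfl
    rw [h3]
    zify
    rw [h1, hn', hm'']
    push_cast
    ring
  · intro u v hne huv
    have h1 := card_eq m' u v
    rw [main hexp hm' hmp', agr_not_adj hne huv, ind_false hne] at h1
    have h2 : Fintype.card ((netGraph H (m' + 1)).commonNeighbors u v) =
        (Finset.univ.filter fun w => (netGraph H (m' + 1)).Adj u w ∧
          (netGraph H (m' + 1)).Adj v w).card := by
      rw [← Set.toFinset_card]
      congr 1
      ext w
      simp [SimpleGraph.mem_commonNeighbors]
    rw [h2]
    have h3 : (m' + 1) * (m' + 1 - 1) = (m' + 1) * m' := rfl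
    rw [h3]
    zify
    rw [h1]
    ring

end Pool.Agent.STS
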