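import Mathlib

/-!
# Commutative subgroups of index three of a group of class two
-/

namespace Pool.Agent.STS

/-- In a finite group `K` of class at most two a commutative subgroup `A` with `3 |A| = |K|` has at
most `|Z(K)|²` elements. -/
theorem card_le_of_comm {K : Type*} [Group K] [Finite K]
    (hc : commutator K ≤ Subgroup.center K) (A : Subgroup K)
    (hA : ∀ x ∈ A, ∀ y ∈ A, x * y = y * x) (h3 : Nat.card A * 3 = Nat.card K) :
    Nat.card A ≤ Nat.card (Subgroup.center K) ^ 2 := by
  obtain ⟨g, hg⟩ : ∃ g, g ∉ A := by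
    by_contra hcon
    push Not at hcon
    have h1 : A = ⊤ := eq_top_iff.mpr fun x _ => hcon x
    rw [h1, Subgroup.card_top] at h3
    have : 0 < Nat.card K := Nat.card_pos
    omega
  have hcen : ∀ a b z : K, (a * b * a⁻¹ * b⁻¹) * z = z * (a * b * a⁻¹ * b⁻¹) := by
    intro a b z
    have h1 : a * b * a⁻¹ * b⁻¹ ∈ Subgroup.center K :=
      hc (Subgroup.commutator_mem_commutator (Subgroup.mem_top a) (Subgroup.mem_top b))
    exact (Subgroup.mem_center_iff.mp h1 z).symm
  let φ : A →* Subgroup.center K :=
    MonoidHom.mk' (fun a => ⟨(a : K) * g * (a : K)⁻¹ * g⁻¹,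
      hc (Subgroup.commutator_mem_commutator (Subgroup.mem_top _) (Subgroup.mem_top _))⟩) (by
      intro a b
      apply Subtype.ext
      show ((a * b : A) : K) * g * ((a * b : A) : K)⁻¹ * g⁻¹ =
        (a : K) * g * (a : K)⁻¹ * g⁻¹ * ((b : K) * g * (b : K)⁻¹ * g⁻¹)
      rw [← hcen b g ((a : K) * g * (a : K)⁻¹ * g⁻¹), Subgroup.coe_mul]
      have e1 : (a : K) * b * g * ((a : K) * b)⁻¹ * g⁻¹ =
          a * ((b : K) * g * (b : K)⁻¹ * g⁻¹) * (g * (a : K)⁻¹ * g⁻¹) := by group
      rw [e1, ← hcen b g a]
      group)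
  have hker : ∀ a : A, a ∈ φ.ker → (a : K) ∈ Subgroup.center K := by
    intro a ha
    have h1 : (a : K) * g * (a : K)⁻¹ * g⁻¹ = 1 := congrArg Subtype.val ha
    have h2 : (a : K) * g = g * a := by
      have := congrArg (· * (g * a)) h1
      simpa [mul_assoc] using this
    let C : Subgroup K := Subgroup.centralizer {(a : K)}
    have hAC : A ≤ C := fun x hx => by
      rw [Subgroup.mem_centralizer_singleton_iff]
      exact hA _ hx _ a.2
    have hgC : g ∈ C := by
      rw [Subgroup.mem_centralizer_singleton_iff]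
      exact h2.symm
    obtain ⟨m, hm⟩ := Subgroup.card_dvd_of_le hAC
    have hpos : 0 < Nat.card A := Nat.card_pos
    have hm3 : m ∣ 3 := by
      have h4 : Nat.card C ∣ Nat.card K := Subgroup.card_subgroup_dvd_card C
      rw [hm, ← h3] at h4
      exact Nat.dvd_of_mul_dvd_mul_left hpos h4
    rcases (Nat.dvd_prime Nat.prime_three).mp hm3 with rfl | rfl
    · rw [mul_one] at hm
      have heq := Subgroup.eq_of_le_of_card_ge hAC hm.le
      rw [heq] at hg
      exact absurd hgC hg
    · have htop : C = ⊤ := Subgroup.eq_top_of_card_eq C (hm.trans h3)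
      rw [Subgroup.mem_center_iff]
      intro x
      have hx : x ∈ C := htop ▸ Subgroup.mem_top x
      exact Subgroup.mem_centralizer_singleton_iff.mp hx
  have h1 : Nat.card φ.ker ≤ Nat.card (Subgroup.center K) := by
    refine Nat.card_le_card_of_injective
      (fun a : φ.ker => (⟨((a : A) : K), hker a.1 a.2⟩ : Subgroup.center K)) ?_
    intro a b hab
    have := congrArg Subtype.val hab
    exact Subtype.ext (Subtype.ext this)
  have h2 : Nat.card φ.range ≤ Nat.card (Subgroup.center K) := Subgroup.card_le_card_group _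
  have h4 : Nat.card φ.ker * Nat.card φ.range = Nat.card A := by
    rw [← Subgroup.index_ker, Subgroup.card_mul_index]
  rw [← h4, pow_two]
  exact Nat.mul_le_mul h1 h2

end Pool.Agent.STS
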