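import Pool.Agent.STS.Defs

/-!
# Steiner quasigroups, and the triple system of a group of exponent three
-/

namespace Pool.Agent.STS

/-- A Steiner quasigroup: `op p q` is the third point of the block through `p` and `q`. -/
structure SQ {P : Type*} (op : P → P → P) : Prop where
  idem : ∀ p, op p p = p
  comm : ∀ p q, op p q = op q p
  inv : ∀ p q, op p (op p q) = q

open Classical in
/-- the block through two points -/
noncomputable def blk {P : Type*} (op : P → P → P) (p q : P) : Finset P := {p, q, op p q}

/-- the blocks -/
def blocks {P : Type*} (op : P → P → P) : Set (Finset P) := {b | ∃ p q, p ≠ q ∧ b = blk op p q}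

/-- a group of exponent three -/
def Exp3 (H : Type*) [Group H] : Prop := ∀ x : H, x * x * x = 1

/-- the operation on `H × Z/3`: the blocks are `{x, y, x y⁻¹ x}` in each of the three levels, and
`{(x,0), (y,1), (z,2)}` with `x y z = 1`. -/
def hop (H : Type*) [Group H] (p q : H × ZMod 3) : H × ZMod 3 :=
  if q.2 = p.2 then (p.1 * q.1⁻¹ * p.1, p.2)
  else if q.2 = p.2 + 1 then ((p.1 * q.1)⁻¹, p.2 + 2)
  else ((q.1 * p.1)⁻¹, p.2 + 1)

end Pool.Agent.STS
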