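import Pool.Agent.STS.Op

/-!
# Steiner quasigroups give Steiner triple systems
-/

namespace Pool.Agent.STS

variable {P : Type*} {op : P → P → P}

theorem mem_blk {p q x : P} : x ∈ blk op p q ↔ x = p ∨ x = q ∨ x = op p q := by
  classical
  unfold blk
  rw [Finset.mem_insert, Finset.mem_insert, Finset.mem_singleton]

namespace SQ

variable (h : SQ op)

include h

theorem inv' (p q : P) : op (op p q) q = p := by
  rw [h.comm (op p q) q, h.comm p q, h.inv]

theorem inv'' (p q : P) : op (op p q) p = q := by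
  rw [h.comm (op p q) p, h.inv]

theorem ne_left {p q : P} (hpq : p ≠ q) : op p q ≠ p := by
  intro h'
  apply hpq
  have := h.inv p q
  rw [h', h.idem] at this
  exact this

theorem ne_right {p q : P} (hpq : p ≠ q) : op p q ≠ q := by
  rw [h.comm]
  exact h.ne_left hpq.symm

theorem blk_comm (p q : P) : blk op p q = blk op q p := by
  ext x
  rw [mem_blk, mem_blk, h.comm]
  tauto

theorem card_blk {p q : P} (hpq : p ≠ q) : (blk op p q).card = 3 := by
  classical
  rw [Finset.card_eq_three]
  exact ⟨p, q, op p q, hpq, (h.ne_left hpq).symm, (h.ne_right hpq).symm, rfl⟩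

theorem blk_op (p q : P) : blk op p (op p q) = blk op p q := by
  ext x
  rw [mem_blk, mem_blk, h.inv]
  tauto

/-- a block is determined by any two of its points -/
theorem eq_blk {b : Finset P} (hb : b ∈ blocks op) {x y : P} (hx : x ∈ b) (hy : y ∈ b)
    (hxy : x ≠ y) : b = blk op x y := by
  obtain ⟨p, q, hpq, rfl⟩ := hb
  rw [mem_blk] at hx hy
  rcases hx with rfl | rfl | rfl <;> rcases hy with rfl | rfl | rfl
  · exact absurd rfl hxy
  · rfl
  · rw [h.blk_op]
  · rw [h.blk_comm]
  · exact absurd rfl hxy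
  · rw [h.blk_comm p x, h.comm p x, h.blk_op]
  · rw [h.blk_comm (op y q) y, h.blk_op]
  · rw [h.blk_comm (op p y) y, h.comm p y, h.blk_op, h.blk_comm]
  · exact absurd rfl hxy

theorem blk_mem {p q : P} (hpq : p ≠ q) : blk op p q ∈ blocks op := ⟨p, q, hpq, rfl⟩

theorem isSTS : IsSTS (blocks op) := by
  refine ⟨?_, fun p q hpq => ⟨blk op p q, ⟨h.blk_mem hpq, ?_, ?_⟩, ?_⟩⟩
  · rintro b ⟨p, q, hpq, rfl⟩
    exact h.card_blk hpq
  · rw [mem_blk]
    exact Or.inl rfl
  · rw [mem_blk]
    exact Or.inr (Or.inl rfl)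
  · rintro b ⟨hb, hp, hq⟩
    exact h.eq_blk hb hp hq hpq

end SQ

/-- a bijection that maps blocks to blocks respects the operations -/
theorem op_of_map {P' : Type*} {op' : P' → P' → P'} (h : SQ op) (h' : SQ op') (e : P ≃ P')
    (he : ∀ b ∈ blocks op, b.map e.toEmbedding ∈ blocks op') (p q : P) :
    e (op p q) = op' (e p) (e q) := by
  by_cases hpq : p = q
  · rw [hpq, h.idem, h'.idem]
  · have h1 := he _ (h.blk_mem hpq)
    have hp : e p ∈ (blk op p q).map e.toEmbedding :=
      Finset.mem_map_of_mem _ (mem_blk.mpr (Or.inl rfl))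
    have hq : e q ∈ (blk op p q).map e.toEmbedding :=
      Finset.mem_map_of_mem _ (mem_blk.mpr (Or.inr (Or.inl rfl)))
    have hr : e (op p q) ∈ (blk op p q).map e.toEmbedding :=
      Finset.mem_map_of_mem _ (mem_blk.mpr (Or.inr (Or.inr rfl)))
    rw [h'.eq_blk h1 hp hq (e.injective.ne hpq), mem_blk] at hr
    rcases hr with hr | hr | hr
    · exact absurd (e.injective hr) (h.ne_left hpq)
    · exact absurd (e.injective hr) (h.ne_right hpq)
    · exact hr

end Pool.Agent.STS
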