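import Pool.Agent.STS.Net
import Pool.Agent.SRGWL.Cay
import Pool.Agent.SRGWL.LSIso

/-!
# Cayley graphs of Latin square type `L_m(n)` from the groups `G A D`

`s_a (i, w, t) = (a i, a w, a² t)` is an endomorphism of `G A D`. The classes of the net on
`G A D × G A D` are `y` and `x * s_a y`, `a = 0, 1, …, m - 2`.

(1) It is a net if the `a²` are different: `(s_a y)⁻¹ * s_b y = ((b - a) y.i, (b - a) y.w, (b² - a²) y.t)`.
(2) In the coordinates `(x, y⁻¹)` the left translations of `G A D × G A D` preserve the classes.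
(3) Any three classes are isotopic to the group `G A D`.
-/

namespace Pool.Agent.STS

open Pool.Agent.SRGWL Module

variable {K I : Type*} [Field K] [AddCommGroup I] [Module K I] {z : ℕ}

/-- `(i, w, t) ↦ (a i, a w, c t)` -/
def dil {A : Tup K I z} {D : CoTup K I z} (a c : K) (x : G A D) : G A D :=
  ⟨a • x.i, a • x.w, c • x.t⟩

@[simp] theorem dil_i {A : Tup K I z} {D : CoTup K I z} (a c : K) (x : G A D) :
    (dil a c x).i = a • x.i := rfl
@[simp] theorem dil_w {A : Tup K I z} {D : CoTup K I z} (a c : K) (x : G A D) :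
    (dil a c x).w = a • x.w := rfl
@[simp] theorem dil_t {A : Tup K I z} {D : CoTup K I z} (a c : K) (x : G A D) :
    (dil a c x).t = c • x.t := rfl

/-- the endomorphism `(i, w, t) ↦ (a i, a w, a² t)` -/
def scl (A : Tup K I z) (D : CoTup K I z) (a : K) : G A D →* G A D where
  toFun x := dil a (a ^ 2) x
  map_one' := by
    ext1
    · simp
    · simp
    · simp
  map_mul' x y := by
    ext1
    · simp
    · simp
    · funext ζ
      simp only [dil_t, G.mul_t, dil_i, dil_w, Pi.smul_apply, smul_eq_mul, Submodule.coe_smul,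
        LinearMap.smul_apply, map_smul]
      ring

theorem scl_apply {A : Tup K I z} {D : CoTup K I z} (a : K) (x : G A D) :
    scl A D a x = dil a (a ^ 2) x := rfl

theorem dil_dil {A : Tup K I z} {D : CoTup K I z} (a c a' c' : K) (x : G A D) :
    dil a c (dil a' c' x) = dil (a * a') (c * c') x := by
  ext1
  · simp [mul_smul]
  · simp [mul_smul]
  · simp [mul_smul]

theorem dil_one {A : Tup K I z} {D : CoTup K I z} (x : G A D) : dil 1 1 x = x := by
  ext1
  · simp
  · simp
  · simp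

theorem dil_bij {A : Tup K I z} {D : CoTup K I z} {a c : K} (ha : a ≠ 0) (hc : c ≠ 0) :
    Function.Bijective (dil (A := A) (D := D) a c) := by
  refine Function.bijective_iff_has_inverse.mpr ⟨dil a⁻¹ c⁻¹, fun x => ?_, fun x => ?_⟩
  · rw [dil_dil, inv_mul_cancel₀ ha, inv_mul_cancel₀ hc, dil_one]
  · rw [dil_dil, mul_inv_cancel₀ ha, mul_inv_cancel₀ hc, dil_one]

theorem scl_inv_mul {A : Tup K I z} {D : CoTup K I z} (h2 : (2 : K) ≠ 0) (hD : CoSkew D) (a b : K)
    (y : G A D) : (scl A D a y)⁻¹ * scl A D b y = dil (b - a) (b ^ 2 - a ^ 2) y := by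
  have h := fun ζ => Special.D_self h2 hD ζ y.i
  ext1
  · simp only [scl_apply, G.mul_i, G.inv_i, dil_i, sub_smul]
    abel
  · simp only [scl_apply, G.mul_w, G.inv_w, dil_w]
    module
  · funext ζ
    simp only [scl_apply, G.mul_t, G.inv_t, G.inv_i, G.inv_w, dil_i, dil_w, dil_t, Pi.smul_apply,
      Pi.neg_apply, smul_eq_mul, Submodule.coe_smul, Submodule.coe_neg, LinearMap.smul_apply,
      LinearMap.neg_apply, map_smul, map_neg, h]
    ring

/-- The classes of the net: `y` and `x * s_a y` for `a = 0, …, m' - 1`. -/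
def sc (m' : ℕ) (A : Tup K I z) (D : CoTup K I z) : Option (Fin m') → G A D × G A D → G A D
  | none, u => u.2
  | some a, u => u.1 * scl A D (a : ℕ) u.2

theorem sc_none (m' : ℕ) (A : Tup K I z) (D : CoTup K I z) (u : G A D × G A D) :
    sc m' A D none u = u.2 := rfl

theorem sc_some (m' : ℕ) (A : Tup K I z) (D : CoTup K I z) (a : Fin m') (u : G A D × G A D) :
    sc m' A D (some a) u = u.1 * scl A D (a : ℕ) u.2 := rfl

/-- two classes `some a`, `some b` -/
theorem sc_inv_mul {A : Tup K I z} {D : CoTup K I z} (h2 : (2 : K) ≠ 0) (hD : CoSkew D) {m' : ℕ}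
    (a b : Fin m') (u : G A D × G A D) : (sc m' A D (some a) u)⁻¹ * sc m' A D (some b) u =
      dil (((b : ℕ) : K) - ((a : ℕ) : K)) (((b : ℕ) : K) ^ 2 - ((a : ℕ) : K) ^ 2) u.2 := by
  rw [sc_some, sc_some, ← scl_inv_mul h2 hD]
  group

/-- The hypothesis on the field: the numbers `a²`, `a < m'`, are different. -/
def SqInj (K : Type*) [Field K] (m' : ℕ) : Prop :=
  ∀ a b : Fin m', a ≠ b → ((a : ℕ) : K) ^ 2 ≠ ((b : ℕ) : K) ^ 2

theorem SqInj.ne {m' : ℕ} (h : SqInj K m') {a b : Fin m'} (hab : a ≠ b) :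
    ((a : ℕ) : K) - ((b : ℕ) : K) ≠ 0 := by
  intro h1
  apply h a b hab
  rw [sub_eq_zero.mp h1]

theorem SqInj.sq_ne {m' : ℕ} (h : SqInj K m') {a b : Fin m'} (hab : a ≠ b) :
    ((a : ℕ) : K) ^ 2 - ((b : ℕ) : K) ^ 2 ≠ 0 := sub_ne_zero.mpr (h a b hab)

theorem sqInj_zmod (p : ℕ) [Fact p.Prime] {m' : ℕ} (h : 2 * m' ≤ p + 1) : SqInj (ZMod p) m' := by
  intro a b hab hsq
  have hp : p.Prime := Fact.out
  have h1 : (((a : ℕ) : ZMod p) - ((b : ℕ) : ZMod p)) * (((a : ℕ) : ZMod p) + ((b : ℕ) : ZMod p)) = 0 := by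
    linear_combination hsq
  have ha := a.2
  have hb := b.2
  have hne : (a : ℕ) ≠ (b : ℕ) := fun h => hab (Fin.ext h)
  rcases mul_eq_zero.mp h1 with h2 | h2
  · rw [sub_eq_zero, ZMod.natCast_eq_natCast_iff'] at h2
    rw [Nat.mod_eq_of_lt (by omega), Nat.mod_eq_of_lt (by omega)] at h2
    exact hne h2
  · rw [← Nat.cast_add, ZMod.natCast_eq_zero_iff] at h2
    have := Nat.le_of_dvd (by omega) h2
    omega

theorem sc_isNet {A : Tup K I z} {D : CoTup K I z} (h2 : (2 : K) ≠ 0) (hD : CoSkew D) {m' : ℕ}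
    (hm : SqInj K m') : IsNet (sc m' A D) := by
  -- pairs in the order `(none, some b)` and `(some a, some b)`
  have key1 : ∀ b : Fin m', Function.Bijective fun u => (sc m' A D none u, sc m' A D (some b) u) := by
    intro b
    refine Function.bijective_iff_has_inverse.mpr
      ⟨fun q => (q.2 * (scl A D (b : ℕ) q.1)⁻¹, q.1), fun u => ?_, fun q => ?_⟩
    · simp only [sc_none, sc_some]
      rw [mul_inv_cancel_right]
    · simp only [sc_none, sc_some]
      rw [inv_mul_cancel_right]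
  have key2 : ∀ a b : Fin m', a ≠ b →
      Function.Bijective fun u => (sc m' A D (some a) u, sc m' A D (some b) u) := by
    intro a b hab
    have hbij := dil_bij (A := A) (D := D) (hm.ne hab.symm) (hm.sq_ne hab.symm)
    constructor
    · intro u v h
      have h1 : sc m' A D (some a) u = sc m' A D (some a) v := congrArg Prod.fst h
      have h3 : sc m' A D (some b) u = sc m' A D (some b) v := congrArg Prod.snd h
      have h4 : u.2 = v.2 := by
        apply hbij.1
        rw [← sc_inv_mul h2 hD, ← sc_inv_mul h2 hD, h1, h3]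
      refine Prod.ext ?_ h4
      rw [sc_some, sc_some, h4] at h1
      exact mul_right_cancel h1
    · rintro ⟨s, t⟩
      obtain ⟨y, hy⟩ := hbij.2 (s⁻¹ * t)
      refine ⟨(s * (scl A D (a : ℕ) y)⁻¹, y), ?_⟩
      have h1 : sc m' A D (some a) (s * (scl A D (a : ℕ) y)⁻¹, y) = s := by
        rw [sc_some]
        exact inv_mul_cancel_right _ _
      have h3 := sc_inv_mul h2 hD a b (s * (scl A D (a : ℕ) y)⁻¹, y)
      rw [h1] at h3
      have h5 : s⁻¹ * sc m' A D (some b) (s * (scl A D (a : ℕ) y)⁻¹, y) = s⁻¹ * t := h3.trans hy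
      exact Prod.ext h1 (mul_left_cancel h5)
  have swap : ∀ i j, (Function.Bijective fun u => (sc m' A D i u, sc m' A D j u)) →
      Function.Bijective fun u => (sc m' A D j u, sc m' A D i u) := fun i j h =>
    (Equiv.prodComm _ _).bijective.comp h
  rintro (_ | a) (_ | b) hij
  · exact absurd rfl hij
  · exact key1 b
  · exact swap _ _ (key1 a)
  · exact key2 a b fun h => hij (congrArg some h)

/-- The graph of the net is a Cayley graph. -/
theorem sc_cay (m' : ℕ) (A : Tup K I z) (D : CoTup K I z) :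
    Nonempty (netG (sc m' A D) ≃g cay (G A D × G A D)
      {g | g.2 = 1 ∨ ∃ a : Fin m', g.1 = scl A D (a : ℕ) g.2}) := by
  refine ⟨⟨(Equiv.refl _).prodCongr (Equiv.inv _), ?_⟩⟩
  intro u v
  show (SimpleGraph.fromRel _).Adj _ _ ↔ (u ≠ v ∧ _)
  rw [SimpleGraph.fromRel_adj]
  obtain ⟨x, y⟩ := u
  obtain ⟨x', y'⟩ := v
  have key : ∀ (x y x' y' : G A D), (x, y⁻¹)⁻¹ * (x', y'⁻¹) ∈
      {g : G A D × G A D | g.2 = 1 ∨ ∃ a : Fin m', g.1 = scl A D (a : ℕ) g.2} ↔
      ∃ i, sc m' A D i (x, y) = sc m' A D i (x', y') := by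
    intro x y x' y'
    rw [Set.mem_ofPred_eq]
    simp only [Prod.inv_mk, Prod.mk_mul_mk, inv_inv]
    constructor
    · rintro (h | ⟨a, h⟩)
      · refine ⟨none, ?_⟩
        exact mul_inv_eq_one.mp h
      · refine ⟨some a, ?_⟩
        rw [sc_some, sc_some]
        rw [map_mul, map_inv, inv_mul_eq_iff_eq_mul, ← mul_assoc, eq_mul_inv_iff_mul_eq] at h
        exact h.symm
    · rintro ⟨_ | a, h⟩
      · exact Or.inl (mul_inv_eq_one.mpr h)
      · refine Or.inr ⟨a, ?_⟩
        rw [map_mul, map_inv, inv_mul_eq_iff_eq_mul, ← mul_assoc, eq_mul_inv_iff_mul_eq]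
        exact Eq.symm h
  have e1 : (((Equiv.refl (G A D)).prodCongr (Equiv.inv (G A D))) (x, y)) = (x, y⁻¹) := rfl
  have e2 : (((Equiv.refl (G A D)).prodCongr (Equiv.inv (G A D))) (x', y')) = (x', y'⁻¹) := rfl
  rw [e1, e2]
  refine and_congr ?_ ?_
  · simp [Prod.ext_iff]
  · have h1 := key x y x' y'
    have h2 := key x' y' x y
    constructor
    · rintro (h | h)
      · exact h1.mp h
      · obtain ⟨i, hi⟩ := h2.mp h
        exact ⟨i, hi.symm⟩
    · intro h
      exact Or.inl (h1.mpr h)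

/-- The isotopy of three classes `some a`, `some b`, `some c`. -/
theorem sc_rel {A : Tup K I z} {D : CoTup K I z} (h2 : (2 : K) ≠ 0) (hD : CoSkew D) {a b c l m r : K}
    (hl : l * (b - a) = c - a) (hm : m * (b ^ 2 - a ^ 2) = c ^ 2 - a ^ 2)
    (hr : r * (l - m) = l * (1 - l)) (x y : G A D) :
    dil 1 r (x * scl A D c y) =
      dil (1 - l) (r * (1 - m)) (x * scl A D a y) * dil l (r * m) (x * scl A D b y) := by
  have hx := fun ζ => Special.D_self h2 hD ζ x.i
  have hy := fun ζ => Special.D_self h2 hD ζ y.i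
  have hs := fun ζ => hD ζ y.i x.i
  ext1
  · simp only [scl_apply, G.mul_i, dil_i]
    have hc : c = a + l * (b - a) := by rw [hl]; ring
    rw [hc]
    module
  · simp only [scl_apply, G.mul_w, dil_w]
    have hc : c = a + l * (b - a) := by rw [hl]; ring
    rw [hc]
    module
  · funext ζ
    simp only [scl_apply, G.mul_t, G.mul_i, G.mul_w, dil_i, dil_w, dil_t, Pi.smul_apply,
      smul_eq_mul, Submodule.coe_smul, Submodule.coe_add, Pi.add_apply, LinearMap.smul_apply,
      LinearMap.add_apply, map_smul, map_add, hx, hy, hs]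
    linear_combination (-r * y.t ζ) * hm + (-r) * ((y.w : Fin (z + 1) → Dual K I) ζ x.i
      - (x.w : Fin (z + 1) → Dual K I) ζ y.i + D ζ x.i y.i) * hl +
      (b - a) * ((y.w : Fin (z + 1) → Dual K I) ζ x.i
      - (x.w : Fin (z + 1) → Dual K I) ζ y.i + D ζ x.i y.i) * hr

/-- Three different classes of the net are isotopic to the group. -/
theorem sc_isotopy {A : Tup K I z} {D : CoTup K I z} (h2 : (2 : K) ≠ 0) (hD : CoSkew D) {m' : ℕ}
    (hm : SqInj K m') {i j k : Option (Fin m')} (hij : i ≠ j) (hik : i ≠ k) (hjk : j ≠ k) :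
    ∃ R P Q : G A D → G A D, Function.Bijective R ∧
      ∀ u, R (sc m' A D k u) = P (sc m' A D i u) * Q (sc m' A D j u) := by
  rcases i with _ | a
  · rcases j with _ | b
    · exact absurd rfl hij
    rcases k with _ | c
    · exact absurd rfl hik
    -- `u_c = u_b * ψ (y)`
    refine ⟨fun x => x⁻¹, fun y => (dil (((c : ℕ) : K) - ((b : ℕ) : K))
      (((c : ℕ) : K) ^ 2 - ((b : ℕ) : K) ^ 2) y)⁻¹, fun x => x⁻¹, (Equiv.inv _).bijective, fun u => ?_⟩
    have h := sc_inv_mul h2 hD b c u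
    show (sc m' A D (some c) u)⁻¹ = (dil (((c : ℕ) : K) - ((b : ℕ) : K))
      (((c : ℕ) : K) ^ 2 - ((b : ℕ) : K) ^ 2) u.2)⁻¹ * (sc m' A D (some b) u)⁻¹
    rw [← h]
    group
  rcases j with _ | b
  · rcases k with _ | c
    · exact absurd rfl hjk
    refine ⟨fun x => x, fun x => x, fun y => dil (((c : ℕ) : K) - ((a : ℕ) : K))
      (((c : ℕ) : K) ^ 2 - ((a : ℕ) : K) ^ 2) y, Function.bijective_id, fun u => ?_⟩
    have h := sc_inv_mul h2 hD a c u
    show sc m' A D (some c) u = sc m' A D (some a) u * dil (((c : ℕ) : K) - ((a : ℕ) : K))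
      (((c : ℕ) : K) ^ 2 - ((a : ℕ) : K) ^ 2) u.2
    rw [← h]
    group
  have hab : a ≠ b := fun h => hij (congrArg some h)
  rcases k with _ | c
  · refine ⟨fun y => dil (((b : ℕ) : K) - ((a : ℕ) : K))
      (((b : ℕ) : K) ^ 2 - ((a : ℕ) : K) ^ 2) y, fun x => x⁻¹, fun x => x,
      dil_bij (hm.ne hab.symm) (hm.sq_ne hab.symm), fun u => ?_⟩
    exact (sc_inv_mul h2 hD a b u).symm
  have hac : a ≠ c := fun h => hik (congrArg some h)
  have hbc : b ≠ c := fun h => hjk (congrArg some h)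
  have n1 := hm.ne hab.symm
  have n2 := hm.sq_ne hab.symm
  have n3 := hm.ne hac.symm
  have n4 := hm.ne hbc.symm
  have n5 := hm.ne hbc
  have n6 : ((b : ℕ) : K) + ((a : ℕ) : K) ≠ 0 := by
    intro h
    apply n2
    linear_combination (((b : ℕ) : K) - ((a : ℕ) : K)) * h
  set l : K := (((c : ℕ) : K) - ((a : ℕ) : K)) / (((b : ℕ) : K) - ((a : ℕ) : K)) with hl
  set m : K := (((c : ℕ) : K) ^ 2 - ((a : ℕ) : K) ^ 2) / (((b : ℕ) : K) ^ 2 - ((a : ℕ) : K) ^ 2)
    with hmm
  have hlm : l - m ≠ 0 := by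
    have h3 : l - m = (((c : ℕ) : K) - ((a : ℕ) : K)) * (((b : ℕ) : K) - ((c : ℕ) : K)) /
        ((((b : ℕ) : K) - ((a : ℕ) : K)) * (((b : ℕ) : K) + ((a : ℕ) : K))) := by
      have h4 : ((b : ℕ) : K) ^ 2 - ((a : ℕ) : K) ^ 2 =
        (((b : ℕ) : K) - ((a : ℕ) : K)) * (((b : ℕ) : K) + ((a : ℕ) : K)) := by ring
      rw [hl, hmm, h4]
      field_simp
      ring
    rw [h3]
    exact div_ne_zero (mul_ne_zero n3 n5) (mul_ne_zero n1 n6)
  have hl0 : l ≠ 0 := div_ne_zero n3 n1
  have hl1 : 1 - l ≠ 0 := by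
    have h3 : 1 - l = (((b : ℕ) : K) - ((c : ℕ) : K)) / (((b : ℕ) : K) - ((a : ℕ) : K)) := by
      rw [hl]
      field_simp
      ring
    rw [h3]
    exact div_ne_zero n5 n1
  refine ⟨dil 1 (l * (1 - l) / (l - m)), dil (1 - l) (l * (1 - l) / (l - m) * (1 - m)),
    dil l (l * (1 - l) / (l - m) * m),
    dil_bij one_ne_zero (div_ne_zero (mul_ne_zero hl0 hl1) hlm), fun u => ?_⟩
  exact sc_rel h2 hD (div_mul_cancel₀ _ n1) (div_mul_cancel₀ _ n2) (div_mul_cancel₀ _ hlm) u.1 u.2

/-- An isomorphism of the nets gives an isomorphism of the groups. -/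
theorem mulEquiv_of_snet {A A' : Tup K I z} {D D' : CoTup K I z} (h2 : (2 : K) ≠ 0)
    (hD' : CoSkew D') {m' : ℕ} (h2m : 2 ≤ m')
    (hm : SqInj K m') (φ : G A D × G A D ≃ G A' D' × G A' D')
    (π : Option (Fin m') ≃ Option (Fin m')) (f : Option (Fin m') → G A D → G A' D')
    (hfb : ∀ c, Function.Bijective (f c))
    (hf : ∀ c u, sc m' A' D' (π c) (φ u) = f c (sc m' A D c u)) :
    Nonempty (G A D ≃* G A' D') := by
  set c0 : Option (Fin m') := some ⟨0, by omega⟩ with hc0
  set c1 : Option (Fin m') := some ⟨1, by omega⟩ with hc1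
  have h01 : c0 ≠ c1 := by simp [hc0, hc1]
  obtain ⟨R, P, Q, hR, h⟩ := sc_isotopy (A := A') h2 hD' hm (i := π c0) (j := π none) (k := π c1)
    (fun h => by have := π.injective h; simp [hc0] at this)
    (fun h => h01 (π.injective h))
    (fun h => by have := π.injective h; simp [hc1] at this)
  refine mulEquiv_of_isotopy (fun x => R (f c1 x)) (hR.comp (hfb c1)) (fun x => P (f c0 x))
    (fun y => Q (f none y)) ?_
  intro x y
  have e0 : sc m' A D c0 (x, y) = x := by
    rw [hc0, sc_some]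
    show x * scl A D ((0 : ℕ) : K) y = x
    have : scl A D ((0 : ℕ) : K) y = 1 := by
      rw [Nat.cast_zero, scl_apply]
      ext1
      · simp
      · simp
      · simp
    rw [this, mul_one]
  have e1 : sc m' A D c1 (x, y) = x * y := by
    rw [hc1, sc_some]
    show x * scl A D ((1 : ℕ) : K) y = x * y
    have : scl A D ((1 : ℕ) : K) y = y := by
      rw [Nat.cast_one, scl_apply, one_pow, dil_one]
    rw [this]
  have h3 := h (φ (x, y))
  rw [hf, hf, hf, e0, e1, sc_none] at h3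
  exact h3

end Pool.Agent.STS
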