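import Pool.Agent.STS.Defs

/-!
# The block graph of a Steiner triple system is strongly regular
-/

namespace Pool.Agent.STS

open Finset

variable {P : Type*} [Fintype P] {B : Set (Finset P)}

open Classical in
/-- incidence -/
noncomputable def J (p : P) (d : B) : ℤ := if p ∈ d.1 then 1 else 0

open Classical in
theorem sum_J_mul (hB : IsSTS B) {p q : P} (h : p ≠ q) : ∑ d : B, J p d * J q d = 1 := by
  obtain ⟨b, ⟨hb, hp, hq⟩, huniq⟩ := hB.2 p q h
  rw [Finset.sum_eq_single ⟨b, hb⟩]
  · simp [J, hp, hq]
  · intro d _ hd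
    by_cases h1 : p ∈ d.1
    · by_cases h2 : q ∈ d.1
      · exact absurd (Subtype.ext (huniq d.1 ⟨d.2, h1, h2⟩)) hd
      · simp [J, h2]
    · simp [J, h1]
  · intro h'
    exact absurd (mem_univ _) h'

open Classical in
theorem J_sq (p : P) (d : B) : J p d * J p d = J p d := by
  unfold J
  split_ifs <;> simp

open Classical in
theorem sum_J (hB : IsSTS B) (d : B) : ∑ p : P, J p d = 3 := by
  unfold J
  rw [Finset.sum_boole, Finset.filter_mem_eq_inter, Finset.univ_inter, hB.1 d.1 d.2]
  norm_num

open Classical in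
/-- number of blocks through a point -/
noncomputable def rr (B : Set (Finset P)) (p : P) : ℤ := ∑ d : B, J p d

open Classical in
theorem two_rr (hB : IsSTS B) (p : P) : 2 * rr B p = Fintype.card P - 1 := by
  have h1 : ∑ d : B, J p d * ∑ q : P, J q d = 3 * rr B p := by
    rw [rr, Finset.mul_sum]
    refine Finset.sum_congr rfl fun d _ => ?_
    rw [sum_J hB]
    ring
  have h2 : ∑ d : B, J p d * ∑ q : P, J q d = rr B p + (Fintype.card P - 1) := by
    have e1 : ∑ d : B, J p d * ∑ q : P, J q d = ∑ q : P, ∑ d : B, J p d * J q d := by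
      rw [Finset.sum_comm]
      refine Finset.sum_congr rfl fun d _ => ?_
      rw [Finset.mul_sum]
    rw [e1, ← Finset.add_sum_erase _ _ (mem_univ p)]
    have e2 : ∑ d : B, J p d * J p d = rr B p := by
      rw [rr]
      exact Finset.sum_congr rfl fun d _ => J_sq p d
    have e3 : ∑ q ∈ univ.erase p, ∑ d : B, J p d * J q d = ∑ q ∈ univ.erase p, (1 : ℤ) :=
      Finset.sum_congr rfl fun q hq => sum_J_mul hB (Finset.ne_of_mem_erase hq).symm
    rw [e2, e3, Finset.sum_const, Finset.card_erase_of_mem (mem_univ p), Finset.card_univ]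
    have hpos : 1 ≤ Fintype.card P := Fintype.card_pos_iff.mpr ⟨p⟩
    rw [nsmul_eq_mul, mul_one, Nat.cast_sub hpos]
    norm_num
  linarith

/-- size of the intersection -/
noncomputable def X (b d : B) : ℤ := by
  classical exact ∑ p : P, J p b * J p d

open Classical in
theorem X_def (b d : B) : X b d = ∑ p : P, J p b * J p d := rfl

theorem X_comm (b d : B) : X b d = X d b := by
  rw [X_def, X_def]
  exact Finset.sum_congr rfl fun p _ => mul_comm _ _

theorem X_self (hB : IsSTS B) (b : B) : X b b = 3 := by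
  rw [X_def, ← sum_J hB b]
  exact Finset.sum_congr rfl fun p _ => J_sq p b

theorem J_nonneg (p : P) (d : B) : 0 ≤ J p d := by
  unfold J
  split_ifs <;> norm_num

theorem X_of_ne (hB : IsSTS B) {b d : B} (h : b ≠ d) (hA : ∃ p, p ∈ b.1 ∧ p ∈ d.1) : X b d = 1 := by
  classical
  obtain ⟨p, hb, hd⟩ := hA
  rw [X_def, Finset.sum_eq_single p]
  · simp [J, hb, hd]
  · intro q _ hq
    by_cases h1 : q ∈ b.1
    · by_cases h2 : q ∈ d.1
      · obtain ⟨c, -, huniq⟩ := hB.2 p q hq.symm
        exact absurd (Subtype.ext ((huniq b.1 ⟨b.2, hb, h1⟩).trans (huniq d.1 ⟨d.2, hd, h2⟩).symm)) h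
      · simp [J, h2]
    · simp [J, h1]
  · intro h'
    exact absurd (mem_univ _) h'

theorem X_of_not {b d : B} (hA : ¬ ∃ p, p ∈ b.1 ∧ p ∈ d.1) : X b d = 0 := by
  classical
  rw [X_def]
  refine Finset.sum_eq_zero fun p _ => ?_
  by_cases h1 : p ∈ b.1
  · have h2 : p ∉ d.1 := fun h2 => hA ⟨p, h1, h2⟩
    simp [J, h2]
  · simp [J, h1]

open Classical in
/-- adjacency as a number -/
theorem adj_eq (hB : IsSTS B) (b d : B) :
    (if (blockGraph B).Adj b d then (1 : ℤ) else 0) = X b d - 3 * (if b = d then 1 else 0) := by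
  by_cases h : b = d
  · subst h
    rw [X_self hB, if_neg ((blockGraph B).loopless.irrefl b), if_pos rfl]
    norm_num
  · rw [if_neg h]
    by_cases hA : ∃ p, p ∈ b.1 ∧ p ∈ d.1
    · rw [X_of_ne hB h hA, if_pos ⟨h, hA⟩]
      norm_num
    · rw [X_of_not hA, if_neg fun h' => hA h'.2]
      norm_num

open Classical in
theorem sum_X (hB : IsSTS B) {r : ℤ} (hr : ∀ p : P, rr B p = r) (b : B) : ∑ d : B, X b d = 3 * r := by
  have e1 : ∑ d : B, X b d = ∑ p : P, J p b * rr B p := by
    simp only [X_def, rr, Finset.mul_sum]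
    rw [Finset.sum_comm]
  rw [e1]
  simp only [hr]
  rw [← Finset.sum_mul, sum_J hB]

open Classical in
theorem sum_XX (hB : IsSTS B) {r : ℤ} (hr : ∀ p : P, rr B p = r) (b c : B) :
    ∑ d : B, X b d * X c d = 9 + (r - 1) * X b c := by
  have e1 : ∑ d : B, X b d * X c d = ∑ p : P, ∑ q : P, J p b * J q c * ∑ d : B, J p d * J q d := by
    have f1 : ∀ d : B, X b d * X c d = ∑ p : P, ∑ q : P, J p b * J q c * (J p d * J q d) := by
      intro d
      rw [X_def, X_def, Finset.sum_mul_sum]
      refine Finset.sum_congr rfl fun p _ => Finset.sum_congr rfl fun q _ => ?_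
      ring
    rw [Finset.sum_congr rfl fun d _ => f1 d, Finset.sum_comm]
    refine Finset.sum_congr rfl fun p _ => ?_
    rw [Finset.sum_comm]
    refine Finset.sum_congr rfl fun q _ => ?_
    rw [Finset.mul_sum]
  have e2 : ∀ p q : P, ∑ d : B, J p d * J q d = 1 + (r - 1) * (if p = q then 1 else 0) := by
    intro p q
    by_cases h : p = q
    · subst h
      rw [if_pos rfl]
      have : ∑ d : B, J p d * J p d = rr B p := by
        rw [rr]
        exact Finset.sum_congr rfl fun d _ => J_sq p d
      rw [this, hr]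
      ring
    · rw [sum_J_mul hB h, if_neg h]
      ring
  rw [e1]
  simp only [e2]
  have e3 : ∑ p : P, ∑ q : P, J p b * J q c * (1 + (r - 1) * (if p = q then 1 else 0)) =
      (∑ p : P, J p b) * (∑ q : P, J q c) + (r - 1) * ∑ p : P, J p b * J p c := by
    rw [Finset.sum_mul_sum, Finset.mul_sum, ← Finset.sum_add_distrib]
    refine Finset.sum_congr rfl fun p _ => ?_
    have : (r - 1) * (J p b * J p c) =
        ∑ q : P, (r - 1) * (J p b * J q c) * (if p = q then 1 else 0) := by
      simp
    rw [this, ← Finset.sum_add_distrib]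
    refine Finset.sum_congr rfl fun q _ => ?_
    ring
  rw [e3, sum_J hB, sum_J hB, X_def]
  norm_num

theorem card_blocks (hB : IsSTS B) {r : ℤ} (hr : ∀ p : P, rr B p = r) :
    3 * (Nat.card B : ℤ) = Fintype.card P * r := by
  classical
  have h1 : ∑ d : B, ∑ p : P, J p d = 3 * (Nat.card B : ℤ) := by
    rw [Finset.sum_congr rfl fun d _ => sum_J hB d, Finset.sum_const, Finset.card_univ,
      Nat.card_eq_fintype_card, nsmul_eq_mul]
    ring
  rw [← h1, Finset.sum_comm]
  have h2 : ∀ p : P, ∑ d : B, J p d = r := hr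
  rw [Finset.sum_congr rfl fun p _ => h2 p, Finset.sum_const, Finset.card_univ, nsmul_eq_mul]

open Classical in
/-- The block graph of a Steiner triple system is strongly regular. -/
theorem isSRG (hB : IsSTS B) (hne : 0 < Fintype.card P) :
    (blockGraph B).IsSRGWith (Fintype.card P * (Fintype.card P - 1) / 6)
      (3 * (Fintype.card P - 3) / 2) ((Fintype.card P + 3) / 2) 9 := by
  obtain ⟨p0⟩ := Fintype.card_pos_iff.mp hne
  set r : ℤ := rr B p0 with hr0
  have h2r : 2 * r = Fintype.card P - 1 := two_rr hB p0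
  have hr : ∀ p : P, rr B p = r := by
    intro p
    have := two_rr hB p
    linarith
  have hN := card_blocks hB hr
  have hrnn : 0 ≤ r := Finset.sum_nonneg fun d _ => J_nonneg p0 d
  obtain ⟨s, hs⟩ := Int.eq_ofNat_of_zero_le hrnn
  have hv : Fintype.card P = 2 * s + 1 := by
    rw [hs] at h2r
    omega
  have hdeg : ∀ b : B, ((blockGraph B).degree b : ℤ) = 3 * r - 3 := by
    intro b
    rw [← SimpleGraph.card_neighborFinset_eq_degree, SimpleGraph.neighborFinset_eq_filter,
      Finset.card_filter, Nat.cast_sum]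
    have : ∀ d : B, ((if (blockGraph B).Adj b d then 1 else 0 : ℕ) : ℤ) =
        X b d - 3 * (if b = d then 1 else 0) := by
      intro d
      rw [← adj_eq hB]
      split_ifs <;> rfl
    rw [Finset.sum_congr rfl fun d _ => this d, Finset.sum_sub_distrib, sum_X hB hr,
      ← Finset.mul_sum, Finset.sum_ite_eq]
    simp
  have hcn : ∀ b c : B, b ≠ c → (Fintype.card ((blockGraph B).commonNeighbors b c) : ℤ) =
      9 + (r - 1) * X b c - 6 * X b c := by
    intro b c hbc
    have e0 : (Fintype.card ((blockGraph B).commonNeighbors b c) : ℤ) =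
        ∑ d : B, ((if (blockGraph B).Adj b d then (1 : ℤ) else 0) *
          (if (blockGraph B).Adj c d then (1 : ℤ) else 0)) := by
      rw [← Set.toFinset_card]
      have : ((blockGraph B).commonNeighbors b c).toFinset =
          univ.filter fun d => (blockGraph B).Adj b d ∧ (blockGraph B).Adj c d := by
        ext d
        simp [SimpleGraph.mem_commonNeighbors]
      rw [this, Finset.card_filter, Nat.cast_sum]
      refine Finset.sum_congr rfl fun d _ => ?_
      by_cases h1 : (blockGraph B).Adj b d <;> by_cases h2 : (blockGraph B).Adj c d <;> simp [h1, h2]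
    rw [e0]
    have e1 : ∀ d : B, ((if (blockGraph B).Adj b d then (1 : ℤ) else 0) *
          (if (blockGraph B).Adj c d then (1 : ℤ) else 0)) =
        X b d * X c d - 3 * (X c d * (if b = d then 1 else 0)) -
          3 * (X b d * (if c = d then 1 else 0)) +
          9 * ((if b = d then 1 else 0) * (if c = d then 1 else 0)) := by
      intro d
      rw [adj_eq hB, adj_eq hB]
      ring
    rw [Finset.sum_congr rfl fun d _ => e1 d, Finset.sum_add_distrib, Finset.sum_sub_distrib,
      Finset.sum_sub_distrib, sum_XX hB hr, ← Finset.mul_sum, ← Finset.mul_sum, ← Finset.mul_sum]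
    have e2 : ∑ d : B, X c d * (if b = d then (1 : ℤ) else 0) = X b c := by
      simp [X_comm c b]
    have e3 : ∑ d : B, X b d * (if c = d then (1 : ℤ) else 0) = X b c := by
      simp
    have e4 : ∑ d : B, ((if b = d then (1 : ℤ) else 0) * (if c = d then 1 else 0)) = 0 := by
      refine Finset.sum_eq_zero fun d _ => ?_
      by_cases h1 : b = d
      · have h2 : c ≠ d := fun h2 => hbc (h1.trans h2.symm)
        simp [h2]
      · simp [h1]
    rw [e2, e3, e4]
    ring
  refine ⟨?_, ?_, ?_, ?_⟩
  · rw [Nat.card_eq_fintype_card, hs] at hN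
    have h6 : 6 * Fintype.card B = Fintype.card P * (Fintype.card P - 1) := by
      rw [hv] at hN ⊢
      have h3 : 3 * Fintype.card B = (2 * s + 1) * s := by exact_mod_cast hN
      have h4 : 2 * s + 1 - 1 = 2 * s := by omega
      rw [h4]
      nlinarith [h3]
    rw [← h6]
    omega
  · intro b
    have h1 := hdeg b
    rw [hs] at h1
    have : (blockGraph B).degree b = 3 * (Fintype.card P - 3) / 2 := by
      rw [hv]
      omega
    exact this
  · intro b c hbc
    have h1 := hcn b c hbc.1
    rw [X_of_ne hB hbc.1 hbc.2, hs] at h1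
    have h2 : (Fintype.card ((blockGraph B).commonNeighbors b c) : ℤ) = s + 2 := by
      rw [h1]
      ring
    rw [hv]
    omega
  · intro b c hbc hadj
    have h1 := hcn b c hbc
    rw [X_of_not fun h' => hadj ⟨hbc, h'⟩] at h1
    have h2 : (Fintype.card ((blockGraph B).commonNeighbors b c) : ℤ) = 9 := by
      rw [h1]
      ring
    exact_mod_cast h2

end Pool.Agent.STS
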