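import Pool.Agent.STS.Net
import Pool.Agent.STS.Coord

/-!
# A Steiner system from a net and a Steiner system on every class

`c : K → U → L` is a net with `m` classes on the points `U`. Its dual is a transversal design on the
points `L × K`: every `u` gives one block, with the points (c i u, i), i ∈ K. With the blocks of a
Steiner system S(2, m, |L|) in every class L × i it becomes a Steiner system S(2, m, m |L|).
-/

namespace Pool.Agent.STS

variable {K U L : Type*} [Fintype K]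

/-- the transversal block of a point of the net -/
def tb (c : K → U → L) (u : U) : Finset (L × K) :=
  Finset.univ.map ⟨fun i => (c i u, i), fun _ _ h => congrArg Prod.snd h⟩

omit [Fintype K] in
/-- the copy of a block in the class `i` -/
def fb (b : Finset L) (i : K) : Finset (L × K) :=
  b.map ⟨fun x => (x, i), fun _ _ h => congrArg Prod.fst h⟩

/-- The blocks of the Steiner system of a net and a Steiner system: the transversal blocks, and the
copies of the blocks in `F` in every class. -/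
def tdBlocks (c : K → U → L) (F : Set (Finset L)) : Set (Finset (L × K)) :=
  {b | (∃ u, b = tb c u) ∨ ∃ b' ∈ F, ∃ i, b = fb b' i}

theorem mem_tb {c : K → U → L} {u : U} {x : L × K} : x ∈ tb c u ↔ c x.2 u = x.1 := by
  obtain ⟨x, i⟩ := x
  simp [tb]

omit [Fintype K] in
theorem mem_fb {b : Finset L} {i : K} {x : L × K} : x ∈ fb b i ↔ x.1 ∈ b ∧ x.2 = i := by
  obtain ⟨x, j⟩ := x
  constructor
  · intro h
    obtain ⟨y, hy, h'⟩ := Finset.mem_map.mp h
    simp only [Function.Embedding.coeFn_mk, Prod.mk.injEq] at h'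
    obtain ⟨rfl, rfl⟩ := h'
    exact ⟨hy, rfl⟩
  · rintro ⟨h, rfl⟩
    exact Finset.mem_map.mpr ⟨x, h, rfl⟩

theorem card_tb (c : K → U → L) (u : U) : (tb c u).card = Fintype.card K := by
  rw [tb, Finset.card_map, Finset.card_univ]

omit [Fintype K] in
theorem card_fb (b : Finset L) (i : K) : (fb b i).card = b.card := by
  rw [fb, Finset.card_map]

theorem mk_mem_tb (c : K → U → L) (u : U) (i : K) : (c i u, i) ∈ tb c u := mem_tb.mpr rfl

theorem tb_mem_tdBlocks (c : K → U → L) (F : Set (Finset L)) (u : U) : tb c u ∈ tdBlocks c F :=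
  Or.inl ⟨u, rfl⟩

theorem fb_mem_tdBlocks (c : K → U → L) {F : Set (Finset L)} {b : Finset L} (hb : b ∈ F) (i : K) :
    fb b i ∈ tdBlocks c F := Or.inr ⟨b, hb, i, rfl⟩

theorem tb_ne_fb (h2 : 2 ≤ Fintype.card K) (c : K → U → L) (u : U) (b : Finset L) (i : K) :
    tb c u ≠ fb b i := by
  intro h
  have : Nontrivial K := Fintype.one_lt_card_iff_nontrivial.mp h2
  obtain ⟨j, hj⟩ := exists_ne i
  have h1 := mk_mem_tb c u j
  rw [h] at h1
  exact hj (mem_fb.mp h1).2

theorem tb_injective {c : K → U → L} (hc : IsNet c) (h2 : 2 ≤ Fintype.card K) :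
    Function.Injective (tb c) := by
  intro u v h
  have : Nontrivial K := Fintype.one_lt_card_iff_nontrivial.mp h2
  obtain ⟨i, j, hij⟩ := exists_pair_ne K
  have h1 : ∀ k, c k v = c k u := by
    intro k
    have := mk_mem_tb c u k
    rw [h] at this
    exact mem_tb.mp this
  exact (hc i j hij).1 (Prod.ext (h1 i).symm (h1 j).symm)

omit [Fintype K] in
theorem fb_injective {b b' : Finset L} {i j : K} (hb : b.Nonempty) (h : fb b i = fb b' j) :
    b = b' ∧ i = j := by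
  obtain ⟨x, hx⟩ := hb
  have hij : i = j := by
    have h1 : (x, i) ∈ fb b i := mem_fb.mpr ⟨hx, rfl⟩
    rw [h] at h1
    exact (mem_fb.mp h1).2
  subst hij
  refine ⟨?_, rfl⟩
  ext y
  have h1 : (y, i) ∈ fb b i ↔ (y, i) ∈ fb b' i := by rw [h]
  rw [mem_fb, mem_fb] at h1
  simpa using h1

/-- The Steiner system of a net with `m` classes and of a Steiner system `S(2, m, |L|)`. -/
theorem td_isSteiner {c : K → U → L} (hc : IsNet c) {F : Set (Finset L)}
    (hF : IsSteiner (Fintype.card K) F) : IsSteiner (Fintype.card K) (tdBlocks c F) := by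
  refine ⟨?_, ?_⟩
  · rintro b (⟨u, rfl⟩ | ⟨b', hb', i, rfl⟩)
    · exact card_tb c u
    · rw [card_fb, hF.1 b' hb']
  · rintro ⟨x, i⟩ ⟨y, j⟩ hxy
    by_cases hij : i = j
    · subst hij
      have hne : x ≠ y := fun h => hxy (by rw [h])
      obtain ⟨b, ⟨hb, hx, hy⟩, huniq⟩ := hF.2 x y hne
      refine ⟨fb b i, ⟨fb_mem_tdBlocks c hb i, mem_fb.mpr ⟨hx, rfl⟩, mem_fb.mpr ⟨hy, rfl⟩⟩, ?_⟩
      rintro d ⟨⟨u, rfl⟩ | ⟨b', hb', k, rfl⟩, h1, h2⟩
      · have e1 : c i u = x := mem_tb.mp h1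
        have e2 : c i u = y := mem_tb.mp h2
        exact absurd (e1.symm.trans e2) hne
      · obtain ⟨h1, h1'⟩ := mem_fb.mp h1
        obtain ⟨h2, -⟩ := mem_fb.mp h2
        simp only at h1 h1' h2
        rw [huniq b' ⟨hb', h1, h2⟩, h1']
    · obtain ⟨u, hu⟩ := (hc i j hij).2 (x, y)
      simp only [Prod.mk.injEq] at hu
      refine ⟨tb c u, ⟨tb_mem_tdBlocks c F u, mem_tb.mpr hu.1, mem_tb.mpr hu.2⟩, ?_⟩
      rintro d ⟨⟨v, rfl⟩ | ⟨b', hb', k, rfl⟩, h1, h2⟩
      · have e1 := mem_tb.mp h1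
        have e2 := mem_tb.mp h2
        simp only at e1 e2
        rw [(hc i j hij).1 (a₁ := v) (a₂ := u) (by
          simp only [Prod.mk.injEq]
          exact ⟨e1.trans hu.1.symm, e2.trans hu.2.symm⟩)]
      · exact absurd ((mem_fb.mp h1).2.trans (mem_fb.mp h2).2.symm) hij

/-- the blocks, listed -/
noncomputable def tdE {c : K → U → L} (hc : IsNet c) {F : Set (Finset L)}
    (hF : IsSteiner (Fintype.card K) F) (h2 : 2 ≤ Fintype.card K) : tdBlocks c F ≃ U ⊕ K × F :=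
  (Equiv.ofBijective (fun s : U ⊕ K × F => (Sum.elim (fun u => ⟨tb c u, tb_mem_tdBlocks c F u⟩)
      (fun q => ⟨fb q.2.1 q.1, fb_mem_tdBlocks c q.2.2 q.1⟩) s : tdBlocks c F)) (by
    have hne : ∀ b ∈ F, b.Nonempty := fun b hb => Finset.card_pos.mp (by rw [hF.1 b hb]; omega)
    refine ⟨?_, ?_⟩
    · rintro (u | ⟨i, b⟩) (v | ⟨j, b'⟩) h
      · exact congrArg Sum.inl (tb_injective hc h2 (congrArg Subtype.val h))
      · exact absurd (congrArg Subtype.val h) (tb_ne_fb h2 c u _ _)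
      · exact absurd (congrArg Subtype.val h).symm (tb_ne_fb h2 c v _ _)
      · obtain ⟨h1, h3⟩ := fb_injective (hne _ b.2) (congrArg Subtype.val h)
        exact congrArg Sum.inr (Prod.ext h3 (Subtype.ext h1))
    · rintro ⟨b, ⟨u, rfl⟩ | ⟨b', hb', i, rfl⟩⟩
      · exact ⟨Sum.inl u, rfl⟩
      · exact ⟨Sum.inr (i, ⟨b', hb'⟩), rfl⟩)).symm

theorem tdE_symm_inl {c : K → U → L} (hc : IsNet c) {F : Set (Finset L)}
    (hF : IsSteiner (Fintype.card K) F) (h2 : 2 ≤ Fintype.card K) (u : U) :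
    ((tdE hc hF h2).symm (Sum.inl u)).1 = tb c u := rfl

theorem tdE_symm_inr {c : K → U → L} (hc : IsNet c) {F : Set (Finset L)}
    (hF : IsSteiner (Fintype.card K) F) (h2 : 2 ≤ Fintype.card K) (i : K) (b : F) :
    ((tdE hc hF h2).symm (Sum.inr (i, b))).1 = fb b.1 i := rfl

/-! ## The block graph, in these coordinates -/

/-- The block graph: points u, and copies (i, b) of the blocks of F. -/
def tdG (c : K → U → L) (F : Set (Finset L)) : SimpleGraph (U ⊕ K × F) where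
  Adj
    | Sum.inl u, Sum.inl v => u ≠ v ∧ ∃ i, c i u = c i v
    | Sum.inl u, Sum.inr q => c q.1 u ∈ q.2.1
    | Sum.inr q, Sum.inl u => c q.1 u ∈ q.2.1
    | Sum.inr q, Sum.inr q' => q ≠ q' ∧ q.1 = q'.1 ∧ ∃ x, x ∈ q.2.1 ∧ x ∈ q'.2.1
  symm := by
    constructor
    rintro (u | q) (v | q') h
    · obtain ⟨h, i, h'⟩ := h
      exact ⟨h.symm, i, h'.symm⟩
    · exact h
    · exact h
    · obtain ⟨h, h', x, hx, hx'⟩ := h
      exact ⟨h.symm, h'.symm, x, hx', hx⟩
  loopless := ⟨by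
    rintro (u | q) h
    · exact h.1 rfl
    · exact h.1 rfl⟩

/-- The block graph of the Steiner system, in coordinates. -/
noncomputable def tdIso {c : K → U → L} (hc : IsNet c) {F : Set (Finset L)}
    (hF : IsSteiner (Fintype.card K) F) (h2 : 2 ≤ Fintype.card K) :
    tdG c F ≃g blockGraph (tdBlocks c F) where
  toEquiv := (tdE hc hF h2).symm
  map_rel_iff' := by
    rintro (u | q) (v | q')
    · change (_ ≠ _ ∧ ∃ x, x ∈ tb c u ∧ x ∈ tb c v) ↔ u ≠ v ∧ ∃ i, c i u = c i v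
      rw [Ne, (tdE hc hF h2).symm.injective.eq_iff, Sum.inl.injEq]
      refine and_congr_right fun _ => ⟨?_, ?_⟩
      · rintro ⟨⟨x, i⟩, h, h'⟩
        exact ⟨i, (mem_tb.mp h).trans (mem_tb.mp h').symm⟩
      · rintro ⟨i, h⟩
        exact ⟨(c i u, i), mem_tb.mpr rfl, mem_tb.mpr h.symm⟩
    · change (_ ≠ _ ∧ ∃ x, x ∈ tb c u ∧ x ∈ fb q'.2.1 q'.1) ↔ c q'.1 u ∈ q'.2.1
      rw [Ne, (tdE hc hF h2).symm.injective.eq_iff]
      constructor
      · rintro ⟨-, ⟨x, i⟩, h, h'⟩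
        obtain ⟨h', h''⟩ := mem_fb.mp h'
        have h := mem_tb.mp h
        simp only at h h' h''
        rw [← h'', h]
        exact h'
      · intro h
        exact ⟨Sum.inl_ne_inr, (c q'.1 u, q'.1), mem_tb.mpr rfl, mem_fb.mpr ⟨h, rfl⟩⟩
    · change (_ ≠ _ ∧ ∃ x, x ∈ fb q.2.1 q.1 ∧ x ∈ tb c v) ↔ c q.1 v ∈ q.2.1
      rw [Ne, (tdE hc hF h2).symm.injective.eq_iff]
      constructor
      · rintro ⟨-, ⟨x, i⟩, h', h⟩
        obtain ⟨h', h''⟩ := mem_fb.mp h'
        have h := mem_tb.mp h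
        simp only at h h' h''
        rw [← h'', h]
        exact h'
      · intro h
        exact ⟨Sum.inr_ne_inl, (c q.1 v, q.1), mem_fb.mpr ⟨h, rfl⟩, mem_tb.mpr rfl⟩
    · change (_ ≠ _ ∧ ∃ x, x ∈ fb q.2.1 q.1 ∧ x ∈ fb q'.2.1 q'.1) ↔
        q ≠ q' ∧ q.1 = q'.1 ∧ ∃ x, x ∈ q.2.1 ∧ x ∈ q'.2.1
      rw [Ne, (tdE hc hF h2).symm.injective.eq_iff, Sum.inr.injEq]
      refine and_congr_right fun _ => ⟨?_, ?_⟩
      · rintro ⟨⟨x, i⟩, h, h'⟩
        obtain ⟨h, h1⟩ := mem_fb.mp h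
        obtain ⟨h', h2⟩ := mem_fb.mp h'
        exact ⟨h1.symm.trans h2, x, h, h'⟩
      · rintro ⟨h, x, hx, hx'⟩
        exact ⟨(x, q.1), mem_fb.mpr ⟨hx, rfl⟩, mem_fb.mpr ⟨hx', h⟩⟩

end Pool.Agent.STS
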