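import Pool.Agent.STS.TD
import Pool.Agent.STS.SteinerClique

/-!
# Isomorphisms of the Steiner systems of nets

Let the net have `m ≥ 3` classes of `n` lines, `m` not a divisor of `n`. A subsystem with `n` points
of the Steiner system of the net is one of the classes: otherwise it meets all classes in the same
number of points. So an isomorphism of two such Steiner systems maps classes to classes, and it gives an
isomorphism of the graphs of the nets.
-/

namespace Pool.Agent.STS

open Finset

variable {K U L : Type*} [Fintype K]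

/-- A set of points that is closed for the transversal blocks, and whose number of points is no multiple
of the number of classes, lies in one class. -/
theorem snd_eq_of_closed {c : K → U → L} (hc : IsNet c) (h3 : 3 ≤ Fintype.card K) (S : Finset (L × K))
    (hS : ∀ u i j, i ≠ j → (c i u, i) ∈ S → (c j u, j) ∈ S → ∀ k, (c k u, k) ∈ S)
    (hd : ¬ Fintype.card K ∣ S.card) : ∀ x ∈ S, ∀ y ∈ S, x.2 = y.2 := by
  classical
  by_contra hcon
  push Not at hcon
  obtain ⟨⟨x, i₀⟩, hx, ⟨y, j₀⟩, hy, hij⟩ := hcon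
  simp only at hij
  have hmeet : ∀ k, ∃ z, (z, k) ∈ S := by
    intro k
    obtain ⟨u, hu⟩ := (hc i₀ j₀ hij).2 (x, y)
    simp only [Prod.mk.injEq] at hu
    obtain ⟨rfl, rfl⟩ := hu
    exact ⟨_, hS u i₀ j₀ hij hx hy k⟩
  have hthird : ∀ i j : K, ∃ k, k ≠ i ∧ k ≠ j := by
    intro i j
    have h1 : (({i, j} : Finset K)ᶜ).Nonempty := by
      rw [← card_pos, card_compl]
      have := card_le_two (a := i) (b := j)
      omega
    obtain ⟨k, hk⟩ := h1
    simp only [mem_compl, mem_insert, mem_singleton, not_or] at hk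
    exact ⟨k, hk.1, hk.2⟩
  have hle : ∀ i j : K, (S.filter fun x => x.2 = i).card ≤ (S.filter fun x => x.2 = j).card := by
    intro i j
    by_cases hij : i = j
    · rw [hij]
    obtain ⟨k, hki, hkj⟩ := hthird i j
    obtain ⟨z, hz⟩ := hmeet k
    choose g hg using fun x : L => (hc i k hki.symm).2 (x, z)
    have hg1 : ∀ x, c i (g x) = x := fun x => congrArg Prod.fst (hg x)
    have hg2 : ∀ x, c k (g x) = z := fun x => congrArg Prod.snd (hg x)
    refine card_le_card_of_injOn (fun x => (c j (g x.1), j)) ?_ ?_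
    · rintro ⟨x, i'⟩ hx
      simp only [coe_filter, Set.mem_ofPred_eq] at hx
      obtain ⟨hx, rfl⟩ := hx
      simp only [coe_filter, Set.mem_ofPred_eq, and_true]
      refine hS (g x) i' k hki.symm ?_ ?_ j
      · rw [hg1]
        exact hx
      · rw [hg2]
        exact hz
    · rintro ⟨x, i'⟩ hx ⟨y, i''⟩ hy h
      simp only [coe_filter, Set.mem_ofPred_eq] at hx hy
      obtain ⟨hx, rfl⟩ := hx
      obtain ⟨hy, rfl⟩ := hy
      simp only [Prod.mk.injEq, and_true] at h
      have h1 : g x = g y := (hc j k hkj.symm).1 (Prod.ext h ((hg2 x).trans (hg2 y).symm))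
      rw [← hg1 x, ← hg1 y, h1]
  have hsum : S.card = ∑ k : K, (S.filter fun x => x.2 = k).card :=
    card_eq_sum_card_fiberwise fun x _ => mem_univ _
  refine hd ⟨(S.filter fun x => x.2 = i₀).card, ?_⟩
  rw [hsum, sum_congr rfl fun k _ => le_antisymm (hle k i₀) (hle i₀ k), sum_const, card_univ,
    smul_eq_mul]

variable {U' L' : Type*} [Fintype L] [Fintype L']

omit [Fintype L'] in
/-- An isomorphism of the Steiner systems of two nets maps classes into classes. -/
theorem snd_image {c : K → U → L} {c' : K → U' → L'} (hc' : IsNet c')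
    (h3 : 3 ≤ Fintype.card K) (hd : ¬ Fintype.card K ∣ Fintype.card L) {F : Set (Finset L)}
    {F' : Set (Finset L')} (hF : IsSteiner (Fintype.card K) F) (e : L × K ≃ L' × K)
    (he : ∀ b : Finset (L × K), b.map e.toEmbedding ∈ tdBlocks c' F' ↔ b ∈ tdBlocks c F) (i : K)
    (x y : L) : (e (x, i)).2 = (e (y, i)).2 := by
  classical
  refine snd_eq_of_closed hc' h3 (univ.image fun x => e (x, i)) ?_ ?_ _
    (mem_image_of_mem _ (mem_univ x)) _ (mem_image_of_mem _ (mem_univ y))
  · intro u j k hjk hj hk l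
    obtain ⟨x, -, hx⟩ := mem_image.mp hj
    obtain ⟨y, -, hy⟩ := mem_image.mp hk
    have hxy : x ≠ y := by
      rintro rfl
      exact hjk (congrArg Prod.snd (hx.symm.trans hy))
    obtain ⟨b, ⟨hb, hxb, hyb⟩, -⟩ := hF.2 x y hxy
    have h1 : (fb b i).map e.toEmbedding ∈ tdBlocks c' F' :=
      (he _).mpr (fb_mem_tdBlocks c hb i)
    have hm : ∀ z ∈ b, e (z, i) ∈ (fb b i).map e.toEmbedding := fun z hz =>
      mem_map.mpr ⟨(z, i), mem_fb.mpr ⟨hz, rfl⟩, rfl⟩
    have h2 := hm x hxb
    have h2' := hm y hyb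
    rw [hx] at h2
    rw [hy] at h2'
    rcases h1 with ⟨v, hv⟩ | ⟨b', hb', i', hv⟩
    · rw [hv] at h2 h2'
      have e1 : c' j v = c' j u := mem_tb.mp h2
      have e2 : c' k v = c' k u := mem_tb.mp h2'
      have huv : v = u := (hc' j k hjk).1 (Prod.ext e1 e2)
      rw [huv] at hv
      have h4 := mk_mem_tb c' u l
      rw [← hv] at h4
      obtain ⟨⟨z, i'⟩, hz, hz'⟩ := mem_map.mp h4
      obtain ⟨-, hz2⟩ := mem_fb.mp hz
      simp only at hz2
      subst hz2
      rw [← hz']
      exact mem_image_of_mem (fun x => e (x, i')) (mem_univ z)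
    · rw [hv] at h2 h2'
      exact absurd ((mem_fb.mp h2).2.trans (mem_fb.mp h2').2.symm) hjk
  · rw [card_image_of_injective _ fun a b h => congrArg Prod.fst (e.injective h), card_univ]
    exact hd

omit [Fintype L] [Fintype L'] in
/-- The image of a transversal block is a transversal block. -/
theorem exists_tb {c : K → U → L} {c' : K → U' → L'} (h3 : 3 ≤ Fintype.card K) {F : Set (Finset L)}
    {F' : Set (Finset L')} (e : L × K ≃ L' × K)
    (he : ∀ b : Finset (L × K), b.map e.toEmbedding ∈ tdBlocks c' F' ↔ b ∈ tdBlocks c F)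
    (hs : ∀ i x y, (e.symm (x, i)).2 = (e.symm (y, i)).2) (u : U) :
    ∃ v, (tb c u).map e.toEmbedding = tb c' v := by
  rcases (he _).mpr (tb_mem_tdBlocks c F u) with ⟨v, hv⟩ | ⟨b, hb, i, hv⟩
  · exact ⟨v, hv⟩
  · have : Nontrivial K := Fintype.one_lt_card_iff_nontrivial.mp (by omega)
    obtain ⟨j, k, hjk⟩ := exists_pair_ne K
    have h1 : ∀ l, (e (c l u, l)).2 = i := by
      intro l
      have h2 : e (c l u, l) ∈ (tb c u).map e.toEmbedding := mem_map.mpr ⟨_, mk_mem_tb c u l, rfl⟩
      rw [hv] at h2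
      exact (mem_fb.mp h2).2
    have h4 : ∀ l, (e.symm ((e (c l u, l)).1, i)).2 = l := by
      intro l
      have h5 : e (c l u, l) = ((e (c l u, l)).1, i) := Prod.ext rfl (h1 l)
      rw [← h5, e.symm_apply_apply]
    exact absurd ((h4 j).symm.trans ((hs i _ _).trans (h4 k))) hjk

omit [Fintype L] in
theorem exists_eq_iff (c : K → U → L) (u v : U) :
    (∃ i, c i u = c i v) ↔ ∃ x, x ∈ tb c u ∧ x ∈ tb c v := by
  constructor
  · rintro ⟨i, h⟩
    exact ⟨(c i u, i), mem_tb.mpr rfl, mem_tb.mpr h.symm⟩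
  · rintro ⟨x, h, h'⟩
    exact ⟨x.2, (mem_tb.mp h).trans (mem_tb.mp h').symm⟩

/-- An isomorphism of the Steiner systems of two nets gives an isomorphism of the graphs of the nets. -/
theorem td_iso {c : K → U → L} {c' : K → U' → L'} (hc : IsNet c) (hc' : IsNet c')
    (h3 : 3 ≤ Fintype.card K) (hd : ¬ Fintype.card K ∣ Fintype.card L)
    (hL : Fintype.card L' = Fintype.card L) {F : Set (Finset L)} {F' : Set (Finset L')}
    (hF : IsSteiner (Fintype.card K) F) (hF' : IsSteiner (Fintype.card K) F') (e : L × K ≃ L' × K)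
    (he : ∀ b : Finset (L × K), b.map e.toEmbedding ∈ tdBlocks c' F' ↔ b ∈ tdBlocks c F) :
    Nonempty (netG c ≃g netG c') := by
  have hms : ∀ b : Finset (L' × K), (b.map e.symm.toEmbedding).map e.toEmbedding = b := by
    intro b
    ext x
    simp
  have hms' : ∀ b : Finset (L × K), (b.map e.toEmbedding).map e.symm.toEmbedding = b := by
    intro b
    ext x
    simp
  have he' : ∀ b : Finset (L' × K),
      b.map e.symm.toEmbedding ∈ tdBlocks c F ↔ b ∈ tdBlocks c' F' := by
    intro b
    rw [← he, hms]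
  have h1 := snd_image hc' h3 hd hF e he
  have h2 := snd_image hc h3 (by rwa [hL]) hF' e.symm he'
  choose f hf using exists_tb (c := c) (c' := c') h3 e he h2
  choose g hg using exists_tb (c := c') (c' := c) h3 e.symm he' h1
  have hgf : ∀ u, g (f u) = u := by
    intro u
    refine tb_injective hc (by omega) ?_
    rw [← hg, ← hf, hms']
  have hfg : ∀ u, f (g u) = u := by
    intro u
    refine tb_injective hc' (by omega) ?_
    rw [← hf, ← hg, hms]
  have hadj : ∀ u v : U, (∃ i, c' i (f u) = c' i (f v)) ↔ ∃ i, c i u = c i v := by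
    intro u v
    rw [exists_eq_iff c', exists_eq_iff c, ← hf, ← hf]
    constructor
    · rintro ⟨x, h, h'⟩
      obtain ⟨y, hy, rfl⟩ := mem_map.mp h
      obtain ⟨z, hz, hz'⟩ := mem_map.mp h'
      rw [e.injective hz'] at hz
      exact ⟨y, hy, hz⟩
    · rintro ⟨x, h, h'⟩
      exact ⟨e x, mem_map.mpr ⟨x, h, rfl⟩, mem_map.mpr ⟨x, h', rfl⟩⟩
  exact ⟨⟨⟨f, g, hgf, hfg⟩, by
    intro u v
    change (f u ≠ f v ∧ ∃ i, c' i (f u) = c' i (f v)) ↔ u ≠ v ∧ ∃ i, c i u = c i v
    rw [hadj, Ne, Ne, (Function.LeftInverse.injective hgf).eq_iff]⟩⟩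

/-- If the graphs of the nets are not isomorphic, then the block graphs of the Steiner systems are not
isomorphic. -/
theorem td_isEmpty {c : K → U → L} {c' : K → U' → L'} (hc : IsNet c) (hc' : IsNet c')
    (h3 : 3 ≤ Fintype.card K) (hd : ¬ Fintype.card K ∣ Fintype.card L)
    (hL : Fintype.card L' = Fintype.card L)
    (hbig : (Fintype.card K - 1) * (Fintype.card K * (Fintype.card K - 1) + 2) + 1 ≤
      Fintype.card L * Fintype.card K) {F : Set (Finset L)} {F' : Set (Finset L')}
    (hF : IsSteiner (Fintype.card K) F) (hF' : IsSteiner (Fintype.card K) F')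
    (hne : IsEmpty (netG c ≃g netG c')) :
    IsEmpty (blockGraph (tdBlocks c F) ≃g blockGraph (tdBlocks c' F')) := by
  refine ⟨fun φ => ?_⟩
  obtain ⟨e, he⟩ := St.exists_equiv (td_isSteiner hc hF) (td_isSteiner hc' hF') (by omega)
    (by rwa [Fintype.card_prod]) (by rwa [Fintype.card_prod, hL]) φ
  exact (td_iso hc hc' h3 hd hL hF hF' e he).elim hne.false

end Pool.Agent.STS
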