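import Pool.Agent.STS.TDScV
import Pool.Agent.STS.IMFinal

/-!
# The translations act on the blocks of the Steiner systems of the nets `sc m' A D`

Points: `VV A × Option (Fin m')`, the same for `D` and for `0`; `scV m' A D` is the net in coordinates. `F` is a
Steiner system on `VV A` which is invariant under all `TT C`.

The bijection of the blocks given by `C`: `tb u ↦ tb (T2 D C u)`, `fb b i ↦ fb (b.map (TT C)) i`, by the
equivalence `tdE` of both sides. Support of a block: `supT b`, the span of the `I`-components of its points. If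
`C` is a local solution on `W ≥ supT b`, the new block is the image of `b` under `(v, c) ↦ (TT C v, c)`.
-/

namespace Pool.Agent.STS

open Module Pool.Agent.SRGWL

variable {p : ℕ} [Fact p.Prime] {I : Type} [AddCommGroup I] [Module (ZMod p) I] {z : ℕ}

variable {A : Tup (ZMod p) I z} {D : CoTup (ZMod p) I z}

/-- invariance of `F` under the shears -/
def ShearInv (A : Tup (ZMod p) I z) (F : Set (Finset (VV A))) : Prop :=
  ∀ (C : WLAux.CC A) (b : Finset (VV A)), b.map (TT C).toEquiv.toEmbedding ∈ F ↔ b ∈ F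

/-- every block of `F` is contained in a line -/
def OnLines (A : Tup (ZMod p) I z) (F : Set (Finset (VV A))) : Prop :=
  ∀ b ∈ F, ∃ x y : VV A, ∀ v ∈ b, ∃ s : ZMod p, v = x + s • y

theorem map_symm_map (T : VV A ≃ₗ[ZMod p] VV A) (b : Finset (VV A)) :
    (b.map T.symm.toEquiv.toEmbedding).map T.toEquiv.toEmbedding = b := by
  rw [Finset.map_map]
  have : T.symm.toEquiv.toEmbedding.trans T.toEquiv.toEmbedding =
      Function.Embedding.refl (VV A) := by
    ext1 q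
    exact T.apply_symm_apply q
  rw [this, Finset.map_refl]

theorem map_map_symm (T : VV A ≃ₗ[ZMod p] VV A) (b : Finset (VV A)) :
    (b.map T.toEquiv.toEmbedding).map T.symm.toEquiv.toEmbedding = b := by
  rw [Finset.map_map]
  have : T.toEquiv.toEmbedding.trans T.symm.toEquiv.toEmbedding =
      Function.Embedding.refl (VV A) := by
    ext1 q
    exact T.symm_apply_apply q
  rw [this, Finset.map_refl]

/-- the shears on the blocks of `F` -/
def fE {F : Set (Finset (VV A))} (hFT : ShearInv A F) (C : WLAux.CC A) : F ≃ F where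
  toFun b := ⟨b.1.map (TT C).toEquiv.toEmbedding, (hFT C b.1).2 b.2⟩
  invFun b := ⟨b.1.map (TT C).symm.toEquiv.toEmbedding, (hFT C _).1 (by
    rw [map_symm_map]
    exact b.2)⟩
  left_inv b := Subtype.ext (map_map_symm (TT C) b.1)
  right_inv b := Subtype.ext (map_symm_map (TT C) b.1)

section Blk

variable {m' : ℕ} {F : Set (Finset (VV A))}

/-- the action on the blocks -/
noncomputable def tdφ (h0 : IsNet (scV m' A 0)) (hN : IsNet (scV m' A D))
    (hF : IsSteiner (Fintype.card (Option (Fin m'))) F) (h2 : 2 ≤ Fintype.card (Option (Fin m')))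
    (hFT : ShearInv A F) (C : WLAux.CC A) : tdBlocks (scV m' A 0) F ≃ tdBlocks (scV m' A D) F :=
  (tdE h0 hF h2).trans ((Equiv.sumCongr
    ((WLAux.transE 0 D C.1 C.2).prodCongr (WLAux.transE 0 D C.1 C.2))
    ((Equiv.refl _).prodCongr (fE hFT C))).trans (tdE hN hF h2).symm)

variable {h0 : IsNet (scV m' A 0)} {hN : IsNet (scV m' A D)}
  {hF : IsSteiner (Fintype.card (Option (Fin m'))) F} {h2 : 2 ≤ Fintype.card (Option (Fin m'))}
  {hFT : ShearInv A F}

theorem tdφ_tb (C : WLAux.CC A) (b : tdBlocks (scV m' A 0) F) {u : G A 0 × G A 0}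
    (hb : b.1 = tb (scV m' A 0) u) :
    (tdφ h0 hN hF h2 hFT C b).1 = tb (scV m' A D) (WLAux.T2 D C u) := by
  have h1 : b = (tdE h0 hF h2).symm (Sum.inl u) := Subtype.ext hb
  change ((tdE hN hF h2).symm (Equiv.sumCongr _ _ (tdE h0 hF h2 b))).1 = _
  rw [h1, Equiv.apply_symm_apply]
  rfl

theorem tdφ_fb (C : WLAux.CC A) (b : tdBlocks (scV m' A 0) F) {b' : Finset (VV A)} (hb' : b' ∈ F)
    {i : Option (Fin m')} (hb : b.1 = fb b' i) :
    (tdφ h0 hN hF h2 hFT C b).1 = fb (b'.map (TT C).toEquiv.toEmbedding) i := by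
  have h1 : b = (tdE h0 hF h2).symm (Sum.inr (i, ⟨b', hb'⟩)) := Subtype.ext hb
  change ((tdE hN hF h2).symm (Equiv.sumCongr _ _ (tdE h0 hF h2 b))).1 = _
  rw [h1, Equiv.apply_symm_apply]
  rfl

end Blk

/-- the moves -/
noncomputable def tdMoves [Module.Finite (ZMod p) I] (hp : p ≠ 2) (hD : CoSkew D) {m' : ℕ}
    (h1 : 1 ≤ m') (hm : SqInj (ZMod p) m') {F : Set (Finset (VV A))}
    (hF : IsSteiner (Fintype.card (Option (Fin m'))) F) (hFT : ShearInv A F) (hF2 : OnLines A F) :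
    Sos.Moves A (tdBlocks (scV m' A 0) F) (tdBlocks (scV m' A D) F) 2 where
  sup b := supT b.1
  sup' b := supT b.1
  dim := by
    rintro ⟨b, ⟨u, rfl⟩ | ⟨b', hb', i, rfl⟩⟩
    · exact dim_supT_tb h1 u
    · exact dim_supT_fb i (hF2 b' hb')
  dim' := by
    rintro ⟨b, ⟨u, rfl⟩ | ⟨b', hb', i, rfl⟩⟩
    · exact dim_supT_tb h1 u
    · exact dim_supT_fb i (hF2 b' hb')
  φ C := tdφ (scV_isNet hp (fun _ _ _ => by simp) hm) (scV_isNet hp hD hm) hF (by
    rw [Fintype.card_option, Fintype.card_fin]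
    omega) hFT C
  sup_φ := by
    rintro C ⟨b, hb⟩
    rcases id hb with ⟨u, h⟩ | ⟨b', hb', i, h⟩
    · rw [tdφ_tb C ⟨b, hb⟩ h, supT_tb h1]
      change _ = supT b
      rw [h, supT_tb h1]
      rfl
    · rw [tdφ_fb C ⟨b, hb⟩ hb' h, fb_map, supT_map]
      change _ = supT b
      rw [h]
  congr := by
    rintro C C' ⟨b, hb⟩ hCC
    apply Subtype.ext
    change ∀ u ∈ supT b, ∀ ζ, C'.1 ζ u = C.1 ζ u at hCC
    rcases id hb with ⟨u, h⟩ | ⟨b', hb', i, h⟩
    · rw [tdφ_tb C ⟨b, hb⟩ h, tdφ_tb C' ⟨b, hb⟩ h]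
      rw [h] at hCC
      rw [WLAux.T2_congr hCC (inU_of_supT h1 le_rfl)]
    · rw [tdφ_fb C ⟨b, hb⟩ hb' h, tdφ_fb C' ⟨b, hb⟩ hb' h, fb_map, fb_map]
      rw [h] at hCC
      exact map_ptT_congr hCC

/-- the image of a block under a local solution -/
theorem tdMoves_φ [Module.Finite (ZMod p) I] (hp : p ≠ 2) (hD : CoSkew D) {m' : ℕ}
    (h1 : 1 ≤ m') (hm : SqInj (ZMod p) m') {F : Set (Finset (VV A))}
    (hF : IsSteiner (Fintype.card (Option (Fin m'))) F) (hFT : ShearInv A F) (hF2 : OnLines A F)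
    {C : WLAux.CC A} {W : Submodule (ZMod p) I}
    (hloc : ∀ u ∈ W, ∀ v ∈ W, ∀ ζ, C.1 ζ u v - C.1 ζ v u = D ζ u v)
    (b : tdBlocks (scV m' A 0) F) (hb : supT b.1 ≤ W) :
    ((tdMoves hp hD h1 hm hF hFT hF2).φ C b).1 = b.1.map (ptT m' (TT C)).toEmbedding := by
  obtain ⟨b, hb1⟩ := b
  rcases id hb1 with ⟨u, h⟩ | ⟨b', hb', i, h⟩
  · refine (tdφ_tb C ⟨b, hb1⟩ h).trans ?_
    change supT b ≤ W at hb
    change _ = b.map _
    rw [h] at hb ⊢
    exact tb_TT hloc (inU_of_supT h1 hb)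
  · refine (tdφ_fb C ⟨b, hb1⟩ hb' h).trans ?_
    change _ = b.map _
    rw [h, fb_map]

theorem tdMoves_resp [Module.Finite (ZMod p) I] (hp : p ≠ 2) (hD : CoSkew D) {m' : ℕ}
    (h1 : 1 ≤ m') (hm : SqInj (ZMod p) m') {F : Set (Finset (VV A))}
    (hF : IsSteiner (Fintype.card (Option (Fin m'))) F) (hFT : ShearInv A F) (hF2 : OnLines A F) :
    (tdMoves hp hD h1 hm hF hFT hF2).Resp D (blockGraph (tdBlocks (scV m' A 0) F))
      (blockGraph (tdBlocks (scV m' A D) F)) := by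
  intro C W hloc b c hb hc
  have eb := tdMoves_φ hp hD h1 hm hF hFT hF2 hloc b hb
  have ec := tdMoves_φ hp hD h1 hm hF hFT hF2 hloc c hc
  change (b ≠ c ∧ ∃ q, q ∈ b.1 ∧ q ∈ c.1) ↔
    ((tdMoves hp hD h1 hm hF hFT hF2).φ C b ≠ (tdMoves hp hD h1 hm hF hFT hF2).φ C c ∧
    ∃ q, q ∈ ((tdMoves hp hD h1 hm hF hFT hF2).φ C b).1 ∧
      q ∈ ((tdMoves hp hD h1 hm hF hFT hF2).φ C c).1)
  rw [eb, ec, ((tdMoves hp hD h1 hm hF hFT hF2).φ C).injective.ne_iff]
  refine and_congr_right fun _ => ?_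
  constructor
  · rintro ⟨q, h1, h2⟩
    exact ⟨_, Finset.mem_map.mpr ⟨q, h1, rfl⟩, Finset.mem_map.mpr ⟨q, h2, rfl⟩⟩
  · rintro ⟨q, h1, h2⟩
    obtain ⟨r, hr, rfl⟩ := Finset.mem_map.mp h1
    obtain ⟨s, hs, hrs⟩ := Finset.mem_map.mp h2
    have := (ptT m' (TT C)).injective hrs
    exact ⟨r, hr, this ▸ hs⟩

theorem fE_tors {F : Set (Finset (VV A))} (hFT : ShearInv A F) (C C' : WLAux.CC A) (x : F) :
    fE hFT ⟨C.1 + C'.1, Sos.IsC.add C.2 C'.2⟩ x =
      fE hFT C ((fE hFT ⟨0, Sos.isC_zero A⟩).symm (fE hFT C' x)) := by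
  apply Subtype.ext
  change x.1.map (TT (⟨C.1 + C'.1, Sos.IsC.add C.2 C'.2⟩ : WLAux.CC A)).toEquiv.toEmbedding =
    ((x.1.map (TT C').toEquiv.toEmbedding).map
      (TT (⟨0, Sos.isC_zero A⟩ : WLAux.CC A)).symm.toEquiv.toEmbedding).map
        (TT C).toEquiv.toEmbedding
  rw [Finset.map_map, Finset.map_map]
  congr 1
  ext1 q
  exact TT_add C C' q

theorem transE_tors (C C' : WLAux.CC A) (x : G A 0) :
    WLAux.transE 0 D (C.1 + C'.1) (Sos.IsC.add C.2 C'.2) x =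
      WLAux.transE 0 D C.1 C.2 ((WLAux.transE 0 D 0 (Sos.isC_zero A)).symm
        (WLAux.transE 0 D C'.1 C'.2 x)) :=
  G.equivProd.injective (TT_add C C' (G.equivProd x))

theorem tdφ_tors {m' : ℕ} {F : Set (Finset (VV A))} (h0 : IsNet (scV m' A 0))
    (hN : IsNet (scV m' A D)) (hF : IsSteiner (Fintype.card (Option (Fin m'))) F)
    (h2 : 2 ≤ Fintype.card (Option (Fin m'))) (hFT : ShearInv A F) (C C' : WLAux.CC A)
    (b : tdBlocks (scV m' A 0) F) :
    tdφ h0 hN hF h2 hFT ⟨C.1 + C'.1, Sos.IsC.add C.2 C'.2⟩ b =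
      tdφ h0 hN hF h2 hFT C ((tdφ h0 hN hF h2 hFT ⟨0, Sos.isC_zero A⟩).symm
        (tdφ h0 hN hF h2 hFT C' b)) := by
  have key : ∀ s : (G A 0 × G A 0) ⊕ (Option (Fin m') × F),
      Equiv.sumCongr ((WLAux.transE 0 D (C.1 + C'.1) (Sos.IsC.add C.2 C'.2)).prodCongr
        (WLAux.transE 0 D (C.1 + C'.1) (Sos.IsC.add C.2 C'.2)))
        ((Equiv.refl (Option (Fin m'))).prodCongr (fE hFT ⟨C.1 + C'.1, Sos.IsC.add C.2 C'.2⟩)) s =
      Equiv.sumCongr ((WLAux.transE 0 D C.1 C.2).prodCongr (WLAux.transE 0 D C.1 C.2))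
        ((Equiv.refl (Option (Fin m'))).prodCongr (fE hFT C))
        ((Equiv.sumCongr ((WLAux.transE 0 D 0 (Sos.isC_zero A)).prodCongr
          (WLAux.transE 0 D 0 (Sos.isC_zero A)))
          ((Equiv.refl (Option (Fin m'))).prodCongr (fE hFT ⟨0, Sos.isC_zero A⟩))).symm
          (Equiv.sumCongr ((WLAux.transE 0 D C'.1 C'.2).prodCongr (WLAux.transE 0 D C'.1 C'.2))
            ((Equiv.refl (Option (Fin m'))).prodCongr (fE hFT C')) s)) := by
    rintro (⟨x, y⟩ | ⟨i, x⟩)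
    · exact congrArg Sum.inl (Prod.ext (transE_tors C C' x) (transE_tors C C' y))
    · exact congrArg Sum.inr (Prod.ext rfl (fE_tors hFT C C' x))
  change (tdE hN hF h2).symm (Equiv.sumCongr _ _ (tdE h0 hF h2 b)) =
    (tdE hN hF h2).symm (Equiv.sumCongr _ _ (tdE h0 hF h2 ((tdE h0 hF h2).symm
      ((Equiv.sumCongr _ _).symm (tdE hN hF h2 ((tdE hN hF h2).symm
        (Equiv.sumCongr _ _ (tdE h0 hF h2 b))))))))
  rw [Equiv.apply_symm_apply, Equiv.apply_symm_apply, key]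

theorem tors_tdMoves [Module.Finite (ZMod p) I] (hp : p ≠ 2) (hD : CoSkew D) {m' : ℕ}
    (h1 : 1 ≤ m') (hm : SqInj (ZMod p) m') {F : Set (Finset (VV A))}
    (hF : IsSteiner (Fintype.card (Option (Fin m'))) F) (hFT : ShearInv A F) (hF2 : OnLines A F) :
    IM.Tors (tdMoves hp hD h1 hm hF hFT hF2) :=
  fun C C' b => tdφ_tors _ _ _ _ _ C C' b

end Pool.Agent.STS
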