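import Pool.Agent.STS.FinalLA
import Pool.Agent.STS.TDIso
import Pool.Agent.STS.TDMoves
import Pool.Agent.STS.FillV

/-!
# Both types for every smallest eigenvalue: assembly
-/

namespace Pool.Agent.STS.LA

open Pool.Agent.SRGWL Pool.Agent.SRGWL.Sos Module

open Classical in
/-- The block graphs of the two Steiner systems are not isomorphic. -/
theorem td_isEmpty' {p : ℕ} [Fact p.Prime] {I : Type} [AddCommGroup I] [Module (ZMod p) I] [Finite I]
    {z : ℕ} {A : Tup (ZMod p) I z} {D : CoTup (ZMod p) I z} (hp2 : p ≠ 2)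
    (h0 : CoSkew (0 : CoTup (ZMod p) I z)) (hD : CoSkew D) {m N : ℕ} (hm : 3 ≤ m)
    (hmp : 2 * m ≤ p + 3) (hmp' : m < p) (hN : 3 ≤ N)
    (h1 : Fintype.card (G A 0) = p ^ N) (h2 : Fintype.card (G A D) = p ^ N)
    [Fintype (VV A)] (hcard : Fintype.card (VV A) = p ^ N)
    {F : Set (Finset (VV A))} (hF : IsSteiner (Fintype.card (Option (Fin (m - 1)))) F)
    (hiso : IsEmpty (G A 0 ≃* G A D)) :
    IsEmpty (blockGraph (tdBlocks (scV (m - 1) A 0) F) ≃g
      blockGraph (tdBlocks (scV (m - 1) A D) F)) := by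
  have hp : p.Prime := Fact.out
  have hsq : SqInj (ZMod p) (m - 1) := sqInj_zmod p (m' := m - 1) (by omega)
  have hCm : Fintype.card (Option (Fin (m - 1))) = m := by
    rw [Fintype.card_option, Fintype.card_fin]
    omega
  have hpN : p ^ 3 ≤ p ^ N := Nat.pow_le_pow_right hp.pos hN
  refine td_isEmpty (scV_isNet (A := A) hp2 h0 hsq) (scV_isNet (A := A) hp2 hD hsq)
    (by rw [hCm]; exact hm) ?_ rfl ?_ hF hF ?_
  · rw [hCm, hcard]
    intro h
    have hco : Nat.Coprime m (p ^ N) := Nat.Coprime.pow_right _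
      (Nat.Coprime.symm ((Nat.Prime.coprime_iff_not_dvd hp).2 fun hd => by
        have := Nat.le_of_dvd (by omega) hd
        omega))
    have h5 := Nat.Coprime.eq_one_of_dvd hco h
    omega
  · rw [hcard, hCm]
    have h3 : m ^ 3 ≤ p ^ 3 := Nat.pow_le_pow_left hmp'.le 3
    have h4 : (m - 1) * (m * (m - 1) + 2) + 1 ≤ m ^ 3 := by
      obtain ⟨q, rfl⟩ : ∃ q, m = q + 1 := ⟨m - 1, by omega⟩
      simp only [Nat.add_sub_cancel]
      nlinarith [Nat.zero_le q, Nat.zero_le (q ^ 2), Nat.zero_le (q ^ 3)]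
    calc (m - 1) * (m * (m - 1) + 2) + 1 ≤ m ^ 3 := h4
      _ ≤ p ^ N := h3.trans hpN
      _ ≤ p ^ N * m := Nat.le_mul_of_pos_right _ (by omega)
  · rw [netG_scV, netG_scV]
    have hbig2 : (m - 1) ^ 2 < p ^ N := by
      calc (m - 1) ^ 2 ≤ p ^ 2 := Nat.pow_le_pow_left (by omega) 2
        _ < p ^ N := Nat.pow_lt_pow_right hp.one_lt (by omega)
    exact snet_isEmpty hp2 h0 hD hm hmp h1 h2 hbig2 hiso

open Classical in
theorem steiner_td (m : ℕ) (hm : 3 ≤ m) (p : ℕ) (hp : p.Prime) (hp2 : p ≠ 2) (hmp : 2 * m ≤ p + 3)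
    (hmp' : m < p) {E : Set (Finset (ZMod p))} (hE : IsDF p m E) (k v : ℕ) (hk : 1 ≤ k)
    (hv : v = m * p ^ (512 * k + 16)) :
    ∃ (P : Type) (_ : Fintype P) (B₁ B₂ : Set (Finset P)),
      Fintype.card P = v ∧ IsSteiner m B₁ ∧ IsSteiner m B₂ ∧
      Twins p k (v * (v - 1) / (m * (m - 1))) (m * ((v - 1) / (m - 1) - 1))
        ((v - 1) / (m - 1) - 2 + (m - 1) ^ 2) (m ^ 2) (blockGraph B₁) (blockGraph B₂) := by
  have : Fact p.Prime := ⟨hp⟩
  obtain ⟨A, D, r, hall, hD, hiso, hbase, hext⟩ :=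
    exists_special_groups2 p hp2 (2 * k) (by omega)
  have hn' : 256 * (2 * k) + 16 = 512 * k + 16 := by ring
  have h0 : CoSkew (0 : CoTup (ZMod p) (Fin (16 * (2 * k)) → ZMod p) 15) := coSkew_zero
  have h1 : Nat.card (G A 0) = p ^ (512 * k + 16) := by
    rw [← hn']
    exact (hall 0 h0).1
  have h2 : Nat.card (G A D) = p ^ (512 * k + 16) := by
    rw [← hn']
    exact (hall D hD).1
  have : Finite (VV A) := finite_VV A
  let _ : Fintype (VV A) := Fintype.ofFinite _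
  have hCm : Fintype.card (Option (Fin (m - 1))) = m := by
    rw [Fintype.card_option, Fintype.card_fin]
    omega
  have hVV : Fintype.card (VV A) = p ^ (512 * k + 16) := by
    rw [← Nat.card_eq_fintype_card, card_VV A 0, h1]
  have hcard : Fintype.card (VV A × Option (Fin (m - 1))) = v := by
    rw [Fintype.card_prod, hVV, hCm, hv, mul_comm]
  have hsq : SqInj (ZMod p) (m - 1) := sqInj_zmod p (m' := m - 1) (by omega)
  obtain ⟨ρ, hρ, hρT⟩ := exists_rho_TT A
  set F : Set (Finset (VV A)) := fillV ρ E with hFdef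
  have hF : IsSteiner (Fintype.card (Option (Fin (m - 1)))) F := by
    rw [hCm]
    exact fill_isSteiner hρ hE
  have hFT : ShearInv A F := fun C b => fill_map (TT C) (hρT C) b
  have hF2 : OnLines A F := fun b hb => fill_sub hb
  have hS0 := td_isSteiner (scV_isNet (A := A) hp2 h0 hsq) hF
  have hSD := td_isSteiner (scV_isNet (A := A) hp2 hD hsq) hF
  rw [hCm] at hS0 hSD
  have hpos : 0 < p := hp.pos
  have hsqv : m ^ 2 ≤ Fintype.card (VV A × Option (Fin (m - 1))) := by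
    rw [hcard, hv]
    calc m ^ 2 = m * m ^ 1 := by ring
      _ ≤ m * p ^ 1 := Nat.mul_le_mul_left _ (Nat.pow_le_pow_left hmp'.le 1)
      _ ≤ m * p ^ (512 * k + 16) := Nat.mul_le_mul_left _ (Nat.pow_le_pow_right hpos (by omega))
  have e0 := St.isSRG hS0 (by omega) hsqv
  have eD := St.isSRG hSD (by omega) hsqv
  rw [hcard] at e0 eD
  exact ⟨VV A × Option (Fin (m - 1)), inferInstance, tdBlocks (scV (m - 1) A 0) F,
    tdBlocks (scV (m - 1) A D) F, hcard, hS0, hSD, e0, eD,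
    td_isEmpty' hp2 h0 hD hm hmp hmp' (N := 512 * k + 16) (by omega)
      (by rw [← Nat.card_eq_fintype_card, h1]) (by rw [← Nat.card_eq_fintype_card, h2]) hVV hF hiso,
    IM.graphLAEquiv_of_moves' (tdMoves hp2 hD (by omega) hsq hF hFT hF2)
      (tors_tdMoves hp2 hD (by omega) hsq hF hFT hF2) (tdMoves_resp hp2 hD (by omega) hsq hF hFT hF2)
      (NonIso.two_ne hp2) hD (2 * (2 * k)) hbase hext (by omega) (by omega)⟩

open Classical in
theorem both_types (m : ℕ) (hm : 3 ≤ m) (q : ℕ) : ∃ p : ℕ, p.Prime ∧ q < p ∧ ∀ k n v : ℕ, 1 ≤ k →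
    n = p ^ (512 * k + 16) → v = m * n →
    (∃ (V₁ V₂ : Type) (_ : Fintype V₁) (_ : Fintype V₂) (X₁ : SimpleGraph V₁) (X₂ : SimpleGraph V₂),
      IsCayley X₁ ∧ IsCayley X₂ ∧
      Twins p k (n ^ 2) (m * (n - 1)) (n - 2 + (m - 1) * (m - 2)) (m * (m - 1)) X₁ X₂) ∧
    ∃ (P : Type) (_ : Fintype P) (B₁ B₂ : Set (Finset P)),
      Fintype.card P = v ∧ IsSteiner m B₁ ∧ IsSteiner m B₂ ∧
      Twins p k (v * (v - 1) / (m * (m - 1))) (m * ((v - 1) / (m - 1) - 1))
        ((v - 1) / (m - 1) - 2 + (m - 1) ^ 2) (m ^ 2) (blockGraph B₁) (blockGraph B₂) := by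
  obtain ⟨p, hp, hq, E, hE⟩ := exists_df m (by omega) (q + 2 * m)
  refine ⟨p, hp, by omega, fun k n v hk hn hv => ⟨latin_la p hp (by omega) k n m hk hn hm (by omega), ?_⟩⟩
  exact steiner_td m hm p hp (by omega) (by omega) (by omega) hE k v hk (by rw [hv, hn])

end Pool.Agent.STS.LA
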