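import Pool.Agent.STS.TDFinal
import Pool.Agent.STS.DF

/-!
# Both types for every smallest eigenvalue: all large primes `p ≡ 1` modulo `m (m - 1)`
-/

namespace Pool.Agent.STS

/-- Difference families for all large primes `p ≡ 1` modulo `m (m - 1)`. -/
theorem exists_df_all (m : ℕ) (hm : 2 ≤ m) : ∃ p₀ : ℕ, ∀ p : ℕ, p.Prime → p₀ ≤ p →
    p % (m * (m - 1)) = 1 → ∃ E : Set (Finset (ZMod p)), IsDF p m E := by
  obtain ⟨p₀, hp₀⟩ := DF.exists_diffFam m hm
  refine ⟨p₀, fun p hp hle hmod => ?_⟩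
  obtain ⟨F, hF1, hF2⟩ := hp₀ p hp hle hmod
  refine ⟨F, hF1, fun d hd => ?_⟩
  obtain ⟨t, ⟨h1, h3, h4, h5⟩, hu⟩ := hF2 d hd
  refine ⟨(t.1, t.2.2), ⟨h1, h4, ?_⟩, ?_⟩
  · show t.2.2 + d ∈ t.1
    rw [← h5]
    simpa using h3
  · rintro ⟨B, b⟩ ⟨hB, hb, hbd⟩
    have h6 := hu (B, b + d, b) ⟨hB, hbd, hb, by simp⟩
    rw [← h6]

namespace LA

open Classical in
/-- The Steiner type: for every `m ≥ 3`, all large primes `p ≡ 1` modulo `m (m - 1)`, and `p = m`. -/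
theorem steiner_all (m : ℕ) (hm : 3 ≤ m) : ∃ p₀ : ℕ, ∀ p k v : ℕ, p.Prime →
    (p = m ∨ p₀ ≤ p ∧ p % (m * (m - 1)) = 1) → 1 ≤ k → v = m * p ^ (512 * k + 16) →
    ∃ (P : Type) (_ : Fintype P) (B₁ B₂ : Set (Finset P)),
      Fintype.card P = v ∧ IsSteiner m B₁ ∧ IsSteiner m B₂ ∧
      Twins p k (v * (v - 1) / (m * (m - 1))) (m * ((v - 1) / (m - 1) - 1))
        ((v - 1) / (m - 1) - 2 + (m - 1) ^ 2) (m ^ 2) (blockGraph B₁) (blockGraph B₂) := by
  obtain ⟨p₀, hp₀⟩ := exists_df_all m (by omega)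
  refine ⟨p₀, fun p k v hp h hk hv => ?_⟩
  rcases h with rfl | ⟨hle, hmod⟩
  · exact steiner_la p hp (by omega) k v hk hv
  · obtain ⟨E, hE⟩ := hp₀ p hp hle hmod
    have h1 : 2 * m + 1 ≤ p := by
      have h2 : m * (m - 1) < p := by
        by_contra hcon
        have h3 : p ≠ m * (m - 1) := by
          rintro rfl
          rw [Nat.mod_self] at hmod
          omega
        rw [Nat.mod_eq_of_lt (by omega)] at hmod
        exact hp.one_lt.ne' hmod
      have h4 : m * 2 ≤ m * (m - 1) := Nat.mul_le_mul_left m (by omega)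
      omega
    exact steiner_td m hm p hp (by omega) (by omega) (by omega) hE k v hk hv

end LA

end Pool.Agent.STS
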