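import Pool.Agent.STS.TD
import Pool.Agent.STS.SMoves
import Pool.Agent.STS.DesMoves

/-!
# The nets `sc m' A D` in coordinates, and the translations

`scV m' A D` is the net `sc m' A D` with the elements of `G A D` in coordinates. If `C` is a local solution on
`W` and the `I`-components of `u` lie in `W`, then the transversal block of `T2 D C u` is the image of the
transversal block of `u` under `(v, c) ↦ (TT C v, c)`.
-/

namespace Pool.Agent.STS

open Module Pool.Agent.SRGWL WLAux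

variable {p : ℕ} [Fact p.Prime] {I : Type} [AddCommGroup I] [Module (ZMod p) I] {z : ℕ}

/-- the net in coordinates -/
def scV (m' : ℕ) (A : Tup (ZMod p) I z) (D : CoTup (ZMod p) I z) :
    Option (Fin m') → G A D × G A D → VV A := fun c u => G.equivProd (sc m' A D c u)

theorem scV_isNet {A : Tup (ZMod p) I z} {D : CoTup (ZMod p) I z} (hp : p ≠ 2) (hD : CoSkew D)
    {m' : ℕ} (hm : SqInj (ZMod p) m') : IsNet (scV m' A D) := by
  intro i j hij
  have h := sc_isNet (A := A) (two_ne hp) hD hm i j hij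
  have h2 : Function.Bijective (Prod.map (G.equivProd (A := A) (D := D))
      (G.equivProd (A := A) (D := D))) :=
    (Equiv.prodCongr (G.equivProd (A := A) (D := D)) G.equivProd).bijective
  exact h2.comp h

theorem netG_scV {A : Tup (ZMod p) I z} {D : CoTup (ZMod p) I z} (m' : ℕ) :
    netG (scV m' A D) = netG (sc m' A D) := by
  ext u v
  change (u ≠ v ∧ ∃ i, G.equivProd (sc m' A D i u) = G.equivProd (sc m' A D i v)) ↔
    (u ≠ v ∧ ∃ i, sc m' A D i u = sc m' A D i v)
  simp only [(G.equivProd (A := A) (D := D)).injective.eq_iff]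

/-- the support of a block -/
def supT {m' : ℕ} {A : Tup (ZMod p) I z} (b : Finset (VV A × Option (Fin m'))) :
    Submodule (ZMod p) I :=
  Submodule.span (ZMod p) ((fun q : VV A × Option (Fin m') => q.1.1) '' b)

variable {A : Tup (ZMod p) I z} {D : CoTup (ZMod p) I z} {m' : ℕ}

theorem mem_supT {b : Finset (VV A × Option (Fin m'))} {q : VV A × Option (Fin m')} (hq : q ∈ b) :
    q.1.1 ∈ supT b := Submodule.subset_span ⟨q, hq, rfl⟩

/-- a linear map on the points -/
def ptT (m' : ℕ) (T : VV A ≃ₗ[ZMod p] VV A) : VV A × Option (Fin m') ≃ VV A × Option (Fin m') :=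
  T.toEquiv.prodCongr (Equiv.refl _)

theorem ptT_apply (T : VV A ≃ₗ[ZMod p] VV A) (q : VV A × Option (Fin m')) :
    ptT m' T q = (T q.1, q.2) := rfl

theorem equivProd_trans (C : CC A) (x : G A 0) :
    (G.equivProd (G.trans (D' := D) C.1 C.2 x) : VV A) = TT C (G.equivProd x) := rfl

/-- the classes under a local solution -/
theorem scV_TT {C : CC A} {W : Submodule (ZMod p) I}
    (hloc : ∀ u ∈ W, ∀ v ∈ W, ∀ ζ, C.1 ζ u v - C.1 ζ v u = D ζ u v) (c : Option (Fin m'))
    {u : G A 0 × G A 0} (hu : InU W u) :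
    scV m' A D c (T2 D C u) = TT C (scV m' A 0 c u) := by
  change G.equivProd (sc m' A D c (T2 D C u)) = TT C (G.equivProd (sc m' A 0 c u))
  rw [sc_trans hloc c hu]
  rfl

/-- the transversal blocks under a local solution -/
theorem tb_TT {C : CC A} {W : Submodule (ZMod p) I}
    (hloc : ∀ u ∈ W, ∀ v ∈ W, ∀ ζ, C.1 ζ u v - C.1 ζ v u = D ζ u v)
    {u : G A 0 × G A 0} (hu : InU W u) :
    tb (scV m' A D) (T2 D C u) = (tb (scV m' A 0) u).map (ptT m' (TT C)).toEmbedding := by
  ext q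
  rw [mem_tb, Finset.mem_map, scV_TT hloc q.2 hu]
  constructor
  · intro h
    exact ⟨(scV m' A 0 q.2 u, q.2), mem_tb.2 rfl, Prod.ext h rfl⟩
  · rintro ⟨r, hr, rfl⟩
    have h1 := mem_tb.1 hr
    change TT C (scV m' A 0 r.2 u) = TT C r.1
    rw [h1]

/-- the blocks in the classes -/
theorem fb_map (T : VV A ≃ₗ[ZMod p] VV A) (b : Finset (VV A)) (i : Option (Fin m')) :
    fb (b.map T.toEquiv.toEmbedding) i = (fb b i).map (ptT m' T).toEmbedding := by
  ext q
  rw [mem_fb, Finset.mem_map, Finset.mem_map]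
  constructor
  · rintro ⟨⟨v, hv, h⟩, h2⟩
    exact ⟨(v, q.2), mem_fb.2 ⟨hv, h2⟩, Prod.ext h rfl⟩
  · rintro ⟨r, hr, rfl⟩
    obtain ⟨h1, h2⟩ := mem_fb.1 hr
    exact ⟨⟨r.1, h1, rfl⟩, h2⟩

theorem scV_none_fst (u : G A D × G A D) : (scV m' A D none u).1 = u.2.i := rfl

theorem scV_some_fst (a : Fin m') (u : G A D × G A D) :
    (scV m' A D (some a) u).1 = u.1.i + ((a : ℕ) : ZMod p) • u.2.i := rfl

theorem supT_tb (h1 : 1 ≤ m') (u : G A D × G A D) :
    supT (tb (scV m' A D) u) = Submodule.span (ZMod p) {u.1.i, u.2.i} := by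
  apply le_antisymm
  · rw [supT, Submodule.span_le]
    rintro _ ⟨q, hq, rfl⟩
    have h := mem_tb.1 hq
    change q.1.1 ∈ Submodule.span (ZMod p) {u.1.i, u.2.i}
    have hx : u.1.i ∈ Submodule.span (ZMod p) {u.1.i, u.2.i} := Submodule.subset_span (Or.inl rfl)
    have hd : u.2.i ∈ Submodule.span (ZMod p) {u.1.i, u.2.i} := Submodule.subset_span (Or.inr rfl)
    rw [← h]
    rcases q.2 with _ | a
    · exact hd
    · rw [scV_some_fst]
      exact Submodule.add_mem _ hx (Submodule.smul_mem _ _ hd)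
  · have h0 := mem_supT (b := tb (scV m' A D) u) (mk_mem_tb (scV m' A D) u none)
    have h2 := mem_supT (b := tb (scV m' A D) u) (mk_mem_tb (scV m' A D) u (some ⟨0, h1⟩))
    change (scV m' A D none u).1 ∈ _ at h0
    change (scV m' A D (some ⟨0, h1⟩) u).1 ∈ _ at h2
    rw [scV_none_fst] at h0
    rw [scV_some_fst, Nat.cast_zero, zero_smul, add_zero] at h2
    rw [Submodule.span_le]
    rintro _ (rfl | rfl)
    · exact h2
    · exact h0

theorem inU_of_supT (h1 : 1 ≤ m') {W : Submodule (ZMod p) I} {u : G A D × G A D}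
    (h : supT (tb (scV m' A D) u) ≤ W) : InU W u := by
  rw [supT_tb h1] at h
  exact ⟨h (Submodule.subset_span (Or.inl rfl)), h (Submodule.subset_span (Or.inr rfl))⟩

theorem dim_supT_tb [Module.Finite (ZMod p) I] (h1 : 1 ≤ m') (u : G A D × G A D) :
    finrank (ZMod p) (supT (tb (scV m' A D) u)) ≤ 2 := by
  rw [supT_tb h1]
  exact finrank_pair _ _

theorem dim_supT_fb [Module.Finite (ZMod p) I] {b : Finset (VV A)} (i : Option (Fin m'))
    (h : ∃ x y : VV A, ∀ v ∈ b, ∃ s : ZMod p, v = x + s • y) :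
    finrank (ZMod p) (supT (fb b i)) ≤ 2 := by
  obtain ⟨x, y, h⟩ := h
  refine (Submodule.finrank_mono ?_).trans (finrank_pair x.1 y.1)
  rw [supT, Submodule.span_le]
  rintro _ ⟨q, hq, rfl⟩
  obtain ⟨s, hs⟩ := h _ (mem_fb.1 hq).1
  change q.1.1 ∈ Submodule.span (ZMod p) {x.1, y.1}
  rw [hs]
  exact Submodule.add_mem _ (Submodule.subset_span (Or.inl rfl))
    (Submodule.smul_mem _ _ (Submodule.subset_span (Or.inr rfl)))

theorem supT_map (C : CC A) (b : Finset (VV A × Option (Fin m'))) :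
    supT (b.map (ptT m' (TT C)).toEmbedding) = supT b := by
  rw [supT, supT]
  congr 1
  ext i
  constructor
  · rintro ⟨q, hq, rfl⟩
    obtain ⟨r, hr, rfl⟩ := Finset.mem_map.mp hq
    exact ⟨r, hr, rfl⟩
  · rintro ⟨q, hq, rfl⟩
    exact ⟨_, Finset.mem_coe.mpr (Finset.mem_map.mpr ⟨q, hq, rfl⟩), rfl⟩

/-- blocks in the classes: the image depends only on `C` on the support -/
theorem map_ptT_congr {C C' : CC A} {b : Finset (VV A × Option (Fin m'))}
    (h : ∀ u ∈ supT b, ∀ ζ, C'.1 ζ u = C.1 ζ u) :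
    b.map (ptT m' (TT C')).toEmbedding = b.map (ptT m' (TT C)).toEmbedding := by
  ext q
  rw [Finset.mem_map, Finset.mem_map]
  constructor
  · rintro ⟨r, hr, rfl⟩
    exact ⟨r, hr, Prod.ext (TT_congr (h _ (mem_supT hr))).symm rfl⟩
  · rintro ⟨r, hr, rfl⟩
    exact ⟨r, hr, Prod.ext (TT_congr (h _ (mem_supT hr))) rfl⟩

end Pool.Agent.STS
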