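import Pool.Agent.SRGWL.SosDef
import Pool.Agent.SRGWL.Cay
import Pool.Agent.STS.Coord

/-!
# Indistinguishable pairs of strongly regular graphs
-/

namespace Pool.Agent.STS

open Pool.Agent.SRGWL Pool.Agent.SRGWL.Sos

/-- `X` is isomorphic to a Cayley graph. -/
def IsCayley {V : Type} (X : SimpleGraph V) : Prop :=
  ∃ (Γ : Type) (_ : Group Γ) (S : Set Γ), Nonempty (X ≃g cay Γ S)

open Classical in
/-- `X₁` and `X₂` are strongly regular with the parameters (N, d, l, c), not isomorphic, and not
distinguished by `k`-dimensional Weisfeiler-Leman, by sums of squares of degree `2 k`, or by polynomial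
calculus of degree `k` over a field of characteristic different from `p`. -/
def Twins (p k N d l c : ℕ) {V₁ V₂ : Type} [Fintype V₁] [Fintype V₂] (X₁ : SimpleGraph V₁)
    (X₂ : SimpleGraph V₂) : Prop :=
  X₁.IsSRGWith N d l c ∧ X₂.IsSRGWith N d l c ∧ IsEmpty (X₁ ≃g X₂) ∧ Indist p k X₁ X₂

end Pool.Agent.STS
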