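import Pool.Agent.SRGWL.SosDef
import Pool.Agent.SRGWL.IMDef
import Pool.Agent.SRGWL.Cay
import Pool.Agent.STS.Coord

/-!
# Indistinguishable pairs of strongly regular graphs, with linear algebra
-/

namespace Pool.Agent.STS.LA

open Pool.Agent.SRGWL Pool.Agent.SRGWL.Sos

/-- `X` is isomorphic to a Cayley graph. -/
def IsCayley {V : Type} (X : SimpleGraph V) : Prop :=
  ∃ (Γ : Type) (_ : Group Γ) (S : Set Γ), Nonempty (X ≃g cay Γ S)

open Classical in
/-- `X₁` and `X₂` are strongly regular with the parameters (N, d, l, c), not isomorphic, and not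
distinguished by `k`-dimensional Weisfeiler-Leman with linear algebra over all fields of characteristic
different from `p`. -/
def Twins (p k N d l c : ℕ) {V₁ V₂ : Type} [Fintype V₁] [Fintype V₂] (X₁ : SimpleGraph V₁)
    (X₂ : SimpleGraph V₂) : Prop :=
  X₁.IsSRGWith N d l c ∧ X₂.IsSRGWith N d l c ∧ IsEmpty (X₁ ≃g X₂) ∧ IM.GraphLAEquiv p k X₁ X₂

end Pool.Agent.STS.LA
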